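import Pool.Agent.Lib.MP_452a87_nt.SG.SpecA

/-!
# Theorem SG, module ACm: commutators
-/

set_option autoImplicit false

namespace Pool.Agent.SG

open MvPolynomial Pool.Agent.SMQ

namespace ACmAux

private theorem one_term (D D' : Derivation ℚ ℂ ℂ) (y : ℂ) (hg : D (Complex.exp y) = 0) :
    D (dl D' y) = dl ⁅D, D'⁆ y := by
  have hne : Complex.exp y ≠ 0 := Complex.exp_ne_zero y
  unfold dl
  rw [Derivation.leibniz_div, hg, Derivation.commutator_apply, hg, map_zero, sub_zero]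
  simp only [smul_eq_mul, mul_zero, sub_zero]
  field_simp

private theorem rewrite_sum (h2 : S_Adl) {κ : Type} [Fintype κ] {r : ℕ} (c u : κ → ℂ)
    (b : Fin r → ℂ) (w : κ → Fin r → ℚ) (hcw : ∀ k, c k = ∑ a, (w k a : ℂ) * b a)
    (T : Derivation ℚ ℂ ℂ) :
    ∑ k, c k * dl T (u k) = ∑ a, b a * dl T (∑ k, (w k a : ℂ) * u k) := by
  have h3 := h2.2.2.2.2.2.1
  have h4 : ∀ a, dl T (∑ k, (w k a : ℂ) * u k) = ∑ k, (w k a : ℂ) * dl T (u k) := fun a =>
    h3 κ T (fun k => w k a) u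
  simp only [h4, Finset.mul_sum]
  rw [Finset.sum_comm]
  refine Finset.sum_congr rfl fun k _ => ?_
  rw [hcw k, Finset.sum_mul]
  refine Finset.sum_congr rfl fun a _ => ?_
  ring

end ACmAux

open ACmAux in
theorem pACm : S_ARv → S_Adl → S_ACm := by
  intro h1 h2 B E hE hBE κ _ c u hc hz D hD D' hD'
  refine ⟨?_, ?_⟩
  · intro x hx
    rw [Derivation.commutator_apply, hD' x hx, hD x (hBE hx), map_zero, map_zero, sub_zero]
  · obtain ⟨r, b, w, hb, hcw, hexp⟩ := h1 E hE κ c u hc hz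
    rw [rewrite_sum h2 c u b w hcw D', rewrite_sum h2 c u b w hcw ⁅D, D'⁆, map_sum]
    refine Finset.sum_congr rfl fun a _ => ?_
    rw [Derivation.leibniz, hD (b a) (hb a), smul_zero, add_zero, smul_eq_mul,
      one_term D D' _ (hD _ (hexp a))]

end Pool.Agent.SG
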