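import Pool.Agent.Lib.MP_452a87_nt.SG.SpecA

namespace Pool.Agent.SG

open MvPolynomial Pool.Agent.SMQ

theorem pAD1 : S_ADx → S_AD1 := by
  intro hADx B hB x hx
  by_contra hxB
  obtain ⟨B1, D, -, hBB, -, -, hD, hDx⟩ := hADx B hB x hxB
  have h1 : D x = 0 := hx D fun b hb => hD b (hBB hb)
  rw [hDx] at h1
  exact hxB (h1 ▸ B.zero_mem)

end Pool.Agent.SG
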