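import Pool.Agent.Lib.MP_452a87_nt.SG.SpecA

/-! # Theorem SG, Part A: dual derivations (author helper94) -/

set_option autoImplicit false

namespace Pool.Agent.SG

open MvPolynomial Pool.Agent.SMQ

open scoped IntermediateField.algebraAdjoinAdjoin in
private theorem ADu_not {e : ℕ} {g : Fin e → ℂ} (hg : AlgebraicIndependent ℚ g) (a : Fin e) :
    ¬ IsAlgebraic (IntermediateField.adjoin ℚ (g '' {j | j ≠ a})) (g a) := by
  intro h
  have h1 : Transcendental (Algebra.adjoin ℚ (g '' {j | j ≠ a})) (g a) :=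
    hg.transcendental_adjoin (s := {j | j ≠ a}) (i := a) (fun h => h rfl)
  exact h1 ((IsFractionRing.isAlgebraic_iff (Algebra.adjoin ℚ (g '' {j | j ≠ a}))
    (IntermediateField.adjoin ℚ (g '' {j | j ≠ a})) ℂ).2 h)

theorem pADu : S_AD1 → S_Acl → S_ADu := by
  rintro hD ⟨hcl, hCl, hsub, -, -⟩ e g hg
  have h1 : ∀ a : Fin e, ∃ D ∈ DB (cl (g '' {j | j ≠ a})), D (g a) ≠ 0 := by
    intro a
    by_contra hcon
    push Not at hcon
    exact ADu_not hg a ((hcl _ _).1 (hD _ (hCl _) (g a) hcon))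
  choose Dl hDl hne using h1
  refine ⟨Dl, ?_⟩
  have h2 : (Matrix.of fun a j => Dl a (g j)) = Matrix.diagonal fun a => Dl a (g a) := by
    ext a j
    by_cases h : a = j
    · rw [h, Matrix.diagonal_apply_eq]
      rfl
    · rw [Matrix.diagonal_apply_ne _ h]
      exact hDl a (g j) (hsub _ ⟨j, fun h' => h h'.symm, rfl⟩)
  rw [h2, Matrix.det_diagonal]
  exact Finset.prod_ne_zero_iff.2 fun a _ => hne a

end Pool.Agent.SG
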