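import Pool.Agent.Lib.MP_452a87_nt.SG.SpecA

namespace Pool.Agent.SG

open MvPolynomial Pool.Agent.SMQ

namespace ADxAux

open KaehlerDifferential

/-- The differentials of a separating transcendence basis form a basis of the differentials. -/
private theorem basis_of_separating {k : Type} {K : Type} [Field k] [Field K] [Algebra k K]
    {ι : Type} (t : ι → K) (ht : AlgebraicIndependent k t)
    (hs : Algebra.IsSeparable (IntermediateField.adjoin k (Set.range t)) K) :
    ∃ b : Module.Basis ι K Ω[K⁄k], ∀ i, b i = D k K (t i) := by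
  have hinj : Function.Injective (MvPolynomial.aeval (R := k) t) :=
    algebraicIndependent_iff_injective_aeval.1 ht
  let _ : Algebra (MvPolynomial ι k) K := (MvPolynomial.aeval (R := k) t).toRingHom.toAlgebra
  have hsc : IsScalarTower k (MvPolynomial ι k) K :=
    IsScalarTower.of_algebraMap_eq fun a => ((MvPolynomial.aeval (R := k) t).commutes a).symm
  let E := IntermediateField.adjoin k (Set.range t)
  let g : MvPolynomial ι k →ₐ[k] E := MvPolynomial.aeval (R := k) fun i =>
    (⟨t i, IntermediateField.subset_adjoin _ _ (Set.mem_range_self i)⟩ : E)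
  have hg : ∀ q : MvPolynomial ι k, ((g q : E) : K) = MvPolynomial.aeval t q := by
    intro q
    have h1 : (E.val.comp g) = MvPolynomial.aeval t := by
      apply MvPolynomial.algHom_ext
      intro i
      simp [g]
    exact DFunLike.congr_fun h1 q
  let _ : Algebra (MvPolynomial ι k) E := g.toRingHom.toAlgebra
  have hsc2 : IsScalarTower (MvPolynomial ι k) E K :=
    IsScalarTower.of_algebraMap_eq fun q => (hg q).symm
  have hfr : IsFractionRing (MvPolynomial ι k) E := by
    have hf : FaithfulSMul (MvPolynomial ι k) E := by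
      rw [faithfulSMul_iff_algebraMap_injective]
      intro a b hab
      apply hinj
      rw [← hg, ← hg]
      exact congrArg _ hab
    refine IsFractionRing.of_field _ _ ?_
    intro z
    obtain ⟨r, s, hz⟩ := (IntermediateField.mem_adjoin_range_iff k t (z : K)).1 z.2
    refine ⟨r, s, ?_⟩
    apply Subtype.ext
    change (z : K) = ((g r : E) : K) / ((g s : E) : K)
    rw [hg, hg, hz]
  have h1 : Algebra.FormallyEtale (MvPolynomial ι k) E :=
    Algebra.FormallyEtale.of_isLocalization (nonZeroDivisors (MvPolynomial ι k))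
  have h2 : Algebra.FormallyEtale E K := Algebra.FormallyEtale.of_isSeparable E K
  have h3 : Algebra.FormallyEtale (MvPolynomial ι k) K :=
    Algebra.FormallyEtale.comp (MvPolynomial ι k) E K
  let e := KaehlerDifferential.tensorKaehlerEquivOfFormallyEtale k (MvPolynomial ι k) K
  let b : Module.Basis ι K Ω[K⁄k] :=
    ((KaehlerDifferential.mvPolynomialBasis k ι).baseChange K).map e
  refine ⟨b, fun i => ?_⟩
  rw [Module.Basis.map_apply, Module.Basis.baseChange_apply, mvPolynomialBasis_apply,
    ← KaehlerDifferential.tensorKaehlerEquivOfFormallyEtale_symm_D_algebraMap,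
    LinearEquiv.apply_symm_apply]
  congr 1
  change MvPolynomial.aeval t (MvPolynomial.X i) = t i
  rw [MvPolynomial.aeval_X]

private theorem alg_iff {K : Type} [Field K] [Algebra K ℂ] (E : IntermediateField K ℂ) (z : ℂ) :
    IsAlgebraic E z ↔
      ∃ p : Polynomial ℂ, p ≠ 0 ∧ (∀ n, p.coeff n ∈ E) ∧ p.eval z = 0 := by
  constructor
  · rintro ⟨q, hq, h0⟩
    refine ⟨q.map (algebraMap E ℂ),
      (Polynomial.map_ne_zero_iff (algebraMap E ℂ).injective).2 hq, fun n => ?_, ?_⟩
    · rw [Polynomial.coeff_map]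
      exact (q.coeff n).2
    · rw [Polynomial.eval_map]
      exact h0
  · rintro ⟨p, hp, hE, h0⟩
    have h1 : p ∈ Polynomial.lifts (algebraMap E ℂ) := by
      rw [Polynomial.lifts_iff_coeff_lifts]
      exact fun n => ⟨⟨p.coeff n, hE n⟩, rfl⟩
    obtain ⟨q, hq⟩ := h1
    have hq' : q.map (algebraMap E ℂ) = p := hq
    refine ⟨q, ?_, ?_⟩
    · rintro rfl
      apply hp
      rw [← hq', Polynomial.map_zero]
    · rw [Polynomial.aeval_def, ← Polynomial.eval_map, hq', h0]

end ADxAux

open ADxAux in
theorem pADx : S_ADx := by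
  intro B hB x hx
  have hxB : Transcendental B x := fun h => hx (hB x h)
  have hs : AlgebraicIndepOn B id ({x} : Set ℂ) :=
    algebraicIndependent_unique_type_iff.2 hxB
  obtain ⟨T, hxT, hT⟩ := exists_isTranscendenceBasis_superset hs
  have hxT' : x ∈ T := hxT rfl
  let S : Set T := {i | (i : ℂ) ≠ x}
  let E : IntermediateField B ℂ := IntermediateField.adjoin B ((fun i : T => (i : ℂ)) '' S)
  have hxE : Transcendental E x := by
    have h1 := hT.1.transcendental_adjoin (s := S) (i := ⟨x, hxT'⟩) (fun h => h rfl)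
    exact IntermediateField.transcendental_adjoin_iff.2 h1
  let A : IntermediateField E ℂ := algebraicClosure E ℂ
  let B1 : IntermediateField ℚ ℂ := A.toSubfield.toIntermediateField (fun q => by
    rw [eq_ratCast]
    exact SubfieldClass.ratCast_mem A.toSubfield q)
  have hmem : ∀ z : ℂ, z ∈ B1 ↔ IsAlgebraic E z := fun z => mem_algebraicClosure_iff
  have hcl : Cl B1 := by
    intro z hz
    have h1 : IsAlgebraic A z := by
      rw [alg_iff] at hz ⊢
      exact hz
    rw [hmem]
    exact h1.restrictScalars E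
  have hBB : B ≤ B1 := by
    intro b hb
    rw [hmem]
    exact isAlgebraic_algebraMap (⟨b, E.algebraMap_mem ⟨b, hb⟩⟩ : E)
  have hxB1 : x ∉ B1 := fun h => hxE ((hmem x).1 h)
  have hEB : ∀ z ∈ E, z ∈ B1 := fun z hz => by
    rw [hmem]
    exact isAlgebraic_algebraMap (⟨z, hz⟩ : E)
  have halg : ∀ z : ℂ, IsAlgebraic (IntermediateField.adjoin B1 ({x} : Set ℂ)) z := by
    intro z
    have h1 : IsAlgebraic (IntermediateField.adjoin B (Set.range ((↑) : T → ℂ))) z :=
      hT.isAlgebraic_field.isAlgebraic z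
    rw [alg_iff] at h1 ⊢
    obtain ⟨p, hp, hc, h0⟩ := h1
    refine ⟨p, hp, fun n => ?_, h0⟩
    have h2 : ∀ c ∈ IntermediateField.adjoin B (Set.range ((↑) : T → ℂ)),
        c ∈ IntermediateField.adjoin B1 ({x} : Set ℂ) := by
      intro c hc
      refine IntermediateField.adjoin_induction (F := B) (E := ℂ)
        (p := fun c _ => c ∈ IntermediateField.adjoin B1 ({x} : Set ℂ)) ?_ ?_ ?_ ?_ ?_ hc
      · rintro _ ⟨i, rfl⟩
        by_cases hi : (i : ℂ) = x
        · rw [hi]
          exact IntermediateField.mem_adjoin_simple_self B1 x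
        · have h3 : (i : ℂ) ∈ E := IntermediateField.subset_adjoin _ _ ⟨i, hi, rfl⟩
          exact (IntermediateField.adjoin B1 ({x} : Set ℂ)).algebraMap_mem ⟨_, hEB _ h3⟩
      · intro b
        exact (IntermediateField.adjoin B1 ({x} : Set ℂ)).algebraMap_mem ⟨_, hBB b.2⟩
      · exact fun _ _ _ _ h3 h4 => add_mem h3 h4
      · exact fun _ _ h3 => inv_mem h3
      · exact fun _ _ _ _ h3 h4 => mul_mem h3 h4
    exact h2 _ (hc n)
  -- the derivation
  have hxt : Transcendental B1 x := fun h => hxB1 (hcl x h)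
  have hr : Set.range (fun _ : Unit => x) = {x} := by
    ext y
    constructor
    · rintro ⟨_, rfl⟩
      rfl
    · rintro rfl
      exact ⟨(), rfl⟩
  have hal : Algebra.IsAlgebraic (IntermediateField.adjoin B1 (Set.range (fun _ : Unit => x))) ℂ := by
    rw [hr]
    exact ⟨halg⟩
  obtain ⟨b, hb⟩ := basis_of_separating (k := B1) (K := ℂ) (fun _ : Unit => x)
    (algebraicIndependent_unique_type_iff.2 hxt) inferInstance
  let l : Ω[ℂ⁄B1] →ₗ[ℂ] ℂ := b.constr ℂ (fun _ => x)
  let D0 : Derivation B1 ℂ ℂ := l.compDer (KaehlerDifferential.D B1 ℂ)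
  have hD0 : D0 x = x := by
    change l (KaehlerDifferential.D B1 ℂ x) = x
    have h1 : KaehlerDifferential.D B1 ℂ x = b () := (hb ()).symm
    rw [h1]
    exact b.constr_basis ℂ (fun _ => x) ()
  refine ⟨B1, D0.restrictScalars ℚ, hcl, hBB, hxB1, halg, fun c hc => ?_, hD0⟩
  exact D0.map_algebraMap (⟨c, hc⟩ : B1)

end Pool.Agent.SG
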