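import Pool.Agent.Lib.MP_452a87_nt.SG.SpecA

/-!
# Theorem SG, module AEx: rational multiples of logarithms
-/

set_option autoImplicit false

namespace Pool.Agent.SG

open MvPolynomial Pool.Agent.SMQ

namespace AExAux

theorem pow_mem {B : IntermediateField ℚ ℂ} (hB : Cl B) {x : ℂ} {n : ℕ} (hn : 0 < n)
    (h : x ^ n ∈ B) : x ∈ B := by
  refine hB x (IsAlgebraic.of_pow hn ?_)
  exact isAlgebraic_algebraMap (A := ℂ) (⟨x ^ n, h⟩ : B)

theorem smul_mem {B : IntermediateField ℚ ℂ} (hB : Cl B) (r : ℚ) {u : ℂ}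
    (h : Complex.exp u ∈ B) : Complex.exp (r • u) ∈ B := by
  refine pow_mem hB r.pos ?_
  have h1 : Complex.exp (r • u) ^ r.den = Complex.exp u ^ r.num := by
    rw [← Complex.exp_nat_mul, ← Complex.exp_int_mul, Rat.smul_def, ← mul_assoc]
    congr 2
    have h2 : ((r.den : ℚ) * r : ℚ) = r.num := by
      rw [mul_comm]
      exact Rat.mul_den_eq_num r
    exact_mod_cast congrArg (fun t : ℚ => (t : ℂ)) h2
  rw [h1]
  exact zpow_mem h _

/-- The logarithms of the elements of `B`. -/
def U (B : IntermediateField ℚ ℂ) (hB : Cl B) : Submodule ℚ ℂ where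
  carrier := {u | Complex.exp u ∈ B}
  add_mem' := by
    intro u v hu hv
    change Complex.exp (u + v) ∈ B
    rw [Complex.exp_add]
    exact B.mul_mem hu hv
  zero_mem' := by
    change Complex.exp 0 ∈ B
    rw [Complex.exp_zero]
    exact B.one_mem
  smul_mem' := fun r _ hu => smul_mem hB r hu

end AExAux

open AExAux in
theorem pAEx : S_Acl → S_AEx := by
  intro _
  refine ⟨fun B hB => ⟨U B hB, fun u => Iff.rfl⟩, ?_, ?_⟩
  · intro B hB z hz
    exact hB z (hz.tower_top B)
  · intro B hB κ _ w u hu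
    have h : ∑ k, (w k : ℂ) * u k ∈ U B hB := by
      refine Submodule.sum_mem _ fun k _ => ?_
      have h1 := (U B hB).smul_mem (w k) (hu k)
      rwa [Rat.smul_def] at h1
    exact h

end Pool.Agent.SG
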