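import Pool.Agent.Lib.MP_452a87_nt.SG.SpecA

/-!
# Theorem SG, Part A: a nonzero determinant implies algebraic independence (`S_AIn`)
-/

set_option autoImplicit false

namespace Pool.Agent.SG

open MvPolynomial Pool.Agent.SMQ

/-- The chain rule for a derivation which kills the coefficients. -/
private theorem AIn_chain {s : ℕ} (K : Subalgebra ℚ ℂ) (D : Derivation ℚ ℂ ℂ) (hD : ∀ k ∈ K, D k = 0)
    (g : Fin s → ℂ) (p : MvPolynomial (Fin s) K) :
    D (aeval g p) = ∑ j, aeval g (pderiv j p) * D (g j) := by
  induction p using MvPolynomial.induction_on with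
  | C a =>
    rw [aeval_C]
    have h1 : D (algebraMap K ℂ a) = 0 := hD _ a.2
    rw [h1]
    symm
    refine Finset.sum_eq_zero fun j _ => ?_
    rw [pderiv_C, map_zero, zero_mul]
  | add p q hp hq =>
    rw [map_add, map_add, hp, hq, ← Finset.sum_add_distrib]
    refine Finset.sum_congr rfl fun j _ => ?_
    rw [map_add, map_add, add_mul]
  | mul_X p i hp =>
    rw [map_mul, aeval_X, Derivation.leibniz, hp, smul_eq_mul, smul_eq_mul, Finset.mul_sum]
    have h1 : ∀ j, aeval g (pderiv j (p * X i)) * D (g j) =
        g i * (aeval g (pderiv j p) * D (g j)) + if j = i then aeval g p * D (g j) else 0 := by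
      intro j
      rw [pderiv_mul, map_add, map_mul, map_mul, aeval_X]
      by_cases h : j = i
      · rw [if_pos h, h, pderiv_X_self, map_one]
        ring
      · rw [if_neg h, pderiv_X_of_ne (Ne.symm h), map_zero]
        ring
    rw [Finset.sum_congr rfl fun j _ => h1 j, Finset.sum_add_distrib, Finset.sum_ite_eq' Finset.univ i,
      if_pos (Finset.mem_univ i)]
    ring

/-- A polynomial with zero partial derivatives is constant (characteristic zero). -/
private theorem AIn_const {s : ℕ} (K : Subalgebra ℚ ℂ) (p : MvPolynomial (Fin s) K)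
    (h : ∀ j, pderiv j p = 0) : p = C (p.coeff 0) := by
  classical
  ext m
  rw [coeff_C]
  by_cases hm : 0 = m
  · rw [if_pos hm, hm]
  · rw [if_neg hm]
    obtain ⟨j, hj⟩ : ∃ j, m j ≠ 0 := by
      by_contra hc
      push Not at hc
      exact hm (Finsupp.ext fun j => (hc j).symm)
    have h1 := coeff_pderiv (i := j) p (m - Finsupp.single j 1)
    have h2 : m - Finsupp.single j 1 + Finsupp.single j 1 = m := by
      refine tsub_add_cancel_of_le ?_
      rw [Finsupp.single_le_iff]
      exact Nat.one_le_iff_ne_zero.2 hj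
    rw [h j, coeff_zero, h2] at h1
    have h3 : (((m - Finsupp.single j 1 : Fin s →₀ ℕ) j : ℕ) : K) + 1 ≠ 0 := by
      rw [← Nat.cast_succ]
      exact Nat.cast_ne_zero.2 (Nat.succ_ne_zero _)
    have h4 := (mul_eq_zero.1 h1.symm).resolve_right h3
    rw [h4]

private theorem AIn_deg {s : ℕ} (K : Subalgebra ℚ ℂ) (p : MvPolynomial (Fin s) K) (n : ℕ)
    (h : p.totalDegree ≤ n + 1) (j : Fin s) : (pderiv j p).totalDegree ≤ n := by
  rw [totalDegree, Finset.sup_le_iff]
  intro m hm
  rw [mem_support_iff, coeff_pderiv] at hm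
  have h1 : coeff (m + Finsupp.single j 1) p ≠ 0 := left_ne_zero_of_mul hm
  have h2 := le_totalDegree (mem_support_iff.2 h1)
  rw [Finsupp.sum_add_index' (fun _ => rfl) (fun _ _ _ => rfl), Finsupp.sum_single_index rfl] at h2
  omega

/-- **Nonzero determinant implies algebraic independence.** -/
theorem pAIn : S_Acl → S_AIn := by
  intro hA τ s b g Dl hb hDl hdet
  obtain ⟨-, -, hA3, -, -⟩ := hA
  have hK : ∀ k ∈ Algebra.adjoin ℚ (Set.range b), k ∈ cl (Set.range b) := by
    intro k hk
    have h1 : Algebra.adjoin ℚ (Set.range b) ≤ (cl (Set.range b)).toSubalgebra :=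
      Algebra.adjoin_le (hA3 _)
    exact h1 hk
  have hD0 : ∀ a, ∀ k ∈ Algebra.adjoin ℚ (Set.range b), Dl a k = 0 := fun a k hk =>
    hDl a k (hK k hk)
  have hg : AlgebraicIndependent (Algebra.adjoin ℚ (Set.range b)) g := by
    rw [algebraicIndependent_iff]
    have key : ∀ n : ℕ, ∀ p : MvPolynomial (Fin s) (Algebra.adjoin ℚ (Set.range b)),
        p.totalDegree ≤ n → aeval g p = 0 → p = 0 := by
      intro n
      induction n with
      | zero =>
        intro p hp h0
        have h1 := totalDegree_eq_zero_iff_eq_C.1 (Nat.le_zero.1 hp)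
        rw [h1, aeval_C] at h0
        have h2 : p.coeff 0 = 0 := by
          have h3 : ((p.coeff 0 : Algebra.adjoin ℚ (Set.range b)) : ℂ) = 0 := h0
          exact_mod_cast h3
        rw [h1, h2, map_zero]
      | succ n ih =>
        intro p hp h0
        have h2 : (Matrix.of fun a j => Dl a (g j)).mulVec (fun j => aeval g (pderiv j p)) = 0 := by
          funext a
          have h3 := AIn_chain _ (Dl a) (hD0 a) g p
          rw [h0, map_zero] at h3
          show ∑ j, (Matrix.of fun a j => Dl a (g j)) a j * aeval g (pderiv j p) = 0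
          rw [h3]
          refine Finset.sum_congr rfl fun j _ => ?_
          rw [Matrix.of_apply, mul_comm]
        have h4 := Matrix.eq_zero_of_mulVec_eq_zero hdet h2
        have h5 : ∀ j, pderiv j p = 0 := fun j =>
          ih _ (AIn_deg _ p n hp j) (congrFun h4 j)
        have h6 := AIn_const _ p h5
        rw [h6, aeval_C] at h0
        have h7 : p.coeff 0 = 0 := by
          have h3 : ((p.coeff 0 : Algebra.adjoin ℚ (Set.range b)) : ℂ) = 0 := h0
          exact_mod_cast h3
        rw [h6, h7, map_zero]
    exact fun p hp => key _ p le_rfl hp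
  have h1 : AlgebraicIndependent ℚ (Sum.elim g b) := hb.sumElim hg
  have h2 : Sum.elim b g = Sum.elim g b ∘ Sum.swap := by
    funext x
    rcases x with x | x <;> rfl
  rw [h2]
  exact h1.comp _ Sum.swap_leftInverse.injective

end Pool.Agent.SG
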