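import Pool.Agent.Lib.MP_452a87_nt.SG.SpecA

/-!
# Theorem SG, module AKD: the kernel of the pencil at `c = 1` is defined over `E`
-/

set_option autoImplicit false

namespace Pool.Agent.SG

open MvPolynomial Pool.Agent.SMQ

namespace AKDAux

/-- A derivation applied to the coefficients. -/
noncomputable def dp (D : Derivation ℚ ℂ ℂ) (p : Polynomial ℂ) : Polynomial ℂ :=
  ∑ i ∈ Finset.range (p.natDegree + 1), Polynomial.monomial i (D (p.coeff i))

theorem coeff_dp (D : Derivation ℚ ℂ ℂ) (p : Polynomial ℂ) (n : ℕ) :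
    (dp D p).coeff n = D (p.coeff n) := by
  unfold dp
  rw [Polynomial.finsetSum_coeff]
  simp only [Polynomial.coeff_monomial]
  rw [Finset.sum_ite_eq']
  split_ifs with h
  · rfl
  · rw [Finset.mem_range, not_lt] at h
    rw [Polynomial.coeff_eq_zero_of_natDegree_lt (by omega), map_zero]

theorem eval_dp (D : Derivation ℚ ℂ ℂ) (p : Polynomial ℂ) :
    (dp D p).eval 1 = D (p.eval 1) := by
  unfold dp
  rw [Polynomial.eval_finsetSum, Polynomial.eval_eq_sum_range, map_sum]
  refine Finset.sum_congr rfl fun i _ => ?_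
  rw [Polynomial.eval_monomial, one_pow, mul_one, mul_one]

/-- The polynomial `a + b X`. -/
noncomputable def lin (a b : ℂ) : Polynomial ℂ := Polynomial.C a + Polynomial.X * Polynomial.C b

theorem eval_lin (a b c : ℂ) : (lin a b).eval c = a + c * b := by
  unfold lin
  rw [Polynomial.eval_add, Polynomial.eval_mul, Polynomial.eval_C, Polynomial.eval_X,
    Polynomial.eval_C]

theorem coe_lin (a b : ℂ) : ((lin a b : Polynomial ℂ) : PowerSeries ℂ) =
    PowerSeries.C a + PowerSeries.X * PowerSeries.C b := by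
  unfold lin
  rw [Polynomial.coe_add, Polynomial.coe_mul, Polynomial.coe_C, Polynomial.coe_X,
    Polynomial.coe_C]

theorem coeff_zero_lin_mul (a b : ℂ) (φ : PowerSeries ℂ) :
    PowerSeries.coeff 0 (((lin a b : Polynomial ℂ) : PowerSeries ℂ) * φ) =
      a * PowerSeries.coeff 0 φ := by
  rw [coe_lin, add_mul, map_add, PowerSeries.coeff_C_mul, mul_assoc, PowerSeries.coeff_zero_X_mul,
    add_zero]

theorem coeff_succ_lin_mul (a b : ℂ) (φ : PowerSeries ℂ) (n : ℕ) :
    PowerSeries.coeff (n + 1) (((lin a b : Polynomial ℂ) : PowerSeries ℂ) * φ) =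
      a * PowerSeries.coeff (n + 1) φ + b * PowerSeries.coeff n φ := by
  rw [coe_lin, add_mul, map_add, PowerSeries.coeff_C_mul, mul_assoc,
    PowerSeries.coeff_succ_X_mul, PowerSeries.coeff_C_mul]

/-- Cramer: if `M r = b` then `adj(M) b = det M • r`. -/
theorem cramer {s : ℕ} (M : Matrix (Fin s) (Fin s) ℂ) (r b : Fin s → ℂ)
    (h : ∀ a, b a = ∑ j, r j * M a j) (j : Fin s) :
    ∑ k, M.adjugate j k * b k = M.det * r j := by
  have h1 : b = M.mulVec r := by
    funext a
    rw [h a]
    unfold Matrix.mulVec dotProduct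
    exact Finset.sum_congr rfl fun i _ => mul_comm _ _
  have h2 : ∑ k, M.adjugate j k * b k = (M.adjugate.mulVec b) j := rfl
  rw [h2, h1, Matrix.mulVec_mulVec, Matrix.adjugate_mul, Matrix.smul_mulVec, Matrix.one_mulVec]
  rfl

section main

variable {s : ℕ} (Dl : Fin s → Derivation ℚ ℂ ℂ) (u u' : Fin s → ℂ) (u0 u0' : ℂ)

/-- The matrix of the pencil. -/
noncomputable def Am : Matrix (Fin s) (Fin s) (Polynomial ℂ) :=
  Matrix.of fun a j => lin (dl (Dl a) (u j)) (dl (Dl a) (u' j))

/-- The determinant. -/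
noncomputable def Qp : Polynomial ℂ := (Am Dl u u').det

/-- The numerators. -/
noncomputable def Pp (j : Fin s) : Polynomial ℂ :=
  ∑ k, (Am Dl u u').adjugate j k * lin (dl (Dl k) u0) (dl (Dl k) u0')

theorem eval_Am (c : ℂ) :
    (Polynomial.evalRingHom c).mapMatrix (Am Dl u u') =
      Matrix.of fun a j => dl (Dl a) (u j) + c * dl (Dl a) (u' j) := by
  ext a j
  simp [Am, eval_lin]

theorem eval_Q (c : ℂ) : (Qp Dl u u').eval c =
    (Matrix.of fun a j => dl (Dl a) (u j) + c * dl (Dl a) (u' j)).det := by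
  rw [← eval_Am, ← RingHom.map_det]
  rfl

theorem eval_P (c : ℂ) (r : Fin s → ℂ)
    (h : ∀ a, dl (Dl a) u0 + c * dl (Dl a) u0' =
      ∑ j, r j * (dl (Dl a) (u j) + c * dl (Dl a) (u' j))) (j : Fin s) :
    (Pp Dl u u' u0 u0' j).eval c = (Qp Dl u u').eval c * r j := by
  rw [eval_Q, ← cramer (Matrix.of fun a j => dl (Dl a) (u j) + c * dl (Dl a) (u' j)) r
    (fun a => dl (Dl a) u0 + c * dl (Dl a) u0') h j]
  unfold Pp
  rw [Polynomial.eval_finsetSum]
  refine Finset.sum_congr rfl fun k _ => ?_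
  rw [Polynomial.eval_mul, eval_lin, ← eval_Am, ← RingHom.map_adjugate]
  rfl

end main

end AKDAux

open AKDAux in
theorem pAKD : S_ATy → S_AD1 → S_Adl → S_AKD := by
  intro hTy hD1 hdl B E hE hBE s Dl u u' u0 u0' hDl hu hu0 hdet0 hdet1 hker r hr j
  obtain ⟨hadd, hrat, -, -, hzero, -⟩ := hdl
  set Q := Qp Dl u u' with hQ
  set P := Pp Dl u u' u0 u0' with hP
  -- values of `Q`
  have hQc : ∀ c : ℚ, Q.eval (c : ℂ) = (dm Dl (fun j => u j + (c : ℂ) * u' j)).det := by
    intro c
    rw [hQ, eval_Q]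
    congr 1
    ext a i
    simp only [dm, Matrix.of_apply]
    rw [hadd, hrat]
  have hQ0 : Q.eval 0 ≠ 0 := by
    have h := hQc 0
    simp only [Rat.cast_zero, zero_mul, add_zero] at h
    rw [h]
    exact hdet0
  have hQ1e : Q.eval 1 = (dm Dl (fun j => u j + u' j)).det := by
    have h := hQc 1
    simp only [Rat.cast_one, one_mul] at h
    exact h
  have hQ1 : Q.eval 1 ≠ 0 := by
    rw [hQ1e]
    exact hdet1
  have hQne : Q ≠ 0 := by
    intro h
    rw [h, Polynomial.eval_zero] at hQ0
    exact hQ0 rfl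
  -- the claim
  have claim : ∀ D ∈ DB B, Q * lin (dl D u0) (dl D u0') =
      ∑ j, lin (dl D (u j)) (dl D (u' j)) * P j := by
    intro D hD
    have h1 : Q * (Q * lin (dl D u0) (dl D u0') - ∑ j, lin (dl D (u j)) (dl D (u' j)) * P j) = 0 := by
      apply Polynomial.eq_zero_of_infinite_isRoot
      refine Set.Infinite.mono ?_ (Set.infinite_range_of_injective
        (Rat.cast_injective (α := ℂ)))
      rintro _ ⟨c, rfl⟩
      change Polynomial.IsRoot _ (c : ℂ)
      rw [Polynomial.IsRoot.def, Polynomial.eval_mul]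
      by_cases hc : Q.eval (c : ℂ) = 0
      · rw [hc, zero_mul]
      · obtain ⟨r', hr'⟩ := hker c (by rw [← hQc]; exact hc)
        have h2 : ∀ D ∈ DB B, dl D u0 + (c : ℂ) * dl D u0' =
            ∑ j, r' j * (dl D (u j) + (c : ℂ) * dl D (u' j)) := by
          intro D hD
          have h3 := hr' D hD
          rw [hadd, hrat] at h3
          rw [h3]
          refine Finset.sum_congr rfl fun i _ => ?_
          rw [hadd, hrat]
        have h4 : ∀ i, (P i).eval (c : ℂ) = Q.eval (c : ℂ) * r' i := fun i =>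
          eval_P Dl u u' u0 u0' (c : ℂ) r' (fun a => h2 (Dl a) (hDl a)) i
        have h5 : Polynomial.eval (c : ℂ) (Q * lin (dl D u0) (dl D u0') -
            ∑ j, lin (dl D (u j)) (dl D (u' j)) * P j) = 0 := by
          rw [Polynomial.eval_sub, Polynomial.eval_mul, eval_lin, Polynomial.eval_finsetSum,
            h2 D hD, Finset.mul_sum, sub_eq_zero]
          refine Finset.sum_congr rfl fun i _ => ?_
          rw [Polynomial.eval_mul, eval_lin, h4]
          ring
        rw [h5, mul_zero]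
    exact sub_eq_zero.1 ((mul_eq_zero.1 h1).resolve_left hQne)
  -- power series
  have hcc : PowerSeries.constantCoeff (Q : PowerSeries ℂ) ≠ 0 := by
    rw [← PowerSeries.coeff_zero_eq_constantCoeff_apply, Polynomial.coeff_coe,
      Polynomial.coeff_zero_eq_eval_zero]
    exact hQ0
  set ρ : Fin s → PowerSeries ℂ := fun i => (P i : PowerSeries ℂ) * (Q : PowerSeries ℂ)⁻¹ with hρ
  have hQρ : ∀ i, (Q : PowerSeries ℂ) * ρ i = (P i : PowerSeries ℂ) := by
    intro i
    rw [hρ]
    change (Q : PowerSeries ℂ) * ((P i : PowerSeries ℂ) * (Q : PowerSeries ℂ)⁻¹) = _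
    rw [mul_left_comm, PowerSeries.mul_inv_cancel _ hcc, mul_one]
  have hser : ∀ D ∈ DB B, ((lin (dl D u0) (dl D u0') : Polynomial ℂ) : PowerSeries ℂ) =
      ∑ i, ((lin (dl D (u i)) (dl D (u' i)) : Polynomial ℂ) : PowerSeries ℂ) * ρ i := by
    intro D hD
    have h1 := congrArg (fun p : Polynomial ℂ => (p : PowerSeries ℂ)) (claim D hD)
    simp only [Polynomial.coe_mul] at h1
    have h2 : (Q : PowerSeries ℂ)⁻¹ * ((Q : PowerSeries ℂ) *
        ((lin (dl D u0) (dl D u0') : Polynomial ℂ) : PowerSeries ℂ)) =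
        ((lin (dl D u0) (dl D u0') : Polynomial ℂ) : PowerSeries ℂ) := by
      rw [← mul_assoc, PowerSeries.inv_mul_cancel _ hcc, one_mul]
    rw [← h2, h1]
    have h3 : ((∑ i, lin (dl D (u i)) (dl D (u' i)) * P i : Polynomial ℂ) : PowerSeries ℂ) =
        ∑ i, ((lin (dl D (u i)) (dl D (u' i)) : Polynomial ℂ) : PowerSeries ℂ) *
          (P i : PowerSeries ℂ) := by
      have h4 := map_sum (Polynomial.coeToPowerSeries.ringHom (R := ℂ))
        (fun i => lin (dl D (u i)) (dl D (u' i)) * P i) Finset.univ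
      simp only [Polynomial.coeToPowerSeries.ringHom_apply, Polynomial.coe_mul] at h4
      exact h4
    rw [h3, Finset.mul_sum]
    refine Finset.sum_congr rfl fun i _ => ?_
    rw [hρ]
    ring
  have hone : ∀ a b : ℂ, PowerSeries.coeff 0 ((lin a b : Polynomial ℂ) : PowerSeries ℂ) = a ∧
      PowerSeries.coeff 1 ((lin a b : Polynomial ℂ) : PowerSeries ℂ) = b ∧
      ∀ n : ℕ, PowerSeries.coeff (n + 2) ((lin a b : Polynomial ℂ) : PowerSeries ℂ) = 0 := by
    intro a b
    have h0 := coeff_zero_lin_mul a b 1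
    have h1 := coeff_succ_lin_mul a b 1 0
    have h2 := fun n => coeff_succ_lin_mul a b 1 (n + 1)
    simp only [mul_one] at h0 h1 h2
    refine ⟨?_, ?_, fun n => ?_⟩
    · rw [h0]
      simp
    · rw [h1]
      simp [PowerSeries.coeff_one]
    · rw [h2]
      simp [PowerSeries.coeff_one]
  -- the Taylor coefficients are in `E`
  have hT : ∀ ν i, PowerSeries.coeff ν (ρ i) ∈ E := by
    refine hTy B E hE hBE s Dl u u' u0 u0' (fun ν i => PowerSeries.coeff ν (ρ i)) hDl hu hu0 hdet0
      ?_ ?_ ?_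
    · intro D hD
      have h1 := congrArg (PowerSeries.coeff 0) (hser D hD)
      rw [(hone _ _).1, map_sum] at h1
      rw [h1]
      refine Finset.sum_congr rfl fun i _ => ?_
      rw [coeff_zero_lin_mul, mul_comm]
    · intro D hD
      have h1 := congrArg (PowerSeries.coeff 1) (hser D hD)
      rw [(hone _ _).2.1, map_sum] at h1
      rw [h1, ← Finset.sum_add_distrib]
      refine Finset.sum_congr rfl fun i _ => ?_
      rw [coeff_succ_lin_mul, mul_comm, mul_comm (dl D (u' i))]
    · intro ν D hD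
      have h1 := congrArg (PowerSeries.coeff (ν + 2)) (hser D hD)
      rw [(hone _ _).2.2, map_sum] at h1
      rw [h1, ← Finset.sum_add_distrib]
      refine Finset.sum_congr rfl fun i _ => ?_
      rw [coeff_succ_lin_mul, mul_comm, mul_comm (dl D (u' i))]
  -- the quotient is in `E`
  have hq : (P j).eval 1 / Q.eval 1 ∈ E := by
    apply hD1 E hE
    intro D hD
    have h1 : ((dp D (P j) : Polynomial ℂ) : PowerSeries ℂ) =
        ((dp D Q : Polynomial ℂ) : PowerSeries ℂ) * ρ j := by
      ext ν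
      rw [Polynomial.coeff_coe, coeff_dp, ← Polynomial.coeff_coe, ← hQρ j,
        PowerSeries.coeff_mul, PowerSeries.coeff_mul, map_sum]
      refine Finset.sum_congr rfl fun x _ => ?_
      rw [Derivation.leibniz, hD _ (hT x.2 j), smul_zero, zero_add, smul_eq_mul,
        Polynomial.coeff_coe, Polynomial.coeff_coe, coeff_dp, mul_comm]
    have h2 : Q * dp D (P j) = dp D Q * P j := by
      apply Polynomial.coe_injective ℂ
      rw [Polynomial.coe_mul, Polynomial.coe_mul, h1, mul_left_comm, hQρ]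
    have h3 := congrArg (Polynomial.eval 1) h2
    rw [Polynomial.eval_mul, Polynomial.eval_mul, eval_dp, eval_dp] at h3
    rw [Derivation.leibniz_div]
    simp only [smul_eq_mul]
    rw [h3]
    have h4 : D (Polynomial.eval 1 Q) * Polynomial.eval 1 (P j) -
        Polynomial.eval 1 (P j) * D (Polynomial.eval 1 Q) = 0 := by ring
    rw [h4, mul_zero]
  -- the conclusion
  have h5 : ∀ a, dl (Dl a) u0 + 1 * dl (Dl a) u0' =
      ∑ j, r j * (dl (Dl a) (u j) + 1 * dl (Dl a) (u' j)) := by
    intro a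
    have h6 := hr (Dl a) (hDl a)
    rw [hadd] at h6
    rw [one_mul, h6]
    refine Finset.sum_congr rfl fun i _ => ?_
    rw [hadd, one_mul]
  have h7 := eval_P Dl u u' u0 u0' 1 r h5 j
  have h8 : r j = (P j).eval 1 / Q.eval 1 := by
    rw [eq_div_iff hQ1, mul_comm]
    exact h7.symm
  rw [h8]
  exact hq

end Pool.Agent.SG
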