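import Pool.Agent.Lib.MP_452a87_nt.SG.SpecA

/-!
# Theorem SG, Part A, module ALa: spaces of matrices of bounded rank
-/

set_option autoImplicit false

namespace Pool.Agent.SG

open MvPolynomial Pool.Agent.SMQ

namespace ALaAux

/-- For all but finitely many `c` the map `1 + c T` is injective. -/
theorem inj_one_add {V : Type} [AddCommGroup V] [Module ℚ V] [FiniteDimensional ℚ V]
    (T : Module.End ℚ V) :
    {c : ℚ | ∃ x : V, x ≠ 0 ∧ x + c • T x = 0}.Finite := by
  have h1 : {μ : ℚ | T.HasEigenvalue μ}.Finite := Module.End.finite_hasEigenvalue T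
  have h2 : ((fun c : ℚ => - c⁻¹) ⁻¹' {μ : ℚ | T.HasEigenvalue μ}).Finite := by
    refine h1.preimage (Function.Injective.injOn ?_)
    intro a b h
    exact inv_injective (neg_injective h)
  refine (h2.insert 0).subset ?_
  rintro c ⟨x, hx, h⟩
  by_cases hc : c = 0
  · left
    exact hc
  · right
    change T.HasEigenvalue (-c⁻¹)
    refine Module.End.hasEigenvalue_of_hasEigenvector (x := x)
      (Module.End.hasEigenvector_iff.2 ⟨?_, hx⟩)
    rw [Module.End.mem_eigenspace_iff]
    have h3 : c • T x = - x := (neg_eq_of_add_eq_zero_right h).symm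
    calc T x = c⁻¹ • (c • T x) := by rw [smul_smul, inv_mul_cancel₀ hc, one_smul]
      _ = -c⁻¹ • x := by rw [h3, smul_neg, neg_smul]

/-- A nonzero polynomial is nonzero at almost all points of a line through a nonzero. -/
theorem line {m : ℕ} (P : MvPolynomial (Fin m) ℚ) (n1 n : Fin m → ℚ)
    (h : MvPolynomial.eval n1 P ≠ 0) :
    {c : ℚ | MvPolynomial.eval (n1 + c • n) P = 0}.Finite := by
  let Q : Polynomial ℚ := MvPolynomial.aeval
    (fun i => Polynomial.C (n1 i) + Polynomial.X * Polynomial.C (n i)) P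
  have hQ : ∀ c : ℚ, Q.eval c = MvPolynomial.eval (n1 + c • n) P := by
    intro c
    have h1 : Polynomial.aeval c Q = MvPolynomial.aeval (n1 + c • n) P := by
      change (Polynomial.aeval c) (MvPolynomial.aeval _ P) = _
      rw [← AlgHom.comp_apply, MvPolynomial.comp_aeval]
      refine congrArg (fun f => MvPolynomial.aeval f P) (funext fun i => ?_)
      simp
      ring
    rw [Polynomial.coe_aeval_eq_eval] at h1
    rw [h1, MvPolynomial.aeval_eq_eval]
  have hQ0 : Q ≠ 0 := by
    intro h0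
    apply h
    have h1 := hQ 0
    rw [h0, Polynomial.eval_zero, zero_smul, add_zero] at h1
    exact h1.symm
  refine (Q.finite_setOfPred_isRoot hQ0).subset ?_
  intro c hc
  change Q.eval c = 0
  rw [hQ]
  exact hc

/-- The main claim. -/
theorem claim {e m : ℕ} {W : Type} [AddCommGroup W] [Module ℚ W]
    (A : (Fin m → ℚ) →ₗ[ℚ] (Fin e → ℚ) →ₗ[ℚ] W) (P : MvPolynomial (Fin m) ℚ) (n1 : Fin m → ℚ)
    (h1 : MvPolynomial.eval n1 P ≠ 0)
    (hmin : ∀ n, MvPolynomial.eval n P ≠ 0 →
      Module.finrank ℚ (LinearMap.ker (A n1)) ≤ Module.finrank ℚ (LinearMap.ker (A n)))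
    (n : Fin m → ℚ) (γ : Fin e → ℚ) (hγ : γ ∈ LinearMap.ker (A n1)) :
    A n γ ∈ LinearMap.range (A n1) := by
  by_contra hcon
  obtain ⟨C, hC⟩ := Submodule.exists_isCompl (LinearMap.ker (A n1))
  have hdim := Submodule.finrank_add_eq_of_isCompl hC
  rw [Module.finrank_fin_fun] at hdim
  let S : ℚ →ₗ[ℚ] W := LinearMap.toSpanSingleton ℚ W (A n γ)
  let B : ℚ → (C × ℚ) →ₗ[ℚ] W := fun c => ((A (n1 + c • n)).domRestrict C).coprod S
  let B' : (C × ℚ) →ₗ[ℚ] W := ((A n).domRestrict C).coprod 0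
  have hB : ∀ c x, B c x = B 0 x + c • B' x := by
    rintro c ⟨w, t⟩
    change A (n1 + c • n) w + t • A n γ = (A (n1 + (0 : ℚ) • n) w + t • A n γ) + c • (A n w + 0)
    rw [map_add, map_smul, zero_smul, add_zero, add_zero, LinearMap.add_apply, LinearMap.smul_apply]
    abel
  have hB0 : LinearMap.ker (B 0) = ⊥ := by
    rw [LinearMap.ker_eq_bot']
    rintro ⟨w, t⟩ h
    have h2 : A n1 w + t • A n γ = 0 := by
      have h3 : A (n1 + (0 : ℚ) • n) w + t • A n γ = 0 := h
      rwa [zero_smul, add_zero] at h3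
    have ht : t = 0 := by
      by_contra ht
      apply hcon
      refine ⟨-(t⁻¹ • (w : Fin e → ℚ)), ?_⟩
      rw [map_neg, map_smul]
      have h3 : A n1 w = - (t • A n γ) := eq_neg_of_add_eq_zero_left h2
      rw [h3, smul_neg, neg_neg, smul_smul, inv_mul_cancel₀ ht, one_smul]
    subst ht
    rw [zero_smul, add_zero] at h2
    have h3 : (w : Fin e → ℚ) ∈ LinearMap.ker (A n1) ⊓ C := ⟨h2, w.2⟩
    rw [hC.inf_eq_bot, Submodule.mem_bot] at h3
    have h4 : w = 0 := Subtype.ext h3
    rw [h4]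
    rfl
  obtain ⟨ψ, hψ⟩ := LinearMap.exists_leftInverse_of_injective (B 0) hB0
  have f1 := inj_one_add (ψ ∘ₗ B' : Module.End ℚ (C × ℚ))
  have f2 := line P n1 n h1
  obtain ⟨c, hc⟩ := ((f1.union f2).insert 0).infinite_compl.nonempty
  have hc0 : c ≠ 0 := fun h => hc (Or.inl h)
  have hc1 : ∀ x : C × ℚ, x + c • ψ (B' x) = 0 → x = 0 := by
    intro x hx
    by_contra hx0
    exact hc (Or.inr (Or.inl ⟨x, hx0, hx⟩))
  have hc2 : MvPolynomial.eval (n1 + c • n) P ≠ 0 := fun h => hc (Or.inr (Or.inr h))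
  have hBc : Function.Injective (B c) := by
    rw [← LinearMap.ker_eq_bot, LinearMap.ker_eq_bot']
    intro x hx
    apply hc1
    have h2 : ψ (B c x) = x + c • ψ (B' x) := by
      rw [hB, map_add, map_smul]
      have h3 : ψ (B 0 x) = (ψ ∘ₗ B 0) x := rfl
      rw [h3, hψ]
      rfl
    rw [← h2, hx, map_zero]
  have hr : LinearMap.range (B c) ≤ LinearMap.range (A (n1 + c • n)) := by
    rintro _ ⟨⟨w, t⟩, rfl⟩
    change A (n1 + c • n) w + t • A n γ ∈ _
    refine Submodule.add_mem _ ⟨_, rfl⟩ (Submodule.smul_mem _ _ ⟨c⁻¹ • γ, ?_⟩)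
    rw [map_smul, map_add, map_smul, LinearMap.add_apply, LinearMap.smul_apply,
      LinearMap.mem_ker.1 hγ, zero_add, smul_smul, inv_mul_cancel₀ hc0, one_smul]
  have d1 := LinearMap.finrank_range_of_inj hBc
  have d2 := Submodule.finrank_mono hr
  have d3 := LinearMap.finrank_range_add_finrank_ker (A (n1 + c • n))
  have d4 := hmin _ hc2
  rw [Module.finrank_prod, Module.finrank_self] at d1
  rw [Module.finrank_fin_fun] at d3
  omega

end ALaAux

/-- **ALa.** -/
theorem pALa : S_ALa := by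
  classical
  intro e m h W _ _ A P hP hker
  obtain ⟨n0, hn0⟩ : ∃ n0, MvPolynomial.eval n0 P ≠ 0 := by
    by_contra hcon
    push Not at hcon
    exact hP (MvPolynomial.funext fun x => by rw [hcon x, map_zero])
  have hex : ∃ k : ℕ, ∃ n, MvPolynomial.eval n P ≠ 0 ∧
      Module.finrank ℚ (LinearMap.ker (A n)) = k := ⟨_, n0, hn0, rfl⟩
  obtain ⟨n1, h1, h2⟩ := Nat.find_spec hex
  have hmin : ∀ n, MvPolynomial.eval n P ≠ 0 →
      Module.finrank ℚ (LinearMap.ker (A n1)) ≤ Module.finrank ℚ (LinearMap.ker (A n)) := by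
    intro n hn
    rw [h2]
    exact Nat.find_min' hex ⟨n, hn, rfl⟩
  have hcl := ALaAux.claim A P n1 h1 hmin
  let Φ : (Fin m → ℚ) →ₗ[ℚ] (LinearMap.ker (A n1) →ₗ[ℚ] LinearMap.range (A n1)) :=
    { toFun := fun n => LinearMap.codRestrict (LinearMap.range (A n1))
        ((A n).domRestrict (LinearMap.ker (A n1))) (fun γ => hcl n γ γ.2)
      map_add' := by
        intro n n'
        ext γ
        change A (n + n') γ = A n γ + A n' γ
        rw [map_add, LinearMap.add_apply]
      map_smul' := by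
        intro c n
        ext γ
        change A (c • n) γ = c • A n γ
        rw [map_smul, LinearMap.smul_apply] }
  refine ⟨LinearMap.ker (A n1), LinearMap.ker Φ, hker n1 h1, ?_, ?_⟩
  · have d1 := LinearMap.finrank_range_add_finrank_ker Φ
    have d2 := Submodule.finrank_le (LinearMap.range Φ)
    rw [Module.finrank_linearMap] at d2
    rw [Module.finrank_fin_fun] at d1
    have d3 : Module.finrank ℚ (LinearMap.ker (A n1)) ≤ e := by
      have := Submodule.finrank_le (LinearMap.ker (A n1))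
      rwa [Module.finrank_fin_fun] at this
    have d4 : Module.finrank ℚ (LinearMap.range (A n1)) ≤ e := by
      have := LinearMap.finrank_range_le (A n1)
      rwa [Module.finrank_fin_fun] at this
    have d5 := Nat.mul_le_mul d3 d4
    omega
  · intro n hn γ hγ
    have h3 : Φ n ⟨γ, hγ⟩ = 0 := by
      rw [LinearMap.mem_ker.1 hn]
      rfl
    exact congrArg Subtype.val h3

end Pool.Agent.SG
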