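import Pool.Agent.Lib.MP_452a87_nt.SG.SpecA

/-!
# Theorem SG, Part A: linearly independent functionals
-/

set_option autoImplicit false

namespace Pool.Agent.SG

open MvPolynomial Pool.Agent.SMQ

namespace ALfAux

private theorem first {M : Type} [AddCommGroup M] [Module ℂ M] (k : ℕ) (f : Fin k → M →ₗ[ℂ] ℂ)
    (hf : LinearIndependent ℂ f) :
    ∃ y : Fin k → M, (Matrix.of fun a j => f j (y a)).det ≠ 0 := by
  have hsurj : LinearMap.range (LinearMap.pi f) = ⊤ := by
    by_contra h
    obtain ⟨g, hg0, hg⟩ := Submodule.exists_le_ker_of_lt_top _ (lt_top_iff_ne_top.mpr h)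
    apply hg0
    have hgx : ∀ x : Fin k → ℂ, g x = ∑ j, x j * g (Pi.single j 1) := by
      intro x
      conv_lhs => rw [← Finset.univ_sum_single x]
      rw [map_sum]
      refine Finset.sum_congr rfl fun j _ => ?_
      have e : (Pi.single j (x j) : Fin k → ℂ) = x j • Pi.single j (1 : ℂ) := by
        rw [← Pi.single_smul, smul_eq_mul, mul_one]
      rw [e, map_smul, smul_eq_mul]
    have hz : ∑ j, g (Pi.single j 1) • f j = 0 := by
      ext y
      have h1 : g (LinearMap.pi f y) = 0 := hg (LinearMap.mem_range_self _ y)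
      rw [hgx] at h1
      rw [LinearMap.sum_apply, LinearMap.zero_apply, ← h1]
      refine Finset.sum_congr rfl fun j _ => ?_
      rw [LinearMap.smul_apply, smul_eq_mul, LinearMap.pi_apply, mul_comm]
    have h2 := Fintype.linearIndependent_iff.mp hf _ hz
    ext j
    simp [h2 j]
  have hex : ∀ a : Fin k, ∃ y : M, LinearMap.pi f y = Pi.single a 1 := fun a =>
    LinearMap.range_eq_top.mp hsurj _
  choose y hy using hex
  refine ⟨y, ?_⟩
  have h1 : (Matrix.of fun a j => f j (y a)) = (1 : Matrix (Fin k) (Fin k) ℂ) := by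
    ext a j
    have h2 := congrFun (hy a) j
    rw [LinearMap.pi_apply] at h2
    rw [Matrix.of_apply, h2, Matrix.one_apply, Pi.single_apply]
    by_cases h : j = a
    · rw [if_pos h, if_pos h.symm]
    · rw [if_neg h, if_neg (fun h' => h h'.symm)]
  rw [h1, Matrix.det_one]
  exact one_ne_zero

end ALfAux

open ALfAux in
theorem pALf : S_ALf := by
  intro M _ _ k f
  refine ⟨first k f, fun f0 h0 hf => first (k + 1) _ ?_⟩
  rw [linearIndependent_finCons]
  refine ⟨hf, fun h => ?_⟩
  obtain ⟨c, hc⟩ := (Submodule.mem_span_range_iff_exists_fun ℂ).mp h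
  exact h0 c hc.symm

end Pool.Agent.SG
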