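import Pool.Agent.Lib.MP_452a87_nt.SG.SpecA

/-!
# Theorem SG: the field `B`
-/

set_option autoImplicit false

namespace Pool.Agent.SG

open MvPolynomial Pool.Agent.SMQ

theorem pAMb (hATc : S_ATc) (hAcl : S_Acl) : S_AMb := by
  classical
  intro e m v L
  set E : (Fin m → ℚ) → IntermediateField ℚ ℂ := fun n => cl (Set.range fun k => Complex.exp (v k * lq L n)) with hE
  set Q : ℕ → Prop := fun τ => ∃ (b : Fin τ → ℂ) (P : MvPolynomial (Fin m) ℚ), AlgebraicIndependent ℚ b ∧ P ≠ 0 ∧
    ∀ n : Fin m → ℚ, MvPolynomial.eval n P ≠ 0 → ∀ i, b i ∈ E n with hQ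
  have hQ0 : Q 0 := by
    refine ⟨Fin.elim0, 1, ?_, one_ne_zero, fun n _ i => i.elim0⟩
    exact algebraicIndependent_empty_type_iff.2 (algebraMap ℚ ℂ).injective
  have hQe : ∀ τ, Q τ → τ ≤ e := by
    rintro τ ⟨b, P, hb, hP, hn⟩
    obtain ⟨n, hn'⟩ : ∃ n : Fin m → ℚ, MvPolynomial.eval n P ≠ 0 := by
      by_contra hcon
      push Not at hcon
      apply hP
      apply MvPolynomial.funext
      intro n
      rw [hcon n, map_zero]
    have h1 := (hATc (Fin τ) (Fin e) b (fun k => Complex.exp (v k * lq L n)) hb (hn n hn')).1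
    rwa [Fintype.card_fin, Fintype.card_fin] at h1
  set τ := Nat.findGreatest Q e with hτ
  have hQτ : Q τ := Nat.findGreatest_spec (P := Q) (Nat.zero_le e) hQ0
  have hmax : ¬ Q (τ + 1) := by
    intro h
    have h1 := hQe _ h
    have h2 := Nat.le_findGreatest h1 h
    omega
  obtain ⟨b, P, hb, hP, hn⟩ := hQτ
  refine ⟨τ, b, P, hb, hP, ?_, ?_⟩
  · intro n hPn
    refine hAcl.2.2.2.1 _ _ (hAcl.2.1 _) ?_
    rintro _ ⟨i, rfl⟩
    exact hn n hPn i
  · intro x P' hP' hx
    by_contra hcon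
    apply hmax
    have htr : Transcendental (Algebra.adjoin ℚ (Set.range b)) x := by
      intro halg
      apply hcon
      rw [hAcl.1, IntermediateField.isAlgebraic_adjoin_iff]
      exact halg
    have h1 := (hb.option_iff_transcendental x).mpr htr
    have h2 := h1.comp (finSuccEquiv τ) (finSuccEquiv τ).injective
    refine ⟨_, P * P', h2, mul_ne_zero hP hP', fun n hPn i => ?_⟩
    rw [map_mul] at hPn
    have hPn1 : MvPolynomial.eval n P ≠ 0 := left_ne_zero_of_mul hPn
    have hPn2 : MvPolynomial.eval n P' ≠ 0 := right_ne_zero_of_mul hPn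
    simp only [Function.comp]
    cases finSuccEquiv τ i with
    | none => exact hx n hPn2
    | some i' => exact hn n hPn1 i'

end Pool.Agent.SG
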