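import Pool.Agent.Lib.MP_452a87_nt.SG.SpecA

/-!
# Theorem SG: the kernel is defined over `B`
-/

set_option autoImplicit false

namespace Pool.Agent.SG

open MvPolynomial Pool.Agent.SMQ

namespace AMrAux

lemma lq_line {m : ℕ} (L : Fin m → ℂ) (n n' : Fin m → ℚ) (c : ℚ) :
    lq L (n + c • (n' - n)) = lq L n + (c : ℂ) * (lq L n' - lq L n) := by
  unfold lq
  rw [← Finset.sum_sub_distrib, Finset.mul_sum, ← Finset.sum_add_distrib]
  refine Finset.sum_congr rfl fun i _ => ?_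
  rw [Pi.add_apply, Pi.smul_apply, Pi.sub_apply, smul_eq_mul]
  push_cast
  ring

end AMrAux

open AMrAux

theorem pAMr (_hAMx : S_AMx) (hAKD : S_AKD) (hANz : S_ANz) (hAcl : S_Acl) (_hAdl : S_Adl) : S_AMr := by
  classical
  intro e m τ s v L b P J Dl hP0 hPB hbmax hDl hex hMx n' i r hdet hr j
  obtain ⟨P1, hP10, hP1d, hP1⟩ := hANz m s L Dl (fun j => v (J j)) hex
  refine hbmax (r j) (P * P1) (mul_ne_zero hP0 hP10) (fun n hn => ?_)
  rw [map_mul] at hn
  have hnP : MvPolynomial.eval n P ≠ 0 := left_ne_zero_of_mul hn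
  have hnP1 : MvPolynomial.eval n P1 ≠ 0 := right_ne_zero_of_mul hn
  have hline : ∀ (w : ℂ) (c : ℚ), w * lq L n + (c : ℂ) * (w * (lq L n' - lq L n)) = w * lq L (n + c • (n' - n)) := by
    intro w c
    rw [lq_line]
    ring
  have hone : ∀ w : ℂ, w * lq L n + w * (lq L n' - lq L n) = w * lq L n' := by
    intro w
    ring
  refine hAKD (cl (Set.range b)) (cl (Set.range fun k => Complex.exp (v k * lq L n))) (hAcl.2.1 _) (hPB n hnP) s Dl
    (fun j => v (J j) * lq L n) (fun j => v (J j) * (lq L n' - lq L n)) (v i * lq L n) (v i * (lq L n' - lq L n)) hDl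
    (fun j => hAcl.2.2.1 _ ⟨J j, rfl⟩) (hAcl.2.2.1 _ ⟨i, rfl⟩) (hP1 n hnP1) ?_ ?_ r ?_ j
  · simp only [hone]
    exact hdet
  · intro c hc
    simp only [hline] at hc ⊢
    exact hMx _ i hc
  · intro D hD
    simp only [hone]
    exact hr D hD

end Pool.Agent.SG
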