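import Pool.Agent.Lib.MP_452a87_nt.SG.SpecA

/-!
# Theorem SG, part AMt: the field `B` is large
-/

set_option autoImplicit false

namespace Pool.Agent.SG

open MvPolynomial Pool.Agent.SMQ

private theorem AMt_lq {m : ℕ} (L : Fin m → ℂ) (n : Fin m → ℚ) :
    Fintype.linearCombination ℚ L n = lq L n := by
  rw [Fintype.linearCombination_apply]
  unfold lq
  exact Finset.sum_congr rfl fun i _ => Rat.smul_def _ _

private theorem AMt_liL {m q : ℕ} (L : Fin m → ℂ) (hL : LinearIndependent ℚ L)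
    (n : Fin q → Fin m → ℚ) (hn : LinearIndependent ℚ n) :
    LinearIndependent ℚ (fun j => lq L (n j)) := by
  have h1 : LinearMap.ker (Fintype.linearCombination ℚ L) = ⊥ := by
    refine LinearMap.ker_eq_bot'.2 fun c hc => ?_
    rw [Fintype.linearCombination_apply] at hc
    exact funext (Fintype.linearIndependent_iff.1 hL c hc)
  have h2 := hn.map' (Fintype.linearCombination ℚ L) h1
  have h3 : (fun j => lq L (n j)) = ⇑(Fintype.linearCombination ℚ L) ∘ n := by
    funext j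
    exact (AMt_lq L (n j)).symm
  rw [h3]
  exact h2

private theorem AMt_lix {e g : ℕ} (v : Fin e → ℂ)
    (hv : LinearIndependent ℚ (Fin.cons 1 v : Fin (e + 1) → ℂ))
    (γ : Fin g → Fin e → ℚ) (hγ : LinearIndependent ℚ γ) :
    LinearIndependent ℚ (Fin.cons 1 (fun a => ∑ k, (γ a k : ℂ) * v k) : Fin (g + 1) → ℂ) := by
  rw [Fintype.linearIndependent_iff] at hv hγ ⊢
  intro c hc
  have h1 := hv (Fin.cons (c 0) (fun k => ∑ a, c a.succ * γ a k) : Fin (e + 1) → ℚ) (by
    rw [Fin.sum_univ_succ] at hc ⊢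
    simp only [Fin.cons_zero, Fin.cons_succ, Rat.smul_def] at hc ⊢
    rw [← hc]
    congr 1
    have h2 : ∀ a : Fin g, (c a.succ : ℂ) * ∑ k, (γ a k : ℂ) * v k =
        ∑ k, (c a.succ : ℂ) * ((γ a k : ℂ) * v k) := fun a => Finset.mul_sum _ _ _
    rw [Finset.sum_congr rfl fun a _ => h2 a, Finset.sum_comm]
    refine Finset.sum_congr rfl fun k _ => ?_
    push_cast
    rw [Finset.sum_mul]
    exact Finset.sum_congr rfl fun a _ => by ring)
  have h0 := h1 0
  rw [Fin.cons_zero] at h0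
  have h2 := hγ (fun a => c a.succ) (by
    funext k
    have h3 := h1 k.succ
    rw [Fin.cons_succ] at h3
    rw [Finset.sum_apply]
    simpa using h3)
  intro i
  refine Fin.cases h0 h2 i

private theorem AMt_cl : Cl (algebraicClosure ℚ ℂ) := by
  intro x hx
  rw [mem_algebraicClosure_iff]
  haveI h1 : Algebra.IsAlgebraic ℚ (algebraicClosure ℚ ℂ) := algebraicClosure.isAlgebraic ℚ ℂ
  exact hx.restrictScalars ℚ

private theorem AMt_num (e g q m : ℕ) (hg : g ≤ e) (hm : 6 * (e + 1) ^ 2 ≤ m)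
    (hq : m ≤ q + e * e) : 5 * (g + 1) * (g + 1) ≤ q := by
  have h1 : (g + 1) * (g + 1) ≤ (e + 1) * (e + 1) := Nat.mul_le_mul (by omega) (by omega)
  nlinarith

/-- The field `B` is large. -/
theorem pAMt : S_TTH → S_ATc → S_AEx → S_Acl → S_AMt := by
  intro hT hC hE hA e m τ v L b Γ Λ hv1 hv2 hL1 hL2 hm hΛ hB
  have hg : Module.finrank ℚ Γ ≤ e := by
    have h1 := Submodule.finrank_le Γ
    rwa [Module.finrank_fin_fun] at h1
  have hnum := AMt_num e (Module.finrank ℚ Γ) (Module.finrank ℚ Λ) m hg hm hΛ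
  have hγ : LinearIndependent ℚ (fun a => ((Module.finBasis ℚ Γ a : Γ) : Fin e → ℚ)) :=
    (Module.finBasis ℚ Γ).linearIndependent.map' Γ.subtype (Submodule.ker_subtype Γ)
  have hn : LinearIndependent ℚ (fun j => ((Module.finBasis ℚ Λ j : Λ) : Fin m → ℚ)) :=
    (Module.finBasis ℚ Λ).linearIndependent.map' Λ.subtype (Submodule.ker_subtype Λ)
  have halg : ∀ n : Fin m → ℚ, IsAlgebraic ℚ (Complex.exp (lq L n)) := by
    intro n
    have h1 := hE.2.2 (algebraicClosure ℚ ℂ) AMt_cl (Fin m) n L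
      (fun i => (mem_algebraicClosure_iff).2 (hL2 i))
    exact (mem_algebraicClosure_iff).1 h1
  have hDat : Dat (Fin.cons 1 (fun a => ∑ k, ((((Module.finBasis ℚ Γ a : Γ) : Fin e → ℚ) k : ℚ) : ℂ) * v k) :
      Fin (Module.finrank ℚ Γ + 1) → ℂ)
      (fun j => lq L ((Module.finBasis ℚ Λ j : Λ) : Fin m → ℚ)) := by
    refine ⟨?_, AMt_lix v hv1 _ hγ, fun j => halg _, AMt_liL L hL1 _ hn⟩
    intro i
    refine Fin.cases ?_ (fun a => ?_) i
    · rw [Fin.cons_zero]
      exact isAlgebraic_one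
    · rw [Fin.cons_succ, isAlgebraic_iff_isIntegral]
      refine IsIntegral.sum _ fun k _ => ?_
      rw [← isAlgebraic_iff_isIntegral]
      exact (isAlgebraic_algebraMap (A := ℂ)
        (((Module.finBasis ℚ Γ a : Γ) : Fin e → ℚ) k)).mul (hv2 k)
  obtain ⟨ij, hij⟩ := hT _ _ _ _ hnum hDat
  have h1 := (hC _ (Fin τ) _ b hij (fun i => by
    change Complex.exp (_ * _) ∈ _
    generalize ij i = w
    obtain ⟨i0, j⟩ := w
    revert j
    refine Fin.cases (fun j => ?_) (fun a j => ?_) i0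
    · rw [Fin.cons_zero, one_mul]
      exact hE.2.1 _ (hA.2.1 _) _ (halg _)
    · rw [Fin.cons_succ]
      exact hB _ (Module.finBasis ℚ Λ j).2 _ (Module.finBasis ℚ Γ a).2)).1
  rw [Fintype.card_fin, Fintype.card_fin, Nat.add_sub_cancel] at h1
  exact h1

end Pool.Agent.SG
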