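import Pool.Agent.Lib.MP_452a87_nt.SG.SpecA

set_option autoImplicit false

namespace Pool.Agent.SG

open MvPolynomial Pool.Agent.SMQ

namespace ANmAux

/-- A derivation which maps `K` to itself commutes with the automorphisms of `ℂ` over `K`. -/
theorem comm (K : IntermediateField ℚ ℂ) (D : Derivation ℚ ℂ ℂ) (hK : ∀ z : ℂ, IsAlgebraic K z)
    (hD : ∀ x ∈ K, D x ∈ K) (σ : ℂ ≃ₐ[K] ℂ) (z : ℂ) : D (σ z) = σ (D z) := by
  have hfix : ∀ x ∈ K, σ x = x := fun x hx => σ.commutes ⟨x, hx⟩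
  have hfix' : ∀ x ∈ K, σ.symm x = x := fun x hx => σ.symm.commutes ⟨x, hx⟩
  let δ0 : ℂ →ₗ[K] ℂ :=
    { toFun := fun w => σ (D (σ.symm w)) - D w
      map_add' := by
        intro a b
        rw [map_add, map_add, map_add, map_add]
        ring
      map_smul' := by
        rintro ⟨k, hk⟩ a
        have e : ∀ w : ℂ, (⟨k, hk⟩ : K) • w = k * w := fun _ => rfl
        simp only [RingHom.id_apply]
        rw [e, e, map_mul, hfix' k hk, D.leibniz, D.leibniz]
        simp only [smul_eq_mul]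
        rw [map_add, map_mul, map_mul, hfix k hk, hfix _ (hD k hk), σ.apply_symm_apply]
        ring }
  have hδ0 : ∀ w, δ0 w = σ (D (σ.symm w)) - D w := fun _ => rfl
  let δ : Derivation K ℂ ℂ := Derivation.mk' δ0 (by
    intro a b
    rw [hδ0, hδ0, hδ0, map_mul, D.leibniz, D.leibniz]
    simp only [smul_eq_mul]
    rw [map_add, map_mul, map_mul, σ.apply_symm_apply, σ.apply_symm_apply]
    ring)
  have hδ : ∀ w, δ w = σ (D (σ.symm w)) - D w := fun _ => rfl
  have h0 : ∀ w, δ w = 0 := by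
    intro w
    have hw : IsIntegral K w := (hK w).isIntegral
    have h1 := Derivation.map_aeval δ (minpoly K w) w
    rw [minpoly.aeval, map_zero, smul_eq_mul] at h1
    have h2 : Polynomial.aeval w (Polynomial.derivative (minpoly K w)) ≠ 0 :=
      (minpoly.irreducible hw).separable.aeval_derivative_ne_zero (minpoly.aeval K w)
    exact (mul_eq_zero.1 h1.symm).resolve_left h2
  have h3 := h0 (σ z)
  rw [hδ, σ.symm_apply_apply] at h3
  exact (sub_eq_zero.1 h3).symm

/-- Logarithmic derivative of a product. -/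
theorem logprod {ι : Type} (D : Derivation ℚ ℂ ℂ) (s : Finset ι) (f : ι → ℂ)
    (hf : ∀ i ∈ s, f i ≠ 0) :
    D (∏ i ∈ s, f i) / ∏ i ∈ s, f i = ∑ i ∈ s, D (f i) / f i := by
  classical
  induction s using Finset.induction_on with
  | empty => simp
  | insert a s ha ih =>
    have h1 := ih fun i hi => hf i (Finset.mem_insert_of_mem hi)
    have h2 := hf a (Finset.mem_insert_self a s)
    have h3 : ∏ i ∈ s, f i ≠ 0 :=
      Finset.prod_ne_zero_iff.2 fun i hi => hf i (Finset.mem_insert_of_mem hi)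
    rw [Finset.prod_insert ha, Finset.sum_insert ha, ← h1, D.leibniz]
    simp only [smul_eq_mul]
    field_simp
    ring

end ANmAux

theorem pANm : S_ANm := by
  classical
  intro K D hK hD r g hg
  have halg : Algebra.IsAlgebraic K ℂ := ⟨hK⟩
  have hcl : IsAlgClosure K ℂ := ⟨inferInstance, halg⟩
  have hgal : IsGalois K ℂ := inferInstance
  let M : FiniteGaloisIntermediateField K ℂ := FiniteGaloisIntermediateField.adjoin K (Set.range g)
  have hgM : ∀ a, g a ∈ M.toIntermediateField := fun a =>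
    FiniteGaloisIntermediateField.subset_adjoin K (Set.range g) ⟨a, rfl⟩
  let lift : Gal(M/K) → (ℂ ≃ₐ[K] ℂ) := fun σ => AlgEquiv.liftNormal σ ℂ
  have hlift : ∀ (σ : Gal(M/K)) (x : M), lift σ (x : ℂ) = ((σ x : M) : ℂ) := fun σ x =>
    AlgEquiv.liftNormal_commutes σ ℂ x
  let h : Fin r → ℂ := fun a => ∏ σ : Gal(M/K), lift σ (g a)
  have hne : ∀ (a : Fin r) (σ : Gal(M/K)), lift σ (g a) ≠ 0 := fun a σ =>
    (map_ne_zero_iff _ (lift σ).injective).2 (hg a)
  have hh : ∀ a, h a = algebraMap K ℂ (Algebra.norm K (⟨g a, hgM a⟩ : M)) := by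
    intro a
    have h1 := Algebra.norm_eq_prod_automorphisms K (⟨g a, hgM a⟩ : M)
    have h2 : ((∏ σ : Gal(M/K), σ (⟨g a, hgM a⟩ : M) : M) : ℂ) = h a := by
      change algebraMap M ℂ (∏ σ : Gal(M/K), σ (⟨g a, hgM a⟩ : M)) = h a
      rw [map_prod]
      refine Finset.prod_congr rfl fun σ _ => ?_
      exact (hlift σ ⟨g a, hgM a⟩).symm
    rw [← h2, ← h1]
    rfl
  refine ⟨Fintype.card Gal(M/K), h, Fintype.card_pos, fun a => ⟨?_, ?_⟩, ?_, ?_⟩
  · rw [hh]
    exact (Algebra.norm K (⟨g a, hgM a⟩ : M)).2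
  · exact Finset.prod_ne_zero_iff.2 fun σ _ => hne a σ
  · intro a ha
    change ∏ σ : Gal(M/K), lift σ (g a) = _
    have h1 : ∀ σ ∈ (Finset.univ : Finset Gal(M/K)), lift σ (g a) = g a := fun σ _ =>
      (lift σ).commutes ⟨g a, ha⟩
    rw [Finset.prod_congr rfl h1, Finset.prod_const, Finset.card_univ]
  · intro b hb hsum
    have h1 : ∀ a, D (h a) / h a = ∑ σ : Gal(M/K), lift σ (D (g a) / g a) := by
      intro a
      change D (∏ σ : Gal(M/K), lift σ (g a)) / (∏ σ : Gal(M/K), lift σ (g a)) = _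
      rw [ANmAux.logprod D _ _ fun σ _ => hne a σ]
      refine Finset.sum_congr rfl fun σ _ => ?_
      rw [map_div₀, ANmAux.comm K D hK hD]
    have h2 : ∀ a, b a * (D (h a) / h a) = ∑ σ : Gal(M/K), lift σ (b a * (D (g a) / g a)) := by
      intro a
      rw [h1, Finset.mul_sum]
      refine Finset.sum_congr rfl fun σ _ => ?_
      have h3 : lift σ (b a) = b a := (lift σ).commutes ⟨b a, hb a⟩
      rw [map_mul, h3]
    rw [Finset.sum_congr rfl fun a _ => h2 a, Finset.sum_comm]
    refine Finset.sum_eq_zero fun σ _ => ?_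
    rw [← map_sum, hsum, map_zero]

end Pool.Agent.SG
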