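import Pool.Agent.Lib.MP_452a87_nt.SG.SpecA

set_option autoImplicit false

/-!
# Theorem SG, module ANz: the determinants are polynomials in `n`
-/

namespace Pool.Agent.SG

open MvPolynomial Pool.Agent.SMQ

namespace ANzAux

/-- Applying a `ℚ`-linear functional to the coefficients. -/
theorem exists_dual {m : ℕ} (R : MvPolynomial (Fin m) ℂ) (hR : R ≠ 0) (s : ℕ)
    (hs : R.totalDegree ≤ s) :
    ∃ P : MvPolynomial (Fin m) ℚ, P ≠ 0 ∧ P.totalDegree ≤ s ∧
      ∀ n : Fin m → ℚ, MvPolynomial.eval n P ≠ 0 →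
        MvPolynomial.eval (fun i => (n i : ℂ)) R ≠ 0 := by
  obtain ⟨μ₀, hμ₀⟩ := MvPolynomial.ne_zero_iff.1 hR
  obtain ⟨ψ, hψ⟩ : ∃ ψ : ℂ →ₗ[ℚ] ℚ, ψ (R.coeff μ₀) ≠ 0 := by
    by_contra hcon
    push Not at hcon
    exact hμ₀ ((Module.forall_dual_apply_eq_zero_iff ℚ (R.coeff μ₀)).1 hcon)
  let P : MvPolynomial (Fin m) ℚ := ∑ μ ∈ R.support, MvPolynomial.monomial μ (ψ (R.coeff μ))
  have hcoeff : P.coeff μ₀ = ψ (R.coeff μ₀) := by
    have h1 : μ₀ ∈ R.support := MvPolynomial.mem_support_iff.2 hμ₀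
    change (∑ μ ∈ R.support, MvPolynomial.monomial μ (ψ (R.coeff μ))).coeff μ₀ = _
    rw [MvPolynomial.coeff_sum, Finset.sum_eq_single μ₀]
    · rw [MvPolynomial.coeff_monomial, if_pos rfl]
    · intro μ _ hμ
      rw [MvPolynomial.coeff_monomial, if_neg hμ]
    · intro h2
      exact absurd h1 h2
  refine ⟨P, ?_, ?_, ?_⟩
  · intro h0
    rw [h0, MvPolynomial.coeff_zero] at hcoeff
    exact hψ hcoeff.symm
  · refine (MvPolynomial.totalDegree_finsetSum _ _).trans (Finset.sup_le ?_)
    intro μ hμ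
    refine (MvPolynomial.totalDegree_monomial_le _ _).trans ?_
    exact (MvPolynomial.le_totalDegree hμ).trans hs
  · intro n hn h0
    apply hn
    have h1 : MvPolynomial.eval n P = ψ (MvPolynomial.eval (fun i => (n i : ℂ)) R) := by
      change MvPolynomial.eval n (∑ μ ∈ R.support, MvPolynomial.monomial μ (ψ (R.coeff μ))) = _
      rw [map_sum, MvPolynomial.eval_eq, map_sum]
      apply Finset.sum_congr rfl
      intro μ _
      rw [MvPolynomial.eval_monomial]
      have h2 : R.coeff μ * ∏ i ∈ μ.support, (n i : ℂ) ^ μ i =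
          (∏ i ∈ μ.support, n i ^ μ i : ℚ) • R.coeff μ := by
        rw [Algebra.smul_def, mul_comm]
        congr 1
        simp
      rw [h2, map_smul, smul_eq_mul, mul_comm]
      rfl
    rw [h1, h0, map_zero]

end ANzAux

theorem pANz (h : S_Adl) : S_ANz := by
  obtain ⟨-, -, -, -, -, h6, -⟩ := h
  intro m s L Dl w hn
  let A : Matrix (Fin s) (Fin s) (MvPolynomial (Fin m) ℂ) :=
    Matrix.of fun a j => ∑ i, C (dl (Dl a) (w j * L i)) * X i
  have hA : ∀ a j, A a j = ∑ i, C (dl (Dl a) (w j * L i)) * X i := fun a j => rfl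
  have hev : ∀ n : Fin m → ℚ, MvPolynomial.eval (fun i => (n i : ℂ)) A.det =
      (dm Dl (fun j => w j * lq L n)).det := by
    intro n
    rw [RingHom.map_det]
    congr 1
    ext a j
    rw [RingHom.mapMatrix_apply, Matrix.map_apply, hA, dm, Matrix.of_apply, map_sum]
    have h1 : w j * lq L n = ∑ i, (n i : ℂ) * (w j * L i) := by
      rw [lq, Finset.mul_sum]
      apply Finset.sum_congr rfl
      intro i _
      ring
    rw [h1, h6]
    apply Finset.sum_congr rfl
    intro i _
    rw [map_mul, eval_C, eval_X, mul_comm]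
  have hR : A.det ≠ 0 := by
    obtain ⟨n, hn⟩ := hn
    intro h0
    apply hn
    rw [← hev, h0, map_zero]
  have hdeg : A.det.totalDegree ≤ s := by
    rw [Matrix.det_apply]
    refine (MvPolynomial.totalDegree_finsetSum _ _).trans (Finset.sup_le ?_)
    intro σ _
    refine (MvPolynomial.totalDegree_smul_le _ _).trans ?_
    refine (MvPolynomial.totalDegree_finsetProd _ _).trans ?_
    have h2 : ∀ i ∈ (Finset.univ : Finset (Fin s)), (A (σ i) i).totalDegree ≤ 1 := by
      intro i _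
      rw [hA]
      refine (MvPolynomial.totalDegree_finsetSum _ _).trans (Finset.sup_le ?_)
      intro k _
      refine (MvPolynomial.totalDegree_mul _ _).trans ?_
      rw [MvPolynomial.totalDegree_C, MvPolynomial.totalDegree_X]
    refine (Finset.sum_le_sum h2).trans ?_
    simp
  obtain ⟨P, hP0, hPd, hP⟩ := ANzAux.exists_dual A.det hR s hdeg
  refine ⟨P, hP0, hPd, fun n hn => ?_⟩
  rw [← hev]
  exact hP n hn

end Pool.Agent.SG
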