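import Pool.Agent.Lib.MP_452a87_nt.SG.SpecA

/-!
# Theorem SG, Part A: residues (module `ARs`)
-/

set_option autoImplicit false

namespace Pool.Agent.SG

open MvPolynomial Pool.Agent.SMQ

namespace ARsAux

/-- The field `B1(x)` is stable under `D`. -/
theorem stab (B1 : IntermediateField ℚ ℂ) (D : Derivation ℚ ℂ ℂ) (x : ℂ) (h0 : ∀ b ∈ B1, D b = 0)
    (hx : D x = x) (z : ℂ) (hz : z ∈ IntermediateField.adjoin B1 ({x} : Set ℂ)) :
    D z ∈ IntermediateField.adjoin B1 ({x} : Set ℂ) := by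
  induction hz using IntermediateField.adjoin_induction with
  | mem y hy =>
    rw [Set.mem_singleton_iff] at hy
    subst hy
    rw [hx]
    exact IntermediateField.mem_adjoin_simple_self _ _
  | algebraMap b =>
    have h1 : D (algebraMap B1 ℂ b) = 0 := h0 _ b.2
    rw [h1]
    exact zero_mem _
  | add u v _ _ hu hv =>
    rw [map_add]
    exact add_mem hu hv
  | inv u hu hu' =>
    rw [Derivation.leibniz_inv, smul_eq_mul]
    exact mul_mem (neg_mem (pow_mem (inv_mem hu) 2)) hu'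
  | mul u v hu hv hu' hv' =>
    rw [Derivation.leibniz, smul_eq_mul, smul_eq_mul]
    exact add_mem (mul_mem hu hv') (mul_mem hv hu')

theorem cast {r : ℕ} (b : Fin r → ℂ) (n : Fin r → ℤ) (h : ∑ a, b a * (n a : ℂ) = 0) :
    ∑ a, ((n a : ℚ)) • b a = 0 := by
  have e : ∀ a, ((n a : ℚ)) • b a = b a * (n a : ℂ) := by
    intro a
    rw [Rat.smul_def, mul_comm, Rat.cast_intCast]
  rw [Finset.sum_congr rfl fun a _ => e a]
  exact h

theorem nrm (hANm : S_ANm) (B1 : IntermediateField ℚ ℂ) (E : IntermediateField B1 ℂ)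
    (D : Derivation ℚ ℂ ℂ) (halg : ∀ z : ℂ, IsAlgebraic E z) (hst : ∀ z ∈ E, D z ∈ E)
    (r : ℕ) (g : Fin r → ℂ) (hg : ∀ a, g a ≠ 0) :
    ∃ (N : ℕ) (h : Fin r → ℂ), 1 ≤ N ∧ (∀ a, h a ∈ E ∧ h a ≠ 0) ∧
      (∀ a, g a ∈ E → h a = g a ^ N) ∧
      ∀ b : Fin r → ℂ, (∀ a, b a ∈ E) → ∑ a, b a * (D (g a) / g a) = 0 →
        ∑ a, b a * (D (h a) / h a) = 0 :=
  hANm (E.restrictScalars ℚ) D (fun z => halg z) (fun z hz => hst z hz) r g hg

end ARsAux

theorem pARs : S_ADx → S_ANm → S_ARt → S_ARs := by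
  intro hADx hANm hARt B hB r b g hb hli hg hD
  by_contra hcon
  rw [not_forall] at hcon
  obtain ⟨a0, ha0⟩ := hcon
  obtain ⟨B1, D, hB1, hBB, hx, halg, hD0, hDx⟩ := hADx B hB (g a0) ha0
  have hDB : D ∈ DB B := fun y hy => hD0 y (hBB hy)
  have h1 := hD D hDB
  obtain ⟨E, hE⟩ : ∃ E : IntermediateField B1 ℂ, E = IntermediateField.adjoin B1 ({g a0} : Set ℂ) :=
    ⟨_, rfl⟩
  have hgE : g a0 ∈ E := by
    rw [hE]
    exact IntermediateField.mem_adjoin_simple_self _ _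
  have hstab : ∀ z ∈ E, D z ∈ E := by
    rw [hE]
    exact ARsAux.stab B1 D (g a0) hD0 hDx
  have halg' : ∀ z : ℂ, IsAlgebraic E z := by
    rw [hE]
    exact halg
  obtain ⟨N, h, hN, hK, hpow, hrel⟩ := ARsAux.nrm hANm B1 E D halg' hstab r g hg
  have hbK : ∀ y ∈ B, y ∈ E := fun y hy => E.algebraMap_mem ⟨y, hBB hy⟩
  have h2 := hrel b (fun a => hbK _ (hb a)) h1
  have hK' : ∀ a, h a ∈ IntermediateField.adjoin B1 ({g a0} : Set ℂ) ∧ h a ≠ 0 := by
    rw [← hE]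
    exact hK
  obtain ⟨n, hn1, hn2⟩ := hARt B1 D (g a0) hB1 hx hD0 hDx r h hK'
  have h3 := hn1 b (fun a => hBB (hb a)) h2
  have h4 : n a0 = N := hn2 a0 N (hpow a0 hgE)
  have h5 := Fintype.linearIndependent_iff.1 hli (fun a => (n a : ℚ)) (ARsAux.cast b n h3) a0
  have h6 : n a0 = 0 := by exact_mod_cast h5
  rw [h6] at h4
  omega

end Pool.Agent.SG
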