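import Pool.Agent.Lib.MP_452a87_nt.SG.SpecA

/-!
# Theorem SG, module ARt: the order at `x = 0` of rational functions over `B1`
-/

set_option autoImplicit false

namespace Pool.Agent.SG

open MvPolynomial Pool.Agent.SMQ

namespace ARtAux

section basic

variable {B1 : IntermediateField ℚ ℂ} {D : Derivation ℚ ℂ ℂ} {x : ℂ}

/-- `P(x)`. -/
noncomputable def ev (B1 : IntermediateField ℚ ℂ) (x : ℂ) : Polynomial B1 →+* ℂ :=
  (Polynomial.aeval x : Polynomial B1 →ₐ[B1] ℂ).toRingHom

theorem ev_C (b : B1) : ev B1 x (Polynomial.C b) = (b : ℂ) :=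
  Polynomial.aeval_C x b

theorem ev_X : ev B1 x Polynomial.X = x := Polynomial.aeval_X x

theorem ev_inj (hB : Cl B1) (hx : x ∉ B1) (P : Polynomial B1) (h : ev B1 x P = 0) : P = 0 := by
  by_contra hP
  exact hx (hB x ⟨P, hP, h⟩)

theorem D_ev (hD : ∀ b ∈ B1, D b = 0) (hDx : D x = x) (P : Polynomial B1) :
    D (ev B1 x P) = x * ev B1 x (Polynomial.derivative P) := by
  induction P using Polynomial.induction_on' with
  | add p q hp hq => rw [map_add, map_add, hp, hq, Polynomial.derivative_add, map_add, mul_add]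
  | monomial n b =>
    rw [← Polynomial.C_mul_X_pow_eq_monomial, map_mul, map_pow, ev_C, ev_X, Derivation.leibniz,
      hD _ b.2, smul_zero, add_zero, Derivation.leibniz_pow, hDx, Polynomial.derivative_C_mul_X_pow,
      map_mul, map_pow, ev_C, ev_X]
    simp only [smul_eq_mul, nsmul_eq_mul]
    push_cast
    ring

theorem D_pow (hDx : D x = x) (n : ℕ) : D (x ^ n) = n * x ^ n := by
  rw [Derivation.leibniz_pow, hDx]
  simp only [smul_eq_mul, nsmul_eq_mul]
  cases n with
  | zero => simp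
  | succ n =>
    rw [Nat.add_sub_cancel, pow_succ]

/-- Splitting off the power of `X`. -/
theorem split (P : Polynomial B1) (hP : P ≠ 0) :
    ∃ (i : ℕ) (P' : Polynomial B1), P = Polynomial.X ^ i * P' ∧ P'.coeff 0 ≠ 0 := by
  obtain ⟨q, h1, h2⟩ := Polynomial.exists_eq_pow_rootMultiplicity_mul_and_not_dvd P hP 0
  rw [map_zero, sub_zero] at h1 h2
  exact ⟨_, q, h1, fun h => h2 (Polynomial.X_dvd_iff.2 h)⟩

theorem pow_eq {a b : ℕ} {P Q : Polynomial B1} (hP : P.coeff 0 ≠ 0) (hQ : Q.coeff 0 ≠ 0)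
    (h : Polynomial.X ^ a * P = Polynomial.X ^ b * Q) : a = b := by
  by_contra hab
  rcases Nat.lt_or_gt_of_ne hab with h1 | h1
  · have h2 := congrArg (fun p => Polynomial.coeff p a) h
    simp only [Polynomial.coeff_X_pow_mul'] at h2
    rw [if_pos le_rfl, if_neg (by omega), Nat.sub_self] at h2
    exact hP h2
  · have h2 := congrArg (fun p => Polynomial.coeff p b) h
    simp only [Polynomial.coeff_X_pow_mul'] at h2
    rw [if_pos le_rfl, if_neg (by omega), Nat.sub_self] at h2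
    exact hQ h2.symm

/-- The elements which are regular at `x = 0`. -/
def Reg (B1 : IntermediateField ℚ ℂ) (x z : ℂ) : Prop :=
  ∃ A G : Polynomial B1, G.coeff 0 ≠ 0 ∧ z * ev B1 x G = ev B1 x A

theorem Reg.add {z w : ℂ} (hz : Reg B1 x z) (hw : Reg B1 x w) : Reg B1 x (z + w) := by
  obtain ⟨A, G, hG, h⟩ := hz
  obtain ⟨A', G', hG', h'⟩ := hw
  refine ⟨A * G' + A' * G, G * G', ?_, ?_⟩
  · rw [Polynomial.mul_coeff_zero]
    exact mul_ne_zero hG hG'
  · rw [map_mul, map_add, map_mul, map_mul, ← h, ← h']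
    ring

theorem Reg.smul {z : ℂ} (b : ℂ) (hb : b ∈ B1) (hz : Reg B1 x z) : Reg B1 x (b * z) := by
  obtain ⟨A, G, hG, h⟩ := hz
  refine ⟨Polynomial.C ⟨b, hb⟩ * A, G, hG, ?_⟩
  rw [map_mul, ev_C, ← h]
  ring

theorem Reg.zero : Reg B1 x 0 := by
  refine ⟨0, 1, ?_, ?_⟩
  · rw [Polynomial.coeff_one_zero]
    exact one_ne_zero
  · rw [zero_mul, map_zero]

theorem Reg.sum {ι : Type} (S : Finset ι) (f : ι → ℂ) (h : ∀ i ∈ S, Reg B1 x (f i)) :
    Reg B1 x (∑ i ∈ S, f i) := by
  classical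
  induction S using Finset.induction_on with
  | empty => rw [Finset.sum_empty]; exact Reg.zero
  | insert a S ha ih =>
    rw [Finset.sum_insert ha]
    exact (h a (Finset.mem_insert_self a S)).add
      (ih fun i hi => h i (Finset.mem_insert_of_mem hi))

theorem Reg.eq_zero (hB : Cl B1) (hx : x ∉ B1) {z b : ℂ} (hb : b ∈ B1) (hz : Reg B1 x z)
    (h : b = x * z) : b = 0 := by
  obtain ⟨A, G, hG, h1⟩ := hz
  have h2 : ev B1 x (Polynomial.C ⟨b, hb⟩ * G - Polynomial.X * A) = 0 := by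
    rw [map_sub, map_mul, map_mul, ev_C, ev_X, ← h1]
    change b * ev B1 x G - x * (z * ev B1 x G) = 0
    rw [h]
    ring
  have h3 := congrArg (fun p => Polynomial.coeff p 0) (ev_inj hB hx _ h2)
  simp only [Polynomial.coeff_sub, Polynomial.coeff_C_mul, Polynomial.coeff_X_mul_zero,
    Polynomial.coeff_zero, sub_zero] at h3
  have h4 := (mul_eq_zero.1 h3).resolve_right hG
  exact congrArg Subtype.val h4

/-- One element. -/
theorem one (hB : Cl B1) (hx : x ∉ B1) (hD : ∀ b ∈ B1, D b = 0) (hDx : D x = x) (h : ℂ)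
    (hm : h ∈ IntermediateField.adjoin B1 ({x} : Set ℂ)) (h0 : h ≠ 0) :
    ∃ n : ℤ, (∃ v : ℂ, Reg B1 x v ∧ D h / h = n + x * v) ∧ ∀ N : ℕ, h = x ^ N → n = N := by
  obtain ⟨p, q, hpq⟩ := IntermediateField.mem_adjoin_simple_iff B1 h |>.1 hm
  have hpq' : h = ev B1 x p / ev B1 x q := hpq
  have hq0 : ev B1 x q ≠ 0 := by
    intro h1
    rw [h1, div_zero] at hpq'
    exact h0 hpq'
  have hp0 : ev B1 x p ≠ 0 := by
    intro h1
    rw [h1, zero_div] at hpq'
    exact h0 hpq'
  have hp : p ≠ 0 := by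
    rintro rfl
    exact hp0 (map_zero _)
  have hq : q ≠ 0 := by
    rintro rfl
    exact hq0 (map_zero _)
  obtain ⟨i, P, rfl, hP⟩ := split p hp
  obtain ⟨j, Q, rfl, hQ⟩ := split q hq
  have hx0 : x ≠ 0 := by
    rintro rfl
    exact hx (zero_mem B1)
  rw [map_mul, map_pow, ev_X] at hpq' hp0 hq0
  rw [map_mul, map_pow, ev_X] at hpq'
  have hP0 : ev B1 x P ≠ 0 := right_ne_zero_of_mul hp0
  have hQ0 : ev B1 x Q ≠ 0 := right_ne_zero_of_mul hq0
  have e : h * (x ^ j * ev B1 x Q) = x ^ i * ev B1 x P := by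
    rw [hpq']
    field_simp
  refine ⟨(i : ℤ) - j, ⟨(ev B1 x (Polynomial.derivative P) * ev B1 x Q -
    ev B1 x P * ev B1 x (Polynomial.derivative Q)) / (ev B1 x P * ev B1 x Q), ?_, ?_⟩, ?_⟩
  · refine ⟨Polynomial.derivative P * Q - P * Polynomial.derivative Q, P * Q, ?_, ?_⟩
    · rw [Polynomial.mul_coeff_zero]
      exact mul_ne_zero hP hQ
    · rw [map_sub, map_mul, map_mul, map_mul]
      field_simp
  · have h1 := congrArg D e
    simp only [Derivation.leibniz, D_pow hDx, D_ev hD hDx, smul_eq_mul] at h1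
    rw [div_eq_iff h0]
    have h2 : (D h) * (x ^ j * ev B1 x Q) * (ev B1 x P * ev B1 x Q) =
        (((i : ℤ) - j : ℤ) * (ev B1 x P * ev B1 x Q) + x * (ev B1 x (Polynomial.derivative P) *
          ev B1 x Q - ev B1 x P * ev B1 x (Polynomial.derivative Q))) *
          (h * (x ^ j * ev B1 x Q)) := by
      push_cast
      linear_combination (ev B1 x P * ev B1 x Q) * h1 -
        ((i : ℂ) * (ev B1 x P * ev B1 x Q) +
          x * ev B1 x (Polynomial.derivative P) * ev B1 x Q) * e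
    have h3 : x ^ j * ev B1 x Q ≠ 0 := hq0
    have h4 : D h * (ev B1 x P * ev B1 x Q) =
        (((i : ℤ) - j : ℤ) * (ev B1 x P * ev B1 x Q) + x * (ev B1 x (Polynomial.derivative P) *
          ev B1 x Q - ev B1 x P * ev B1 x (Polynomial.derivative Q))) * h := by
      apply mul_right_cancel₀ h3
      linear_combination h2
    have h5 : ev B1 x P * ev B1 x Q ≠ 0 := mul_ne_zero hP0 hQ0
    apply mul_right_cancel₀ h5
    rw [h4]
    field_simp
  · intro N hN
    rw [hN] at e
    have h1 : ev B1 x (Polynomial.X ^ (N + j) * Q - Polynomial.X ^ i * P) = 0 := by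
      rw [map_sub, map_mul, map_mul, map_pow, map_pow, ev_X, ← e]
      ring
    have h2 := sub_eq_zero.1 (ev_inj hB hx _ h1)
    have h3 := pow_eq hQ hP h2
    omega

end basic

end ARtAux

open ARtAux in
theorem pARt : S_ARt := by
  intro B1 D x hB hx hD hDx r h hh
  choose n hn hN using fun a => ARtAux.one hB hx hD hDx (h a) (hh a).1 (hh a).2
  choose v hv hv' using hn
  refine ⟨n, fun b hb hs => ?_, fun a N => hN a N⟩
  have h1 : ∑ a, b a * (n a : ℂ) = x * (-∑ a, b a * v a) := by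
    have h2 : ∑ a, b a * (n a : ℂ) + x * ∑ a, b a * v a = 0 := by
      rw [← hs, Finset.mul_sum, ← Finset.sum_add_distrib]
      refine Finset.sum_congr rfl fun a _ => ?_
      rw [hv' a]
      ring
    linear_combination h2
  have h3 : Reg B1 x (-∑ a, b a * v a) := by
    have h4 : -∑ a, b a * v a = ∑ a, (-b a) * v a := by
      rw [← Finset.sum_neg_distrib]
      exact Finset.sum_congr rfl fun a _ => by ring
    rw [h4]
    exact Reg.sum _ _ fun a _ => (hv a).smul _ (neg_mem (hb a))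
  exact Reg.eq_zero hB hx (sum_mem fun a _ => mul_mem (hb a) (intCast_mem B1 (n a))) h3 h1

end Pool.Agent.SG
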