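import Pool.Agent.Lib.MP_452a87_nt.SG.SpecA

/-!
# Theorem SG, module ARv: residues, general coefficients
-/

set_option autoImplicit false

namespace Pool.Agent.SG

open MvPolynomial Pool.Agent.SMQ

theorem pARv : S_ARs → S_Adl → S_ARv := by
  intro hARs hAdl B hB κ _ c u hc hD
  obtain ⟨-, -, -, -, -, hsum, -⟩ := hAdl
  let V : Submodule ℚ ℂ := Submodule.span ℚ (Set.range c)
  have hfin : FiniteDimensional ℚ V := FiniteDimensional.span_of_finite ℚ (Set.finite_range c)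
  have hVB : ∀ x ∈ V, x ∈ B := by
    have h1 : V ≤ Subalgebra.toSubmodule B.toSubalgebra := by
      refine Submodule.span_le.2 ?_
      rintro _ ⟨k, rfl⟩
      exact hc k
    intro x hx
    exact h1 hx
  let bs := Module.finBasis ℚ V
  have hcV : ∀ k, c k ∈ V := fun k => Submodule.subset_span ⟨k, rfl⟩
  have hli : LinearIndependent ℚ (fun a => (bs a : ℂ)) :=
    bs.linearIndependent.map' V.subtype (Submodule.ker_subtype V)
  have hrepr : ∀ k, c k = ∑ a, ((bs.repr ⟨c k, hcV k⟩ a : ℚ) : ℂ) * (bs a : ℂ) := by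
    intro k
    have h1 := congrArg (fun v : V => (v : ℂ)) (bs.sum_repr ⟨c k, hcV k⟩)
    simp only [Submodule.coe_sum, Submodule.coe_smul, Rat.smul_def] at h1
    exact h1.symm
  refine ⟨Module.finrank ℚ V, fun a => (bs a : ℂ), fun k a => bs.repr ⟨c k, hcV k⟩ a,
    fun a => hVB _ (bs a).2, hrepr, ?_⟩
  refine hARs B hB _ (fun a => (bs a : ℂ)) _ (fun a => hVB _ (bs a).2) hli
    (fun a => Complex.exp_ne_zero _) ?_
  intro D hDB
  rw [← hD D hDB]
  have h2 : ∀ a, D (Complex.exp (∑ k, ((bs.repr ⟨c k, hcV k⟩ a : ℚ) : ℂ) * u k)) /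
      Complex.exp (∑ k, ((bs.repr ⟨c k, hcV k⟩ a : ℚ) : ℂ) * u k) =
      ∑ k, ((bs.repr ⟨c k, hcV k⟩ a : ℚ) : ℂ) * dl D (u k) :=
    fun a => hsum κ D (fun k => bs.repr ⟨c k, hcV k⟩ a) u
  simp only [h2]
  simp only [Finset.mul_sum]
  rw [Finset.sum_comm]
  refine Finset.sum_congr rfl fun k _ => ?_
  conv_rhs => rw [hrepr k, Finset.sum_mul]
  refine Finset.sum_congr rfl fun a _ => ?_
  ring

end Pool.Agent.SG
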