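import Pool.Agent.Lib.MP_452a87_nt.SG.SpecA

/-!
# Theorem SG, ATc: counting
-/

set_option autoImplicit false

namespace Pool.Agent.SG

open MvPolynomial Pool.Agent.SMQ

/-- An algebraically independent family has transcendence degree the number of its elements. -/
private theorem tr_self (ι : Type) [Fintype ι] (b : ι → ℂ) (hb : AlgebraicIndependent ℚ b) :
    Tr b (Fintype.card ι) := by
  refine ⟨(Fintype.equivFin ι).symm, hb.comp _ (Fintype.equivFin ι).symm.injective, fun i => ?_⟩
  have h1 : b i ∈ IntermediateField.adjoin ℚ (Set.range (b ∘ (Fintype.equivFin ι).symm)) := by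
    apply IntermediateField.subset_adjoin
    exact ⟨Fintype.equivFin ι i, by simp⟩
  exact isAlgebraic_algebraMap
    (⟨b i, h1⟩ : IntermediateField.adjoin ℚ (Set.range (b ∘ (Fintype.equivFin ι).symm)))

/-- (ATc) Counting. -/
theorem pATc : S_TrU → S_TrE → S_Acl → S_ATc := by
  intro hTrU hTrE hAcl ι κ _ _ b g hb hbg
  obtain ⟨hcl1, -, -, -, hcl5⟩ := hAcl
  have hT := tr_self ι b hb
  refine ⟨?_, fun hcard => ?_⟩
  · have h1 := hTrU ι κ ℂ b g _ hT fun i => (hcl1 _ _).1 (hbg i)
    rwa [Nat.card_eq_fintype_card] at h1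
  · obtain ⟨r, c, hc1, hc2⟩ := hTrE κ ℂ g
    have h2 : Set.range g ⊆ (cl (Set.range (g ∘ c)) : Set ℂ) := by
      rintro _ ⟨i, rfl⟩
      exact (hcl1 _ _).2 (hc2 i)
    have h3 := hcl5 _ _ h2
    have h4 := hTrU ι (Fin r) ℂ b (g ∘ c) _ hT fun i => (hcl1 _ _).1 (h3 (hbg i))
    rw [Nat.card_eq_fintype_card, Fintype.card_fin] at h4
    have hinj : Function.Injective c := fun i j hij => hc1.injective (congrArg g hij)
    have h5 := Fintype.card_le_of_injective c hinj
    rw [Fintype.card_fin] at h5
    have hbij : Function.Bijective c := by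
      rw [Fintype.bijective_iff_injective_and_card]
      refine ⟨hinj, ?_⟩
      rw [Fintype.card_fin]
      omega
    have h6 := hc1.comp _ (Equiv.ofBijective c hbij).symm.injective
    have h7 : (g ∘ c) ∘ (Equiv.ofBijective c hbij).symm = g := by
      funext i
      show g (c ((Equiv.ofBijective c hbij).symm i)) = g i
      congr 1
      exact (Equiv.ofBijective c hbij).apply_symm_apply i
    rwa [h7] at h6

end Pool.Agent.SG
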