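import Pool.Agent.Lib.MP_452a87_nt.SG.SpecA

/-!
# Theorem SG, Part A: the rational kernel (task 20498)
-/

set_option autoImplicit false

namespace Pool.Agent.SG

open MvPolynomial Pool.Agent.SMQ

/-- The linear map `q ↦ ∑ q k w k`. -/
private noncomputable def AVn_phi {e : ℕ} (w : Fin e → ℂ) : (Fin e → ℚ) →ₗ[ℚ] ℂ where
  toFun q := ∑ k, (q k : ℂ) * w k
  map_add' q q' := by
    rw [← Finset.sum_add_distrib]
    refine Finset.sum_congr rfl fun k _ => ?_
    rw [Pi.add_apply, Rat.cast_add, add_mul]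
  map_smul' c q := by
    rw [RingHom.id_apply, Rat.smul_def, Finset.mul_sum]
    refine Finset.sum_congr rfl fun k _ => ?_
    rw [Pi.smul_apply, smul_eq_mul, Rat.cast_mul, mul_assoc]

/-- The embedding `ℚ^e → ℂ^e`. -/
private noncomputable def AVn_io (e : ℕ) : (Fin e → ℚ) →ₗ[ℚ] (Fin e → ℂ) where
  toFun q := fun k => (q k : ℂ)
  map_add' q q' := by
    funext k
    rw [Pi.add_apply, Pi.add_apply, Rat.cast_add]
  map_smul' c q := by
    funext k
    rw [RingHom.id_apply, Pi.smul_apply, Pi.smul_apply, smul_eq_mul, Rat.cast_mul, Rat.smul_def]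

theorem pAVn : S_ARv → S_AEx → S_AVn := by
  intro hARv hAEx B hB e s J w r hJ hr hrel
  classical
  obtain ⟨U, hU⟩ := hAEx.1 B hB
  obtain ⟨VB, hVB⟩ : ∃ VB : Submodule ℚ (Fin e → ℚ), VB = U.comap (AVn_phi w) := ⟨_, rfl⟩
  have hmem : ∀ q : Fin e → ℚ, q ∈ VB ↔ Complex.exp (∑ k, (q k : ℂ) * w k) ∈ B := by
    intro q
    rw [hVB, Submodule.mem_comap]
    exact hU _
  refine ⟨VB, fun q hq => (hmem q).1 hq, ?_⟩
  -- the vectors `f i`
  obtain ⟨f, hf⟩ : ∃ f : Fin e → Fin e → ℂ, f = fun i k =>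
      (if k = i then (1 : ℂ) else 0) - ∑ j, if k = J j then r i j else 0 := ⟨_, rfl⟩
  have hfB : ∀ i k, f i k ∈ B := by
    intro i k
    rw [hf]
    refine sub_mem ?_ (sum_mem fun j _ => ?_)
    · split_ifs
      · exact one_mem B
      · exact zero_mem B
    · split_ifs
      · exact hr i j
      · exact zero_mem B
  have hfD : ∀ i, ∀ D ∈ DB B, ∑ k, f i k * dl D (w k) = 0 := by
    intro i D hD
    have h1 : ∀ k, f i k * dl D (w k) = (if k = i then dl D (w k) else 0) -
        ∑ j, if k = J j then r i j * dl D (w k) else 0 := by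
      intro k
      rw [hf]
      simp only [sub_mul, Finset.sum_mul, ite_mul, one_mul, zero_mul]
    rw [Finset.sum_congr rfl fun k _ => h1 k, Finset.sum_sub_distrib, Finset.sum_comm,
      Finset.sum_ite_eq' Finset.univ i, if_pos (Finset.mem_univ i)]
    have h2 : ∀ j, ∑ k, (if k = J j then r i j * dl D (w k) else 0) =
        r i j * dl D (w (J j)) := by
      intro j
      rw [Finset.sum_ite_eq' Finset.univ (J j), if_pos (Finset.mem_univ _)]
    rw [Finset.sum_congr rfl fun j _ => h2 j, ← hrel i D hD, sub_self]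
  -- the span
  obtain ⟨β, -⟩ : ∃ β : Module.Basis (Fin (Module.finrank ℚ VB)) ℚ VB, β = Module.finBasis ℚ VB :=
    ⟨_, rfl⟩
  obtain ⟨g, hg⟩ : ∃ g : Fin (Module.finrank ℚ VB) → Fin e → ℂ,
      g = fun i => AVn_io e (β i : Fin e → ℚ) := ⟨_, rfl⟩
  have hio : ∀ q ∈ VB, AVn_io e q ∈ Submodule.span ℂ (Set.range g) := by
    intro q hq
    have h1 := β.sum_repr ⟨q, hq⟩
    have h2 : q = ∑ i, β.repr ⟨q, hq⟩ i • (β i : Fin e → ℚ) := by
      have h3 := congrArg VB.subtype h1
      rw [map_sum] at h3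
      simp only [map_smul, Submodule.subtype_apply] at h3
      exact h3.symm
    rw [h2, map_sum]
    refine Submodule.sum_mem _ fun i _ => ?_
    rw [map_smul]
    have h4 : (β.repr ⟨q, hq⟩ i) • AVn_io e (β i : Fin e → ℚ) =
        ((β.repr ⟨q, hq⟩ i : ℚ) : ℂ) • g i := by
      rw [hg]
      funext k
      rw [Pi.smul_apply, Pi.smul_apply, Rat.smul_def, smul_eq_mul]
    rw [h4]
    exact Submodule.smul_mem _ _ (Submodule.subset_span ⟨i, rfl⟩)
  have hfS : ∀ i, f i ∈ Submodule.span ℂ (Set.range g) := by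
    intro i
    obtain ⟨t, b, q, -, h2, h3⟩ := hARv B hB (Fin e) (f i) w (hfB i) (hfD i)
    have h4 : f i = ∑ a, b a • AVn_io e (fun k => q k a) := by
      funext k
      rw [h2 k, Finset.sum_apply]
      refine Finset.sum_congr rfl fun a _ => ?_
      rw [Pi.smul_apply, smul_eq_mul, mul_comm]
      rfl
    rw [h4]
    refine Submodule.sum_mem _ fun a _ => Submodule.smul_mem _ _ (hio _ ?_)
    exact (hmem _).2 (h3 a)
  -- independence
  obtain ⟨T, hT⟩ : ∃ T : Finset (Fin e), T = (Finset.univ.image J)ᶜ := ⟨_, rfl⟩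
  have hTc : e ≤ s + T.card := by
    have h1 : T.card + (Finset.univ.image J).card = e := by
      rw [hT, Finset.card_compl_add_card, Fintype.card_fin]
    have h2 : (Finset.univ.image J).card ≤ s :=
      Finset.card_image_le.trans (by rw [Finset.card_univ, Fintype.card_fin])
    omega
  have hTJ : ∀ k ∈ T, ∀ j, k ≠ J j := by
    intro k hk j hkj
    rw [hT, Finset.mem_compl] at hk
    exact hk (Finset.mem_image.2 ⟨j, Finset.mem_univ _, hkj.symm⟩)
  have hli : LinearIndependent ℂ (fun t : T => f t) := by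
    refine LinearIndependent.of_comp (LinearMap.funLeft ℂ ℂ (fun t : T => (t : Fin e))) ?_
    have h1 : (LinearMap.funLeft ℂ ℂ (fun t : T => (t : Fin e)) ∘ fun t : T => f t) =
        Pi.basisFun ℂ T := by
      funext t t'
      rw [Function.comp_apply, LinearMap.funLeft_apply, Pi.basisFun_apply, hf]
      have h2 : ∑ j, (if (t' : Fin e) = J j then r (t : Fin e) j else 0) = 0 :=
        Finset.sum_eq_zero fun j _ => if_neg (hTJ t' t'.2 j)
      simp only [h2, sub_zero, Pi.single_apply, Subtype.ext_iff]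
    rw [h1]
    exact (Pi.basisFun ℂ T).linearIndependent
  have hli' : LinearIndependent ℂ
      (fun t : T => (⟨f t, hfS t⟩ : Submodule.span ℂ (Set.range g))) :=
    LinearIndependent.of_comp (Submodule.span ℂ (Set.range g)).subtype hli
  have h5 := hli'.fintype_card_le_finrank
  rw [Fintype.card_coe] at h5
  have h6 : Module.finrank ℂ (Submodule.span ℂ (Set.range g)) ≤ Module.finrank ℚ VB := by
    have h7 := finrank_range_le_card (R := ℂ) g
    rw [Fintype.card_fin] at h7
    exact h7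
  omega

end Pool.Agent.SG
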