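import Pool.Agent.Lib.MP_452a87_nt.SG.SpecA

/-!
# Theorem SG, Acl: basic facts on `cl`
-/

set_option autoImplicit false

namespace Pool.Agent.SG

open MvPolynomial Pool.Agent.SMQ

namespace AclAux

private lemma mem (S : Set ℂ) (x : ℂ) :
    x ∈ cl S ↔ IsAlgebraic (IntermediateField.adjoin ℚ S) x := by
  unfold cl
  rw [IntermediateField.mem_restrictScalars]
  exact mem_algebraicClosure_iff

private lemma closed (S : Set ℂ) : Cl (cl S) := by
  intro x hx
  rw [mem]
  have h : IsAlgebraic (algebraicClosure (IntermediateField.adjoin ℚ S) ℂ) x := hx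
  exact h.restrictScalars (IntermediateField.adjoin ℚ S)

private lemma sub (S : Set ℂ) : S ⊆ cl S := by
  intro x hx
  show x ∈ cl S
  rw [mem]
  exact isAlgebraic_algebraMap (A := ℂ)
    (⟨x, IntermediateField.subset_adjoin ℚ S hx⟩ : IntermediateField.adjoin ℚ S)

private lemma le (S : Set ℂ) (B : IntermediateField ℚ ℂ) (hB : Cl B) (hS : S ⊆ B) :
    cl S ≤ B := by
  intro x hx
  rw [mem] at hx
  apply hB
  have hle : IntermediateField.adjoin ℚ S ≤ B := IntermediateField.adjoin_le_iff.2 hS
  let _ : Algebra (IntermediateField.adjoin ℚ S) B :=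
    (IntermediateField.inclusion hle).toRingHom.toAlgebra
  have : IsScalarTower (IntermediateField.adjoin ℚ S) B ℂ :=
    IsScalarTower.of_algebraMap_eq fun _ => rfl
  exact hx.tower_top B

end AclAux

theorem pAcl : S_Acl :=
  ⟨AclAux.mem, AclAux.closed, AclAux.sub, AclAux.le,
    fun S S' h => AclAux.le S (cl S') (AclAux.closed S') h⟩

end Pool.Agent.SG
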