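import Pool.Agent.Lib.MP_452a87_nt.SG.SpecA

/-!
# Theorem SG, Part A, module Adl: `dl` is additive (helper16)
-/

set_option autoImplicit false

namespace Pool.Agent.SG

open MvPolynomial Pool.Agent.SMQ

private theorem AdlAux_add (D : Derivation ℚ ℂ ℂ) (u v : ℂ) : dl D (u + v) = dl D u + dl D v := by
  unfold dl
  rw [Complex.exp_add, Derivation.leibniz, smul_eq_mul, smul_eq_mul]
  have h1 := Complex.exp_ne_zero u
  have h2 := Complex.exp_ne_zero v
  field_simp
  ring

private noncomputable def AdlAux_hom (D : Derivation ℚ ℂ ℂ) : ℂ →+ ℂ :=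
  AddMonoidHom.mk' (dl D) (AdlAux_add D)

private theorem AdlAux_rat (D : Derivation ℚ ℂ ℂ) (r : ℚ) (u : ℂ) :
    dl D ((r : ℂ) * u) = (r : ℂ) * dl D u := by
  have h := map_rat_smul (AdlAux_hom D) r u
  rw [Rat.smul_def, Rat.smul_def] at h
  exact h

private theorem AdlAux_sum {κ : Type} (s : Finset κ) (D : κ → Derivation ℚ ℂ ℂ) (w : κ → ℂ) (u : ℂ) :
    dl (∑ k ∈ s, w k • D k) u = ∑ k ∈ s, w k * dl (D k) u := by
  classical
  induction s using Finset.induction_on with
  | empty =>
    rw [Finset.sum_empty, Finset.sum_empty]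
    unfold dl
    rw [Derivation.zero_apply, zero_div]
  | insert a s ha ih =>
    rw [Finset.sum_insert ha, Finset.sum_insert ha, ← ih]
    unfold dl
    rw [Derivation.add_apply, Derivation.smul_apply, smul_eq_mul, add_div, mul_div_assoc]

theorem pAdl : S_Adl := by
  refine ⟨AdlAux_add, AdlAux_rat, ?_, ?_, ?_, ?_, ?_⟩
  · intro c D u
    unfold dl
    rw [Derivation.smul_apply, smul_eq_mul, mul_div_assoc]
  · intro D D' u
    unfold dl
    rw [Derivation.add_apply, add_div]
  · intro B D hD u hu
    unfold dl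
    rw [show D (Complex.exp u) = 0 from hD _ hu, zero_div]
  · intro κ _ D w u
    have h := map_sum (AdlAux_hom D) (fun k => (w k : ℂ) * u k) Finset.univ
    exact h.trans (Finset.sum_congr rfl fun k _ => AdlAux_rat D (w k) (u k))
  · intro κ _ D w u
    exact AdlAux_sum Finset.univ D w u

end Pool.Agent.SG
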