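import Pool.Agent.Lib.MP_452a87_nt.SG.SpecB

/-!
# Theorem SG, Part B, module BBa: a basis of `F` with first element `1`
-/

set_option autoImplicit false

namespace Pool.Agent.SG

open MvPolynomial Pool.Agent.SMQ

namespace BBaAux

/-- Every element is a combination of `1` and the lifts of a basis of the quotient. -/
theorem exists_lift (e : ℕ) (K : Type) [Field K] [Algebra ℚ K] [FiniteDimensional ℚ K]
    (hfin : Module.finrank ℚ K = e + 1) :
    ∃ w : Fin e → K, LinearIndependent ℚ (Fin.cons 1 w : Fin (e + 1) → K) ∧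
      ∀ x : K, ∃ (q0 : ℚ) (q : Fin e → ℚ), x = q0 • (1 : K) + ∑ k, q k • w k := by
  classical
  let U : Submodule ℚ K := Submodule.span ℚ {(1 : K)}
  have h1 : Module.finrank ℚ (K ⧸ U) = e := by
    have h2 := Submodule.finrank_quotient_add_finrank U
    have h3 : Module.finrank ℚ U = 1 := finrank_span_singleton (one_ne_zero)
    omega
  let b : Module.Basis (Fin e) ℚ (K ⧸ U) := Module.finBasisOfFinrankEq ℚ (K ⧸ U) h1
  choose w hw using fun k => Submodule.mkQ_surjective U (b k)
  have hx : ∀ x : K, ∃ (q0 : ℚ) (q : Fin e → ℚ), x = q0 • (1 : K) + ∑ k, q k • w k := by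
    intro x
    have h2 : x - ∑ k, b.repr (U.mkQ x) k • w k ∈ U := by
      refine (Submodule.Quotient.mk_eq_zero U).1 ?_
      change U.mkQ _ = 0
      rw [map_sub, map_sum]
      simp only [map_smul, hw]
      rw [b.sum_repr, sub_self]
    obtain ⟨q0, hq0⟩ := Submodule.mem_span_singleton.1 h2
    refine ⟨q0, fun k => b.repr (U.mkQ x) k, ?_⟩
    rw [hq0]
    abel
  refine ⟨w, ?_, hx⟩
  refine linearIndependent_of_top_le_span_of_card_eq_finrank ?_ ?_
  · intro x _
    obtain ⟨q0, q, hq⟩ := hx x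
    rw [hq]
    refine Submodule.add_mem _ (Submodule.smul_mem _ _ (Submodule.subset_span ⟨0, rfl⟩))
      (Submodule.sum_mem _ fun k _ => Submodule.smul_mem _ _ (Submodule.subset_span ⟨k.succ, ?_⟩))
    rw [Fin.cons_succ]
  · rw [Fintype.card_fin, hfin]

end BBaAux

/-- **BBa.** -/
theorem pBBa : S_BBa := by
  intro e F hF hfin
  obtain ⟨w, hw, hx⟩ := BBaAux.exists_lift e F hfin
  refine ⟨fun k => (w k : ℂ), ?_, fun k => ⟨(w k).2, ?_⟩, ?_⟩
  · have h1 := hw.map' F.val.toLinearMap
      (LinearMap.ker_eq_bot.2 (fun x y h => Subtype.ext h))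
    have h2 : (F.val.toLinearMap ∘ (Fin.cons 1 w : Fin (e + 1) → F)) =
        (Fin.cons 1 (fun k => (w k : ℂ)) : Fin (e + 1) → ℂ) := by
      funext i
      refine Fin.cases ?_ (fun k => ?_) i
      · rfl
      · rfl
    rwa [h2] at h1
  · have h1 : IsAlgebraic ℚ (w k) := Algebra.IsAlgebraic.isAlgebraic (w k)
    exact h1.algebraMap
  · intro x hxF
    obtain ⟨q0, q, hq⟩ := hx ⟨x, hxF⟩
    refine ⟨q0, q, ?_⟩
    have h1 := congrArg (fun y : F => (y : ℂ)) hq
    simp only at h1
    rw [h1]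
    push_cast
    rw [Rat.smul_def, mul_one]
    refine congrArg (fun y => (q0 : ℂ) + y) (Finset.sum_congr rfl fun k _ => ?_)
    rw [Rat.smul_def]

end Pool.Agent.SG
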