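import Pool.Agent.Lib.MP_452a87_nt.SG.SpecB

/-!
# Theorem SG, Part B: a common choice of the derivations (helper27)
-/

set_option autoImplicit false

namespace Pool.Agent.SG

open MvPolynomial Pool.Agent.SMQ

theorem pBCh : S_BDt → S_Adl → S_BCh := by
  classical
  intro hB hA e ι _ u hu
  obtain ⟨-, -, -, -, -, -, hsum⟩ := hA
  have h1 : ∀ i, ∃ Dl : Fin e → Derivation ℚ ℂ ℂ, (dm Dl (u i)).det ≠ 0 :=
    fun i => (hB e (u i)).1 (hu i)
  choose Di hDi using h1
  let A : ι → Matrix (Fin e) (Fin e) (MvPolynomial ι ℂ) := fun i =>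
    Matrix.of fun a k => ∑ i' : ι, (X i' : MvPolynomial ι ℂ) * C (dl (Di i' a) (u i k))
  have hev : ∀ (i : ι) (c : ι → ℂ), MvPolynomial.eval c (A i).det =
      (dm (fun a => ∑ i' : ι, c i' • Di i' a) (u i)).det := by
    intro i c
    rw [RingHom.map_det]
    congr 1
    ext a k
    have h2 := hsum ι (fun i' => Di i' a) c (u i k)
    simp only [dm, A, RingHom.mapMatrix_apply, Matrix.map_apply, Matrix.of_apply, map_sum, map_mul,
      eval_X, eval_C]
    exact h2.symm
  have hne : ∀ i, (A i).det ≠ 0 := by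
    intro i h0
    have h2 := hev i (Pi.single i 1)
    rw [h0, map_zero] at h2
    apply hDi i
    rw [h2]
    congr 2
    funext a
    rw [Finset.sum_eq_single i]
    · simp
    · intro b _ hb
      simp [hb]
    · intro h
      exact absurd (Finset.mem_univ i) h
  have hprod : (∏ i : ι, (A i).det) ≠ 0 := Finset.prod_ne_zero_iff.mpr fun i _ => hne i
  have hc : ∃ c : ι → ℂ, MvPolynomial.eval c (∏ i : ι, (A i).det) ≠ 0 := by
    by_contra hcon
    apply hprod
    apply MvPolynomial.funext
    intro c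
    rw [map_zero]
    by_contra h
    exact hcon ⟨c, h⟩
  obtain ⟨c, hc⟩ := hc
  rw [map_prod] at hc
  refine ⟨fun a => ∑ i' : ι, c i' • Di i' a, fun i => ?_⟩
  rw [← hev i c]
  exact Finset.prod_ne_zero_iff.mp hc i (Finset.mem_univ i)

end Pool.Agent.SG
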