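import Pool.Agent.Lib.MP_452a87_nt.SG.SpecB

/-!
# Theorem SG, Part B, BDf: the difference of order `e` of the determinant
-/

set_option autoImplicit false

namespace Pool.Agent.SG

open MvPolynomial Pool.Agent.SMQ

namespace BDfAux

open Finset

variable {e : ℕ}

/-- the subsets which contain `R`, with signs -/
theorem sgn (R : Finset (Fin e)) :
    ∑ S : Finset (Fin e), (-1 : ℂ) ^ S.card * (if R ⊆ S then 1 else 0) =
      (-1) ^ e * (if R = univ then 1 else 0) := by
  classical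
  have h1 : ∑ S : Finset (Fin e), (-1 : ℂ) ^ S.card * (if R ⊆ S then 1 else 0) =
      ∑ T : Finset (Fin e), (-1 : ℂ) ^ Tᶜ.card * (if R ⊆ Tᶜ then 1 else 0) :=
    (Equiv.sum_comp (Equiv.mk compl compl (fun S => compl_compl S) (fun S => compl_compl S))
      (fun S : Finset (Fin e) => (-1 : ℂ) ^ S.card * (if R ⊆ S then 1 else 0))).symm
  have h2 : ∀ T : Finset (Fin e), (-1 : ℂ) ^ Tᶜ.card = (-1) ^ e * (-1) ^ T.card := by
    intro T
    have h3 : Tᶜ.card + T.card = e := by
      rw [add_comm, Finset.card_add_card_compl, Fintype.card_fin]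
    have h4 : (-1 : ℂ) ^ Tᶜ.card * (-1) ^ T.card = (-1) ^ e := by rw [← pow_add, h3]
    have h5 : (-1 : ℂ) ^ T.card * (-1) ^ T.card = 1 := by
      rw [← mul_pow]
      norm_num
    rw [← h4, mul_assoc, h5, mul_one]
  have h6 : ∀ T : Finset (Fin e), (R ⊆ Tᶜ) ↔ T ∈ Rᶜ.powerset := by
    intro T
    rw [Finset.mem_powerset]
    constructor
    · intro h
      rw [← compl_compl T]
      exact Finset.compl_subset_compl.2 h
    · intro h
      have h7 := Finset.compl_subset_compl.2 h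
      rwa [compl_compl] at h7
  have h8 : ∑ T ∈ Rᶜ.powerset, (-1 : ℤ) ^ T.card = if Rᶜ = ∅ then 1 else 0 :=
    Finset.sum_powerset_neg_one_pow_card
  have h9 : ∑ T ∈ Rᶜ.powerset, (-1 : ℂ) ^ T.card = if R = univ then 1 else 0 := by
    have h10 := congrArg (Int.cast : ℤ → ℂ) h8
    push_cast at h10
    rw [h10]
    simp only [Finset.compl_eq_empty_iff]
  rw [h1, ← h9, Finset.mul_sum]
  rw [← Finset.sum_filter_add_sum_filter_not univ (fun T : Finset (Fin e) => T ∈ Rᶜ.powerset)]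
  have h11 : ∑ T ∈ univ.filter (fun T : Finset (Fin e) => ¬ T ∈ Rᶜ.powerset),
      (-1 : ℂ) ^ Tᶜ.card * (if R ⊆ Tᶜ then 1 else 0) = 0 := by
    refine Finset.sum_eq_zero fun T hT => ?_
    rw [if_neg (fun h => (Finset.mem_filter.1 hT).2 ((h6 T).1 h)), mul_zero]
  rw [h11, add_zero, Finset.filter_mem_eq_inter, Finset.univ_inter]
  refine Finset.sum_congr rfl fun T hT => ?_
  rw [if_pos ((h6 T).2 hT), mul_one, h2]

/-- the summand of `φ` -/
def zz (x : Fin e → ℂ) (y : Fin e → Fin e → ℂ) (o : Option (Fin e)) (b : Fin e) : ℂ :=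
  o.elim (x b) (fun c => y c b)

/-- the condition on `S` -/
def rg (φ : Fin e → Option (Fin e)) : Finset (Fin e) :=
  univ.filter (fun c => ∃ b, φ b = some c)

theorem zprod (x : Fin e → ℂ) (y : Fin e → Fin e → ℂ) (S : Finset (Fin e)) :
    ∏ b, (x b + ∑ c ∈ S, y c b) =
      ∑ φ : Fin e → Option (Fin e), (∏ b, zz x y (φ b) b) * (if rg φ ⊆ S then 1 else 0) := by
  classical
  have h1 : ∀ b : Fin e, x b + ∑ c ∈ S, y c b =
      ∑ o : Option (Fin e), zz x y o b * o.elim 1 (fun c => if c ∈ S then 1 else 0) := by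
    intro b
    rw [Fintype.sum_option]
    congr 1
    · exact (mul_one _).symm
    · change ∑ c ∈ S, y c b = ∑ c : Fin e, y c b * (if c ∈ S then 1 else 0)
      simp only [mul_ite, mul_one, mul_zero, Finset.sum_ite_mem, Finset.univ_inter]
  have h2 : ∏ b, (x b + ∑ c ∈ S, y c b) =
      ∏ b, ∑ o : Option (Fin e), zz x y o b * o.elim 1 (fun c => if c ∈ S then 1 else 0) :=
    Finset.prod_congr rfl fun b _ => h1 b
  rw [h2, Finset.prod_univ_sum, Fintype.piFinset_univ]
  refine Finset.sum_congr rfl fun φ _ => ?_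
  rw [Finset.prod_mul_distrib]
  congr 1
  by_cases h3 : rg φ ⊆ S
  · rw [if_pos h3]
    refine Finset.prod_eq_one fun b _ => ?_
    cases hb : φ b with
    | none => rfl
    | some c =>
      change (if c ∈ S then (1 : ℂ) else 0) = 1
      rw [if_pos (h3 (Finset.mem_filter.2 ⟨Finset.mem_univ _, b, hb⟩))]
  · rw [if_neg h3]
    obtain ⟨c, hc, hcS⟩ := Finset.not_subset.1 h3
    obtain ⟨b, hb⟩ := (Finset.mem_filter.1 hc).2
    refine Finset.prod_eq_zero (Finset.mem_univ b) ?_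
    rw [hb]
    change (if c ∈ S then (1 : ℂ) else 0) = 0
    rw [if_neg hcS]

theorem rg_univ (φ : Fin e → Option (Fin e)) :
    rg φ = univ ↔ ∃ σ : Equiv.Perm (Fin e), (fun b => some (σ b)) = φ := by
  constructor
  · intro h
    have h1 : ∀ c, ∃ b, φ b = some c := fun c => by
      have h2 : c ∈ rg φ := by rw [h]; exact Finset.mem_univ c
      exact (Finset.mem_filter.1 h2).2
    choose g hg using h1
    have hinj : Function.Injective g := by
      intro c c' hcc
      have h3 := hg c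
      rw [hcc, hg c'] at h3
      exact (Option.some.inj h3).symm
    have hbij : Function.Bijective g := ⟨hinj, Finite.injective_iff_surjective.1 hinj⟩
    refine ⟨(Equiv.ofBijective g hbij).symm, ?_⟩
    funext b
    obtain ⟨c, rfl⟩ := hbij.2 b
    rw [hg c]
    congr 1
    exact (Equiv.ofBijective g hbij).symm_apply_apply c
  · rintro ⟨σ, rfl⟩
    refine Finset.eq_univ_iff_forall.2 fun c => Finset.mem_filter.2 ⟨Finset.mem_univ _, σ.symm c, ?_⟩
    change some (σ (σ.symm c)) = some c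
    rw [Equiv.apply_symm_apply]

/-- the alternating sum of a product of `e` sums -/
theorem ryser (x : Fin e → ℂ) (y : Fin e → Fin e → ℂ) :
    ∑ S : Finset (Fin e), (-1 : ℂ) ^ S.card * ∏ b, (x b + ∑ c ∈ S, y c b) =
      (-1) ^ e * ∑ σ : Equiv.Perm (Fin e), ∏ b, y (σ b) b := by
  classical
  have h1 : ∑ S : Finset (Fin e), (-1 : ℂ) ^ S.card * ∏ b, (x b + ∑ c ∈ S, y c b) =
      ∑ φ : Fin e → Option (Fin e), (∏ b, zz x y (φ b) b) *
        ∑ S : Finset (Fin e), (-1 : ℂ) ^ S.card * (if rg φ ⊆ S then 1 else 0) := by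
    simp_rw [zprod, Finset.mul_sum]
    rw [Finset.sum_comm]
    refine Finset.sum_congr rfl fun φ _ => Finset.sum_congr rfl fun S _ => ?_
    ring
  rw [h1]
  simp_rw [sgn]
  rw [Finset.mul_sum]
  have h2 : ∑ σ : Equiv.Perm (Fin e), (-1 : ℂ) ^ e * ∏ b, y (σ b) b =
      ∑ φ ∈ (univ : Finset (Equiv.Perm (Fin e))).image
        (fun σ => (fun b => some (σ b) : Fin e → Option (Fin e))),
        (∏ b, zz x y (φ b) b) * ((-1) ^ e * if rg φ = univ then 1 else 0) := by
    rw [Finset.sum_image]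
    · refine Finset.sum_congr rfl fun σ _ => ?_
      rw [if_pos ((rg_univ _).2 ⟨σ, rfl⟩), mul_one, mul_comm]
      rfl
    · intro σ _ σ' _ h
      refine Equiv.ext fun b => ?_
      exact Option.some.inj (congrFun h b)
  rw [h2]
  symm
  apply Finset.sum_subset (Finset.subset_univ _)
  intro φ _ hφ
  rw [if_neg, mul_zero, mul_zero]
  intro h
  obtain ⟨σ, hσ⟩ := (rg_univ φ).1 h
  exact hφ (Finset.mem_image.2 ⟨σ, Finset.mem_univ _, hσ⟩)

end BDfAux

theorem pBDf : S_BDf := by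
  classical
  intro e k M0 M h t ht
  have h1 : (-1 : ℂ) ^ e * ∑ σ : Equiv.Perm (Fin e),
      (Matrix.of fun a b => M (t (σ b)) a b).det =
      ∑ S : Finset (Fin e), (-1 : ℂ) ^ S.card * (M0 + ∑ c ∈ S, M (t c)).det := by
    simp_rw [Matrix.det_apply']
    rw [Finset.sum_comm, Finset.mul_sum]
    simp_rw [Finset.mul_sum (s := (Finset.univ : Finset (Equiv.Perm (Fin e))))]
    rw [Finset.sum_comm (s := (Finset.univ : Finset (Finset (Fin e))))]
    refine Finset.sum_congr rfl fun τ _ => ?_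
    have h2 := BDfAux.ryser (fun b => M0 (τ b) b) (fun c b => M (t c) (τ b) b)
    have h3 : ∀ S : Finset (Fin e), (-1 : ℂ) ^ S.card * (((Equiv.Perm.sign τ : ℤ) : ℂ) *
        ∏ b, (M0 + ∑ c ∈ S, M (t c)) (τ b) b) = ((Equiv.Perm.sign τ : ℤ) : ℂ) *
        ((-1 : ℂ) ^ S.card * ∏ b, (M0 (τ b) b + ∑ c ∈ S, M (t c) (τ b) b)) := by
      intro S
      have h4 : ∏ b, (M0 + ∑ c ∈ S, M (t c)) (τ b) b =
          ∏ b, (M0 (τ b) b + ∑ c ∈ S, M (t c) (τ b) b) := by
        refine Finset.prod_congr rfl fun b _ => ?_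
        rw [Matrix.add_apply, Matrix.sum_apply]
      rw [h4]
      ring
    have h8 : ∑ S : Finset (Fin e), (-1 : ℂ) ^ S.card * (((Equiv.Perm.sign τ : ℤ) : ℂ) *
        ∏ b, (M0 + ∑ c ∈ S, M (t c)) (τ b) b) = ((Equiv.Perm.sign τ : ℤ) : ℂ) *
        ((-1) ^ e * ∑ σ : Equiv.Perm (Fin e), ∏ b, M (t (σ b)) (τ b) b) := by
      rw [Finset.sum_congr rfl fun S _ => h3 S, ← Finset.mul_sum, h2]
    rw [h8, Finset.mul_sum, Finset.mul_sum]
    refine Finset.sum_congr rfl fun σ _ => ?_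
    simp only [Matrix.of_apply]
    ring
  have h5 : ∀ S : Finset (Fin e), (M0 + ∑ c ∈ S, M (t c)).det = 0 := by
    intro S
    have h6 := h (S.map ⟨t, ht⟩)
    rw [Finset.sum_map] at h6
    exact h6
  have h7 : (-1 : ℂ) ^ e * ∑ σ : Equiv.Perm (Fin e),
      (Matrix.of fun a b => M (t (σ b)) a b).det = 0 := by
    rw [h1]
    refine Finset.sum_eq_zero fun S _ => ?_
    rw [h5, mul_zero]
  rcases mul_eq_zero.1 h7 with h8 | h8
  · exact absurd h8 (pow_ne_zero _ (by norm_num))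
  · exact h8

end Pool.Agent.SG
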