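import Pool.Agent.Lib.MP_452a87_nt.SG.SpecB

/-!
# Algebraic independence and determinants of logarithmic derivatives
-/

set_option autoImplicit false

namespace Pool.Agent.SG

open Pool.Agent.SMQ

namespace BDtAux

lemma D_alg (D : Derivation ℚ ℂ ℂ) (z : ℂ) (hz : IsAlgebraic ℚ z) : D z = 0 := by
  have hint : IsIntegral ℚ z := hz.isIntegral
  have h1 : D (Polynomial.aeval z (minpoly ℚ z)) = Polynomial.aeval z (Polynomial.derivative (minpoly ℚ z)) • D z :=
    Derivation.map_aeval D (minpoly ℚ z) z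
  rw [minpoly.aeval, map_zero, smul_eq_mul] at h1
  have h2 : Polynomial.aeval z (Polynomial.derivative (minpoly ℚ z)) ≠ 0 :=
    (minpoly.irreducible hint).separable.aeval_derivative_ne_zero (minpoly.aeval ℚ z)
  rcases mul_eq_zero.mp h1.symm with h3 | h3
  · exact absurd h3 h2
  · exact h3

lemma det_eq {e : ℕ} (u : Fin e → ℂ) (Dl : Fin e → Derivation ℚ ℂ ℂ) :
    (Matrix.of fun a j => Dl a (Complex.exp (u j))).det = (∏ j, Complex.exp (u j)) * (dm Dl u).det := by
  have h1 : (Matrix.of fun a j => Dl a (Complex.exp (u j))) = Matrix.of fun a j => Complex.exp (u j) * dm Dl u a j := by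
    ext a j
    simp only [Matrix.of_apply, dm, dl]
    rw [mul_div_cancel₀ _ (Complex.exp_ne_zero _)]
  rw [h1, Matrix.det_mul_row]

end BDtAux

open BDtAux

theorem pBDt (hAIn : S_AIn) (hADu : S_ADu) (hAcl : S_Acl) : S_BDt := by
  intro e u
  constructor
  · intro h
    obtain ⟨Dl, hDl⟩ := hADu e _ h
    rw [det_eq] at hDl
    exact ⟨Dl, right_ne_zero_of_mul hDl⟩
  · rintro ⟨Dl, hDl⟩
    set b : Fin 0 → ℂ := Fin.elim0 with hb
    have hbi : AlgebraicIndependent ℚ b := algebraicIndependent_empty_type_iff.2 (algebraMap ℚ ℂ).injective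
    have hr : Set.range b = ∅ := Set.range_eq_empty b
    have hDB : ∀ a, Dl a ∈ DB (cl (Set.range b)) := by
      intro a z hz
      rw [hAcl.1, hr] at hz
      have h2 : Algebra.IsAlgebraic ℚ (IntermediateField.adjoin ℚ (∅ : Set ℂ)) := by
        rw [IntermediateField.adjoin_empty]
        infer_instance
      exact D_alg _ _ (hz.restrictScalars ℚ)
    have hdet : (Matrix.of fun a j => Dl a (Complex.exp (u j))).det ≠ 0 := by
      rw [det_eq]
      exact mul_ne_zero (Finset.prod_ne_zero_iff.mpr fun j _ => Complex.exp_ne_zero _) hDl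
    have h1 := hAIn 0 e b (fun j => Complex.exp (u j)) Dl hbi hDB hdet
    exact h1.comp Sum.inr Sum.inr_injective

end Pool.Agent.SG
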