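import Pool.Agent.Lib.MP_452a87_nt.SG.SpecB

/-!
# Theorem SG, Part B: the generic combination
-/

set_option autoImplicit false

namespace Pool.Agent.SG

open MvPolynomial Pool.Agent.SMQ

theorem pBFn : S_AMn → S_BDt → S_ANz → S_BFn := by
  intro hM hD hN e m v L hv halg hL hexp hm
  obtain ⟨n0, hn0⟩ := hM e m v L hv halg hL hexp hm
  obtain ⟨Dl, hDl⟩ := (hD e (fun k => v k * lq L n0)).1 hn0
  obtain ⟨P, hP, hdeg, hev⟩ := hN m e L Dl v ⟨n0, hDl⟩
  exact ⟨P, hP, hdeg, fun n hn => (hD e (fun k => v k * lq L n)).2 ⟨Dl, hev n hn⟩⟩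

end Pool.Agent.SG
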