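import Pool.Agent.Lib.MP_452a87_nt.SG.SpecB

/-!
# Theorem SG, module BLn: multilinear forms which vanish on distinct vectors
-/

set_option autoImplicit false

namespace Pool.Agent.SG

open MvPolynomial Pool.Agent.SMQ

namespace BLnAux

variable {k : ℕ} {V : Type} [AddCommGroup V] [Module ℂ V] (M : Fin k → V)

/-- the span of the vectors with index in `I` -/
def Sp (I : Finset (Fin k)) : Submodule ℂ V := Submodule.span ℂ (M '' (I : Set (Fin k)))

theorem sp_mono {I J : Finset (Fin k)} (h : I ⊆ J) : Sp M I ≤ Sp M J :=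
  Submodule.span_mono (Set.image_mono (Finset.coe_subset.2 h))

theorem mem_sp {I : Finset (Fin k)} {a : Fin k} (h : a ∈ I) : M a ∈ Sp M I :=
  Submodule.subset_span ⟨a, Finset.mem_coe.2 h, rfl⟩

variable [FiniteDimensional ℂ V]

/-- a robust subset -/
theorem robust (s : ℕ) (r : ℕ) : ∀ I0 : Finset (Fin k), Module.finrank ℂ (Sp M I0) ≤ r →
    ∃ I : Finset (Fin k), I0.card ≤ I.card + s * r ∧
      ∀ S : Finset (Fin k), S.card ≤ s → Sp M (I \ S) = Sp M I := by
  classical
  induction r with
  | zero =>
    intro I0 h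
    refine ⟨I0, by omega, fun S _ => ?_⟩
    have h1 : Sp M I0 = ⊥ := Submodule.finrank_eq_zero.1 (by omega)
    have h2 : Sp M (I0 \ S) ≤ Sp M I0 := sp_mono M Finset.sdiff_subset
    rw [h1] at h2 ⊢
    exact le_bot_iff.1 h2
  | succ r ih =>
    intro I0 h
    by_cases hr : ∀ S : Finset (Fin k), S.card ≤ s → Sp M (I0 \ S) = Sp M I0
    · exact ⟨I0, by omega, hr⟩
    · push Not at hr
      obtain ⟨S, hS, hne⟩ := hr
      have hlt : Sp M (I0 \ S) < Sp M I0 := lt_of_le_of_ne (sp_mono M Finset.sdiff_subset) hne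
      have h1 := Submodule.finrank_lt_finrank_of_lt hlt
      obtain ⟨I, hI1, hI2⟩ := ih (I0 \ S) (by omega)
      refine ⟨I, ?_, hI2⟩
      have h2 := Finset.card_le_card_sdiff_add_card (s := I0) (t := S)
      have h3 : s * (r + 1) = s * r + s := by ring
      omega

/-- a generating subset with at most `finrank V` elements -/
theorem small (N : ℕ) : ∀ A : Finset (Fin k), A.card ≤ N →
    ∃ B ⊆ A, B.card ≤ Module.finrank ℂ V ∧ Sp M B = Sp M A := by
  classical
  induction N with
  | zero =>
    intro A h
    exact ⟨A, Finset.Subset.refl _, by omega, rfl⟩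
  | succ N ih =>
    intro A h
    by_cases hA : A.card ≤ Module.finrank ℂ V
    · exact ⟨A, Finset.Subset.refl _, hA, rfl⟩
    · have hdep : ¬ LinearIndependent ℂ (fun a : A => M a) := by
        intro hli
        have h1 := hli.fintype_card_le_finrank
        rw [Fintype.card_coe] at h1
        exact hA h1
      rw [linearIndependent_iff_notMem_span] at hdep
      push Not at hdep
      obtain ⟨a, ha⟩ := hdep
      have h1 : M a ∈ Sp M (A.erase a) := by
        refine Submodule.span_mono ?_ ha
        rintro _ ⟨b, hb, rfl⟩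
        refine ⟨b, ?_, rfl⟩
        rw [Finset.mem_coe, Finset.mem_erase]
        exact ⟨fun h2 => hb.2 (Subtype.ext h2), b.2⟩
      have h2 : Sp M (A.erase a) = Sp M A := by
        refine le_antisymm (sp_mono M (Finset.erase_subset _ _)) ?_
        unfold Sp
        rw [Submodule.span_le]
        rintro _ ⟨b, hb, rfl⟩
        by_cases hba : b = a
        · rw [hba]
          exact h1
        · exact mem_sp M (Finset.mem_erase.2 ⟨hba, Finset.mem_coe.1 hb⟩)
      have h3 := Finset.card_erase_of_mem a.2
      obtain ⟨B, hB1, hB2, hB3⟩ := ih (A.erase a) (by omega)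
      exact ⟨B, hB1.trans (Finset.erase_subset _ _), hB2, hB3.trans h2⟩

/-- disjoint generating subsets -/
theorem disj (e : ℕ) (I : Finset (Fin k))
    (hI : ∀ S : Finset (Fin k), S.card ≤ e * Module.finrank ℂ V → Sp M (I \ S) = Sp M I) (j : ℕ) :
    j ≤ e → ∃ B : ℕ → Finset (Fin k), (∀ i, i < j → (B i).card ≤ Module.finrank ℂ V ∧
      Sp M (B i) = Sp M I) ∧ ∀ i i', i < i' → i' < j → Disjoint (B i) (B i') := by
  classical
  induction j with
  | zero =>
    intro _
    exact ⟨fun _ => ∅, fun i hi => absurd hi (Nat.not_lt_zero i),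
      fun i i' _ hi' => absurd hi' (Nat.not_lt_zero i')⟩
  | succ j ih =>
    intro hj
    obtain ⟨B, hB1, hB2⟩ := ih (by omega)
    obtain ⟨S, hS⟩ : ∃ S, S = (Finset.range j).biUnion B := ⟨_, rfl⟩
    have hSc : S.card ≤ e * Module.finrank ℂ V := by
      rw [hS]
      calc ((Finset.range j).biUnion B).card ≤ (Finset.range j).card * Module.finrank ℂ V :=
            Finset.card_biUnion_le_card_mul _ _ _ (fun i hi => (hB1 i (Finset.mem_range.1 hi)).1)
        _ ≤ e * Module.finrank ℂ V := by
            rw [Finset.card_range]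
            exact Nat.mul_le_mul_right _ (by omega)
    obtain ⟨B', h1, h2, h3⟩ := small M (I \ S).card (I \ S) le_rfl
    refine ⟨fun i => if i = j then B' else B i, ?_, ?_⟩
    · intro i hi
      by_cases hij : i = j
      · simp only [if_pos hij]
        exact ⟨h2, h3.trans (hI S hSc)⟩
      · simp only [if_neg hij]
        exact hB1 i (by omega)
    · intro i i' hii' hi'
      have hij : i ≠ j := by omega
      simp only [if_neg hij]
      by_cases hij' : i' = j
      · simp only [if_pos hij']
        rw [Finset.disjoint_left]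
        intro b hb hb'
        have h4 := (Finset.mem_sdiff.1 (h1 hb')).2
        apply h4
        rw [hS, Finset.mem_biUnion]
        exact ⟨i, Finset.mem_range.2 (by omega), hb⟩
      · simp only [if_neg hij']
        exact hB2 i i' hii' (by omega)

end BLnAux

open BLnAux

theorem pBLn : S_BLn := by
  classical
  intro e k m0 V _ _ _ M Φ hk hΦ
  obtain ⟨I, hI1, hI2⟩ := robust M (e * Module.finrank ℂ V) (Module.finrank ℂ V) Finset.univ
    (Submodule.finrank_le _)
  rw [Finset.card_univ, Fintype.card_fin] at hI1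
  refine ⟨I, by omega, fun x hx => ?_⟩
  obtain ⟨B, hB1, hB2⟩ := disj M e I hI2 e le_rfl
  have hx' : ∀ i : Fin e, ∃ c : Fin k → ℂ, ∑ b ∈ B i, c b • M b = x := by
    intro i
    have h1 : x ∈ Sp M (B i) := by
      rw [(hB1 i i.2).2]
      exact hx
    obtain ⟨c, hc⟩ := (Submodule.mem_span_image_finset_iff_exists_fun ℂ).1 h1
    refine ⟨fun b => if h : b ∈ B i then c ⟨b, h⟩ else 0, ?_⟩
    rw [← hc, ← Finset.sum_coe_sort (B i)]
    refine Finset.sum_congr rfl fun b _ => ?_
    simp only [dif_pos b.2]
  choose c hc using hx'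
  have h2 : (fun _ : Fin e => x) = fun i : Fin e => ∑ b ∈ B i, c i b • M b :=
    funext fun i => (hc i).symm
  rw [h2, MultilinearMap.map_sum_finset Φ (fun (i : Fin e) (b : Fin k) => c i b • M b)
    (fun i : Fin e => B i)]
  refine Finset.sum_eq_zero fun r hr => ?_
  rw [Fintype.mem_piFinset] at hr
  have hinj : Function.Injective r := by
    intro i i' hii'
    by_contra hne
    have hne' : (i : ℕ) ≠ i' := fun h => hne (Fin.ext h)
    rcases Nat.lt_or_gt_of_ne hne' with h | h
    · exact Finset.disjoint_left.1 (hB2 i i' h i'.2) (hr i) (by rw [hii']; exact hr i')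
    · exact Finset.disjoint_left.1 (hB2 i' i h i.2) (hr i') (by rw [← hii']; exact hr i)
  rw [MultilinearMap.map_smul_univ, hΦ r hinj, smul_zero]

end Pool.Agent.SG

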