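import Pool.Agent.Lib.MP_452a87_nt.SG.SpecB

/-!
# Theorem SG, BMn: the cube theorem

If all the vertices `L0 + ∑ l ∈ W, L l` of a large cube are bad, then for well chosen derivations the
determinants of the matrices `M0 + ∑ l ∈ W, M l` vanish, so the symmetrised (mixed) determinant vanishes at
distinct `M l`, so the determinant vanishes on the span of many `M l`, against the generic combination.
-/

set_option autoImplicit false

namespace Pool.Agent.SG

open MvPolynomial Pool.Agent.SMQ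

/-- The column `b` of a matrix, as a linear map. -/
private noncomputable def colLin (e : ℕ) (b : Fin e) : Matrix (Fin e) (Fin e) ℂ →ₗ[ℂ] (Fin e → ℂ) where
  toFun := fun X a => X a b
  map_add' := by
    intro X Y
    rfl
  map_smul' := by
    intro c X
    rfl

/-- The symmetrised determinant in the columns. -/
private noncomputable def PhiM (e : ℕ) :
    MultilinearMap ℂ (fun _ : Fin e => Matrix (Fin e) (Fin e) ℂ) ℂ :=
  ∑ σ : Equiv.Perm (Fin e), MultilinearMap.domDomCongr σ
    ((Matrix.detRowAlternating (n := Fin e) (R := ℂ)).toMultilinearMap.compLinearMap (colLin e))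

private theorem PhiM_apply (e : ℕ) (N : Fin e → Matrix (Fin e) (Fin e) ℂ) :
    PhiM e N = ∑ σ : Equiv.Perm (Fin e), (Matrix.of fun a b => N (σ b) a b).det := by
  unfold PhiM
  rw [_root_.sum_apply]
  refine Finset.sum_congr rfl fun σ _ => ?_
  rw [MultilinearMap.domDomCongr_apply, MultilinearMap.compLinearMap_apply]
  rw [← Matrix.det_transpose]
  rfl

private theorem PhiM_diag (e : ℕ) (x : Matrix (Fin e) (Fin e) ℂ) (h : PhiM e (fun _ => x) = 0) :
    x.det = 0 := by
  rw [PhiM_apply] at h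
  have h1 : ∀ σ : Equiv.Perm (Fin e), (Matrix.of fun a b => (fun _ : Fin e => x) (σ b) a b).det = x.det := by
    intro σ
    rfl
  rw [Finset.sum_congr rfl (fun σ _ => h1 σ), Finset.sum_const, nsmul_eq_mul, mul_eq_zero] at h
  rcases h with h | h
  · exfalso
    rw [Nat.cast_eq_zero, Finset.card_univ] at h
    exact Fintype.card_ne_zero h
  · exact h

private theorem dl_cube (hadd : ∀ D u v, dl D (u + v) = dl D u + dl D v) {κ : Type} (D : Derivation ℚ ℂ ℂ)
    (x : ℂ) (y : κ → ℂ) (W : Finset κ) : dl D (x + ∑ l ∈ W, y l) = dl D x + ∑ l ∈ W, dl D (y l) := by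
  classical
  induction W using Finset.induction_on with
  | empty => simp
  | insert a W ha ih =>
    rw [Finset.sum_insert ha, Finset.sum_insert ha, add_left_comm, hadd, ih, add_left_comm]

private theorem dm_cube (hadd : ∀ D u v, dl D (u + v) = dl D u + dl D v) {e k : ℕ}
    (D : Fin e → Derivation ℚ ℂ ℂ) (v : Fin e → ℂ) (L0 : ℂ) (L : Fin k → ℂ) (W : Finset (Fin k)) :
    dm D (fun j => v j * L0) + ∑ l ∈ W, dm D (fun j => v j * L l) =
      dm D (fun j => v j * (L0 + ∑ l ∈ W, L l)) := by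
  ext a j
  rw [Matrix.add_apply, Matrix.sum_apply]
  simp only [dm, Matrix.of_apply]
  rw [mul_add, Finset.mul_sum, dl_cube hadd]

private theorem dm_comb
    (hsum : ∀ (κ : Type) [Fintype κ] (D : Derivation ℚ ℂ ℂ) (w : κ → ℚ) (u : κ → ℂ),
      dl D (∑ k, (w k : ℂ) * u k) = ∑ k, (w k : ℂ) * dl D (u k)) {e m : ℕ}
    (D : Fin e → Derivation ℚ ℂ ℂ) (v : Fin e → ℂ) (L : Fin m → ℂ) (n : Fin m → ℚ) :
    dm D (fun j => v j * lq L n) = ∑ i, (n i : ℂ) • dm D (fun j => v j * L i) := by
  ext a j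
  rw [Matrix.sum_apply]
  simp only [dm, Matrix.of_apply, Matrix.smul_apply, smul_eq_mul, lq]
  rw [← hsum]
  have h : v j * ∑ i, (n i : ℂ) * L i = ∑ i, (n i : ℂ) * (v j * L i) := by
    rw [Finset.mul_sum]
    refine Finset.sum_congr rfl fun i _ => ?_
    ring
  rw [h]

/-- (BMn) The cube theorem. -/
theorem pBMn : S_AMn → S_BDt → S_BCh → S_BDf → S_BLn → S_Adl → S_BMn := by
  intro hAMn hBDt hBCh hBDf hBLn hAdl e k v L0 L hv hva hL hLa hk
  obtain ⟨hadd, -, -, -, -, hsum, -⟩ := hAdl
  by_contra hcon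
  have hcon' : ∀ W : Finset (Fin k),
      ¬ AlgebraicIndependent ℚ (fun j => Complex.exp (v j * (L0 + ∑ l ∈ W, L l))) :=
    fun W hW => hcon ⟨W, hW⟩
  have hf : ∀ f : {f : Fin (6 * (e + 1) ^ 2) → Fin k // Function.Injective f},
      ∃ n : Fin (6 * (e + 1) ^ 2) → ℚ,
        AlgebraicIndependent ℚ (fun j => Complex.exp (v j * lq (fun i => L (f.1 i)) n)) := by
    intro f
    exact hAMn e _ v (fun i => L (f.1 i)) hv hva (hL.comp f.1 f.2) (fun i => hLa _) le_rfl
  choose n hn using hf
  obtain ⟨Dl, hDl⟩ := hBCh e {f : Fin (6 * (e + 1) ^ 2) → Fin k // Function.Injective f}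
    (fun f j => v j * lq (fun i => L (f.1 i)) (n f)) hn
  have hdet : ∀ W : Finset (Fin k),
      (dm Dl (fun j => v j * L0) + ∑ l ∈ W, dm Dl (fun j => v j * L l)).det = 0 := by
    intro W
    rw [dm_cube hadd]
    by_contra hne
    exact hcon' W ((hBDt e _).2 ⟨Dl, hne⟩)
  have hmix := hBDf e k (dm Dl (fun j => v j * L0)) (fun l => dm Dl (fun j => v j * L l)) hdet
  have hfin : Module.finrank ℂ (Matrix (Fin e) (Fin e) ℂ) = e * e := by
    rw [Module.finrank_matrix, Fintype.card_fin, Module.finrank_self, mul_one]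
  obtain ⟨I, hI, hspan⟩ := hBLn e k (6 * (e + 1) ^ 2) (Matrix (Fin e) (Fin e) ℂ)
    (fun l => dm Dl (fun j => v j * L l)) (PhiM e) (by rw [hfin]; exact hk)
    (by
      intro t ht
      rw [PhiM_apply]
      exact hmix t ht)
  have hinj : Function.Injective (fun i : Fin (6 * (e + 1) ^ 2) =>
      I.orderEmbOfFin rfl (Fin.castLE hI i)) := by
    intro i j hij
    exact Fin.castLE_injective hI ((I.orderEmbOfFin rfl).injective hij)
  have hne := hDl ⟨fun i => I.orderEmbOfFin rfl (Fin.castLE hI i), hinj⟩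
  apply hne
  apply PhiM_diag
  apply hspan
  rw [dm_comb hsum]
  refine Submodule.sum_mem _ fun i _ => Submodule.smul_mem _ _ (Submodule.subset_span ?_)
  exact ⟨_, Finset.mem_coe.2 (Finset.orderEmbOfFin_mem I rfl (Fin.castLE hI i)), rfl⟩

end Pool.Agent.SG
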