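import Pool.Agent.Lib.MP_452a87_nt.SG.SpecC

/-!
# Theorem SG, part BTh: natural density
-/

set_option autoImplicit false

namespace Pool.Agent.SG

open MvPolynomial Pool.Agent.SMQ

private theorem BTh_count (X : ℕ) (P : ℕ → Prop) :
    Set.ncard {a : Fin 1 → ℕ | (∀ i, 1 ≤ a i ∧ a i ≤ X) ∧ P (a 0)} =
      Set.ncard {a : ℕ | 1 ≤ a ∧ a ≤ X ∧ P a} := by
  have hf : Function.Injective (fun (a : ℕ) (_ : Fin 1) => a) := by
    intro a b h
    exact congrFun h 0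
  rw [← Set.ncard_image_of_injective _ hf]
  congr 1
  ext a
  simp only [Set.mem_setOf_eq, Set.mem_image]
  constructor
  · rintro ⟨h1, h2⟩
    refine ⟨a 0, ⟨(h1 0).1, (h1 0).2, h2⟩, ?_⟩
    funext i
    rw [Subsingleton.elim i 0]
  · rintro ⟨b, ⟨h1, h2, h3⟩, rfl⟩
    exact ⟨fun _ => ⟨h1, h2⟩, h3⟩

private theorem BTh_log (k c : ℕ) (q : Bool → Fin k → ℕ) (hc : 1 ≤ c)
    (hq : ∀ s l, (q s l).Prime) (W : Finset (Fin k)) :
    Real.log ((c * ∏ l, q (decide (l ∈ W)) l : ℕ) : ℝ) =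
      (Real.log c + ∑ l, Real.log (q false l)) +
        ∑ l ∈ W, (Real.log (q true l) - Real.log (q false l)) := by
  have hc0 : (c : ℝ) ≠ 0 := by exact_mod_cast (by omega : c ≠ 0)
  have hq0 : ∀ s l, ((q s l : ℕ) : ℝ) ≠ 0 := fun s l => by exact_mod_cast (hq s l).ne_zero
  rw [Nat.cast_mul, Nat.cast_prod, Real.log_mul hc0
    (Finset.prod_ne_zero_iff.2 fun l _ => hq0 _ l), Real.log_prod (fun l _ => hq0 _ l), add_assoc]
  congr 1
  have h1 : ∑ l ∈ W, (Real.log (q true l) - Real.log (q false l)) =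
      ∑ l, if l ∈ W then (Real.log (q true l) - Real.log (q false l)) else 0 := by
    rw [Finset.sum_ite_mem, Finset.univ_inter]
  rw [h1, ← Finset.sum_add_distrib]
  refine Finset.sum_congr rfl fun l _ => ?_
  by_cases h : l ∈ W
  · simp [h]
  · simp [h]

/-- Theorem (B): natural density. -/
theorem pBTh : S_BMn → S_EIt → S_BLg → S_BVf → S_BBa → S_BTh := by
  intro hMn hIt hLg hVf hBa e ε hε
  obtain ⟨X0, hX0⟩ := hIt 1 (e * (e * e) * (e * e) + 6 * (e + 1) ^ 2) (min ε 1)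
    (lt_min hε one_pos) (min_le_right _ _)
  refine ⟨X0, fun X hX F hF hFe l0 hl0 => ?_⟩
  by_contra hcon
  rw [not_le] at hcon
  have hcount : min ε 1 * (X : ℝ) ^ 1 ≤
      (Set.ncard {a : Fin 1 → ℕ | (∀ i, 1 ≤ a i ∧ a i ≤ X) ∧
        ¬ Good F (l0 + ((Real.log (a 0 : ℕ) : ℝ) : ℂ))} : ℝ) := by
    rw [BTh_count X (fun a => ¬ Good F (l0 + ((Real.log (a : ℕ) : ℝ) : ℂ))), pow_one]
    refine le_trans ?_ hcon.le
    exact mul_le_mul_of_nonneg_right (min_le_left _ _) (Nat.cast_nonneg X)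
  obtain ⟨c, q, hc, hq, hinj, hW⟩ := hX0 X hX
    (fun a => ¬ Good F (l0 + ((Real.log (a 0 : ℕ) : ℝ) : ℂ))) hcount
  obtain ⟨v, hv1, hv2, hv3⟩ := hBa e F hF hFe
  have hinj' : Function.Injective (fun p : Bool × Fin (e * (e * e) * (e * e) + 6 * (e + 1) ^ 2) =>
      q p.1 0 p.2) := by
    rintro ⟨s, l⟩ ⟨s', l'⟩ h
    have h1 := @hinj (s, 0, l) (s', 0, l') h
    simp only [Prod.mk.injEq, true_and] at h1
    exact Prod.ext h1.1 h1.2
  obtain ⟨hL1, hL2⟩ := hLg _ (fun s l => q s 0 l) (fun s l => hq s 0 l) hinj'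
  obtain ⟨W, hWai⟩ := hMn e _ v
    (l0 + ((Real.log (c 0) + ∑ l, Real.log (q false 0 l) : ℝ) : ℂ)) _ hv1
    (fun j => (hv2 j).2) hL1 hL2 le_rfl
  have hlog := BTh_log _ (c 0) (fun s l => q s 0 l) (hc 0) (fun s l => hq s 0 l) W
  have hsum : (l0 + ((Real.log (c 0) + ∑ l, Real.log (q false 0 l) : ℝ) : ℂ)) +
      ∑ l ∈ W, ((Real.log (q true 0 l) - Real.log (q false 0 l) : ℝ) : ℂ) =
      l0 + ((Real.log ((c 0 * ∏ l, q (decide (l ∈ W)) 0 l : ℕ) : ℝ) : ℝ) : ℂ) := by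
    rw [hlog]
    push_cast
    ring
  rw [hsum] at hWai
  have hpos : 0 < c 0 * ∏ l, q (decide (l ∈ W)) 0 l :=
    Nat.mul_pos (by have := hc 0; omega) (Finset.prod_pos fun l _ => (hq _ 0 l).pos)
  have halg : IsAlgebraic ℚ (Complex.exp
      (l0 + ((Real.log ((c 0 * ∏ l, q (decide (l ∈ W)) 0 l : ℕ) : ℝ) : ℝ) : ℂ))) := by
    rw [Complex.exp_add, ← Complex.ofReal_exp, Real.exp_log (by exact_mod_cast hpos),
      Complex.ofReal_natCast]
    exact hl0.mul (isAlgebraic_natCast _)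
  exact hW (fun _ => W) (hVf e F v _ hv1 hv2 hv3 halg hWai)

end Pool.Agent.SG
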