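import Pool.Agent.Lib.MP_452a87_nt.SG.SpecB

/-!
# Theorem SG, part (A), polynomial form
-/

set_option autoImplicit false

namespace Pool.Agent.SG

/-- THEOREM (A), polynomial form: the exceptional combinations lie on a hypersurface of degree at most `e`. -/
def S_BTp : Prop :=
  ∀ (e m : ℕ) (F : IntermediateField ℚ ℂ), FiniteDimensional ℚ F → Module.finrank ℚ F = e + 1 → 6 * (e + 1) ^ 2 ≤ m →
    ∀ L : Fin m → ℂ, LinearIndependent ℚ L → (∀ i, IsAlgebraic ℚ (Complex.exp (L i))) →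
    ∃ P : MvPolynomial (Fin m) ℚ, P ≠ 0 ∧ P.totalDegree ≤ e ∧
      ∀ n : Fin m → ℚ, MvPolynomial.eval n P ≠ 0 → Good F (∑ i, (n i : ℂ) * L i)

theorem pBTp (hAcl : S_Acl) (hAEx : S_AEx) (hBBa : S_BBa) (hBVf : S_BVf) (hBFn : S_BFn) : S_BTp := by
  intro e m F hfd hF hm L hL hLa
  obtain ⟨v, hv1, hv2, hv3⟩ := hBBa e F hfd hF
  obtain ⟨P, hP0, hPd, hP⟩ := hBFn e m v L hv1 (fun k => (hv2 k).2) hL hLa hm
  refine ⟨P, hP0, hPd, fun n hn => ?_⟩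
  refine hBVf e F v _ hv1 hv2 hv3 ?_ (hP n hn)
  have hcl : Cl (cl (∅ : Set ℂ)) := hAcl.2.1 ∅
  have h1 : Complex.exp (∑ i, (n i : ℂ) * L i) ∈ cl (∅ : Set ℂ) :=
    hAEx.2.2 _ hcl (Fin m) n L (fun k => hAEx.2.1 _ hcl _ (hLa k))
  rw [hAcl.1] at h1
  have h2 : Algebra.IsAlgebraic ℚ (IntermediateField.adjoin ℚ (∅ : Set ℂ)) := by
    rw [IntermediateField.adjoin_empty]
    infer_instance
  exact h1.restrictScalars ℚ

end Pool.Agent.SG
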