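import Pool.Agent.Lib.MP_452a87_nt.SG.SpecB

/-!
# Theorem SG, Part B: from a basis to the powers of `β` (task BVf)
-/

set_option autoImplicit false

namespace Pool.Agent.SG

open MvPolynomial Pool.Agent.SMQ

namespace BVfAux

private lemma alg_sum {e : ℕ} (v : Fin e → ℂ) (hv : ∀ k, IsAlgebraic ℚ (v k)) (q0 : ℚ) (q : Fin e → ℚ) :
    IsAlgebraic ℚ ((q0 : ℂ) + ∑ k, (q k : ℂ) * v k) := by
  rw [isAlgebraic_iff_isIntegral]
  have h0 : ∀ r : ℚ, IsIntegral ℚ ((r : ℚ) : ℂ) := by
    intro r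
    have := isIntegral_algebraMap (R := ℚ) (A := ℂ) (x := r)
    simpa using this
  refine IsIntegral.add (h0 q0) (IsIntegral.sum _ fun k _ => ?_)
  exact IsIntegral.mul (h0 (q k)) (isAlgebraic_iff_isIntegral.mp (hv k))

/-- A linearly independent set containing `s` and spanning `t`. -/
private lemma ext_set {e d : ℕ} (v : Fin e → ℂ) (p : Fin d → ℂ) (hp : LinearIndependent ℚ p)
    (hspan : ∀ i, p i ∈ Submodule.span ℚ (Set.range (Fin.cons 1 v : Fin (e + 1) → ℂ))) :
    ∃ b : Set ℂ, b.Finite ∧ Set.range p ⊆ b ∧ (∀ k, v k ∈ Submodule.span ℚ b) ∧ b.ncard ≤ e + 1 := by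
  classical
  have hs : LinearIndepOn ℚ id (Set.range p) := hp.linearIndepOn_id
  have hst : Set.range p ⊆ Set.range p ∪ Set.range v := Set.subset_union_left
  obtain ⟨b, hbt, hsb, htb, hb⟩ := exists_linearIndepOn_id_extension hs hst
  have hfin : b.Finite := Set.Finite.subset ((Set.finite_range p).union (Set.finite_range v)) hbt
  refine ⟨b, hfin, hsb, fun k => htb (Or.inr ⟨k, rfl⟩), ?_⟩
  set W : Submodule ℚ ℂ := Submodule.span ℚ (Set.range (Fin.cons 1 v : Fin (e + 1) → ℂ)) with hW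
  haveI : Module.Finite ℚ W := by
    rw [hW]
    exact Module.Finite.span_of_finite ℚ (Set.finite_range _)
  have hbW : ∀ x : b, (x : ℂ) ∈ W := by
    intro x
    rcases hbt x.2 with ⟨i, hi⟩ | ⟨k, hk⟩
    · rw [← hi]; exact hspan i
    · rw [← hk]
      refine Submodule.subset_span ⟨k.succ, ?_⟩
      simp
  haveI : Fintype b := hfin.fintype
  have hli : LinearIndependent ℚ (fun x : b => (⟨x, hbW x⟩ : W)) := by
    refine LinearIndependent.of_comp W.subtype ?_
    exact hb
  have h1 := hli.fintype_card_le_finrank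
  have h2 : Module.finrank ℚ W ≤ e + 1 := by
    have := finrank_range_le_card (R := ℚ) (Fin.cons 1 v : Fin (e + 1) → ℂ)
    simpa [Set.finrank, hW] using this
  have h3 : b.ncard = Fintype.card b := by
    rw [← Nat.card_coe_set_eq, Nat.card_eq_fintype_card]
  omega

end BVfAux

open BVfAux in
theorem pBVf : S_ATc → S_AEx → S_Acl → S_BVf := by
  intro hATc hAEx hAcl e F v l _hlin hvF hrep halg hind β hβ _hirr
  classical
  obtain ⟨hE1, hE2, -⟩ := hAEx
  obtain ⟨-, hC1, hC2, -, -⟩ := hAcl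
  set d := (minpoly ℚ β).natDegree with hd
  have hβalg : IsAlgebraic ℚ β := by
    obtain ⟨q0, q, hq⟩ := hrep β hβ
    rw [hq]
    exact alg_sum v (fun k => (hvF k).2) q0 q
  have hβint : IsIntegral ℚ β := isAlgebraic_iff_isIntegral.mp hβalg
  have hdpos : 0 < d := minpoly.natDegree_pos hβint
  have hp : LinearIndependent ℚ (fun i : Fin d => β ^ (i : ℕ)) := linearIndependent_pow β
  have hspan : ∀ x ∈ F, x ∈ Submodule.span ℚ (Set.range (Fin.cons 1 v : Fin (e + 1) → ℂ)) := by
    intro x hx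
    obtain ⟨q0, q, hq⟩ := hrep x hx
    rw [hq]
    refine Submodule.add_mem _ ?_ (Submodule.sum_mem _ fun k _ => ?_)
    · have h1 : (1 : ℂ) ∈ Submodule.span ℚ (Set.range (Fin.cons 1 v : Fin (e + 1) → ℂ)) :=
        Submodule.subset_span ⟨0, by simp⟩
      have := Submodule.smul_mem _ q0 h1
      rwa [Rat.smul_def, mul_one] at this
    · have h1 : v k ∈ Submodule.span ℚ (Set.range (Fin.cons 1 v : Fin (e + 1) → ℂ)) :=
        Submodule.subset_span ⟨k.succ, by simp⟩
      have := Submodule.smul_mem _ (q k) h1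
      rwa [Rat.smul_def] at this
  obtain ⟨b, hbfin, hpb, hvb, hbcard⟩ := ext_set v (fun i : Fin d => β ^ (i : ℕ)) hp
    (fun i => hspan _ (pow_mem hβ _))
  have h1b : (1 : ℂ) ∈ b := hpb ⟨⟨0, hdpos⟩, by simp⟩
  -- the index type
  let κ : Type := ↥(b \ {1})
  haveI : Fintype κ := (hbfin.subset Set.sdiff_subset : (b \ {1}).Finite).fintype
  have hcard : Fintype.card κ ≤ Fintype.card (Fin e) := by
    have h3 : Fintype.card κ = (b \ {1}).ncard := by
      rw [← Nat.card_coe_set_eq, Nat.card_eq_fintype_card]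
    have h4 : (b \ {1}).ncard = b.ncard - 1 := Set.ncard_sdiff_singleton_of_mem h1b
    rw [Fintype.card_fin]
    omega
  let g : κ → ℂ := fun y => Complex.exp ((y : ℂ) * l)
  have hB := hC1 (Set.range g)
  obtain ⟨U, hU⟩ := hE1 (cl (Set.range g)) hB
  have hmem : ∀ x ∈ Submodule.span ℚ b, x * l ∈ U := by
    intro x hx
    let U' : Submodule ℚ ℂ := U.comap (LinearMap.mulRight ℚ l)
    have hle : Submodule.span ℚ b ≤ U' := by
      rw [Submodule.span_le]
      intro y hy
      change LinearMap.mulRight ℚ l y ∈ U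
      rw [LinearMap.mulRight_apply, hU]
      by_cases hy1 : y = 1
      · rw [hy1, one_mul]
        exact hE2 _ hB _ halg
      · exact hC2 (Set.range g) ⟨⟨y, hy, hy1⟩, rfl⟩
    have := hle hx
    change LinearMap.mulRight ℚ l x ∈ U at this
    rwa [LinearMap.mulRight_apply] at this
  have hgi : AlgebraicIndependent ℚ g :=
    (hATc (Fin e) κ (fun k => Complex.exp (v k * l)) g hind
      (fun k => (hU _).mp (hmem _ (hvb k)))).2 hcard
  -- the subfamily
  have hne : ∀ i : Fin (d - 1), β ^ ((i : ℕ) + 1) ∈ b \ {1} := by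
    intro i
    have hi : (i : ℕ) + 1 < d := by have := i.2; omega
    refine ⟨hpb ⟨⟨(i : ℕ) + 1, hi⟩, rfl⟩, ?_⟩
    intro h
    have h' : β ^ ((i : ℕ) + 1) = 1 := h
    have := hp.injective (a₁ := ⟨(i : ℕ) + 1, hi⟩) (a₂ := ⟨0, hdpos⟩) (by simpa using h')
    simp at this
  let f : Fin (d - 1) → κ := fun i => ⟨β ^ ((i : ℕ) + 1), hne i⟩
  have hf : Function.Injective f := by
    intro i j hij
    have h1 : β ^ ((i : ℕ) + 1) = β ^ ((j : ℕ) + 1) := congrArg Subtype.val hij
    have hi : (i : ℕ) + 1 < d := by have := i.2; omega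
    have hj : (j : ℕ) + 1 < d := by have := j.2; omega
    have := hp.injective (a₁ := ⟨(i : ℕ) + 1, hi⟩) (a₂ := ⟨(j : ℕ) + 1, hj⟩) h1
    simp only [Fin.mk.injEq] at this
    exact Fin.ext (by omega)
  exact hgi.comp f hf

end Pool.Agent.SG
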