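import Pool.Agent.Lib.MP_452a87_nt.SG.SpecT

/-!
# The auxiliary polynomial for a specialization with a near zero
-/

set_option autoImplicit false

namespace Pool.Agent.SG

open MvPolynomial Pool.Agent.SMQ

namespace TAfAux

lemma mon_eq {ι : Type} [Fintype ι] (c : ι → ℕ) :
    (∏ W, (X W : MvPolynomial ι ℤ) ^ c W) = monomial (Finsupp.equivFunOnFinite.symm c) 1 := by
  classical
  rw [monomial_eq]
  simp only [map_one, one_mul]
  rw [Finsupp.prod_fintype _ _ (fun i => pow_zero _)]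
  rfl

lemma totalDegree_mon {p q : ℕ} (c : Fin p × Fin q → ℕ) (K : ℕ) (hB : ∀ W, c W ≤ K) :
    (∏ W, (X W : MvPolynomial (Fin p × Fin q) ℤ) ^ c W).totalDegree ≤ p * q * K := by
  refine (totalDegree_finsetProd _ _).trans ?_
  calc ∑ W : Fin p × Fin q, ((X W : MvPolynomial (Fin p × Fin q) ℤ) ^ c W).totalDegree
      ≤ ∑ _W : Fin p × Fin q, K := by
        refine Finset.sum_le_sum fun W _ => ?_
        refine (totalDegree_pow _ _).trans ?_
        rw [totalDegree_X, mul_one]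
        exact hB W
    _ = p * q * K := by
        rw [Finset.sum_const, Finset.card_univ, Fintype.card_prod, Fintype.card_fin, Fintype.card_fin, smul_eq_mul]

lemma coeff_mul_mon {ι : Type} [Fintype ι] (P : MvPolynomial ι ℤ) (c : ι → ℕ) (B : ℤ) (hB0 : 0 ≤ B)
    (hB : ∀ μ, |P.coeff μ| ≤ B) (ν : ι →₀ ℕ) : |(P * ∏ W, (X W : MvPolynomial ι ℤ) ^ c W).coeff ν| ≤ B := by
  rw [mon_eq, coeff_mul_monomial']
  split_ifs
  · rw [mul_one]
    exact hB _
  · rw [abs_zero]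
    exact hB0

/-- Size of the auxiliary polynomials. -/
lemma Sz_fq {p q : ℕ} (B T : ℕ) (d : ℕ) (P : (Fin q → Fin B) → MvPolynomial (Fin p × Fin q) ℤ) (hP : ∀ lam, Sz (P lam) d)
    (s : Fin p → ℕ) (hs : ∀ i, s i < T) :
    Sz (fq B P s) (d + p * q * (T * B) + q * B) := by
  have hcv : ∀ (lam : Fin q → Fin B) (W : Fin p × Fin q), s W.1 * (lam W.2 : ℕ) ≤ T * B :=
    fun lam W => Nat.mul_le_mul (hs W.1).le (lam W.2).2.le
  constructor
  · unfold fq
    refine (totalDegree_finsetSum _ _).trans ?_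
    refine Finset.sup_le fun lam _ => ?_
    refine (totalDegree_mul _ _).trans ?_
    have h1 := (hP lam).1
    have h2 := totalDegree_mon (fun W : Fin p × Fin q => s W.1 * (lam W.2 : ℕ)) (T * B) (hcv lam)
    omega
  · intro ν
    unfold fq
    rw [coeff_sum]
    refine (Finset.abs_sum_le_sum_abs _ _).trans ?_
    have h1 : ∀ lam : Fin q → Fin B,
        |(P lam * ∏ W : Fin p × Fin q, (X W : MvPolynomial (Fin p × Fin q) ℤ) ^ (s W.1 * (lam W.2 : ℕ))).coeff ν| ≤ 2 ^ d :=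
      fun lam => coeff_mul_mon (P lam) _ _ (by positivity) (hP lam).2 ν
    refine (Finset.sum_le_sum fun lam _ => h1 lam).trans ?_
    rw [Finset.sum_const, Finset.card_univ, Fintype.card_fun, Fintype.card_fin, Fintype.card_fin, nsmul_eq_mul]
    have h2 : (B : ℤ) ^ q ≤ 2 ^ (q * B) := by
      have h3 : B ≤ 2 ^ B := (Nat.lt_two_pow_self (n := B)).le
      have h4 : B ^ q ≤ (2 ^ B) ^ q := Nat.pow_le_pow_left h3 _
      rw [← pow_mul, mul_comm B] at h4
      exact_mod_cast h4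
    push_cast
    calc (B : ℤ) ^ q * 2 ^ d ≤ 2 ^ (q * B) * 2 ^ d := mul_le_mul_of_nonneg_right h2 (by positivity)
      _ = 2 ^ (d + q * B) := by rw [← pow_add]; congr 1; ring
      _ ≤ 2 ^ (d + p * q * (T * B) + q * B) := by
          apply pow_le_pow_right₀ (by norm_num)
          omega

lemma Sz_mono {ι : Type} (f : MvPolynomial ι ℤ) (d d' : ℕ) (h : d ≤ d') (hf : Sz f d) : Sz f d' :=
  ⟨hf.1.trans h, fun μ => (hf.2 μ).trans (pow_le_pow_right₀ (by norm_num) h)⟩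

lemma two_pow_le (n : ℕ) : (2 : ℝ) ^ n ≤ Real.exp n := by
  have h2 : (2 : ℝ) ≤ Real.exp 1 := by
    have := Real.add_one_le_exp (1 : ℝ)
    linarith
  calc (2 : ℝ) ^ n ≤ Real.exp 1 ^ n := pow_le_pow_left₀ (by norm_num) h2 _
    _ = Real.exp n := by rw [← Real.exp_nat_mul, mul_one]

lemma pow_le_exp (Y : ℝ) (hY : 0 ≤ Y) (d : ℕ) : Y ^ d ≤ Real.exp (Y * d) := by
  have h : Y ≤ Real.exp Y := by
    have := Real.add_one_le_exp Y
    linarith
  calc Y ^ d ≤ Real.exp Y ^ d := pow_le_pow_left₀ hY h _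
    _ = Real.exp (Y * d) := by rw [← Real.exp_nat_mul, mul_comm]

end TAfAux

open TAfAux

theorem pTAf (hTPg : S_TPg) (hTX1 : S_TX1) (hTX2 : S_TX2) (hTEv : S_TEv) (hLip : S_Lip) (hL1s : S_L1s) (hLDf : S_LDf) : S_TAf := by
  classical
  intro p q h x L hq hh hDat
  have hp2 : 2 ≤ p := by
    by_contra hlt
    have h1 : p ≤ 1 := by omega
    have h2 : h * p ≤ h * 1 := Nat.mul_le_mul_left _ h1
    omega
  obtain ⟨M, C0, B3, hM1, hC01, hPg⟩ := hTPg p q h hp2 hq
  obtain ⟨c, hc0, hX1⟩ := hTX1 p q h M x L hq hh hDat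
  obtain ⟨N2, hX2⟩ := hTX2 p q h x L hq (by omega) hDat
  set D : ℕ := h * p with hD
  set nn : ℕ := Fintype.card (Fin p × Fin q) with hnn
  set θ := tq x L with hθ
  set Y : ℝ := ‖θ‖ + 1 with hY
  have hY1 : 1 ≤ Y := by
    have := norm_nonneg θ
    linarith
  obtain ⟨C', hC'1, hDf⟩ := hLDf (Fin p × Fin q) Y hY1
  set CP : ℝ := (C' + Y) * C0 with hCP
  obtain ⟨N1, hN1⟩ := hX1 CP
  set C1 : ℕ := C0 + p * q * 2 + q with hC1
  set C2 : ℕ := ⌈(nn + 2 + Y) * C1⌉₊ with hC2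
  refine ⟨C1 + C2, c, 1 + B3 + N1 + N2 + 2 * C2, by omega, hc0, fun N hN ξ z0 hSpc hz0 => ?_⟩
  have hNpos : 1 ≤ N := by omega
  have hNr : (1 : ℝ) ≤ N := by exact_mod_cast hNpos
  obtain ⟨P, hPsz, ⟨lam0, hlam0⟩, hPv⟩ := hPg N (by omega) ξ
  set η : ℝ := ‖z0 - θ‖ with hη
  have hη0 : 0 ≤ η := norm_nonneg _
  have hη1 : η ≤ 1 := by
    refine hz0.trans ?_
    rw [Real.exp_le_one_iff]
    have : (0 : ℝ) ≤ (N : ℝ) ^ (D + 2) := by positivity
    linarith
  have hθj : ∀ j, ‖θ j‖ ≤ Y := fun j => (norm_le_pi_norm θ j).trans (by linarith)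
  have hzj' : ∀ j, ‖z0 j - θ j‖ ≤ η := fun j => norm_le_pi_norm (z0 - θ) j
  have hzj : ∀ j, ‖z0 j‖ ≤ Y := by
    intro j
    have h1 := hzj' j
    have h2 := norm_le_pi_norm θ j
    have h3 : ‖z0 j‖ ≤ ‖z0 j - θ j‖ + ‖θ j‖ := by
      have := norm_add_le (z0 j - θ j) (θ j)
      simpa using this
    linarith
  set d : ℕ := C1 * N ^ (h + 2) with hd
  -- Lipschitz
  have hlip : ∀ f : MvPolynomial (Fin p × Fin q) ℤ, Sz f d →
      ‖aeval z0 f - aeval θ f‖ ≤ η * Real.exp (C2 * (N : ℝ) ^ (h + 2)) := by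
    intro f hf
    have hl := hLip (Fin p × Fin q) f d z0 θ Y η hY1 hη0 hf.1 hzj hθj hzj'
    refine hl.trans ?_
    have hl1 := hL1s (Fin p × Fin q) f d hf
    rw [← hnn] at hl1
    have hl1' : (l1 f : ℝ) ≤ Real.exp (((nn + 1) * d : ℕ) : ℝ) := by
      refine le_trans ?_ (two_pow_le _)
      exact_mod_cast hl1
    have h1 : (d : ℝ) ≤ Real.exp d := by
      have := Real.add_one_le_exp (d : ℝ)
      linarith
    have h2 := pow_le_exp Y (by linarith) d
    calc (l1 f : ℝ) * (d * Y ^ d * η) ≤ Real.exp (((nn + 1) * d : ℕ) : ℝ) * (Real.exp d * Real.exp (Y * d) * η) := by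
          gcongr
      _ = η * Real.exp ((((nn + 1) * d : ℕ) : ℝ) + d + Y * d) := by
          rw [Real.exp_add, Real.exp_add]
          ring
      _ ≤ η * Real.exp (C2 * (N : ℝ) ^ (h + 2)) := by
          apply mul_le_mul_of_nonneg_left _ hη0
          apply Real.exp_le_exp.mpr
          have h3 : (nn + 2 + Y) * C1 ≤ (C2 : ℝ) := Nat.le_ceil _
          have h4 : (((nn + 1) * d : ℕ) : ℝ) + d + Y * d = ((nn + 2 + Y) * C1) * (N : ℝ) ^ (h + 2) := by
            rw [hd]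
            push_cast
            ring
          rw [h4]
          exact mul_le_mul_of_nonneg_right h3 (by positivity)
  have hN1p : N ^ (h + 1) ≤ N ^ (h + 2) := Nat.pow_le_pow_right hNpos (by omega)
  have hN4' : N ≤ N ^ (h + 2) := Nat.le_self_pow (by omega) N
  have hszF : ∀ s : Fin p → ℕ, (∀ i, s i < 2 * N ^ h) → Sz (fq N P s) d := by
    intro s hs
    refine Sz_mono _ _ _ ?_ (Sz_fq N (2 * N ^ h) (C0 * N ^ (h + 2)) P hPsz s hs)
    rw [hd, hC1]
    have e1 : p * q * (2 * N ^ h * N) ≤ p * q * 2 * N ^ (h + 2) := by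
      calc p * q * (2 * N ^ h * N) = p * q * 2 * N ^ (h + 1) := by ring
        _ ≤ p * q * 2 * N ^ (h + 2) := Nat.mul_le_mul_left _ hN1p
    have e2 : q * N ≤ q * N ^ (h + 2) := Nat.mul_le_mul_left _ hN4'
    calc C0 * N ^ (h + 2) + p * q * (2 * N ^ h * N) + q * N ≤ C0 * N ^ (h + 2) + p * q * 2 * N ^ (h + 2) + q * N ^ (h + 2) := by
          omega
      _ = (C0 + p * q * 2 + q) * N ^ (h + 2) := by ring
  have hszP : ∀ lam, Sz (P lam) d := by
    intro lam
    refine Sz_mono _ _ _ ?_ (hPsz lam)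
    rw [hd, hC1]
    exact Nat.mul_le_mul_right _ (by omega)
  have hfin : d ≤ (C1 + C2) * N ^ (h + 2) := by
    rw [hd]
    exact Nat.mul_le_mul_right _ (by omega)
  have hevθ : ∀ s : Fin p → ℕ, aeval θ (fq N P s) = Fz L N (fun lam => aeval θ (P lam)) (lc x s) := by
    intro s
    unfold fq Fz
    rw [map_sum]
    refine Finset.sum_congr rfl fun lam _ => ?_
    rw [map_mul]
    congr 1
    have h2 := hTEv p q x L (fun j => (lam j : ℕ)) s
    simp only [map_prod, map_pow, aeval_X]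
    rw [hθ, h2]
  by_cases hcase : ∃ s : Fin p → ℕ, (∀ i, s i < 2 * N ^ h) ∧ aeval ξ (fq N P s) ≠ 0
  · obtain ⟨s1, hs1, hne⟩ := hcase
    refine ⟨fq N P s1, Sz_mono _ _ _ hfin (hszF s1 hs1), hne, le_max_of_le_left ?_⟩
    have hqb : ∀ lam, ‖aeval θ (P lam)‖ ≤ Real.exp (CP * (N : ℝ) ^ (h + 2)) := by
      intro lam
      have h1 := (hDf θ θ (P lam) (C0 * N ^ (h + 2)) (by linarith) (Nat.mul_pos hC01 (Nat.pow_pos (by omega))) (hPsz lam)).1
      refine h1.trans ?_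
      have h2 : max 1 ‖θ‖ ≤ Y := max_le hY1 (by linarith)
      have h3 : max 1 ‖θ‖ ^ (C0 * N ^ (h + 2)) ≤ Y ^ (C0 * N ^ (h + 2)) := pow_le_pow_left₀ (by positivity) h2 _
      have h4 := pow_le_exp Y (by linarith) (C0 * N ^ (h + 2))
      calc Real.exp (C' * ((C0 * N ^ (h + 2) : ℕ) : ℝ)) * max 1 ‖θ‖ ^ (C0 * N ^ (h + 2))
          ≤ Real.exp (C' * ((C0 * N ^ (h + 2) : ℕ) : ℝ)) * Real.exp (Y * ((C0 * N ^ (h + 2) : ℕ) : ℝ)) :=
            mul_le_mul_of_nonneg_left (h3.trans h4) (Real.exp_pos _).le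
        _ = Real.exp (CP * (N : ℝ) ^ (h + 2)) := by
            rw [← Real.exp_add, hCP]
            congr 1
            push_cast
            ring
    have hsm : ∀ s : Fin p → ℕ, (∀ i, s i < N ^ h / 2 ^ M) →
        ‖Fz L N (fun lam => aeval θ (P lam)) (lc x s)‖ ≤ Real.exp (-((N : ℝ) ^ (h * p + 2) / 2)) := by
      intro s hs
      rw [← hevθ s]
      have h0 := hSpc _ (hPv s hs)
      have h1 := hlip (fq N P s) (hszF s (fun i => by
        have h5 := hs i
        have h6 : N ^ h / 2 ^ M ≤ N ^ h := Nat.div_le_self _ _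
        omega))
      rw [h0, zero_sub, norm_neg] at h1
      refine h1.trans ?_
      calc η * Real.exp (C2 * (N : ℝ) ^ (h + 2)) ≤ Real.exp (-(N : ℝ) ^ (D + 2)) * Real.exp (C2 * (N : ℝ) ^ (h + 2)) :=
            mul_le_mul_of_nonneg_right hz0 (Real.exp_pos _).le
        _ = Real.exp (-(N : ℝ) ^ (D + 2) + C2 * (N : ℝ) ^ (h + 2)) := by rw [Real.exp_add]
        _ ≤ Real.exp (-((N : ℝ) ^ (D + 2) / 2)) := by
            apply Real.exp_le_exp.mpr
            have h3 : 2 * (C2 : ℝ) ≤ N := by exact_mod_cast (by omega : 2 * C2 ≤ N)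
            have h4 : 2 * (C2 : ℝ) * (N : ℝ) ^ (h + 2) ≤ (N : ℝ) ^ (D + 2) := by
              calc 2 * (C2 : ℝ) * (N : ℝ) ^ (h + 2) ≤ N * (N : ℝ) ^ (h + 2) := mul_le_mul_of_nonneg_right h3 (by positivity)
                _ = (N : ℝ) ^ (h + 3) := by ring
                _ ≤ (N : ℝ) ^ (D + 2) := pow_le_pow_right₀ hNr (by omega)
            linarith
    have h5 := hN1 N (by omega) (fun lam => aeval θ (P lam)) hqb hsm s1 hs1
    rw [hevθ s1]
    exact h5
  · push Not at hcase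
    have hz : ∀ s : Fin p → ℕ, (∀ i, s i < 2 * N ^ h) →
        ∑ lam : Fin q → Fin N, aeval z0 (P lam) * ∏ W : Fin p × Fin q, z0 W ^ (s W.1 * (lam W.2 : ℕ)) = 0 := by
      intro s hs
      have h0 := hSpc _ (hcase s hs)
      unfold fq at h0
      rw [map_sum] at h0
      rw [← h0]
      refine Finset.sum_congr rfl fun lam _ => ?_
      rw [map_mul]
      congr 1
      simp
    have hq0 : (fun lam : Fin q → Fin N => aeval z0 (P lam)) = 0 := by
      by_contra hne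
      obtain ⟨s, hs, hs'⟩ := hX2 N (by omega) _ hne z0 (fun U => (hzj' U).trans hz0)
      exact hs' (hz s hs)
    refine ⟨P lam0, Sz_mono _ _ _ hfin (hszP lam0), hlam0, le_max_of_le_right ?_⟩
    have h1 := hlip (P lam0) (hszP lam0)
    have h2 : aeval z0 (P lam0) = 0 := congrFun hq0 lam0
    rw [h2, zero_sub, norm_neg] at h1
    refine h1.trans ?_
    apply mul_le_mul_of_nonneg_left _ hη0
    apply Real.exp_le_exp.mpr
    apply mul_le_mul_of_nonneg_right _ (by positivity)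
    push_cast
    linarith [Nat.cast_nonneg (α := ℝ) C1]

end Pool.Agent.SG
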