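import Pool.Agent.Lib.MP_452a87_nt.SG.SpecT

/-!
# A scale with doubling
-/

set_option autoImplicit false

namespace Pool.Agent.SG

open MvPolynomial Pool.Agent.SMQ

namespace TDbAux

lemma image_finite (hBxF : S_BxF) {ι : Type} [Fintype ι] (ξ : ι → ℂ) (a B : ℕ) :
    ((fun P : MvPolynomial ι ℤ => aeval ξ P) '' Bx ι a B).Finite := (hBxF ι a B).image _

lemma low (hBxF : S_BxF) {ι : Type} [Fintype ι] (ξ : ι → ℂ) (a : ℕ) : 2 ^ a ≤ Kc ξ a a := by
  classical
  have h1 : (((Finset.range (2 ^ a)).image (fun i : ℕ => (i : ℂ)) : Finset ℂ) : Set ℂ) ⊆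
      (fun P : MvPolynomial ι ℤ => aeval ξ P) '' Bx ι a a := by
    intro x hx
    rw [Finset.coe_image] at hx
    obtain ⟨i, hi, rfl⟩ := hx
    rw [Finset.mem_coe, Finset.mem_range] at hi
    refine ⟨C (i : ℤ), ⟨by rw [totalDegree_C]; exact Nat.zero_le _, fun μ => ?_⟩, by simp⟩
    rw [coeff_C]
    split_ifs
    · exact ⟨by positivity, by exact_mod_cast hi⟩
    · exact ⟨le_refl _, by positivity⟩
  have h2 := Set.ncard_le_ncard h1 (image_finite hBxF ξ a a)
  rw [Set.ncard_coe_finset, Finset.card_image_of_injective _ Nat.cast_injective, Finset.card_range] at h2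
  exact h2

lemma up (hBxF : S_BxF) {ι : Type} [Fintype ι] (ξ : ι → ℂ) (a : ℕ) :
    Kc ξ a a ≤ 2 ^ (a * (a + 1) ^ Fintype.card ι) := by
  classical
  have h1 : Kc ξ a a ≤ (Bx ι a a).ncard := Set.ncard_image_le (hBxF ι a a)
  refine h1.trans ?_
  have hpos : 0 < 2 ^ a := by positivity
  set φ : MvPolynomial ι ℤ → ((ι → Fin (a + 1)) → Fin (2 ^ a)) := fun f e =>
    ⟨(f.coeff (Finsupp.equivFunOnFinite.symm (fun i => (e i : ℕ)))).toNat % 2 ^ a, Nat.mod_lt _ hpos⟩ with hφ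
  have hinj : Set.InjOn φ (Bx ι a a) := by
    intro f hf g hg hfg
    ext μ
    by_cases hμ : ∀ i, μ i ≤ a
    · have h2 := congrFun hfg (fun i => ⟨μ i, Nat.lt_succ_of_le (hμ i)⟩)
      simp only [hφ, Fin.mk.injEq] at h2
      have h3 : (Finsupp.equivFunOnFinite.symm (fun i => μ i)) = μ := by
        ext i
        rfl
      rw [h3] at h2
      have hf1 := hf.2 μ
      have hg1 := hg.2 μ
      have hp : ((2 ^ a : ℕ) : ℤ) = 2 ^ a := by push_cast; rfl
      have hf2 : (f.coeff μ).toNat < 2 ^ a := by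
        have := hf1.2
        zify
        rw [Int.toNat_of_nonneg hf1.1]
        exact this
      have hg2 : (g.coeff μ).toNat < 2 ^ a := by
        have := hg1.2
        zify
        rw [Int.toNat_of_nonneg hg1.1]
        exact this
      rw [Nat.mod_eq_of_lt hf2, Nat.mod_eq_of_lt hg2] at h2
      have h4 : ((f.coeff μ).toNat : ℤ) = ((g.coeff μ).toNat : ℤ) := by rw [h2]
      rw [Int.toNat_of_nonneg hf1.1, Int.toNat_of_nonneg hg1.1] at h4
      exact h4
    · push Not at hμ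
      obtain ⟨i, hi⟩ := hμ
      have key : ∀ h : MvPolynomial ι ℤ, h.totalDegree ≤ a → h.coeff μ = 0 := by
        intro h hh
        by_contra hne
        have h5 := le_totalDegree (mem_support_iff.mpr hne)
        have h6 : μ i ≤ μ.sum fun _ e => e := by
          rw [Finsupp.sum_fintype _ _ (fun _ => rfl)]
          exact Finset.single_le_sum (f := fun i => μ i) (fun _ _ => Nat.zero_le _) (Finset.mem_univ i)
        omega
      rw [key f hf.1, key g hg.1]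
  have h2 : (Bx ι a a).ncard ≤ (Set.univ : Set ((ι → Fin (a + 1)) → Fin (2 ^ a))).ncard :=
    Set.ncard_le_ncard_of_injOn φ (fun _ _ => Set.mem_univ _) hinj Set.finite_univ
  refine h2.trans ?_
  rw [Set.ncard_univ, Nat.card_eq_fintype_card, Fintype.card_fun, Fintype.card_fun, Fintype.card_fin, Fintype.card_fin,
    ← pow_mul]

end TDbAux

open TDbAux

theorem pTDb (hBxF : S_BxF) : S_TDb := by
  classical
  intro n h C0
  set M : ℕ := (n + 1) * (h + 2) + 1 with hM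
  set e0 : ℕ := n + 1 + n * (h + 1) + n * C0 + 1 with he0
  refine ⟨M, 2 ^ e0, by omega, ?_⟩
  intro B hB ι _ hcard ξ A hA hAB
  set k0 := Nat.log 2 B with hk0
  have hBpos : B ≠ 0 := by
    have : 1 ≤ 2 ^ e0 := Nat.one_le_two_pow
    omega
  have hk1 : 2 ^ k0 ≤ B := Nat.pow_log_le_self 2 hBpos
  have hk2 : B < 2 ^ (k0 + 1) := Nat.lt_pow_succ_log_self (by norm_num) B
  have hk3 : e0 ≤ k0 := by
    have h1 : 2 ^ e0 < 2 ^ (k0 + 1) := lt_of_le_of_lt hB hk2
    have h2 := (Nat.pow_lt_pow_iff_right (by norm_num : 1 < 2)).mp h1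
    omega
  by_contra hcon
  push Not at hcon
  have hstep : ∀ k < k0, Kc ξ (2 ^ k * A) (2 ^ k * A) ^ (2 ^ M) < Kc ξ (2 ^ (k + 1) * A) (2 ^ (k + 1) * A) := by
    intro k hk
    have h2k : 1 ≤ 2 ^ k := Nat.one_le_two_pow
    have ha1 : A ≤ 2 ^ k * A := Nat.le_mul_of_pos_left _ (by omega)
    have ha2 : 2 ^ k * A ≤ A * B := by
      rw [mul_comm]
      apply Nat.mul_le_mul_left
      exact (Nat.pow_le_pow_right (by norm_num) hk.le).trans hk1
    have ha3 : 2 ≤ Kc ξ (2 ^ k * A) (2 ^ k * A) := by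
      refine le_trans ?_ (low hBxF ξ (2 ^ k * A))
      calc 2 = 2 ^ 1 := by norm_num
        _ ≤ 2 ^ (2 ^ k * A) := Nat.pow_le_pow_right (by norm_num) (by omega)
    have h6 := hcon (2 ^ k * A) ha1 ha2 ha3
    have h7 : 2 ^ (k + 1) * A = 2 * (2 ^ k * A) := by ring
    rw [h7]
    exact h6
  have hiter : ∀ k ≤ k0, Kc ξ A A ^ (2 ^ (M * k)) ≤ Kc ξ (2 ^ k * A) (2 ^ k * A) := by
    intro k
    induction k with
    | zero => intro _; simp
    | succ k ih =>
      intro hk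
      have h1 := ih (by omega)
      have h2 := hstep k (by omega)
      refine le_trans ?_ h2.le
      calc Kc ξ A A ^ (2 ^ (M * (k + 1))) = (Kc ξ A A ^ (2 ^ (M * k))) ^ (2 ^ M) := by
            rw [← pow_mul, ← pow_add]
            congr 2
        _ ≤ Kc ξ (2 ^ k * A) (2 ^ k * A) ^ (2 ^ M) := Nat.pow_le_pow_left h1 _
  have h1 := hiter k0 le_rfl
  have h2 := up hBxF ξ (2 ^ k0 * A)
  rw [hcard] at h2
  have h3 : 2 ^ (A * 2 ^ (M * k0)) ≤ 2 ^ ((2 ^ k0 * A) * (2 ^ k0 * A + 1) ^ n) := by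
    calc 2 ^ (A * 2 ^ (M * k0)) = (2 ^ A) ^ (2 ^ (M * k0)) := by rw [pow_mul]
      _ ≤ Kc ξ A A ^ (2 ^ (M * k0)) := Nat.pow_le_pow_left (low hBxF ξ A) _
      _ ≤ _ := h1.trans h2
  have h4 : A * 2 ^ (M * k0) ≤ (2 ^ k0 * A) * (2 ^ k0 * A + 1) ^ n := (Nat.pow_le_pow_iff_right (by norm_num)).mp h3
  have hpos : 1 ≤ 2 ^ k0 * A := Nat.mul_pos (by positivity) (by omega)
  have h5 : (2 ^ k0 * A) * (2 ^ k0 * A + 1) ^ n ≤ A * (2 ^ ((k0 + 1) * (n + 1)) * A ^ n) := by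
    calc (2 ^ k0 * A) * (2 ^ k0 * A + 1) ^ n ≤ (2 ^ (k0 + 1) * A) * (2 ^ (k0 + 1) * A) ^ n := by
          apply Nat.mul_le_mul
          · apply Nat.mul_le_mul_right
            exact Nat.pow_le_pow_right (by norm_num) (by omega)
          · apply Nat.pow_le_pow_left
            have e1 : 2 ^ (k0 + 1) * A = 2 * (2 ^ k0 * A) := by ring
            omega
      _ = A * (2 ^ ((k0 + 1) * (n + 1)) * A ^ n) := by
          rw [mul_pow, pow_mul, pow_succ (2 ^ (k0 + 1)) n]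
          ring
  have h6 : 2 ^ (M * k0) ≤ 2 ^ ((k0 + 1) * (n + 1)) * A ^ n := Nat.le_of_mul_le_mul_left (h4.trans h5) hA
  have h7 : A ≤ 2 ^ (C0 + (k0 + 1) * (h + 1)) := by
    refine hAB.trans ?_
    rw [pow_add 2 C0, pow_mul]
    exact Nat.mul_le_mul (Nat.lt_two_pow_self (n := C0)).le (Nat.pow_le_pow_left hk2.le _)
  have h8 : 2 ^ (M * k0) ≤ 2 ^ ((k0 + 1) * (n + 1) + (C0 + (k0 + 1) * (h + 1)) * n) := by
    refine h6.trans ?_
    rw [pow_add, pow_mul 2 (C0 + (k0 + 1) * (h + 1)) n]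
    exact Nat.mul_le_mul_left _ (Nat.pow_le_pow_left h7 _)
  have h9 := (Nat.pow_le_pow_iff_right (by norm_num : 1 < 2)).mp h8
  rw [hM] at h9
  have h10 : ((n + 1) * (h + 2) + 1) * k0 = (k0 * (n + 1) + k0 * (h + 1) * n) + (k0 * (h + 1) + k0) := by ring
  have h11 : (k0 + 1) * (n + 1) + (C0 + (k0 + 1) * (h + 1)) * n =
      (k0 * (n + 1) + k0 * (h + 1) * n) + (n + 1 + n * (h + 1) + n * C0) := by ring
  rw [h10, h11] at h9
  have h12 : n + 1 + n * (h + 1) + n * C0 < k0 := by omega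
  have h13 : 0 ≤ k0 * (h + 1) := Nat.zero_le _
  omega

end Pool.Agent.SG
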