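import Pool.Agent.Lib.MP_452a87_nt.SG.SpecT

/-!
# Theorem SG, module TEv (helper47): the monomials at the point
-/

set_option autoImplicit false

namespace Pool.Agent.SG

open MvPolynomial Pool.Agent.SMQ

theorem pTEv : S_TEv := by
  intro p q x L lam s
  have h1 : lc L lam * lc x s =
      ∑ ij : Fin p × Fin q, ((s ij.1 * lam ij.2 : ℕ) : ℂ) * (x ij.1 * L ij.2) := by
    unfold lc
    rw [mul_comm, Finset.sum_mul_sum, Fintype.sum_prod_type]
    refine Finset.sum_congr rfl fun i _ => Finset.sum_congr rfl fun j _ => ?_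
    push_cast
    ring
  rw [h1, Complex.exp_sum]
  refine Finset.prod_congr rfl fun ij _ => ?_
  rw [tq, ← Complex.exp_nat_mul]

end Pool.Agent.SG
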