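import Pool.Agent.Lib.MP_452a87_nt.SG.SpecT

/-! Theorem SG, Part T: Liouville for linear forms in logarithms (trivial bound). -/

set_option autoImplicit false

namespace Pool.Agent.SG

open MvPolynomial Pool.Agent.SMQ

namespace TLlAux

theorem lin {q : ℕ} {L : Fin q → ℂ} (h : LinearIndependent ℚ L) (c : Fin q → ℤ) (hc : c ≠ 0) :
    ∑ j, (c j : ℂ) * L j ≠ 0 := by
  intro e
  apply hc
  have h1 := Fintype.linearIndependent_iff.1 h (fun j => (c j : ℚ)) (by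
    rw [← e]
    refine Finset.sum_congr rfl fun j _ => ?_
    rw [Algebra.smul_def, map_intCast])
  funext j
  have h2 := h1 j
  exact_mod_cast h2

theorem trz {q : ℕ} {α : Fin q → ℂ} (h : ∀ j, IsAlgebraic ℚ (α j)) : Tr α 0 := by
  refine ⟨Fin.elim0, ?_, fun i => (h i).tower_top _⟩
  rw [algebraicIndependent_empty_type_iff]
  exact (algebraMap ℚ ℂ).injective

/-- The exponents as a finitely supported function. -/
noncomputable def mn {q : ℕ} (n : Fin q → ℕ) : Fin q →₀ ℕ := Finsupp.equivFunOnFinite.symm n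

theorem evm {q : ℕ} (α : Fin q → ℂ) (n : Fin q → ℕ) :
    aeval α (monomial (mn n) (1 : ℤ)) = ∏ j, α j ^ n j := by
  rw [aeval_monomial, map_one, one_mul, Finsupp.prod_fintype _ _ fun i => pow_zero _]
  rfl

theorem deg {q N : ℕ} (n : Fin q → ℕ) (h : ∀ j, n j ≤ N) :
    (monomial (mn n) (1 : ℤ)).totalDegree ≤ q * N := by
  rw [totalDegree_monomial _ one_ne_zero, Finsupp.sum_fintype _ _ fun i => rfl]
  calc ∑ j, mn n j ≤ ∑ _j : Fin q, N := Finset.sum_le_sum fun j _ => h j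
    _ = q * N := by rw [Finset.sum_const, Finset.card_univ, Fintype.card_fin, smul_eq_mul]

theorem coe {q : ℕ} (n n' : Fin q → ℕ) (m : Fin q →₀ ℕ) :
    |(monomial (mn n) (1 : ℤ) - monomial (mn n') (1 : ℤ)).coeff m| ≤ 1 := by
  rw [coeff_sub, coeff_monomial, coeff_monomial]
  split_ifs <;> simp

theorem nrm {q N : ℕ} (α : Fin q → ℂ) (Y : ℝ) (hY : 1 ≤ Y) (h : ∀ j, ‖α j‖ ≤ Y) (n : Fin q → ℕ)
    (hn : ∀ j, n j ≤ N) : ‖∏ j, α j ^ n j‖ ≤ Y ^ (q * N) := by
  rw [norm_prod]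
  calc ∏ j, ‖α j ^ n j‖ ≤ ∏ _j : Fin q, Y ^ N := by
        refine Finset.prod_le_prod (fun j _ => norm_nonneg _) fun j _ => ?_
        rw [norm_pow]
        exact (pow_le_pow_left₀ (norm_nonneg _) (h j) _).trans (pow_le_pow_right₀ hY (hn j))
    _ = Y ^ (q * N) := by
        rw [Finset.prod_const, Finset.card_univ, Fintype.card_fin, ← pow_mul, mul_comm]

theorem ex {q : ℕ} (L : Fin q → ℂ) (c : Fin q → ℤ) :
    Complex.exp (∑ j, (c j : ℂ) * L j) * ∏ j, Complex.exp (L j) ^ (-c j).toNat =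
      ∏ j, Complex.exp (L j) ^ (c j).toNat := by
  rw [Complex.exp_sum, ← Finset.prod_mul_distrib]
  refine Finset.prod_congr rfl fun j _ => ?_
  rw [← Complex.exp_nat_mul, ← Complex.exp_nat_mul, ← Complex.exp_add]
  congr 1
  have h : ((c j).toNat : ℤ) - ((-c j).toNat : ℤ) = c j := Int.toNat_sub_toNat_neg (c j)
  have h1 : (c j : ℂ) = ((c j).toNat : ℂ) - ((-c j).toNat : ℂ) := by
    rw [← Int.cast_natCast (R := ℂ) (c j).toNat, ← Int.cast_natCast (R := ℂ) (-c j).toNat,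
      ← Int.cast_sub, h]
  rw [h1]
  ring

theorem ne1 {Λ : ℂ} (h0 : Λ ≠ 0) (h1 : ‖Λ‖ < 1) : Complex.exp Λ ≠ 1 := by
  intro e
  obtain ⟨n, hn⟩ := Complex.exp_eq_one_iff.1 e
  have hn0 : n ≠ 0 := by
    rintro rfl
    apply h0
    rw [hn, Int.cast_zero, zero_mul]
  have h2 : ‖Λ‖ = |(n : ℝ)| * (2 * Real.pi) := by
    rw [hn, norm_mul, norm_mul, norm_mul, Complex.norm_I, mul_one, Complex.norm_real,
      Complex.norm_intCast, Real.norm_eq_abs, abs_of_pos Real.pi_pos, Complex.norm_ofNat]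
  have h3 : (1 : ℝ) ≤ |(n : ℝ)| := by
    have : (1 : ℤ) ≤ |n| := Int.one_le_abs hn0
    exact_mod_cast this
  have h4 := Real.pi_gt_three
  rw [h2] at h1
  nlinarith

end TLlAux

open TLlAux in
theorem pTLl : S_K4 → S_Lio → S_TLl := by
  intro hK hLio q L hL hlin
  set α : Fin q → ℂ := fun j => Complex.exp (L j) with hα
  obtain ⟨s, hs1, hs⟩ := hK (Fin q) ℂ α 0 (trz hL)
  obtain ⟨C1, hC1, hC⟩ := hLio (Fin q)
  set Y : ℝ := 1 + ∑ j, ‖α j‖ with hY
  have hY1 : 1 ≤ Y := by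
    have : 0 ≤ ∑ j, ‖α j‖ := Finset.sum_nonneg fun j _ => norm_nonneg _
    linarith
  have hYj : ∀ j, ‖α j‖ ≤ Y := fun j => by
    have := Finset.single_le_sum (f := fun j => ‖α j‖) (fun j _ => norm_nonneg _)
      (Finset.mem_univ j)
    linarith
  have hlog : 0 ≤ Real.log Y := Real.log_nonneg hY1
  refine ⟨1 + q * Real.log Y + C1 * s * q, ?_, fun N hN c hc hcN => ?_⟩
  · have h1 : (0 : ℝ) ≤ q * Real.log Y := by positivity
    have h2 : (0 : ℝ) ≤ C1 * s * q := by positivity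
    linarith
  have hΛ0 := lin hlin c hc
  set Λ : ℂ := ∑ j, (c j : ℂ) * L j with hΛ
  have hN1 : (1 : ℝ) ≤ N := by exact_mod_cast hN
  have hexp : Real.exp ((1 + q * Real.log Y + C1 * s * q) * N) =
      Real.exp N * Y ^ (q * N) * Real.exp 1 ^ (C1 * s * (q * N)) := by
    have e1 : Y ^ (q * N) = Real.exp (((q * N : ℕ) : ℝ) * Real.log Y) := by
      rw [Real.exp_nat_mul, Real.exp_log (by linarith)]
    rw [e1, ← Real.exp_nat_mul, ← Real.exp_add, ← Real.exp_add]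
    congr 1
    push_cast
    ring
  by_cases hbig : 1 ≤ ‖Λ‖
  · have h1 : (1 : ℝ) ≤ Real.exp ((1 + q * Real.log Y + C1 * s * q) * N) := by
      apply Real.one_le_exp
      have h1 : (0 : ℝ) ≤ q * Real.log Y := by positivity
      positivity
    exact one_le_mul_of_one_le_of_one_le hbig h1
  rw [not_le] at hbig
  have hq : 1 ≤ q := by
    rcases Nat.eq_zero_or_pos q with h | h
    · subst h
      exact absurd (Subsingleton.elim c 0) hc
    · exact h
  have hd : 1 ≤ q * N := Nat.mul_pos hq hN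
  have hcp : ∀ j, (c j).toNat ≤ N := fun j => by
    have := hcN j
    rw [abs_le] at this
    omega
  have hcm : ∀ j, (-c j).toNat ≤ N := fun j => by
    have := hcN j
    rw [abs_le] at this
    omega
  have hSz : Sz (monomial (mn fun j => (c j).toNat) (1 : ℤ) -
      monomial (mn fun j => (-c j).toNat) (1 : ℤ)) (q * N) := by
    refine ⟨(totalDegree_sub _ _).trans (max_le (deg _ hcp) (deg _ hcm)), fun m => ?_⟩
    exact (coe _ _ m).trans (one_le_pow₀ (by norm_num))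
  have hev : aeval α (monomial (mn fun j => (c j).toNat) (1 : ℤ) -
      monomial (mn fun j => (-c j).toNat) (1 : ℤ)) =
      (Complex.exp Λ - 1) * ∏ j, α j ^ (-c j).toNat := by
    rw [map_sub, evm, evm, ← ex L c, hΛ]
    ring
  have hb0 : ∏ j, α j ^ (-c j).toNat ≠ 0 :=
    Finset.prod_ne_zero_iff.2 fun j _ => pow_ne_zero _ (Complex.exp_ne_zero _)
  have hne : aeval α (monomial (mn fun j => (c j).toNat) (1 : ℤ) -
      monomial (mn fun j => (-c j).toNat) (1 : ℤ)) ≠ 0 := by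
    rw [hev]
    exact mul_ne_zero (sub_ne_zero.2 (ne1 hΛ0 hbig)) hb0
  have h1 := hC α α s (q * N) _ hs1 hd hs (Spc.refl α) hSz hne
  rw [hev, norm_mul] at h1
  have h2 : ‖Complex.exp Λ - 1‖ ≤ 2 * ‖Λ‖ := Complex.norm_exp_sub_one_le hbig.le
  have h3 : ‖∏ j, α j ^ (-c j).toNat‖ ≤ Y ^ (q * N) := nrm α Y hY1 hYj _ hcm
  have h4 : (2 : ℝ) ≤ Real.exp N := by
    have := Real.add_one_le_exp (N : ℝ)
    linarith
  have h5 : (2 : ℝ) ≤ Real.exp 1 := by
    have := Real.add_one_le_exp (1 : ℝ)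
    linarith
  rw [hexp]
  refine h1.trans ?_
  have h6 : (2 : ℝ) ^ (C1 * s * (q * N)) ≤ Real.exp 1 ^ (C1 * s * (q * N)) :=
    pow_le_pow_left₀ (by norm_num) h5 _
  have h7 : ‖Complex.exp Λ - 1‖ * ‖∏ j, α j ^ (-c j).toNat‖ ≤
      (‖Λ‖ * Real.exp N) * Y ^ (q * N) := by
    refine mul_le_mul ?_ h3 (norm_nonneg _) (by positivity)
    calc ‖Complex.exp Λ - 1‖ ≤ 2 * ‖Λ‖ := h2
      _ ≤ ‖Λ‖ * Real.exp N := by nlinarith [norm_nonneg Λ]
  calc ‖Complex.exp Λ - 1‖ * ‖∏ j, α j ^ (-c j).toNat‖ * 2 ^ (C1 * s * (q * N)) ≤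
        ((‖Λ‖ * Real.exp N) * Y ^ (q * N)) * Real.exp 1 ^ (C1 * s * (q * N)) :=
        mul_le_mul h7 h6 (by positivity) (by positivity)
    _ = _ := by ring

end Pool.Agent.SG
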