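import Pool.Agent.Lib.MP_452a87_nt.SG.SpecT

/-!
THEOREM SG, module TLx: Liouville for linear forms in algebraic numbers.
-/

set_option autoImplicit false

namespace Pool.Agent.SG

open MvPolynomial Pool.Agent.SMQ

private lemma TLx_tr {p : ℕ} (x : Fin p → ℂ) (hx : ∀ i, IsAlgebraic ℚ (x i)) : Tr x 0 := by
  refine ⟨Fin.elim0, ?_, ?_⟩
  · exact algebraicIndependent_empty_type
  · intro i
    exact (hx i).tower_top _

private lemma TLx_pow (n : ℕ) (hn : 1 ≤ n) : 2 ^ (Nat.clog 2 n + 1) ≤ 4 * n := by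
  rcases Nat.lt_or_ge 1 n with h | h
  · have h1 := Nat.pow_pred_clog_lt_self (b := 2) (by norm_num) h
    have h2 : 1 ≤ Nat.clog 2 n := Nat.clog_pos (by norm_num) (by omega)
    obtain ⟨k, hk⟩ : ∃ k, Nat.clog 2 n = k + 1 := ⟨Nat.clog 2 n - 1, by omega⟩
    rw [hk] at h1 ⊢
    have h3 : 2 ^ k < n := h1
    rw [pow_succ, pow_succ]
    omega
  · have : n = 1 := by omega
    subst this
    norm_num [Nat.clog_one_right]

theorem pTLx : S_K4 → S_Lio → S_TLx := by
  classical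
  intro hK4 hLio p x hx hli
  obtain ⟨s, hs1, hs⟩ := hK4 (Fin p) ℂ x 0 (TLx_tr x hx)
  obtain ⟨C1, hC1, hL⟩ := hLio (Fin p)
  have hp1 : (1 : ℝ) ≤ (p : ℝ) + 1 := by
    have : (0 : ℝ) ≤ (p : ℝ) := Nat.cast_nonneg p
    linarith
  refine ⟨C1 * s, 4 * ((p : ℝ) + 1), by linarith, ?_⟩
  intro N hN c hc hcN
  obtain ⟨f, hf⟩ : ∃ f : MvPolynomial (Fin p) ℤ, f = ∑ i, C (c i) * X i := ⟨_, rfl⟩
  obtain ⟨d, hd⟩ : ∃ d : ℕ, d = Nat.clog 2 ((p + 1) * N) + 1 := ⟨_, rfl⟩
  have hd1 : 1 ≤ d := by omega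
  have hpN : 1 ≤ (p + 1) * N := Nat.one_le_iff_ne_zero.2 (by positivity)
  have hdeg : f.totalDegree ≤ d := by
    rw [hf]
    refine le_trans (totalDegree_finsetSum _ _) (Finset.sup_le ?_)
    intro i _
    refine le_trans (totalDegree_mul _ _) ?_
    rw [totalDegree_C, totalDegree_X]
    omega
  have hcoef : ∀ m, |f.coeff m| ≤ 2 ^ d := by
    intro m
    have h1 : f.coeff m = ∑ i, c i * coeff m (X i : MvPolynomial (Fin p) ℤ) := by
      rw [hf, coeff_sum]
      exact Finset.sum_congr rfl (fun i _ => coeff_C_mul _ _ _)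
    have h2 : |f.coeff m| ≤ ∑ _i : Fin p, (N : ℤ) := by
      rw [h1]
      refine le_trans (Finset.abs_sum_le_sum_abs _ _) (Finset.sum_le_sum ?_)
      intro i _
      rw [abs_mul]
      have h3 : |coeff m (X i : MvPolynomial (Fin p) ℤ)| ≤ 1 := by
        rw [coeff_X]
        split_ifs <;> simp
      calc |c i| * |coeff m (X i : MvPolynomial (Fin p) ℤ)| ≤ |c i| * 1 :=
            mul_le_mul_of_nonneg_left h3 (abs_nonneg _)
        _ ≤ (N : ℤ) := by rw [mul_one]; exact hcN i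
    rw [Finset.sum_const, Finset.card_univ, Fintype.card_fin, nsmul_eq_mul] at h2
    have h4 : ((p + 1) * N : ℕ) ≤ 2 ^ d := by
      have h5 := Nat.le_pow_clog (b := 2) (by norm_num) ((p + 1) * N)
      rw [hd, pow_succ]
      omega
    have h6 : (((p + 1) * N : ℕ) : ℤ) ≤ 2 ^ d := by exact_mod_cast h4
    push_cast at h6
    have hN0 : (0 : ℤ) ≤ (N : ℤ) := Int.natCast_nonneg N
    nlinarith
  have hval : aeval x f = ∑ i, (c i : ℂ) * x i := by
    rw [hf, map_sum]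
    apply Finset.sum_congr rfl
    intro i _
    rw [map_mul, aeval_X, aeval_C]
    simp
  have hne : aeval x f ≠ 0 := by
    rw [hval]
    intro h0
    apply hc
    have h7 := Fintype.linearIndependent_iff.1 hli (fun i => ((c i : ℤ) : ℚ)) (by
      rw [← h0]
      apply Finset.sum_congr rfl
      intro i _
      rw [Algebra.smul_def]
      simp)
    funext i
    have h8 := h7 i
    exact_mod_cast h8
  have hmain := hL x x s d f hs1 hd1 hs (Spc.refl x) ⟨hdeg, hcoef⟩ hne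
  rw [hval] at hmain
  refine le_trans hmain (mul_le_mul_of_nonneg_left ?_ (norm_nonneg _))
  have h9 : (2 : ℝ) ^ d ≤ 4 * ((p : ℝ) + 1) * N := by
    have h10 := TLx_pow ((p + 1) * N) hpN
    rw [← hd] at h10
    have h11 : ((2 ^ d : ℕ) : ℝ) ≤ ((4 * ((p + 1) * N) : ℕ) : ℝ) := by exact_mod_cast h10
    push_cast at h11
    linarith
  calc (2 : ℝ) ^ (C1 * s * d) = ((2 : ℝ) ^ d) ^ (C1 * s) := by rw [← pow_mul, mul_comm d]
    _ ≤ (4 * ((p : ℝ) + 1) * N) ^ (C1 * s) := pow_le_pow_left₀ (by positivity) h9 _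

end Pool.Agent.SG
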