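import Pool.Agent.Lib.MP_452a87_nt.SG.SpecT

/-!
# Polynomial coefficients with exact vanishing
-/

set_option autoImplicit false

namespace Pool.Agent.SG

open MvPolynomial Pool.Agent.SMQ

namespace TPgAux

lemma mon_eq {ι : Type} [Fintype ι] (c : ι → ℕ) :
    (∏ W, (X W : MvPolynomial ι ℤ) ^ c W) = monomial (Finsupp.equivFunOnFinite.symm c) 1 := by
  classical
  rw [monomial_eq]
  simp only [map_one, one_mul]
  rw [Finsupp.prod_fintype _ _ (fun i => pow_zero _)]
  rfl

lemma totalDegree_mon {p q : ℕ} (c : Fin p × Fin q → ℕ) (K : ℕ) (hB : ∀ W, c W ≤ K) :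
    (∏ W, (X W : MvPolynomial (Fin p × Fin q) ℤ) ^ c W).totalDegree ≤ p * q * K := by
  refine (totalDegree_finsetProd _ _).trans ?_
  calc ∑ W : Fin p × Fin q, ((X W : MvPolynomial (Fin p × Fin q) ℤ) ^ c W).totalDegree
      ≤ ∑ _W : Fin p × Fin q, K := by
        refine Finset.sum_le_sum fun W _ => ?_
        refine (totalDegree_pow _ _).trans ?_
        rw [totalDegree_X, mul_one]
        exact hB W
    _ = p * q * K := by
        rw [Finset.sum_const, Finset.card_univ, Fintype.card_prod, Fintype.card_fin, Fintype.card_fin, smul_eq_mul]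

lemma coeff_mul_mon {ι : Type} [Fintype ι] (P : MvPolynomial ι ℤ) (c : ι → ℕ) (B : ℤ)
    (hB : ∀ μ, 0 ≤ P.coeff μ ∧ P.coeff μ < B) (ν : ι →₀ ℕ) :
    0 ≤ (P * ∏ W, (X W : MvPolynomial ι ℤ) ^ c W).coeff ν ∧ (P * ∏ W, (X W : MvPolynomial ι ℤ) ^ c W).coeff ν < B := by
  rw [mon_eq, coeff_mul_monomial']
  split_ifs
  · rw [mul_one]
    exact hB _
  · exact ⟨le_refl _, lt_of_le_of_lt (hB 0).1 (hB 0).2⟩

/-- The combinations are in the larger box. -/
lemma mem_box {p q : ℕ} (B : ℕ) (hB1 : 1 ≤ B) (T d A : ℕ) (hA1 : p * q * (T * B) ≤ A) (hA2 : q * B ≤ A) (hAd : A ≤ d)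
    (P : (Fin q → Fin B) → MvPolynomial (Fin p × Fin q) ℤ) (hP : ∀ lam, P lam ∈ Bx (Fin p × Fin q) d d)
    (s : Fin p → ℕ) (hs : ∀ i, s i < T) : fq B P s ∈ Bx (Fin p × Fin q) (2 * d) (2 * d) := by
  have hcv : ∀ (lam : Fin q → Fin B) (W : Fin p × Fin q), s W.1 * (lam W.2 : ℕ) ≤ T * B :=
    fun lam W => Nat.mul_le_mul (hs W.1).le (lam W.2).2.le
  constructor
  · unfold fq
    refine (totalDegree_finsetSum _ _).trans ?_
    refine Finset.sup_le fun lam _ => ?_
    refine (totalDegree_mul _ _).trans ?_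
    have h1 := (hP lam).1
    have h2 := totalDegree_mon (fun W : Fin p × Fin q => s W.1 * (lam W.2 : ℕ)) (T * B) (hcv lam)
    omega
  · intro ν
    unfold fq
    rw [coeff_sum]
    have h1 : ∀ lam : Fin q → Fin B,
        0 ≤ (P lam * ∏ W : Fin p × Fin q, (X W : MvPolynomial (Fin p × Fin q) ℤ) ^ (s W.1 * (lam W.2 : ℕ))).coeff ν ∧
        (P lam * ∏ W : Fin p × Fin q, (X W : MvPolynomial (Fin p × Fin q) ℤ) ^ (s W.1 * (lam W.2 : ℕ))).coeff ν < 2 ^ d :=
      fun lam => coeff_mul_mon (P lam) _ _ (hP lam).2 ν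
    refine ⟨Finset.sum_nonneg fun lam _ => (h1 lam).1, ?_⟩
    have h2 : B ^ q ≤ 2 ^ (q * B) := by
      have h3 : B ≤ 2 ^ B := (Nat.lt_two_pow_self (n := B)).le
      have h4 : B ^ q ≤ (2 ^ B) ^ q := Nat.pow_le_pow_left h3 _
      rwa [← pow_mul, mul_comm B] at h4
    have hne : (Finset.univ : Finset (Fin q → Fin B)).Nonempty := ⟨fun _ => ⟨0, hB1⟩, Finset.mem_univ _⟩
    calc ∑ lam : Fin q → Fin B, (P lam * ∏ W : Fin p × Fin q, (X W : MvPolynomial (Fin p × Fin q) ℤ) ^ (s W.1 * (lam W.2 : ℕ))).coeff ν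
        < ∑ _lam : Fin q → Fin B, (2 : ℤ) ^ d := Finset.sum_lt_sum_of_nonempty hne fun lam _ => (h1 lam).2
      _ = ((B ^ q : ℕ) : ℤ) * 2 ^ d := by
          rw [Finset.sum_const, Finset.card_univ, Fintype.card_fun, Fintype.card_fin, Fintype.card_fin, nsmul_eq_mul]
      _ ≤ ((2 ^ (q * B) : ℕ) : ℤ) * 2 ^ d := by
          apply mul_le_mul_of_nonneg_right _ (by positivity)
          exact_mod_cast h2
      _ = 2 ^ (q * B + d) := by
          push_cast
          rw [pow_add]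
      _ ≤ 2 ^ (2 * d) := by
          apply pow_le_pow_right₀ (by norm_num)
          omega

end TPgAux

open TPgAux

theorem pTPg (hTDb : S_TDb) (hBxF : S_BxF) : S_TPg := by
  classical
  intro p q h hp hq
  set n : ℕ := p * q with hn
  set C0 : ℕ := 2 * n + q + 2 with hC0
  obtain ⟨M, B0, hM1, hDb⟩ := hTDb n h C0
  refine ⟨M, C0, B0 + 1, hM1, by omega, fun B hB ξ => ?_⟩
  have hB1 : 1 ≤ B := by omega
  set A : ℕ := C0 * B ^ (h + 1) with hA
  have hB2 : B ≤ B ^ (h + 1) := Nat.le_self_pow (by omega) B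
  have hBp : 1 ≤ B ^ (h + 1) := Nat.one_le_pow _ _ hB1
  have hA2 : 1 ≤ A := by
    rw [hA]
    exact Nat.mul_pos (by omega) hBp
  have hcardF : Fintype.card (Fin p × Fin q) = n := by
    rw [Fintype.card_prod, Fintype.card_fin, Fintype.card_fin]
  set S0 : ℕ := B ^ h / 2 ^ M with hS0
  have hS0h : S0 ≤ B ^ h := Nat.div_le_self _ _
  have hA1' : p * q * (S0 * B) ≤ A := by
    rw [hA, hC0]
    calc p * q * (S0 * B) ≤ p * q * (B ^ h * B) := Nat.mul_le_mul_left _ (Nat.mul_le_mul_right _ hS0h)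
      _ = n * B ^ (h + 1) := by rw [hn, pow_succ]
      _ ≤ (2 * n + q + 2) * B ^ (h + 1) := Nat.mul_le_mul_right _ (by omega)
  have hA2' : q * B ≤ A := by
    rw [hA, hC0]
    calc q * B ≤ q * B ^ (h + 1) := Nat.mul_le_mul_left _ hB2
      _ ≤ (2 * n + q + 2) * B ^ (h + 1) := Nat.mul_le_mul_right _ (by omega)
  obtain ⟨d, hd1, hd2, hκ2, hdb⟩ := hDb B (by omega) (Fin p × Fin q) hcardF ξ A hA2 (le_of_eq hA)
  set V : Set ℂ := (fun P : MvPolynomial (Fin p × Fin q) ℤ => aeval ξ P) '' Bx (Fin p × Fin q) d d with hV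
  set V2 : Set ℂ := (fun P : MvPolynomial (Fin p × Fin q) ℤ => aeval ξ P) '' Bx (Fin p × Fin q) (2 * d) (2 * d) with hV2
  have hVf : V.Finite := (hBxF _ d d).image _
  have hV2f : V2.Finite := (hBxF _ (2 * d) (2 * d)).image _
  let _ : Fintype V := hVf.fintype
  let _ : Fintype V2 := hV2f.fintype
  have hcV : Fintype.card V = Kc ξ d d := by
    rw [← Nat.card_eq_fintype_card, Nat.card_coe_set_eq]
    rfl
  have hcV2 : Fintype.card V2 = Kc ξ (2 * d) (2 * d) := by
    rw [← Nat.card_eq_fintype_card, Nat.card_coe_set_eq]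
    rfl
  have hrep : ∀ v : V, ∃ P : MvPolynomial (Fin p × Fin q) ℤ, P ∈ Bx (Fin p × Fin q) d d ∧ aeval ξ P = (v : ℂ) := by
    rintro ⟨v, P, hP, rfl⟩
    exact ⟨P, hP, rfl⟩
  choose rep hrep1 hrep2 using hrep
  have hbox : ∀ (w : (Fin q → Fin B) → V) (s : Fin p → ℕ), (∀ i, s i < S0) →
      fq B (fun lam => rep (w lam)) s ∈ Bx (Fin p × Fin q) (2 * d) (2 * d) := fun w s hs =>
    mem_box B hB1 S0 d A hA1' hA2' hd1 _ (fun lam => hrep1 (w lam)) s hs
  set Φ : ((Fin q → Fin B) → V) → ((Fin p → Fin S0) → V2) := fun w s =>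
    ⟨aeval ξ (fq B (fun lam => rep (w lam)) (fun i => (s i : ℕ))), _, hbox w _ (fun i => (s i).2), rfl⟩ with hΦ
  have hκ1 : 1 ≤ Kc ξ d d := by omega
  have hcard : Fintype.card ((Fin p → Fin S0) → V2) < Fintype.card ((Fin q → Fin B) → V) := by
    rw [Fintype.card_fun, Fintype.card_fun, Fintype.card_fun, Fintype.card_fun, hcV, hcV2, Fintype.card_fin,
      Fintype.card_fin, Fintype.card_fin, Fintype.card_fin]
    calc Kc ξ (2 * d) (2 * d) ^ (S0 ^ p) ≤ (Kc ξ d d ^ (2 ^ M)) ^ (S0 ^ p) := Nat.pow_le_pow_left hdb _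
      _ = Kc ξ d d ^ (2 ^ M * S0 ^ p) := by rw [← pow_mul]
      _ < Kc ξ d d ^ (B ^ q) := by
          apply Nat.pow_lt_pow_right hκ2
          rcases Nat.eq_zero_or_pos S0 with h0 | h0
          · rw [h0, zero_pow (by omega), mul_zero]
            exact Nat.pow_pos hB1
          · calc 2 ^ M * S0 ^ p < 2 ^ (M * p) * S0 ^ p := by
                  apply Nat.mul_lt_mul_of_pos_right _ (Nat.pow_pos h0)
                  apply Nat.pow_lt_pow_right (by norm_num)
                  nlinarith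
              _ = (2 ^ M * S0) ^ p := by
                  rw [mul_pow, pow_mul]
              _ ≤ (B ^ h) ^ p := by
                  apply Nat.pow_le_pow_left
                  rw [hS0]
                  exact Nat.mul_div_le _ _
              _ = B ^ q := by rw [← pow_mul, hq]
  obtain ⟨w, w', hne, heq⟩ := Fintype.exists_ne_map_eq_of_card_lt Φ hcard
  have hlam : ∃ lam, w lam ≠ w' lam := by
    by_contra h
    push Not at h
    exact hne (funext h)
  obtain ⟨lam0, hlam0⟩ := hlam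
  refine ⟨fun lam => rep (w lam) - rep (w' lam), fun lam => ?_, ⟨lam0, ?_⟩, fun s hs => ?_⟩
  · have hdd : d ≤ C0 * B ^ (h + 2) := by
      calc d ≤ A * B := hd2
        _ = C0 * B ^ (h + 2) := by rw [hA]; ring
    have h1 := hrep1 (w lam)
    have h2 := hrep1 (w' lam)
    refine ⟨?_, fun μ => ?_⟩
    · refine (totalDegree_sub _ _).trans ?_
      have := h1.1
      have := h2.1
      omega
    · rw [coeff_sub]
      have h3 := h1.2 μ
      have h4 := h2.2 μ
      have h5 : |(rep (w lam)).coeff μ - (rep (w' lam)).coeff μ| ≤ 2 ^ d := by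
        rw [abs_le]
        constructor <;> linarith [h3.1, h3.2, h4.1, h4.2]
      exact h5.trans (pow_le_pow_right₀ (by norm_num) hdd)
  · rw [map_sub, hrep2, hrep2, sub_ne_zero]
    exact fun h => hlam0 (Subtype.ext h)
  · have h0 := congrFun heq (fun i => ⟨s i, hs i⟩)
    have h1 : aeval ξ (fq B (fun lam => rep (w lam)) s) = aeval ξ (fq B (fun lam => rep (w' lam)) s) :=
      congrArg Subtype.val h0
    have h2 : fq B (fun lam => rep (w lam) - rep (w' lam)) s =
        fq B (fun lam => rep (w lam)) s - fq B (fun lam => rep (w' lam)) s := by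
      unfold fq
      rw [← Finset.sum_sub_distrib]
      refine Finset.sum_congr rfl fun lam _ => ?_
      rw [sub_mul]
    rw [h2, map_sub, h1, sub_self]

end Pool.Agent.SG
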