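import Pool.Agent.Lib.MP_452a87_nt.SG.SpecT

/-!
# MP_452a87_nt, SG/TPt: the frequencies and the points (helper11)
-/

set_option autoImplicit false

namespace Pool.Agent.SG

open MvPolynomial Pool.Agent.SMQ

private theorem TPt_le {r : ℕ} (y : Fin r → ℂ) (n : ℕ) (c : Fin r → ℕ) (h : ∀ i, c i ≤ n) :
    ‖lc y c‖ ≤ (∑ i, ‖y i‖) * n := by
  unfold lc
  refine (norm_sum_le _ _).trans ?_
  rw [Finset.sum_mul]
  refine Finset.sum_le_sum fun i _ => ?_
  rw [norm_mul, Complex.norm_natCast, mul_comm]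
  exact mul_le_mul_of_nonneg_left (by exact_mod_cast h i) (norm_nonneg _)

private theorem TPt_sub {r : ℕ} (y : Fin r → ℂ) (c c' : Fin r → ℕ) :
    lc y c - lc y c' = ∑ i, (((c i : ℤ) - (c' i : ℤ) : ℤ) : ℂ) * y i := by
  unfold lc
  rw [← Finset.sum_sub_distrib]
  refine Finset.sum_congr rfl fun i _ => ?_
  push_cast
  ring

private theorem TPt_ne {r n : ℕ} {s s' : Fin r → Fin n} (h : s ≠ s') :
    (fun i => ((s i : ℕ) : ℤ) - ((s' i : ℕ) : ℤ)) ≠ 0 := by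
  intro h0
  apply h
  funext i
  have h1 := congrFun h0 i
  simp only [Pi.zero_apply] at h1
  apply Fin.ext
  omega

private theorem TPt_abs {r n : ℕ} (s s' : Fin r → Fin n) (i : Fin r) :
    |((s i : ℕ) : ℤ) - ((s' i : ℕ) : ℤ)| ≤ (n : ℤ) := by
  have h1 := (s i).2
  have h2 := (s' i).2
  rw [abs_le]
  constructor <;> omega

theorem pTPt : S_TLx → S_TLl → S_TPt := by
  intro hx hl p q h x L hD
  obtain ⟨hxa, hxi, hLa, hLi⟩ := hD
  obtain ⟨D, C1, hC1, h1⟩ := hx p x hxa hxi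
  obtain ⟨C2, hC2, h2⟩ := hl q L hLa hLi
  have hX : 0 ≤ ∑ i, ‖x i‖ := Finset.sum_nonneg fun _ _ => norm_nonneg _
  have hL : 0 ≤ ∑ j, ‖L j‖ := Finset.sum_nonneg fun _ _ => norm_nonneg _
  refine ⟨D, C2 + ∑ j, ‖L j‖ + 2 * C1 + 2 * ∑ i, ‖x i‖, by linarith, fun B hB => ?_⟩
  have hB1 : (1 : ℝ) ≤ B := by exact_mod_cast hB
  have hB0 : (0 : ℝ) ≤ B := by linarith
  have hBh : (0 : ℝ) ≤ (B : ℝ) ^ h := by positivity
  refine ⟨?_, ?_, ?_, ?_⟩
  · intro lam
    refine (TPt_le L B (fun j => (lam j : ℕ)) fun j => (lam j).2.le).trans ?_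
    exact mul_le_mul_of_nonneg_right (by linarith) hB0
  · intro lam lam' hne
    have h3 := h2 B hB _ (TPt_ne hne) (TPt_abs lam lam')
    rw [TPt_sub L (fun j => (lam j : ℕ)) (fun j => (lam' j : ℕ))]
    refine h3.trans (mul_le_mul_of_nonneg_left ?_ (norm_nonneg _))
    exact Real.exp_le_exp.2 (mul_le_mul_of_nonneg_right (by linarith) hB0)
  · intro s
    refine (TPt_le x (2 * B ^ h) (fun i => (s i : ℕ)) fun i => (s i).2.le).trans ?_
    push_cast
    have e : (∑ i, ‖x i‖) * (2 * (B : ℝ) ^ h) = (2 * ∑ i, ‖x i‖) * (B : ℝ) ^ h := by ring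
    rw [e]
    exact mul_le_mul_of_nonneg_right (by linarith) hBh
  · intro s s' hne
    have hN : 1 ≤ 2 * B ^ h := by
      have : 0 < B ^ h := Nat.pow_pos hB
      omega
    have h3 := h1 (2 * B ^ h) hN _ (TPt_ne hne) (TPt_abs s s')
    rw [TPt_sub x (fun i => (s i : ℕ)) (fun i => (s' i : ℕ))]
    refine h3.trans (mul_le_mul_of_nonneg_left ?_ (norm_nonneg _))
    push_cast
    refine pow_le_pow_left₀ (by positivity) ?_ D
    have e : C1 * (2 * (B : ℝ) ^ h) = (2 * C1) * (B : ℝ) ^ h := by ring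
    rw [e]
    exact mul_le_mul_of_nonneg_right (by linarith) hBh

end Pool.Agent.SG
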