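import Pool.Agent.Lib.MP_452a87_nt.SG.SpecT

/-!
# Theorem T: a family of `p - 1` algebraically independent numbers (module TTH)
-/

set_option autoImplicit false

namespace Pool.Agent.SG

open MvPolynomial Pool.Agent.SMQ

theorem pTTH : S_TTL → S_TrE → S_TTH := by
  intro hL hE p q x L hq hD
  by_cases hp : 2 ≤ p
  · have hD' : Dat x (L ∘ Fin.castLE hq) :=
      ⟨hD.1, hD.2.1, fun j => hD.2.2.1 _, hD.2.2.2.comp _ (Fin.castLE_injective hq)⟩
    obtain ⟨t, ht⟩ := hE (Fin p × Fin (5 * p * p)) ℂ (tq x (L ∘ Fin.castLE hq))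
    have h1 := hL p (5 * p * p) t x (L ∘ Fin.castLE hq) hp rfl hD' ht
    obtain ⟨b, hb, -⟩ := ht
    refine ⟨fun k => ((b (Fin.castLE h1 k)).1, Fin.castLE hq (b (Fin.castLE h1 k)).2), ?_⟩
    exact hb.comp (Fin.castLE h1) (Fin.castLE_injective h1)
  · have h0 : p - 1 = 0 := by omega
    have : IsEmpty (Fin (p - 1)) := by
      rw [h0]
      infer_instance
    exact ⟨fun k => isEmptyElim k, algebraicIndependent_empty_type⟩

end Pool.Agent.SG
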