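import Pool.Agent.Lib.MP_452a87_nt.SG.SpecT

/-!
# Sharp large transcendence degree
-/

set_option autoImplicit false

namespace Pool.Agent.SG

open MvPolynomial Pool.Agent.SMQ

namespace TTLAux

lemma sz_nonneg {σ : Type} (G : MvPolynomial σ ℤ) : 0 ≤ sz G := by
  unfold sz
  have h1 := Real.log_natCast_nonneg (l1 G)
  have h2 : (0 : ℝ) ≤ (G.totalDegree : ℝ) := Nat.cast_nonneg _
  linarith

lemma Stq_mono {p q : ℕ} (x : Fin p → ℂ) (L : Fin q → ℂ) (r : ℕ) (S κ S' κ' : ℝ) (hS : S ≤ S') (hκ : κ' ≤ κ)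
    (h : Stq x L r S κ) : Stq x L r S' κ' := by
  obtain ⟨ξ, G, h1, h2, h3, h4, h5⟩ := h
  refine ⟨ξ, G, h1, h2, h3, h4.trans hS, fun u hu => (h5 u hu).trans ?_⟩
  apply Real.exp_le_exp.mpr
  have := mul_le_mul_of_nonneg_right hκ (sz_nonneg G)
  linarith

end TTLAux

open TTLAux

theorem pTTL (hTSt : S_TSt) : S_TTL := by
  intro p q t x L hp hq hDat hTr
  by_contra hcon
  push Not at hcon
  have ht : t + 2 ≤ p := by omega
  set h : ℕ := 5 * p with hh
  have hq' : q = h * p := by rw [hq]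
  set D : ℕ := h * p with hD
  have hD1 : h + 3 ≤ D := by
    rw [hD, hh]
    nlinarith
  have hkey : (h + 5) * (t + 1) ≤ D := by
    have h1 : t + 1 ≤ p - 1 := by omega
    obtain ⟨r, rfl⟩ : ∃ r, p = r + 1 := ⟨p - 1, by omega⟩
    have h2 : t + 1 ≤ r := by omega
    calc (h + 5) * (t + 1) ≤ (h + 5) * r := Nat.mul_le_mul_left _ h2
      _ ≤ D := by
          rw [hD, hh]
          ring_nf
          omega
  obtain ⟨A, hA⟩ := hTSt p q h t x L hq' hD1 hDat hTr
  set N : ℕ := A + 2 with hN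
  have hNr : (1 : ℝ) ≤ N := by
    have : 1 ≤ N := by omega
    exact_mod_cast this
  have hN0 : (0 : ℝ) < N := by linarith
  obtain ⟨hstep, ρ0, hρ0, hst⟩ := hA N (by omega)
  have hmul : ∀ i, i ≤ t → (h + 5) * i + (h + 5) ≤ D := by
    intro i hi
    calc (h + 5) * i + (h + 5) = (h + 5) * (i + 1) := by ring
      _ ≤ (h + 5) * (t + 1) := Nat.mul_le_mul_left _ (by omega)
      _ ≤ D := hkey
  have h35 : ∀ i, (h + 3) * i + 2 * i = (h + 5) * i := fun i => by ring
  have claim : ∀ i, 1 ≤ i → i ≤ t → Stq x L (t - i) ((N : ℝ) ^ ((h + 3) * i)) ((N : ℝ) ^ (D - (h + 5) * i)) := by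
    intro i hi
    induction i, hi using Nat.le_induction with
    | base =>
      intro _
      have h1 : t - 1 = ρ0 := by omega
      rw [h1]
      refine Stq_mono x L ρ0 _ _ _ _ ?_ ?_ hst
      · exact pow_le_pow_right₀ hNr (by omega)
      · exact pow_le_pow_right₀ hNr (by omega)
    | succ i hi ih =>
      intro hit
      have h1 := ih (by omega)
      have h2 := hmul i (by omega)
      have h3 := h35 i
      have h6 := hmul (i + 1) (by omega)
      have hκ : (N : ℝ) ^ (h + 5) ≤ (N : ℝ) ^ (D - (h + 5) * i) := pow_le_pow_right₀ hNr (by omega)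
      have hS : (N : ℝ) ^ ((h + 3) * i) ≤ (N : ℝ) ^ (D - (h + 3)) := pow_le_pow_right₀ hNr (by omega)
      obtain ⟨ρ, hρ, hs⟩ := hstep (t - i) _ _ (by omega) hκ hS h1
      have h4 : t - (i + 1) = ρ := by omega
      rw [h4]
      have e1 : (h + 3) * (i + 1) = (h + 3) * i + (h + 3) := by ring
      have e2 : (h + 5) * (i + 1) = (h + 5) * i + (h + 5) := by ring
      refine Stq_mono x L ρ _ _ _ _ ?_ ?_ hs
      · rw [← pow_add]
        exact pow_le_pow_right₀ hNr (by omega)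
      · apply le_min
        · rw [le_div_iff₀ (by positivity), ← pow_add]
          exact pow_le_pow_right₀ hNr (by omega)
        · rw [le_div_iff₀ (by positivity), ← pow_add]
          exact pow_le_pow_right₀ hNr (by omega)
  have h1 := claim t (by omega) le_rfl
  have h2 := hmul t le_rfl
  have h3 := h35 t
  have hκ : (N : ℝ) ^ (h + 5) ≤ (N : ℝ) ^ (D - (h + 5) * t) := pow_le_pow_right₀ hNr (by omega)
  have hS : (N : ℝ) ^ ((h + 3) * t) ≤ (N : ℝ) ^ (D - (h + 3)) := pow_le_pow_right₀ hNr (by omega)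
  obtain ⟨ρ, hρ, -⟩ := hstep (t - t) _ _ (by omega) hκ hS h1
  omega

end Pool.Agent.SG
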