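import Pool.Agent.Lib.MP_452a87_nt.SG.SpecT

/-!
# Theorem SG, task TX1: extrapolation
-/

set_option autoImplicit false

namespace Pool.Agent.SG

open MvPolynomial Pool.Agent.SMQ

namespace TX1Aux

lemma xbound (h D : ℕ) (C1 : ℝ) (N : ℕ)
    (hN : 18 * C1 ^ (D + 1) * (4 ^ (h * (D + 1) + 1) * (Nat.factorial (h * (D + 1) + 1) : ℝ)) ≤
      (N : ℝ)) :
    18 * (C1 * (N : ℝ) ^ h) * (C1 * (N : ℝ) ^ h) ^ D ≤ Real.exp ((N : ℝ) / 4) := by
  have h1 := Real.pow_div_factorial_le_exp ((N : ℝ) / 4) (by positivity) (h * (D + 1) + 1)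
  refine le_trans ?_ h1
  have hf : (0 : ℝ) < (Nat.factorial (h * (D + 1) + 1) : ℝ) := by
    exact_mod_cast Nat.factorial_pos _
  rw [le_div_iff₀ hf, div_pow, le_div_iff₀ (by positivity)]
  calc 18 * (C1 * (N : ℝ) ^ h) * (C1 * (N : ℝ) ^ h) ^ D *
        (Nat.factorial (h * (D + 1) + 1) : ℝ) * 4 ^ (h * (D + 1) + 1)
      = (18 * C1 ^ (D + 1) * (4 ^ (h * (D + 1) + 1) * (Nat.factorial (h * (D + 1) + 1) : ℝ))) *
          (N : ℝ) ^ (h * (D + 1)) := by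
        rw [pow_mul (N : ℝ) h (D + 1)]
        ring
    _ ≤ N * (N : ℝ) ^ (h * (D + 1)) := mul_le_mul_of_nonneg_right hN (by positivity)
    _ = (N : ℝ) ^ (h * (D + 1) + 1) := by ring

lemma qbound (D N T : ℕ) (x : ℝ) (hx0 : 0 ≤ x) (hx : x ≤ Real.exp ((N : ℝ) / 4))
    (hT : (T : ℝ) ≤ (N : ℝ) ^ D) (hN : 8 ≤ N) :
    (T : ℝ) * Real.exp (-((N : ℝ) ^ (D + 2) / 2)) * x ^ T ≤ Real.exp (-(N : ℝ) ^ D) := by
  have h1 : (T : ℝ) ≤ Real.exp T := by
    have := Real.add_one_le_exp (T : ℝ)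
    linarith
  have h2 : x ^ T ≤ Real.exp (T * (N / 4)) := by
    rw [Real.exp_nat_mul]
    exact pow_le_pow_left₀ hx0 hx _
  have hN8 : (8 : ℝ) ≤ N := by exact_mod_cast hN
  calc (T : ℝ) * Real.exp (-((N : ℝ) ^ (D + 2) / 2)) * x ^ T
      ≤ Real.exp T * Real.exp (-((N : ℝ) ^ (D + 2) / 2)) * Real.exp (T * (N / 4)) := by gcongr
    _ = Real.exp (T + -((N : ℝ) ^ (D + 2) / 2) + T * (N / 4)) := by rw [Real.exp_add, Real.exp_add]
    _ ≤ Real.exp (-(N : ℝ) ^ D) := by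
        apply Real.exp_le_exp.mpr
        have h3 : (T : ℝ) * (N / 4) ≤ (N : ℝ) ^ D * (N / 4) :=
          mul_le_mul_of_nonneg_right hT (by positivity)
        have h4 : (N : ℝ) ^ (D + 2) = (N : ℝ) ^ D * N * N := by ring
        have h5 : (N : ℝ) ^ D * 8 ≤ (N : ℝ) ^ D * N := mul_le_mul_of_nonneg_left hN8 (by positivity)
        have h6 : (N : ℝ) ^ D * N * 8 ≤ (N : ℝ) ^ D * N * N :=
          mul_le_mul_of_nonneg_left hN8 (by positivity)
        rw [h4]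
        linarith

lemma exp2_le : Real.exp 2 ≤ 8 := by
  have h1 := Real.exp_one_lt_d9
  have h2 : Real.exp 2 = Real.exp 1 * Real.exp 1 := by
    rw [← Real.exp_add]
    norm_num
  rw [h2]
  have h3 := Real.exp_pos 1
  nlinarith

lemma final (h D N T : ℕ) (C2 c : ℝ) (hC2 : 0 ≤ C2) (hc0 : 0 < c) (hc : c ≤ 1 / 2) (hN : 4 ≤ N)
    (hD : h + 3 ≤ D) (hcN : C2 + 2 ≤ c * N) (hT : c * (N : ℝ) ^ D ≤ T) :
    (Real.exp (C2 * (N : ℝ) ^ (h + 2)) + 1) / 8 ^ T + Real.exp (-(N : ℝ) ^ D) ≤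
      Real.exp (-(c * (N : ℝ) ^ D)) := by
  have hN1 : (1 : ℝ) ≤ N := by exact_mod_cast (by omega : 1 ≤ N)
  have hN4 : (4 : ℝ) ≤ N := by exact_mod_cast hN
  have h0 : 0 ≤ C2 * (N : ℝ) ^ (h + 2) := by positivity
  have h1 : Real.exp (C2 * (N : ℝ) ^ (h + 2)) + 1 ≤ Real.exp (C2 * (N : ℝ) ^ (h + 2) + 1) := by
    rw [Real.exp_add]
    have e1 : 1 ≤ Real.exp (C2 * (N : ℝ) ^ (h + 2)) := Real.one_le_exp h0
    have e2 : (2 : ℝ) ≤ Real.exp 1 := by
      have := Real.add_one_le_exp (1 : ℝ)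
      linarith
    nlinarith
  have h2 : Real.exp (2 * T) ≤ 8 ^ T := by
    calc Real.exp (2 * T) = Real.exp 2 ^ T := by
          rw [← Real.exp_nat_mul]
          congr 1
          ring
      _ ≤ 8 ^ T := pow_le_pow_left₀ (Real.exp_pos _).le exp2_le _
  have h3 : (C2 + 2) * (N : ℝ) ^ (h + 2) ≤ c * (N : ℝ) ^ D := by
    calc (C2 + 2) * (N : ℝ) ^ (h + 2) ≤ (c * N) * (N : ℝ) ^ (h + 2) :=
          mul_le_mul_of_nonneg_right hcN (by positivity)
      _ = c * (N : ℝ) ^ (h + 3) := by ring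
      _ ≤ c * (N : ℝ) ^ D := mul_le_mul_of_nonneg_left (pow_le_pow_right₀ hN1 hD) hc0.le
  have h4 : (1 : ℝ) ≤ (N : ℝ) ^ (h + 2) := one_le_pow₀ hN1
  have h5 : (Real.exp (C2 * (N : ℝ) ^ (h + 2)) + 1) / 8 ^ T ≤
      Real.exp (-(c * (N : ℝ) ^ D) - 1) := by
    rw [div_le_iff₀ (by positivity)]
    calc Real.exp (C2 * (N : ℝ) ^ (h + 2)) + 1 ≤ Real.exp (C2 * (N : ℝ) ^ (h + 2) + 1) := h1
      _ ≤ Real.exp (-(c * (N : ℝ) ^ D) - 1 + 2 * T) := by
          apply Real.exp_le_exp.mpr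
          nlinarith
      _ = Real.exp (-(c * (N : ℝ) ^ D) - 1) * Real.exp (2 * T) := Real.exp_add _ _
      _ ≤ Real.exp (-(c * (N : ℝ) ^ D) - 1) * 8 ^ T :=
          mul_le_mul_of_nonneg_left h2 (Real.exp_pos _).le
  have h6 : Real.exp (-(N : ℝ) ^ D) ≤ Real.exp (-(c * (N : ℝ) ^ D) - 1) := by
    apply Real.exp_le_exp.mpr
    have e1 : (N : ℝ) ≤ (N : ℝ) ^ D := le_self_pow₀ hN1 (by omega)
    have e2 : c * (N : ℝ) ^ D ≤ 1 / 2 * (N : ℝ) ^ D := mul_le_mul_of_nonneg_right hc (by positivity)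
    linarith
  have h7 : Real.exp (-(c * (N : ℝ) ^ D) - 1) * 2 ≤ Real.exp (-(c * (N : ℝ) ^ D)) := by
    have e1 : Real.exp (-(c * (N : ℝ) ^ D)) =
        Real.exp (-(c * (N : ℝ) ^ D) - 1) * Real.exp 1 := by
      rw [← Real.exp_add]
      congr 1
      ring
    rw [e1]
    apply mul_le_mul_of_nonneg_left _ (Real.exp_pos _).le
    have := Real.add_one_le_exp (1 : ℝ)
    linarith
  linarith

end TX1Aux

open TX1Aux

theorem pTX1 : S_TPt → S_Swz → S_Lag → S_TX1 := by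
  intro hPts hSwz hLag p q h M x L hq hE hDat
  obtain ⟨D', C1, hC1, hPts⟩ := hPts p q h x L hDat
  set E : ℕ := h * p with hEdef
  have hp1 : 1 ≤ p := by
    rcases Nat.eq_zero_or_pos p with h0 | h0
    · rw [h0, Nat.mul_zero] at hEdef
      omega
    · exact h0
  have hh1 : 1 ≤ h := by
    rcases Nat.eq_zero_or_pos h with h0 | h0
    · rw [h0, Nat.zero_mul] at hEdef
      omega
    · exact h0
  set c : ℝ := (1 / 2 ^ (M + 1)) ^ p with hc
  have hc0 : 0 < c := by positivity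
  have hc12 : c ≤ 1 / 2 := by
    have e1 : (1 : ℝ) / 2 ^ (M + 1) ≤ 1 / 2 := by
      apply one_div_le_one_div_of_le (by norm_num)
      calc (2 : ℝ) = 2 ^ 1 := by norm_num
        _ ≤ 2 ^ (M + 1) := pow_le_pow_right₀ (by norm_num) (by omega)
    calc c ≤ (1 / 2 ^ (M + 1) : ℝ) ^ 1 :=
          pow_le_pow_of_le_one (by positivity) (e1.trans (by norm_num)) hp1
      _ ≤ 1 / 2 := by rw [pow_one]; exact e1
  refine ⟨c, hc0, fun C => ?_⟩
  set C2 : ℝ := |C| + q + 17 * C1 ^ 2 with hC2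
  have hC20 : 0 ≤ C2 := by positivity
  refine ⟨16 + 2 ^ M + ⌈18 * C1 ^ (D' + 1) * (4 ^ (h * (D' + 1) + 1) *
    (Nat.factorial (h * (D' + 1) + 1) : ℝ))⌉₊ + ⌈(C2 + 2) / c⌉₊, fun B hB => ?_⟩
  intro a ha hsm s hs
  have h2M : 0 < 2 ^ M := by positivity
  have hB16 : 16 ≤ B := by omega
  have hB2M : 2 ^ M ≤ B := by omega
  have hB1' : 1 ≤ B := by omega
  have hBr : (1 : ℝ) ≤ B := by exact_mod_cast hB1'
  have hBa : 18 * C1 ^ (D' + 1) * (4 ^ (h * (D' + 1) + 1) *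
      (Nat.factorial (h * (D' + 1) + 1) : ℝ)) ≤ (B : ℝ) := by
    refine Nat.le_of_ceil_le ?_
    omega
  have hBb : C2 + 2 ≤ c * B := by
    have h1 : (C2 + 2) / c ≤ (B : ℝ) := by
      refine Nat.le_of_ceil_le ?_
      omega
    rw [div_le_iff₀ hc0] at h1
    linarith
  obtain ⟨hP1, -, hP3, hP4⟩ := hPts B hB1'
  have hFd : Differentiable ℂ (Fz L B a) := by
    unfold Fz
    fun_prop
  have hBh1 : (1 : ℝ) ≤ (B : ℝ) ^ h := one_le_pow₀ hBr
  have hCN1 : 1 ≤ C1 * (B : ℝ) ^ h := by nlinarith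
  have hCN0 : 0 < C1 * (B : ℝ) ^ h := by linarith
  set S0 : ℕ := B ^ h / 2 ^ M with hS0
  have hS0B : S0 ≤ B ^ h := Nat.div_le_self _ _
  have hS0N : S0 ≤ 2 * B ^ h := by omega
  -- points
  set zs : (Fin p → Fin S0) → ℂ := fun s => lc x (fun i => (s i : ℕ)) with hzs
  set emb : (Fin p → Fin S0) → (Fin p → Fin (2 * B ^ h)) :=
    fun s V => ⟨(s V : ℕ), lt_of_lt_of_le (s V).2 hS0N⟩ with hemb
  have hzemb : ∀ s, zs s = lc x (fun i => (emb s i : ℕ)) := fun s => rfl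
  set δ : ℝ := ((C1 * (B : ℝ) ^ h) ^ D')⁻¹ with hδ
  have hCND : 1 ≤ (C1 * (B : ℝ) ^ h) ^ D' := one_le_pow₀ hCN1
  have hδ0 : 0 < δ := by positivity
  have hδ1 : δ ≤ 1 := by
    rw [hδ]
    exact inv_le_one_of_one_le₀ hCND
  have hsep : ∀ s s' : Fin p → Fin S0, s ≠ s' → δ ≤ ‖zs s - zs s'‖ := by
    intro s s' hne
    have hne' : emb s ≠ emb s' := by
      intro h
      apply hne
      funext V
      have := congrFun h V
      simp only [hemb, Fin.mk.injEq] at this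
      exact Fin.ext this
    have h1 := hP4 (emb s) (emb s') hne'
    rw [← hzemb, ← hzemb] at h1
    rw [hδ, inv_le_iff_one_le_mul₀ (by positivity)]
    exact h1
  have hinj : Function.Injective zs := by
    intro s s' hss
    by_contra hne
    have h1 := hsep s s' hne
    rw [hss, sub_self, norm_zero] at h1
    linarith
  set Z : Finset ℂ := Finset.univ.image zs with hZ
  have hZcard : Z.card = S0 ^ p := by
    rw [hZ, Finset.card_image_of_injective _ hinj, Finset.card_univ, Fintype.card_fun,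
      Fintype.card_fin, Fintype.card_fin]
  have hZb : ∀ x ∈ Z, ‖x‖ ≤ C1 * (B : ℝ) ^ h := by
    intro x hx
    obtain ⟨s', -, rfl⟩ := Finset.mem_image.1 hx
    exact hP3 (emb s')
  have hZsep : ∀ x ∈ Z, ∀ y ∈ Z, x ≠ y → δ ≤ ‖x - y‖ := by
    intro x hx y hy hne
    obtain ⟨s1, -, rfl⟩ := Finset.mem_image.1 hx
    obtain ⟨s2, -, rfl⟩ := Finset.mem_image.1 hy
    exact hsep s1 s2 (fun h => hne (by rw [h]))
  set ε : ℝ := Real.exp (-((B : ℝ) ^ (E + 2) / 2)) with hε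
  have hZs : ∀ x ∈ Z, ‖Fz L B a x‖ ≤ ε := by
    intro x hx
    obtain ⟨s', -, rfl⟩ := Finset.mem_image.1 hx
    exact hsm (fun V => (s' V : ℕ)) (fun V => (s' V).2)
  obtain ⟨Q, hQ1, hQ2⟩ := hLag Z (Fz L B a) (C1 * (B : ℝ) ^ h) δ ε hCN1 hδ0 hδ1
    (Real.exp_pos _).le hZb hZsep hZs
  have hT : (Z.card : ℝ) ≤ (B : ℝ) ^ E := by
    rw [hZcard, hEdef, pow_mul]
    push_cast
    apply pow_le_pow_left₀ (by positivity)
    exact_mod_cast hS0B
  have hQb : ∀ z : ℂ, ‖z‖ ≤ 17 * (C1 * (B : ℝ) ^ h) → ‖Q.eval z‖ ≤ Real.exp (-(B : ℝ) ^ E) := by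
    intro z hz
    refine (hQ2 z hz).trans ?_
    have e2 : 18 * (C1 * (B : ℝ) ^ h) / δ =
        18 * (C1 * (B : ℝ) ^ h) * (C1 * (B : ℝ) ^ h) ^ D' := by
      rw [hδ, div_inv_eq_mul]
    rw [e2]
    exact qbound E B Z.card _ (by positivity) (xbound h D' C1 B hBa) hT (by omega)
  have hbound : ∀ z : ℂ, ‖z‖ ≤ 17 * (C1 * (B : ℝ) ^ h) →
      ‖Fz L B a z‖ ≤ Real.exp (C2 * (B : ℝ) ^ (h + 2)) := by
    intro z hz
    have hterm : ∀ lam : Fin q → Fin B,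
        ‖a lam * Complex.exp (lc L (fun j => (lam j : ℕ)) * z)‖ ≤
        Real.exp (|C| * (B : ℝ) ^ (h + 2)) * Real.exp (17 * C1 ^ 2 * (B : ℝ) ^ (h + 2)) := by
      intro lam
      rw [norm_mul]
      have h1 : ‖a lam‖ ≤ Real.exp (|C| * (B : ℝ) ^ (h + 2)) := by
        refine (ha lam).trans ?_
        apply Real.exp_le_exp.mpr
        exact mul_le_mul_of_nonneg_right (le_abs_self C) (by positivity)
      have h2 : ‖Complex.exp (lc L (fun j => (lam j : ℕ)) * z)‖ ≤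
          Real.exp (17 * C1 ^ 2 * (B : ℝ) ^ (h + 2)) := by
        refine (Complex.norm_exp_le_exp_norm _).trans ?_
        apply Real.exp_le_exp.2
        rw [norm_mul]
        calc ‖lc L (fun j => (lam j : ℕ))‖ * ‖z‖ ≤ (C1 * B) * (17 * (C1 * (B : ℝ) ^ h)) :=
              mul_le_mul (hP1 lam) hz (norm_nonneg _) (by positivity)
          _ = 17 * C1 ^ 2 * (B : ℝ) ^ (h + 1) := by ring
          _ ≤ 17 * C1 ^ 2 * (B : ℝ) ^ (h + 2) := by
              apply mul_le_mul_of_nonneg_left _ (by positivity)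
              exact pow_le_pow_right₀ hBr (by omega)
      exact mul_le_mul h1 h2 (norm_nonneg _) (by positivity)
    calc ‖Fz L B a z‖ ≤ ∑ lam : Fin q → Fin B,
          ‖a lam * Complex.exp (lc L (fun j => (lam j : ℕ)) * z)‖ := norm_sum_le _ _
      _ ≤ ∑ _lam : Fin q → Fin B,
          Real.exp (|C| * (B : ℝ) ^ (h + 2)) * Real.exp (17 * C1 ^ 2 * (B : ℝ) ^ (h + 2)) :=
          Finset.sum_le_sum fun lam _ => hterm lam
      _ = (B : ℝ) ^ q * (Real.exp (|C| * (B : ℝ) ^ (h + 2)) *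
            Real.exp (17 * C1 ^ 2 * (B : ℝ) ^ (h + 2))) := by
          rw [Finset.sum_const, Finset.card_univ, Fintype.card_fun, Fintype.card_fin,
            Fintype.card_fin, nsmul_eq_mul]
          push_cast
          rfl
      _ ≤ Real.exp (q * (B : ℝ) ^ (h + 2)) * (Real.exp (|C| * (B : ℝ) ^ (h + 2)) *
            Real.exp (17 * C1 ^ 2 * (B : ℝ) ^ (h + 2))) := by
          have h1 : (B : ℝ) ^ q ≤ Real.exp (q * (B : ℝ) ^ (h + 2)) := by
            have h2 : (B : ℝ) ≤ Real.exp ((B : ℝ) ^ (h + 2)) := by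
              have h3 := Real.add_one_le_exp ((B : ℝ) ^ (h + 2))
              have h4 : (B : ℝ) ≤ (B : ℝ) ^ (h + 2) := le_self_pow₀ hBr (by omega)
              linarith
            calc (B : ℝ) ^ q ≤ Real.exp ((B : ℝ) ^ (h + 2)) ^ q :=
                  pow_le_pow_left₀ (by positivity) h2 _
              _ = Real.exp (q * (B : ℝ) ^ (h + 2)) := by rw [← Real.exp_nat_mul]
          gcongr
      _ = Real.exp (C2 * (B : ℝ) ^ (h + 2)) := by
          rw [← Real.exp_add, ← Real.exp_add, hC2]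
          congr 1
          ring
  have hGd : Differentiable ℂ (fun z => Fz L B a z - Q.eval z) := hFd.sub Q.differentiable
  have hG0 : ∀ x ∈ Z, ‖x‖ ≤ C1 * (B : ℝ) ^ h ∧ (fun z => Fz L B a z - Q.eval z) x = 0 := by
    intro x hx
    refine ⟨hZb x hx, ?_⟩
    simp only
    rw [hQ1 x hx, sub_self]
  have hGb : ∀ z : ℂ, ‖z‖ ≤ 17 * (C1 * (B : ℝ) ^ h) →
      ‖(fun z => Fz L B a z - Q.eval z) z‖ ≤ Real.exp (C2 * (B : ℝ) ^ (h + 2)) + 1 := by
    intro z hz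
    have h1 := hbound z hz
    have h2 := hQb z hz
    have h3 : Real.exp (-(B : ℝ) ^ E) ≤ 1 := by
      rw [Real.exp_le_one_iff]
      have : (0 : ℝ) ≤ (B : ℝ) ^ E := by positivity
      linarith
    have h4 := norm_sub_le (Fz L B a z) (Q.eval z)
    simp only
    linarith
  have hsw := hSwz (fun z => Fz L B a z - Q.eval z) Z (C1 * (B : ℝ) ^ h)
    (Real.exp (C2 * (B : ℝ) ^ (h + 2)) + 1) hGd hCN0 hG0 hGb
  set sf : Fin p → Fin (2 * B ^ h) := fun V => ⟨s V, hs V⟩ with hsf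
  have hzs' : ‖lc x s‖ ≤ C1 * (B : ℝ) ^ h := hP3 sf
  have h1 := hsw _ hzs'
  have h1' := hQb (lc x s) (by linarith)
  rw [← le_div_iff₀ (by positivity)] at h1
  have hT2 : c * (B : ℝ) ^ E ≤ (Z.card : ℝ) := by
    rw [hZcard, hc, hEdef, pow_mul, ← mul_pow]
    push_cast
    apply pow_le_pow_left₀ (by positivity)
    have hBh2 : 2 ^ M ≤ B ^ h := hB2M.trans (Nat.le_self_pow (by omega) B)
    have h2 : B ^ h ≤ 2 ^ (M + 1) * S0 := by
      have e1 : 1 ≤ S0 := by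
        rw [hS0, Nat.one_le_div_iff (by positivity)]
        exact hBh2
      have e2 : B ^ h < 2 ^ M * (S0 + 1) := by
        rw [hS0]
        have e3 := Nat.div_add_mod (B ^ h) (2 ^ M)
        have e4 := Nat.mod_lt (B ^ h) (show 0 < 2 ^ M by positivity)
        rw [Nat.mul_add, Nat.mul_one]
        omega
      calc B ^ h ≤ 2 ^ M * (S0 + 1) := e2.le
        _ ≤ 2 ^ M * (S0 + S0) := Nat.mul_le_mul_left _ (by omega)
        _ = 2 ^ (M + 1) * S0 := by ring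
    have h3 : ((B : ℝ)) ^ h ≤ 2 ^ (M + 1) * S0 := by exact_mod_cast h2
    rw [one_div, inv_mul_le_iff₀ (by positivity)]
    exact h3
  have hfin := final h E B Z.card C2 c hC20 hc0 hc12 (by omega) hE hBb hT2
  have h5 : ‖Fz L B a (lc x s)‖ ≤ ‖Fz L B a (lc x s) - Q.eval (lc x s)‖ +
      ‖Q.eval (lc x s)‖ := by
    have := norm_add_le (Fz L B a (lc x s) - Q.eval (lc x s)) (Q.eval (lc x s))
    simpa using this
  have h6 : ‖Fz L B a (lc x s) - Q.eval (lc x s)‖ ≤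
      (Real.exp (C2 * (B : ℝ) ^ (h + 2)) + 1) / 8 ^ Z.card := h1
  linarith

end Pool.Agent.SG
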