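import Pool.Agent.Lib.MP_452a87_nt.SG.SpecT

/-!
# The small value lemma with complex coefficients
-/

set_option autoImplicit false

namespace Pool.Agent.SG

open MvPolynomial Pool.Agent.SMQ

namespace TX2Aux

lemma totalDegree_mon {p q : ℕ} (c : Fin p × Fin q → ℕ) (K : ℕ) (hB : ∀ W, c W ≤ K) :
    (∏ W, (X W : MvPolynomial (Fin p × Fin q) ℤ) ^ c W).totalDegree ≤ p * q * K := by
  refine (totalDegree_finsetProd _ _).trans ?_
  calc ∑ W : Fin p × Fin q, ((X W : MvPolynomial (Fin p × Fin q) ℤ) ^ c W).totalDegree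
      ≤ ∑ _W : Fin p × Fin q, K := by
        refine Finset.sum_le_sum fun W _ => ?_
        refine (totalDegree_pow _ _).trans ?_
        rw [totalDegree_X, mul_one]
        exact hB W
    _ = p * q * K := by
        rw [Finset.sum_const, Finset.card_univ, Fintype.card_prod, Fintype.card_fin, Fintype.card_fin, smul_eq_mul]

lemma l1_mon {ι : Type} [Fintype ι] (c : ι → ℕ) :
    l1 (∏ W, (X W : MvPolynomial ι ℤ) ^ c W) ≤ 1 := by
  classical
  have h : (∏ W, (X W : MvPolynomial ι ℤ) ^ c W) = monomial (Finsupp.equivFunOnFinite.symm c) 1 := by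
    rw [monomial_eq]
    simp only [map_one, one_mul]
    rw [Finsupp.prod_fintype _ _ (fun i => pow_zero _)]
    rfl
  rw [h]
  unfold l1
  have hs : (monomial (Finsupp.equivFunOnFinite.symm c) (1 : ℤ)).support ⊆ {Finsupp.equivFunOnFinite.symm c} :=
    support_monomial_subset
  calc ∑ m ∈ (monomial (Finsupp.equivFunOnFinite.symm c) (1 : ℤ)).support,
        ((monomial (Finsupp.equivFunOnFinite.symm c) (1 : ℤ)).coeff m).natAbs
      ≤ ∑ m ∈ {Finsupp.equivFunOnFinite.symm c},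
        ((monomial (Finsupp.equivFunOnFinite.symm c) (1 : ℤ)).coeff m).natAbs :=
        Finset.sum_le_sum_of_subset hs
    _ = 1 := by
        rw [Finset.sum_singleton, coeff_monomial, if_pos rfl]
        rfl

end TX2Aux

open TX2Aux

theorem pTX2 (hTPt : S_TPt) (hTEv : S_TEv) (hLip : S_Lip) (hSml : S_Sml) (hCof : S_Cof) (hTNum : S_TNum) : S_TX2 := by
  classical
  intro p q h x L hq hh hDat
  obtain ⟨D, C1, hC1, hPts⟩ := hTPt p q h x L hDat
  have hp1 : 1 ≤ p := by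
    rcases Nat.eq_zero_or_pos p with h0 | h0
    · rw [h0] at hh
      omega
    · exact h0
  set S : ℝ := ∑ U, ‖tq x L U‖ with hS
  have hS0 : 0 ≤ S := Finset.sum_nonneg fun _ _ => norm_nonneg _
  set C : ℝ := C1 + 2 * (p * q) + S + 1 with hC
  have hpq0 : (0 : ℝ) ≤ 2 * (p * q) := by positivity
  have hC1C : C1 ≤ C := by rw [hC]; linarith
  have hC_1 : 1 ≤ C := hC1.trans hC1C
  have hC0 : 0 ≤ C := by linarith
  obtain ⟨N0, hN0⟩ := hTNum p h D C hC_1 hh
  refine ⟨N0, fun B hB c hc0 y hy => ?_⟩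
  obtain ⟨hB1, hnum1, hnum2⟩ := hN0 B hB
  by_contra hcon
  push Not at hcon
  obtain ⟨hP1, hP2, hP3, hP4⟩ := hPts B hB1
  have hBr : (1 : ℝ) ≤ B := by exact_mod_cast hB1
  have hB0 : (0 : ℝ) ≤ B := by linarith
  have hBh1 : (1 : ℝ) ≤ (B : ℝ) ^ h := one_le_pow₀ hBr
  have hCB1 : 1 ≤ C * B := by nlinarith
  have hCB0 : 0 < C * B := by linarith
  have hCh1 : 1 ≤ C * (B : ℝ) ^ h := by nlinarith
  have hCh0 : 0 < C * (B : ℝ) ^ h := by linarith
  have hC1B : C1 * B ≤ C * B := mul_le_mul_of_nonneg_right hC1C (by linarith)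
  have hC1h : C1 * (B : ℝ) ^ h ≤ C * (B : ℝ) ^ h := mul_le_mul_of_nonneg_right hC1C (by linarith)
  have hC1h0 : 0 ≤ C1 * (B : ℝ) ^ h := by
    have : 0 ≤ C1 := by linarith
    positivity
  have hpow : (C1 * (B : ℝ) ^ h) ^ D ≤ (C * (B : ℝ) ^ h) ^ D := pow_le_pow_left₀ hC1h0 hC1h _
  -- the maximum of the coefficients
  obtain ⟨k0, hk0⟩ : ∃ k0, ∀ lam, ‖c lam‖ ≤ ‖c k0‖ := by
    have : Nonempty (Fin q → Fin B) := ⟨fun _ => ⟨0, hB1⟩⟩
    obtain ⟨k, -, hk⟩ := Finset.exists_max_image (Finset.univ : Finset (Fin q → Fin B))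
      (fun lam => ‖c lam‖) Finset.univ_nonempty
    exact ⟨k, fun lam => hk lam (Finset.mem_univ _)⟩
  set P : ℝ := ‖c k0‖ with hP
  have hPr : 0 < P := by
    rcases (norm_nonneg (c k0)).lt_or_eq with h1 | h1
    · exact h1
    · exfalso
      apply hc0
      funext lam
      have h2 := hk0 lam
      have h3 : P = 0 := by rw [hP, ← h1]
      rw [h3] at h2
      exact norm_le_zero_iff.mp h2
  -- indexing
  have hcard : Fintype.card (Fin q → Fin B) = B ^ (h * p) := by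
    rw [Fintype.card_fun, Fintype.card_fin, Fintype.card_fin, hq]
  set e : (Fin q → Fin B) ≃ Fin (B ^ (h * p)) := Fintype.equivFinOfCardEq hcard with he
  set p' : Fin (B ^ (h * p)) → ℂ := fun μ => c (e.symm μ) with hp'
  set w : Fin (B ^ (h * p)) → ℂ := fun μ => lc L (fun j => (e.symm μ j : ℕ)) with hw
  have hF : ∀ z : ℂ, ∑ μ, p' μ * Complex.exp (w μ * z) =
      ∑ lam : Fin q → Fin B, c lam * Complex.exp (lc L (fun j => (lam j : ℕ)) * z) := by
    intro z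
    rw [← e.symm.sum_comp]
  -- the points
  set zs : (Fin p → Fin (2 * B ^ h)) → ℂ := fun s => lc x (fun i => (s i : ℕ)) with hzs
  have hinj : Function.Injective zs := by
    intro s s' hss
    by_contra hne
    have h1 := hP4 s s' hne
    have h2 : zs s - zs s' = 0 := by rw [hss, sub_self]
    simp only [hzs] at h2
    rw [h2] at h1
    simp at h1
    linarith
  set Z : Finset ℂ := Finset.univ.image zs with hZ
  have hZcard : Z.card = (2 * B ^ h) ^ p := by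
    rw [hZ, Finset.card_image_of_injective _ hinj, Finset.card_univ, Fintype.card_fun, Fintype.card_fin, Fintype.card_fin]
  set η : ℝ := Real.exp (-(B : ℝ) ^ (h * p + 2)) with hη
  have hη0 : 0 ≤ η := (Real.exp_pos _).le
  have hη1 : η ≤ 1 := by
    rw [hη, Real.exp_le_one_iff]
    have : (0 : ℝ) ≤ (B : ℝ) ^ (h * p + 2) := by positivity
    linarith
  set ε : ℝ := P * (((B ^ (h * p) : ℕ) : ℝ) * (C * (B : ℝ) ^ (h + 1) * C ^ (⌈C * (B : ℝ) ^ (h + 1)⌉₊) * η)) with hε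
  have hε0 : 0 ≤ ε := by positivity
  set δ : ℝ := ((C * (B : ℝ) ^ h) ^ D)⁻¹ with hδ
  have hCND : 1 ≤ (C * (B : ℝ) ^ h) ^ D := one_le_pow₀ hCh1
  have hδ0 : 0 < δ := by positivity
  have hδ1 : δ ≤ 1 := by
    rw [hδ]
    exact inv_le_one_of_one_le₀ hCND
  set δ2 : ℝ := (Real.exp (C * B))⁻¹ with hδ2
  have hδ20 : 0 < δ2 := by positivity
  have hδ21 : δ2 ≤ 1 := by
    rw [hδ2]
    exact inv_le_one_of_one_le₀ (Real.one_le_exp hCB0.le)
  -- bounds
  have hwb : ∀ i, ‖w i‖ ≤ C * B := fun i => (hP1 (e.symm i)).trans hC1B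
  have hwsep : ∀ i k, i ≠ k → δ2 ≤ ‖w i - w k‖ := by
    intro i k hik
    have h1 := hP2 (e.symm i) (e.symm k) (fun h => hik (e.symm.injective h))
    rw [hδ2, inv_le_iff_one_le_mul₀ (by positivity)]
    refine h1.trans ?_
    exact mul_le_mul_of_nonneg_left (Real.exp_le_exp.mpr hC1B) (norm_nonneg _)
  have hZb : ∀ z ∈ Z, ‖z‖ ≤ C * (B : ℝ) ^ h := by
    intro z hz
    obtain ⟨s, -, rfl⟩ := Finset.mem_image.1 hz
    exact (hP3 s).trans hC1h
  have hZsep : ∀ z ∈ Z, ∀ z' ∈ Z, z ≠ z' → δ ≤ ‖z - z'‖ := by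
    intro z hz z' hz' hne
    obtain ⟨s, -, rfl⟩ := Finset.mem_image.1 hz
    obtain ⟨s', -, rfl⟩ := Finset.mem_image.1 hz'
    have h1 := hP4 s s' (fun h => hne (by rw [h]))
    rw [hδ, inv_le_iff_one_le_mul₀ (by positivity)]
    refine h1.trans ?_
    exact mul_le_mul_of_nonneg_left hpow (norm_nonneg _)
  -- smallness
  have hthC : ∀ U, ‖tq x L U‖ ≤ C - 1 := by
    intro U
    have h1 : ‖tq x L U‖ ≤ S := Finset.single_le_sum (f := fun U => ‖tq x L U‖) (fun _ _ => norm_nonneg _) (Finset.mem_univ U)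
    rw [hC]
    linarith
  have hyC : ∀ U, ‖y U‖ ≤ C := by
    intro U
    have h1 := hy U
    have h2 := hthC U
    have h3 : ‖y U‖ ≤ ‖y U - tq x L U‖ + ‖tq x L U‖ := by
      have := norm_add_le (y U - tq x L U) (tq x L U)
      simpa using this
    linarith
  have hsmall : ∀ z ∈ Z, ‖∑ μ, p' μ * Complex.exp (w μ * z)‖ ≤ ε := by
    intro z hz
    obtain ⟨s, -, rfl⟩ := Finset.mem_image.1 hz
    rw [hF]
    have hzero := hcon (fun i => (s i : ℕ)) (fun i => (s i).2)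
    have hsub : ∑ lam : Fin q → Fin B, c lam * Complex.exp (lc L (fun j => (lam j : ℕ)) * zs s) =
        ∑ lam : Fin q → Fin B, c lam *
          (aeval (tq x L) (∏ W : Fin p × Fin q, (X W : MvPolynomial (Fin p × Fin q) ℤ) ^ ((s W.1 : ℕ) * (lam W.2 : ℕ))) -
            aeval y (∏ W : Fin p × Fin q, (X W : MvPolynomial (Fin p × Fin q) ℤ) ^ ((s W.1 : ℕ) * (lam W.2 : ℕ)))) := by
      have h1 : ∑ lam : Fin q → Fin B, c lam *
          (aeval (tq x L) (∏ W : Fin p × Fin q, (X W : MvPolynomial (Fin p × Fin q) ℤ) ^ ((s W.1 : ℕ) * (lam W.2 : ℕ))) -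
            aeval y (∏ W : Fin p × Fin q, (X W : MvPolynomial (Fin p × Fin q) ℤ) ^ ((s W.1 : ℕ) * (lam W.2 : ℕ)))) =
          ∑ lam : Fin q → Fin B, c lam *
            aeval (tq x L) (∏ W : Fin p × Fin q, (X W : MvPolynomial (Fin p × Fin q) ℤ) ^ ((s W.1 : ℕ) * (lam W.2 : ℕ))) -
          ∑ lam : Fin q → Fin B, c lam * ∏ W : Fin p × Fin q, y W ^ ((s W.1 : ℕ) * (lam W.2 : ℕ)) := by
        rw [← Finset.sum_sub_distrib]
        refine Finset.sum_congr rfl fun lam _ => ?_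
        rw [mul_sub]
        congr 1
        simp
      rw [h1, hzero, sub_zero]
      refine Finset.sum_congr rfl fun lam _ => ?_
      congr 1
      have h2 := hTEv p q x L (fun j => (lam j : ℕ)) (fun i => (s i : ℕ))
      simp only [map_prod, map_pow, aeval_X]
      rw [h2]
    rw [hsub]
    have hterm : ∀ lam : Fin q → Fin B, ‖c lam *
          (aeval (tq x L) (∏ W : Fin p × Fin q, (X W : MvPolynomial (Fin p × Fin q) ℤ) ^ ((s W.1 : ℕ) * (lam W.2 : ℕ))) -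
            aeval y (∏ W : Fin p × Fin q, (X W : MvPolynomial (Fin p × Fin q) ℤ) ^ ((s W.1 : ℕ) * (lam W.2 : ℕ))))‖ ≤
          P * (C * (B : ℝ) ^ (h + 1) * C ^ (⌈C * (B : ℝ) ^ (h + 1)⌉₊) * η) := by
      intro lam
      rw [norm_mul]
      set f := ∏ W : Fin p × Fin q, (X W : MvPolynomial (Fin p × Fin q) ℤ) ^ ((s W.1 : ℕ) * (lam W.2 : ℕ)) with hf
      set d : ℕ := p * q * (2 * B ^ h * B) with hd
      have hdeg : f.totalDegree ≤ d := by
        rw [hf, hd]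
        apply totalDegree_mon
        intro W
        exact Nat.mul_le_mul (s W.1).2.le (lam W.2).2.le
      have hdr : (d : ℝ) ≤ C * (B : ℝ) ^ (h + 1) := by
        have h1 : (d : ℝ) = 2 * (p * q) * (B : ℝ) ^ (h + 1) := by
          rw [hd]
          push_cast
          ring
        rw [h1]
        apply mul_le_mul_of_nonneg_right _ (by positivity)
        rw [hC]
        linarith
      have hdn : d ≤ ⌈C * (B : ℝ) ^ (h + 1)⌉₊ := by
        have : (d : ℝ) ≤ (⌈C * (B : ℝ) ^ (h + 1)⌉₊ : ℝ) := hdr.trans (Nat.le_ceil _)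
        exact_mod_cast this
      have hl := hLip (Fin p × Fin q) f d (tq x L) y C η hC_1 hη0 hdeg
        (fun U => (hthC U).trans (by linarith)) hyC (fun U => by rw [norm_sub_rev]; exact hy U)
      have hl1 : (l1 f : ℝ) ≤ 1 := by
        have := l1_mon (fun W : Fin p × Fin q => (s W.1 : ℕ) * (lam W.2 : ℕ))
        rw [← hf] at this
        exact_mod_cast this
      have hCd : C ^ d ≤ C ^ (⌈C * (B : ℝ) ^ (h + 1)⌉₊) := pow_le_pow_right₀ hC_1 hdn
      apply mul_le_mul (hk0 lam) _ (norm_nonneg _) hPr.le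
      refine hl.trans ?_
      calc (l1 f : ℝ) * (d * C ^ d * η) ≤ 1 * (C * (B : ℝ) ^ (h + 1) * C ^ (⌈C * (B : ℝ) ^ (h + 1)⌉₊) * η) := by
            gcongr
        _ = _ := by rw [one_mul]
    refine (norm_sum_le _ _).trans ?_
    refine (Finset.sum_le_sum fun lam _ => hterm lam).trans ?_
    rw [Finset.sum_const, Finset.card_univ, hcard, nsmul_eq_mul, hε]
    exact le_of_eq (by ring)
  have h2n : 2 * B ^ (h * p) ≤ Z.card := by
    rw [hZcard, mul_pow, ← pow_mul]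
    apply Nat.mul_le_mul_right
    exact Nat.le_self_pow (by omega) 2
  have hs := hSml (B ^ (h * p)) p' w (C * B) (C * (B : ℝ) ^ h) δ ε Z hwb hCh1 hδ0 hδ1 hε0 hZb hZsep hsmall h2n hnum1
  have hc := hCof (B ^ (h * p)) p' w (C * B) δ2 (C * (B : ℝ) ^ h) _ hwb hδ20 hδ21 hCh1 hCB0.le hwsep hs (e k0)
  have hpk : ‖p' (e k0)‖ = P := by
    simp only [hp', Equiv.symm_apply_apply]
    rw [hP]
  rw [hpk, hZcard] at hc
  have e1 : (1 + C * B) / δ2 = (1 + C * B) * Real.exp (C * B) := by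
    rw [hδ2, div_inv_eq_mul]
  have e2 : 18 * (C * (B : ℝ) ^ h) / δ = 18 * (C * (B : ℝ) ^ h) * (C * (B : ℝ) ^ h) ^ D := by
    rw [hδ, div_inv_eq_mul]
  rw [e1, e2] at hc
  have e3 : ((1 + C * B) * Real.exp (C * B)) ^ (B ^ (h * p)) * (Nat.factorial (B ^ (h * p)) : ℝ) *
      (3 * ((((2 * B ^ h) ^ p : ℕ) : ℝ) * ε * (18 * (C * (B : ℝ) ^ h) * (C * (B : ℝ) ^ h) ^ D) ^ ((2 * B ^ h) ^ p))) =
      P * (((1 + C * B) * Real.exp (C * B)) ^ (B ^ (h * p)) * (Nat.factorial (B ^ (h * p)) : ℝ) *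
      (3 * ((((2 * B ^ h) ^ p : ℕ) : ℝ) * (((B ^ (h * p) : ℕ) : ℝ) * (C * (B : ℝ) ^ (h + 1) * C ^ (⌈C * (B : ℝ) ^ (h + 1)⌉₊) *
        Real.exp (-(B : ℝ) ^ (h * p + 2)))) * (18 * (C * (B : ℝ) ^ h) * (C * (B : ℝ) ^ h) ^ D) ^ ((2 * B ^ h) ^ p)))) := by
    rw [hε, hη]
    ring
  rw [e3] at hc
  have hlt := mul_lt_mul_of_pos_left hnum2 hPr
  linarith

end Pool.Agent.SG
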