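import Pool.Agent.Lib.MP_452a87_nt.A.A1v
import Pool.Agent.Lib.MP_452a87_nt.A.A2
import Pool.Agent.Lib.MP_452a87_nt.A.Clr
import Pool.Agent.Lib.MP_452a87_nt.A.Ext
import Pool.Agent.Lib.MP_452a87_nt.A.Gau
import Pool.Agent.Lib.MP_452a87_nt.A.Gnx
import Pool.Agent.Lib.MP_452a87_nt.A.Hom
import Pool.Agent.Lib.MP_452a87_nt.A.P1
import Pool.Agent.Lib.MP_452a87_nt.A.TrE
import Pool.Agent.Lib.MP_452a87_nt.A.TrI
import Pool.Agent.Lib.MP_452a87_nt.A.TrU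
import Pool.Agent.Lib.MP_452a87_nt.E.EIt
import Pool.Agent.Lib.MP_452a87_nt.E.EOn
import Pool.Agent.Lib.MP_452a87_nt.E.EPr
import Pool.Agent.Lib.MP_452a87_nt.E.ESv
import Pool.Agent.Lib.MP_452a87_nt.K.BxF
import Pool.Agent.Lib.MP_452a87_nt.K.K4
import Pool.Agent.Lib.MP_452a87_nt.K.L1a
import Pool.Agent.Lib.MP_452a87_nt.K.L1s
import Pool.Agent.Lib.MP_452a87_nt.K.Lio
import Pool.Agent.Lib.MP_452a87_nt.K.PG
import Pool.Agent.Lib.MP_452a87_nt.K.QA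
import Pool.Agent.Lib.MP_452a87_nt.K.QA1
import Pool.Agent.Lib.MP_452a87_nt.K.QT
import Pool.Agent.Lib.MP_452a87_nt.L.LCf
import Pool.Agent.Lib.MP_452a87_nt.L.LDf
import Pool.Agent.Lib.MP_452a87_nt.L.LDn
import Pool.Agent.Lib.MP_452a87_nt.L.LDs
import Pool.Agent.Lib.MP_452a87_nt.L.LFc
import Pool.Agent.Lib.MP_452a87_nt.L.LFe
import Pool.Agent.Lib.MP_452a87_nt.L.LG
import Pool.Agent.Lib.MP_452a87_nt.L.LG1
import Pool.Agent.Lib.MP_452a87_nt.L.LG2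
import Pool.Agent.Lib.MP_452a87_nt.L.LGp
import Pool.Agent.Lib.MP_452a87_nt.L.LHp
import Pool.Agent.Lib.MP_452a87_nt.L.LHy
import Pool.Agent.Lib.MP_452a87_nt.L.LI1
import Pool.Agent.Lib.MP_452a87_nt.L.LId
import Pool.Agent.Lib.MP_452a87_nt.L.LKy
import Pool.Agent.Lib.MP_452a87_nt.L.LLf
import Pool.Agent.Lib.MP_452a87_nt.L.LMu
import Pool.Agent.Lib.MP_452a87_nt.L.LNr
import Pool.Agent.Lib.MP_452a87_nt.L.LRb
import Pool.Agent.Lib.MP_452a87_nt.L.LRe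
import Pool.Agent.Lib.MP_452a87_nt.L.LSe
import Pool.Agent.Lib.MP_452a87_nt.L.LSy
import Pool.Agent.Lib.MP_452a87_nt.L.LVl
import Pool.Agent.Lib.MP_452a87_nt.SG.ACm
import Pool.Agent.Lib.MP_452a87_nt.SG.AD1
import Pool.Agent.Lib.MP_452a87_nt.SG.ADu
import Pool.Agent.Lib.MP_452a87_nt.SG.ADx
import Pool.Agent.Lib.MP_452a87_nt.SG.AEx
import Pool.Agent.Lib.MP_452a87_nt.SG.AIn
import Pool.Agent.Lib.MP_452a87_nt.SG.AKD
import Pool.Agent.Lib.MP_452a87_nt.SG.ALa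
import Pool.Agent.Lib.MP_452a87_nt.SG.ALf
import Pool.Agent.Lib.MP_452a87_nt.SG.AMb
import Pool.Agent.Lib.MP_452a87_nt.SG.AMn
import Pool.Agent.Lib.MP_452a87_nt.SG.AMr
import Pool.Agent.Lib.MP_452a87_nt.SG.AMt
import Pool.Agent.Lib.MP_452a87_nt.SG.AMx
import Pool.Agent.Lib.MP_452a87_nt.SG.ANm
import Pool.Agent.Lib.MP_452a87_nt.SG.ANz
import Pool.Agent.Lib.MP_452a87_nt.SG.ARs
import Pool.Agent.Lib.MP_452a87_nt.SG.ARt
import Pool.Agent.Lib.MP_452a87_nt.SG.ARv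
import Pool.Agent.Lib.MP_452a87_nt.SG.ATc
import Pool.Agent.Lib.MP_452a87_nt.SG.ATy
import Pool.Agent.Lib.MP_452a87_nt.SG.AVn
import Pool.Agent.Lib.MP_452a87_nt.SG.Acl
import Pool.Agent.Lib.MP_452a87_nt.SG.Adl
import Pool.Agent.Lib.MP_452a87_nt.SG.BBa
import Pool.Agent.Lib.MP_452a87_nt.SG.BCh
import Pool.Agent.Lib.MP_452a87_nt.SG.BDf
import Pool.Agent.Lib.MP_452a87_nt.SG.BDt
import Pool.Agent.Lib.MP_452a87_nt.SG.BFn
import Pool.Agent.Lib.MP_452a87_nt.SG.BLg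
import Pool.Agent.Lib.MP_452a87_nt.SG.BLn
import Pool.Agent.Lib.MP_452a87_nt.SG.BMn
import Pool.Agent.Lib.MP_452a87_nt.SG.BTh
import Pool.Agent.Lib.MP_452a87_nt.SG.BTp
import Pool.Agent.Lib.MP_452a87_nt.SG.BVf
import Pool.Agent.Lib.MP_452a87_nt.SG.TAf
import Pool.Agent.Lib.MP_452a87_nt.SG.TDb
import Pool.Agent.Lib.MP_452a87_nt.SG.TEv
import Pool.Agent.Lib.MP_452a87_nt.SG.TLl
import Pool.Agent.Lib.MP_452a87_nt.SG.TLx
import Pool.Agent.Lib.MP_452a87_nt.SG.TNum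
import Pool.Agent.Lib.MP_452a87_nt.SG.TPg
import Pool.Agent.Lib.MP_452a87_nt.SG.TPt
import Pool.Agent.Lib.MP_452a87_nt.SG.TSt
import Pool.Agent.Lib.MP_452a87_nt.SG.TTH
import Pool.Agent.Lib.MP_452a87_nt.SG.TTL
import Pool.Agent.Lib.MP_452a87_nt.SG.TX1
import Pool.Agent.Lib.MP_452a87_nt.SG.TX2
import Pool.Agent.Lib.MP_452a87_nt.X.Cof
import Pool.Agent.Lib.MP_452a87_nt.X.GrA
import Pool.Agent.Lib.MP_452a87_nt.X.GrB
import Pool.Agent.Lib.MP_452a87_nt.X.Gro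
import Pool.Agent.Lib.MP_452a87_nt.X.Lag
import Pool.Agent.Lib.MP_452a87_nt.X.Lip
import Pool.Agent.Lib.MP_452a87_nt.X.Sml
import Pool.Agent.Lib.MP_452a87_nt.X.Swz

/-!
# Theorem SG: assembly
-/

set_option autoImplicit false

namespace Pool.Agent.SG.All

open Pool.Agent.SMQ Pool.Agent.SG

theorem aTrU : S_TrU := pTrU
theorem aTrE : S_TrE := pTrE
theorem aAcl : S_Acl := pAcl
theorem aATc : S_ATc := pATc aTrU aTrE aAcl
theorem aAMb : S_AMb := pAMb aATc aAcl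
theorem aALf : S_ALf := pALf
theorem aAdl : S_Adl := pAdl
theorem aAMx : S_AMx := pAMx aALf aAdl
theorem aADx : S_ADx := pADx
theorem aANm : S_ANm := pANm
theorem aARt : S_ARt := pARt
theorem aARs : S_ARs := pARs aADx aANm aARt
theorem aARv : S_ARv := pARv aARs aAdl
theorem aACm : S_ACm := pACm aARv aAdl
theorem aAD1 : S_AD1 := pAD1 aADx
theorem aATy : S_ATy := pATy aACm aAD1 aAdl
theorem aAKD : S_AKD := pAKD aATy aAD1 aAdl
theorem aANz : S_ANz := pANz aAdl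
theorem aAMr : S_AMr := pAMr aAMx aAKD aANz aAcl aAdl
theorem aAEx : S_AEx := pAEx aAcl
theorem aAVn : S_AVn := pAVn aARv aAEx
theorem aALa : S_ALa := pALa
theorem aBxF : S_BxF := pBxF
theorem aTDb : S_TDb := pTDb aBxF
theorem aTPg : S_TPg := pTPg aTDb aBxF
theorem aQT : S_QT := pQT
theorem aL1a : S_L1a := pL1a
theorem aQA1 : S_QA1 := pQA1 aL1a
theorem aQA : S_QA := pQA aQA1 aL1a
theorem aK4 : S_K4 := pK4 aQT aQA aBxF
theorem aPG : S_PG := pPG aBxF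
theorem aL1s : S_L1s := pL1s
theorem aLio : S_Lio := pLio aPG aL1s aL1a
theorem aTLx : S_TLx := pTLx aK4 aLio
theorem aTLl : S_TLl := pTLl aK4 aLio
theorem aTPt : S_TPt := pTPt aTLx aTLl
theorem aSwz : S_Swz := pSwz
theorem aLag : S_Lag := pLag
theorem aTX1 : S_TX1 := pTX1 aTPt aSwz aLag
theorem aTEv : S_TEv := pTEv
theorem aLip : S_Lip := pLip
theorem aGrA : S_GrA := pGrA
theorem aGrB : S_GrB := pGrB
theorem aGro : S_Gro := pGro aGrA aGrB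
theorem aSml : S_Sml := pSml aSwz aGro aLag
theorem aCof : S_Cof := pCof
theorem aTNum : S_TNum := pTNum
theorem aTX2 : S_TX2 := pTX2 aTPt aTEv aLip aSml aCof aTNum
theorem aLDf : S_LDf := pLDf aLip aL1s
theorem aTAf : S_TAf := pTAf aTPg aTX1 aTX2 aTEv aLip aL1s aLDf
theorem aLSy : S_LSy := pLSy
theorem aTrI : S_TrI := pTrI
theorem aA1v : S_A1v := pA1v aTrI aTrU
theorem aP1 : S_P1 := pP1 aA1v aTrI
theorem aClr : S_Clr := pClr
theorem aLHp : S_LHp := pLHp aLSy aA1v aP1 aClr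
theorem aLId : S_LId := pLId
theorem aGau : S_Gau := pGau
theorem aGnx : S_Gnx := pGnx
theorem aLGp : S_LGp := pLGp aLHp aLId aGau aP1 aGnx
theorem aLVl : S_LVl := pLVl
theorem aLRe : S_LRe := pLRe aLVl
theorem aHom : S_Hom := pHom
theorem aExt : S_Ext := pExt aHom
theorem aLG2 : S_LG2 := pLG2 aLGp aLRe aExt aP1 aGnx
theorem aLG1 : S_LG1 := pLG1
theorem aLG : S_LG := pLG aLG1
theorem aLLf : S_LLf := pLLf aLG
theorem aLDn : S_LDn := pLDn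
theorem aLCf : S_LCf := pLCf
theorem aLRb : S_LRb := pLRb aLLf aLDn aLCf aLDf
theorem aLKy : S_LKy := pLKy aLLf aLDn aLDf
theorem aLI1 : S_LI1 := pLI1 aLCf
theorem aLMu : S_LMu := pLMu aLG aLI1
theorem aLSe : S_LSe := pLSe aLG aLI1 aLMu
theorem aLHy : S_LHy := pLHy aGau aGnx
theorem aA2 : S_A2 := pA2 aTrI
theorem aLFc : S_LFc := pLFc aLHy aLId aTrE aTrU aA2
theorem aLDs : S_LDs := pLDs aLG2 aLI1 aLLf
theorem aLNr : S_LNr := pLNr
theorem aLFe : S_LFe := pLFe aLId aTrU aGnx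
theorem aTSt : S_TSt := pTSt aTAf aLG2 aLRb aLKy aLSe aLFc aLDs aLNr aLFe
theorem aTTL : S_TTL := pTTL aTSt
theorem aTTH : S_TTH := pTTH aTTL aTrE
theorem aAMt : S_AMt := pAMt aTTH aATc aAEx aAcl
theorem aAIn : S_AIn := pAIn aAcl
theorem aAMn : S_AMn := pAMn aAMb aAMx aAMr aAVn aANz aALa aAMt aAIn aATc aAcl aAEx aAdl
theorem aADu : S_ADu := pADu aAD1 aAcl
theorem aBDt : S_BDt := pBDt aAIn aADu aAcl
theorem aBCh : S_BCh := pBCh aBDt aAdl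
theorem aBDf : S_BDf := pBDf
theorem aBLn : S_BLn := pBLn
theorem aBMn : S_BMn := pBMn aAMn aBDt aBCh aBDf aBLn aAdl
theorem aEPr : S_EPr := pEPr
theorem aESv : S_ESv := pESv
theorem aEOn : S_EOn := pEOn aEPr aESv
theorem aEIt : S_EIt := pEIt aEOn
theorem aBLg : S_BLg := pBLg
theorem aBVf : S_BVf := pBVf aATc aAEx aAcl
theorem aBBa : S_BBa := pBBa
theorem aBTh : S_BTh := pBTh aBMn aEIt aBLg aBVf aBBa
theorem aBFn : S_BFn := pBFn aAMn aBDt aANz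
theorem aBTp : S_BTp := pBTp aAcl aAEx aBBa aBVf aBFn

end Pool.Agent.SG.All
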