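import Pool.Agent.Lib.MP_452a87_nt.SG.SpecB

set_option autoImplicit false

namespace Pool.Agent.SG

open MvPolynomial Pool.Agent.SMQ

namespace BLgAux

theorem val_prod (p : ℕ) [Fact p.Prime] {ι : Type} (s : Finset ι) (f : ι → ℚ) (g : ι → ℤ)
    (hf : ∀ i ∈ s, f i ≠ 0) :
    padicValRat p (∏ i ∈ s, f i ^ g i) = ∑ i ∈ s, g i * padicValRat p (f i) := by
  classical
  induction s using Finset.induction_on with
  | empty => simp
  | insert a s ha ih =>
    have h1 := ih fun i hi => hf i (Finset.mem_insert_of_mem hi)
    have h2 := hf a (Finset.mem_insert_self a s)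
    rw [Finset.prod_insert ha, Finset.sum_insert ha, ← h1,
      padicValRat.mul (zpow_ne_zero _ h2) (Finset.prod_ne_zero_iff.2 fun i hi =>
        zpow_ne_zero _ (hf i (Finset.mem_insert_of_mem hi))), padicValRat.zpow]

theorem val_prime (p r : ℕ) (hp : p.Prime) (hr : r.Prime) :
    padicValRat p (r : ℚ) = if p = r then 1 else 0 := by
  have : Fact p.Prime := ⟨hp⟩
  have : Fact r.Prime := ⟨hr⟩
  split_ifs with h
  · subst h
    exact padicValRat.self hp.one_lt
  · rw [padicValRat.of_nat, padicValNat_primes h]
    rfl

end BLgAux

theorem pBLg : S_BLg := by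
  intro k q hq hinj
  have hpos : ∀ s l, (0 : ℝ) < q s l := fun s l => by exact_mod_cast (hq s l).pos
  refine ⟨?_, ?_⟩
  · rw [← LinearIndependent.iff_fractionRing ℤ ℚ, Fintype.linearIndependent_iff]
    intro g hg l0
    have h1 : ∑ l, (g l : ℝ) * (Real.log (q true l) - Real.log (q false l)) = 0 := by
      have h2 : ((∑ l, (g l : ℝ) * (Real.log (q true l) - Real.log (q false l)) : ℝ) : ℂ) = 0 := by
        rw [← hg]
        push_cast
        refine Finset.sum_congr rfl fun l _ => ?_
        rw [zsmul_eq_mul]
      exact_mod_cast h2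
    have h3 : (∏ l, ((q true l : ℝ) / q false l) ^ g l) = 1 := by
      have h4 : Real.log (∏ l, ((q true l : ℝ) / q false l) ^ g l) = 0 := by
        rw [Real.log_prod]
        · rw [← h1]
          refine Finset.sum_congr rfl fun l _ => ?_
          rw [Real.log_zpow, Real.log_div (hpos true l).ne' (hpos false l).ne']
        · intro l _
          exact zpow_ne_zero _ (div_ne_zero (hpos true l).ne' (hpos false l).ne')
      have h5 : 0 < ∏ l, ((q true l : ℝ) / q false l) ^ g l :=
        Finset.prod_pos fun l _ => zpow_pos (div_pos (hpos true l) (hpos false l)) _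
      exact Real.eq_one_of_pos_of_log_eq_zero h5 h4
    have h6 : (∏ l, ((q true l : ℚ) / q false l) ^ g l) = 1 := by
      have h7 : ((∏ l, ((q true l : ℚ) / q false l) ^ g l : ℚ) : ℝ) = 1 := by
        push_cast
        exact h3
      exact_mod_cast h7
    have hp : (q true l0).Prime := hq true l0
    have : Fact (q true l0).Prime := ⟨hp⟩
    have hq0 : ∀ s l, (q s l : ℚ) ≠ 0 := fun s l => by exact_mod_cast (hq s l).ne_zero
    have h8 := BLgAux.val_prod (q true l0) Finset.univ (fun l => (q true l : ℚ) / q false l) g
      (fun l _ => div_ne_zero (hq0 true l) (hq0 false l))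
    rw [h6, padicValRat.one] at h8
    have h9 : ∀ l, padicValRat (q true l0) ((q true l : ℚ) / q false l) =
        if l0 = l then 1 else 0 := by
      intro l
      rw [padicValRat.div (hq0 true l) (hq0 false l), BLgAux.val_prime _ _ hp (hq true l),
        BLgAux.val_prime _ _ hp (hq false l)]
      have e1 : (q true l0 = q true l) ↔ l0 = l := by
        constructor
        · intro h
          have := @hinj (true, l0) (true, l) h
          exact (Prod.mk.inj this).2
        · rintro rfl
          rfl
      have e2 : ¬ (q true l0 = q false l) := by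
        intro h
        have := @hinj (true, l0) (false, l) h
        exact Bool.noConfusion (Prod.mk.inj this).1
      rw [if_neg e2, sub_zero]
      exact if_congr e1 rfl rfl
    simp only [h9, mul_ite, mul_one, mul_zero] at h8
    rw [Finset.sum_ite_eq Finset.univ l0 g, if_pos (Finset.mem_univ _)] at h8
    exact h8.symm
  · intro l
    have h1 : Complex.exp ((Real.log (q true l) - Real.log (q false l) : ℝ) : ℂ) =
        ((((q true l : ℚ) / q false l : ℚ)) : ℂ) := by
      rw [← Complex.ofReal_exp, Real.exp_sub, Real.exp_log (hpos true l),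
        Real.exp_log (hpos false l)]
      push_cast
      rfl
    rw [h1]
    exact isAlgebraic_algebraMap ((q true l : ℚ) / q false l)

end Pool.Agent.SG
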