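import Pool.Agent.Lib.MP_452a87_nt.SG.SpecB

/-!
# Theorem SG, Part B: the count in boxes (task BTa)
-/

set_option autoImplicit false

namespace Pool.Agent.SG

open MvPolynomial Pool.Agent.SMQ

namespace BTaAux

/-- Schwartz-Zippel for the box `[1, H]^m`. -/
private lemma count {m e H : ℕ} (P : MvPolynomial (Fin m) ℚ) (hP : P ≠ 0) (hdeg : P.totalDegree ≤ e) (hm : 1 ≤ m) :
    Set.ncard {n : Fin m → ℕ | (∀ i, 1 ≤ n i ∧ n i ≤ H) ∧ MvPolynomial.eval (fun i => (n i : ℚ)) P = 0} ≤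
      e * H ^ (m - 1) := by
  classical
  rcases Nat.eq_zero_or_pos H with hH | hH
  · have : {n : Fin m → ℕ | (∀ i, 1 ≤ n i ∧ n i ≤ H) ∧ MvPolynomial.eval (fun i => (n i : ℚ)) P = 0} = ∅ := by
      ext n
      simp only [Set.mem_ofPred_eq, Set.mem_empty_iff_false, iff_false]
      rintro ⟨h, -⟩
      have := h ⟨0, hm⟩
      omega
    rw [this, Set.ncard_empty]
    exact Nat.zero_le _
  let S : Finset ℚ := (Finset.Icc 1 H).image (fun k : ℕ => (k : ℚ))
  have hScard : S.card = H := by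
    rw [Finset.card_image_of_injective _ Nat.cast_injective]
    simp
  have hsz := MvPolynomial.schwartz_zippel_totalDegree hP S
  rw [hScard] at hsz
  set Z : Finset (Fin m → ℚ) := (Fintype.piFinset fun _ => S).filter (fun f => eval f P = 0) with hZ
  have hZc : (Z.card : ℚ≥0) ≤ e * (H : ℚ≥0) ^ (m - 1) := by
    have hH0 : (H : ℚ≥0) ≠ 0 := by exact_mod_cast hH.ne'
    have hH1 : (0 : ℚ≥0) < (H : ℚ≥0) ^ m := by positivity
    have h1 : (Z.card : ℚ≥0) ≤ (P.totalDegree : ℚ≥0) / H * (H : ℚ≥0) ^ m := by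
      rw [div_le_iff₀ hH1] at hsz
      exact hsz
    have h2 : (P.totalDegree : ℚ≥0) / H * (H : ℚ≥0) ^ m = P.totalDegree * (H : ℚ≥0) ^ (m - 1) := by
      obtain ⟨k, rfl⟩ : ∃ k, m = k + 1 := ⟨m - 1, by omega⟩
      rw [Nat.add_sub_cancel, pow_succ]
      field_simp
    rw [h2] at h1
    refine h1.trans ?_
    gcongr
  have hZn : Z.card ≤ e * H ^ (m - 1) := by exact_mod_cast hZc
  refine le_trans ?_ hZn
  rw [← Set.ncard_coe_finset Z]
  refine Set.ncard_le_ncard_of_injOn (fun n : Fin m → ℕ => fun i => (n i : ℚ)) ?_ ?_ (Finset.finite_toSet _)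
  · rintro n ⟨hn, hn0⟩
    rw [hZ]
    simp only [Finset.coe_filter, Fintype.mem_piFinset, Set.mem_ofPred_eq]
    refine ⟨fun i => ?_, hn0⟩
    exact Finset.mem_image.mpr ⟨n i, Finset.mem_Icc.mpr (hn i), rfl⟩
  · intro n _ n' _ h
    funext i
    have h1 : (n i : ℚ) = (n' i : ℚ) := congrFun h i
    exact_mod_cast h1

private lemma alg_exp {m : ℕ} (L : Fin m → ℂ) (hL : ∀ i, IsAlgebraic ℚ (Complex.exp (L i))) (n : Fin m → ℕ) :
    IsAlgebraic ℚ (Complex.exp (∑ i, (n i : ℂ) * L i)) := by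
  rw [Complex.exp_sum, isAlgebraic_iff_isIntegral]
  refine IsIntegral.prod _ fun i _ => ?_
  rw [Complex.exp_nat_mul]
  exact (isAlgebraic_iff_isIntegral.mp (hL i)).pow (n i)

end BTaAux

open BTaAux in
theorem pBTa : S_BBa → S_BVf → S_BFn → S_BTa := by
  intro hBBa hBVf hBFn e m H F hF hrank hm L hL hLalg
  obtain ⟨v, hvlin, hvF, hvrep⟩ := hBBa e F hF hrank
  obtain ⟨P, hP, hdeg, hgood⟩ := hBFn e m v L hvlin (fun k => (hvF k).2) hL hLalg hm
  have hm1 : 1 ≤ m := by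
    have : 0 < 6 * (e + 1) ^ 2 := by positivity
    omega
  refine le_trans ?_ (count (H := H) P hP hdeg hm1)
  have hfin : {n : Fin m → ℕ | (∀ i, 1 ≤ n i ∧ n i ≤ H) ∧ MvPolynomial.eval (fun i => (n i : ℚ)) P = 0}.Finite := by
    refine Set.Finite.subset (Set.finite_Icc (fun _ => 1) (fun _ => H)) ?_
    rintro n ⟨hn, -⟩
    exact ⟨fun i => (hn i).1, fun i => (hn i).2⟩
  refine Set.ncard_le_ncard ?_ hfin
  rintro n ⟨hn, hbad⟩
  refine ⟨hn, ?_⟩
  by_contra hne
  apply hbad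
  refine hBVf e F v _ hvlin hvF hvrep (alg_exp L hLalg n) ?_
  have := hgood (fun i => (n i : ℚ)) hne
  have heq : lq L (fun i => (n i : ℚ)) = ∑ i, (n i : ℂ) * L i := by
    unfold lq
    refine Finset.sum_congr rfl fun i _ => ?_
    push_cast
    ring
  rw [heq] at this
  exact this

end Pool.Agent.SG
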