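import Pool.Agent.Lib.MP_452a87_nt.SG.SpecT

/-!
# Theorem SG, Part A: the algebraic argument

`V ⊂ ℂ` spanned over `ℚ` by algebraic numbers `v_1, …, v_e` (with `1, v_1, …, v_e` linearly independent), `L_1, …, L_m` linearly independent logarithms of algebraic numbers, `m ≥ 6 (e+1)²`. MAIN (AMn): for generic `n ∈ ℚ^m`, `l = ∑ n_i L_i`, the numbers
`exp (v_1 l), …, exp (v_e l)` are algebraically independent. The task `X` is to write `SG/X.lean` with `theorem pX (h1 : S_..) ... : S_X`; statements used are hypotheses, so all modules are independent.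

Idea. `cl S` = algebraic closure in `ℂ` of `ℚ(S)`. For a derivation `D` of `ℂ` let `dl D u = D (exp u) / exp u`, additive in `u`. `DB B` = the derivations trivial on `B`. A pencil argument (AKD) shows that the kernel of the generic matrix `(dl D (v_k l))_(D, k)`, `D ∈ DB B`, is defined over every field
`E_n = cl (exp (v_k l_n))`, hence over the largest field `B` which is contained in almost all `E_n`; then residues (ARs, ARv) show that it is rational: `exp (γ l_n) ∈ B` for many `γ ∈ V`, then (linear algebra, ALa) for all `γ ∈ Γ` and `n` in a large space, and Theorem T shows that `B` is large: a contradiction unless there is no kernel.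
-/

set_option autoImplicit false

namespace Pool.Agent.SG

open MvPolynomial Pool.Agent.SMQ

/-- The algebraic closure in `ℂ` of the field generated by `S`. -/
noncomputable def cl (S : Set ℂ) : IntermediateField ℚ ℂ :=
  (algebraicClosure (IntermediateField.adjoin ℚ S) ℂ).restrictScalars ℚ

/-- `B` is algebraically closed in `ℂ`. -/
def Cl (B : IntermediateField ℚ ℂ) : Prop := ∀ x : ℂ, IsAlgebraic B x → x ∈ B

/-- The derivations of `ℂ` which are trivial on `B`. -/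
def DB (B : IntermediateField ℚ ℂ) : Submodule ℂ (Derivation ℚ ℂ ℂ) where
  carrier := {D | ∀ b ∈ B, D b = 0}
  add_mem' := by
    intro D D' h h' b hb
    simp [h b hb, h' b hb]
  zero_mem' := by
    intro b _
    simp
  smul_mem' := by
    intro c D h b hb
    simp [h b hb]

/-- The logarithmic derivative of `exp u`. -/
noncomputable def dl (D : Derivation ℚ ℂ ℂ) (u : ℂ) : ℂ := D (Complex.exp u) / Complex.exp u

/-- The linear combination `∑ n i * L i` with rational coefficients. -/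
noncomputable def lq {m : ℕ} (L : Fin m → ℂ) (n : Fin m → ℚ) : ℂ := ∑ i, (n i : ℂ) * L i

/-- The matrix of the logarithmic derivatives `dl (D a) (u j)`. -/
noncomputable def dm {s : ℕ} (D : Fin s → Derivation ℚ ℂ ℂ) (u : Fin s → ℂ) : Matrix (Fin s) (Fin s) ℂ :=
  Matrix.of fun a j => dl (D a) (u j)

/-! ### Basics -/

/-- (Adl, 80 lines) `dl` is additive.
PROOF. `exp (u + v) = exp u exp v` and Leibniz. By induction `dl D (n u) = n dl D u` for natural and integral `n`, so for `r = a/b`: `b dl D (r u) = dl D (a u) = a dl D u`. The rest: definitions (`D (exp u) = 0` if `exp u ∈ B`). -/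
def S_Adl : Prop :=
  (∀ D u v, dl D (u + v) = dl D u + dl D v) ∧ (∀ (D : Derivation ℚ ℂ ℂ) (r : ℚ) (u : ℂ), dl D ((r : ℂ) * u) = (r : ℂ) * dl D u) ∧
  (∀ (c : ℂ) D u, dl (c • D) u = c * dl D u) ∧ (∀ D D' u, dl (D + D') u = dl D u + dl D' u) ∧
  (∀ B : IntermediateField ℚ ℂ, ∀ D ∈ DB B, ∀ u, Complex.exp u ∈ B → dl D u = 0) ∧
  (∀ (κ : Type) [Fintype κ] (D : Derivation ℚ ℂ ℂ) (w : κ → ℚ) (u : κ → ℂ), dl D (∑ k, (w k : ℂ) * u k) = ∑ k, (w k : ℂ) * dl D (u k)) ∧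
  (∀ (κ : Type) [Fintype κ] (D : κ → Derivation ℚ ℂ ℂ) (w : κ → ℂ) (u : ℂ), dl (∑ k, w k • D k) u = ∑ k, w k * dl (D k) u)

/-- (Acl, 80 lines) Basic facts on `cl`.
PROOF. `x ∈ cl S ↔ IsAlgebraic (adjoin ℚ S) x` by definition (`mem_algebraicClosure_iff`). Algebraic over an algebraic extension is algebraic: `Cl (cl S)`. -/
def S_Acl : Prop :=
  (∀ (S : Set ℂ) (x : ℂ), x ∈ cl S ↔ IsAlgebraic (IntermediateField.adjoin ℚ S) x) ∧ (∀ S : Set ℂ, Cl (cl S)) ∧ (∀ S : Set ℂ, S ⊆ cl S) ∧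
  (∀ (S : Set ℂ) (B : IntermediateField ℚ ℂ), Cl B → S ⊆ B → cl S ≤ B) ∧ (∀ S S' : Set ℂ, S ⊆ cl S' → cl S ≤ cl S')

/-- (AEx, 100 lines, uses Acl) Rational multiples: if `exp u ∈ B` then `exp (r u) ∈ B`, `r ∈ ℚ`, for `B` algebraically closed in `ℂ`. So `{u | exp u ∈ B}` is a `ℚ`-subspace of `ℂ`.
PROOF. `r = a/b`: `(exp (r u))^b = (exp u)^a ∈ B`, so `exp (r u)` is a root of `X^b - (exp u)^a`. Sums: `exp (u + v) = exp u exp v`. `exp 0 = 1`. Second part: if `exp u` is algebraic over `ℚ` then `exp u ∈ B` (`algebraMap`: algebraic over `ℚ` implies algebraic over `B`). Third: finite rational combinations. -/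
def S_AEx : Prop :=
  (∀ B : IntermediateField ℚ ℂ, Cl B → ∃ U : Submodule ℚ ℂ, ∀ u, u ∈ U ↔ Complex.exp u ∈ B) ∧
  (∀ B : IntermediateField ℚ ℂ, Cl B → ∀ z : ℂ, IsAlgebraic ℚ z → z ∈ B) ∧
  (∀ B : IntermediateField ℚ ℂ, Cl B → ∀ (κ : Type) [Fintype κ] (w : κ → ℚ) (u : κ → ℂ), (∀ k, Complex.exp (u k) ∈ B) → Complex.exp (∑ k, (w k : ℂ) * u k) ∈ B)

/-! ### Derivations of `ℂ` and residues -/

/-- (ADx, 200 lines) Existence of derivations.
PROOF. `x` is transcendental over `B` (`Cl B`). Let `𝒯 ∋ x` be a transcendence basis of `ℂ` over `B` (`exists_isTranscendenceBasis_superset`-type: `{x}` is algebraically independent over `B`). `B1` = the elements of `ℂ` algebraic over `B(𝒯 \ {x})` (`algebraicClosure _ ℂ` restricted to `ℚ`). `Cl B1`, `B ≤ B1`, `x ∉ B1` by independence, and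
all `z` are algebraic over `B(𝒯) ⊆ B1(x)`. `B1[x]` is a polynomial ring; let `δ` be the derivation `X d/dX` of `B1[X]` with values in `ℂ` (through `X ↦ x`), it extends to the fraction field `K = B1(x)`: as ring homomorphism `K → ℂ[ε]`, `h ↦ h + δ(h) ε` (dual numbers `TrivSqZeroExt ℂ ℂ` or `DualNumber ℂ`; `B1[X] → ℂ[ε]`, `X ↦ x + x ε`, nonzero elements become units).
`ℂ` is algebraic and separable over `K`, so `Algebra.FormallyEtale K ℂ` (or directly Zorn / lifting by Newton), hence the identity of `ℂ` lifts uniquely to a homomorphism `ℂ → ℂ[ε]` of `K`-algebras, `z ↦ z + D(z) ε`. `D` is a derivation, zero on `B1`, `D x = x`. (`FormallyEtale` for `ℂ[ε] → ℂ`, kernel of square zero. Model for the dual number trick: Pool/Agent/Zariski/DerivExt.lean.) -/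
def S_ADx : Prop :=
  ∀ (B : IntermediateField ℚ ℂ), Cl B → ∀ x : ℂ, x ∉ B → ∃ (B1 : IntermediateField ℚ ℂ) (D : Derivation ℚ ℂ ℂ), Cl B1 ∧ B ≤ B1 ∧ x ∉ B1 ∧
    (∀ z : ℂ, IsAlgebraic (IntermediateField.adjoin B1 ({x} : Set ℂ)) z) ∧ (∀ b ∈ B1, D b = 0) ∧ D x = x

/-- (AD1, 30 lines, uses ADx) PROOF. `B ≤ B1`, `D x = x ≠ 0` (`0 ∈ B`). -/
def S_AD1 : Prop :=
  ∀ (B : IntermediateField ℚ ℂ), Cl B → ∀ x : ℂ, (∀ D ∈ DB B, D x = 0) → x ∈ B

/-- (ANm, 200 lines) Descent of a relation between logarithmic derivatives by the norm.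
PROOF. Let `M` be the normal closure in `ℂ` over `K` of `K(g_1, …, g_r)`: an intermediate field of `ℂ/K`, finite and Galois over `K` (char `0`), `N = [M : K] ≥ 1`, `G = Gal(M/K)`, `|G| = N`. (a) `D M ⊆ M`: for `z ∈ M` with minimal polynomial `P` over `K`, `0 = D(P(z)) = P^D(z) + P'(z) D z`, `P^D` the polynomial with the coefficients `D(coeff) ∈ K`, `P'(z) ≠ 0`.
(b) `D (σ z) = σ (D z)` for `z ∈ M`, `σ ∈ G`: both are `-P^D(σ z)/P'(σ z)`. (Mathlib: `algEquiv_deriv'`, `Differential` structures; the direct formula is easy.) Let `h a = ∏_(σ ∈ G) σ (g a)`, fixed by `G`, so in `K`, nonzero; `D (h a)/h a = ∑_σ D(σ (g a))/σ (g a) = ∑_σ σ (D (g a)/g a)` (logarithmic derivative of a product). If `∑ b a (D (g a)/g a) = 0`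
with `b a ∈ K`, apply `σ` and sum over `σ`. If `g a ∈ K` then `h a = (g a)^N`. (`r = 0` is fine.) -/
def S_ANm : Prop :=
  ∀ (K : IntermediateField ℚ ℂ) (D : Derivation ℚ ℂ ℂ), (∀ z : ℂ, IsAlgebraic K z) → (∀ x ∈ K, D x ∈ K) →
    ∀ (r : ℕ) (g : Fin r → ℂ), (∀ a, g a ≠ 0) → ∃ (N : ℕ) (h : Fin r → ℂ), 1 ≤ N ∧ (∀ a, h a ∈ K ∧ h a ≠ 0) ∧
      (∀ a, g a ∈ K → h a = g a ^ N) ∧
      ∀ b : Fin r → ℂ, (∀ a, b a ∈ K) → ∑ a, b a * (D (g a) / g a) = 0 → ∑ a, b a * (D (h a) / h a) = 0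

/-- (ARt, 200 lines) The order at `x = 0` of rational functions over `B1`.
PROOF. `x` is transcendental over `B1` (`Cl B1`), so `p ↦ p(x)` is injective on `B1[X]` and every element of `B1(x)` is `p(x)/q(x)`, `q ≠ 0` (`IntermediateField.mem_adjoin_simple_iff`). For `h a ≠ 0` write `h a = x^(n a) p_a(x)/q_a(x)` with `n a ∈ ℤ`, `p_a(0) ≠ 0 ≠ q_a(0)` (divide by the powers of `X`). `D (x^n)/x^n = n` (`D x = x`) and `D (p(x)) = x p'(x)`
for `p ∈ B1[X]` (`D` is zero on `B1`), so `D (h a)/h a = n a + x (p_a'(x)/p_a(x) - q_a'(x)/q_a(x))`. If `∑ b a D(h a)/h a = 0` with `b a ∈ B1`, multiply by `Π(x)`, `Π = ∏ p_a q_a`: `(∑ b a n a) Π(x) + x R(x) = 0` with `R ∈ B1[X]`; so `(∑ b a n a) Π + X R = 0` in `B1[X]`; at `X = 0`: `∑ b a n a = 0`. If `h a = x^N`: `x^(n a) p_a(x) = x^N q_a(x)`,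
compare the orders at `0` of polynomials (`p_a(0) q_a(0) ≠ 0`): `n a = N`. -/
def S_ARt : Prop :=
  ∀ (B1 : IntermediateField ℚ ℂ) (D : Derivation ℚ ℂ ℂ) (x : ℂ), Cl B1 → x ∉ B1 → (∀ b ∈ B1, D b = 0) → D x = x →
    ∀ (r : ℕ) (h : Fin r → ℂ), (∀ a, h a ∈ IntermediateField.adjoin B1 ({x} : Set ℂ) ∧ h a ≠ 0) → ∃ n : Fin r → ℤ,
      (∀ b : Fin r → ℂ, (∀ a, b a ∈ B1) → ∑ a, b a * (D (h a) / h a) = 0 → ∑ a, b a * (n a : ℂ) = 0) ∧
      ∀ (a : Fin r) (N : ℕ), h a = x ^ N → n a = N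

/-- (ARs, 120 lines, uses ADx, ANm, ARt) RESIDUES.
PROOF. Suppose `g a0 ∉ B`, `x = g a0`. ADx: `B1, D`; `D ∈ DB B` as `B ≤ B1`. So `∑ b a D(g a)/g a = 0`. `K = (IntermediateField.adjoin B1 {x}).restrictScalars ℚ`: all `z` are algebraic over `K`, `D K ⊆ K` (`D (p(x)/q(x))` is a rational expression in `x` over `B1`). ANm: `N ≥ 1`, `h`, `h a0 = x^N`, `∑ b a D(h a)/h a = 0` (`b a ∈ B ≤ K`).
ARt: `∑ b a n a = 0`, `n a0 = N ≠ 0`: contradiction to the linear independence over `ℚ` (integers `n a`). -/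
def S_ARs : Prop :=
  ∀ (B : IntermediateField ℚ ℂ), Cl B → ∀ (r : ℕ) (b g : Fin r → ℂ), (∀ a, b a ∈ B) → LinearIndependent ℚ b → (∀ a, g a ≠ 0) →
    (∀ D ∈ DB B, ∑ a, b a * (D (g a) / g a) = 0) → ∀ a, g a ∈ B

/-- (ARv, 120 lines, uses ARs, Adl) RESIDUES, general coefficients.
PROOF. Let `b : Fin r → ℂ` be a `ℚ`-basis of the span of the `c k` (a finite dimensional subspace of `B`), `c k = ∑_a w k a * b a`. For `D ∈ DB B`: `0 = ∑_k c k dl D (u k) = ∑_a b a ∑_k w k a dl D (u k) = ∑_a b a dl D (∑_k w k a * u k)` (Adl). ARs with `g a = exp (∑_k w k a * u k)`. -/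
def S_ARv : Prop :=
  ∀ (B : IntermediateField ℚ ℂ), Cl B → ∀ (κ : Type) [Fintype κ] (c u : κ → ℂ), (∀ k, c k ∈ B) →
    (∀ D ∈ DB B, ∑ k, c k * dl D (u k) = 0) →
    ∃ (r : ℕ) (b : Fin r → ℂ) (w : κ → Fin r → ℚ), (∀ a, b a ∈ B) ∧ (∀ k, c k = ∑ a, (w k a : ℂ) * b a) ∧
      ∀ a, Complex.exp (∑ k, (w k a : ℂ) * u k) ∈ B

/-- (ACm, 120 lines, uses ARv, Adl) Commutators. `⁅D, D'⁆ = D D' - D' D` is a derivation, in `DB B` (`B ≤ E`).
PROOF. First: if `exp u ∈ E`, `g = exp u`, `D ∈ DB E`: `D (D' g/g) = D(D' g)/g = (⁅D, D'⁆ g + D'(D g))/g = dl ⁅D, D'⁆ u` (`D g = 0`, `D (1/g) = 0`). ARv for `E`: `b, w`. For every `D' ∈ DB B`: `∑_k c k dl D' (u k) = ∑_a b a dl D' (y a)` with `y a = ∑_k w k a * u k`, `exp (y a) ∈ E` (Adl). Apply `D`: `D (b a) = 0`, so the result is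
`∑_a b a dl ⁅D, D'⁆ (y a) = ∑_k c k dl ⁅D, D'⁆ (u k)` (the same identity for `⁅D, D'⁆`; it holds for every derivation). -/
def S_ACm : Prop :=
  ∀ (B E : IntermediateField ℚ ℂ), Cl E → B ≤ E → ∀ (κ : Type) [Fintype κ] (c u : κ → ℂ), (∀ k, c k ∈ E) →
    (∀ D ∈ DB E, ∑ k, c k * dl D (u k) = 0) →
    ∀ D ∈ DB E, ∀ D' ∈ DB B, ⁅D, D'⁆ ∈ DB B ∧ D (∑ k, c k * dl D' (u k)) = ∑ k, c k * dl ⁅D, D'⁆ (u k)

/-! ### The pencil -/

/-- (ATy, 150 lines, uses ACm, AD1, Adl) TAYLOR COEFFICIENTS of the kernel of a pencil are in `E`.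
PROOF. Induction on `ν`. The equation number `ν` has the form `∑_j ρ ν j dl D' (u j) = φ_ν(D')` for all `D' ∈ DB B`, where `φ_0(D') = dl D' u0`, `φ_1(D') = dl D' u0' - ∑_j ρ 0 j dl D' (u' j)`, `φ_(ν+2)(D') = -∑_j ρ (ν+1) j dl D' (u' j)`. `φ_ν` is of the form `∑_k c k dl D' (y k)` (`κ = Option (Fin s)`) with coefficients `c k ∈ E` (induction).
Let `D ∈ DB E` (`⊆ DB B`). The left side at `D` is `0` as `exp (u j) ∈ E` (Adl), so `φ_ν(D) = 0`: hypothesis of ACm for `φ_ν`. Hence `D (φ_ν(D')) = φ_ν(⁅D, D'⁆)`; also `D (dl D' (u j)) = dl ⁅D, D'⁆ (u j)` (ACm for the single term `1 · dl D' (u j)`, zero for `D ∈ DB E`). Apply `D` to the equation at `D'` and subtract the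
equation at `⁅D, D'⁆ ∈ DB B`: `∑_j D (ρ ν j) dl D' (u j) = 0` for all `D' ∈ DB B`; with `D' = Dl a`: the matrix `dm Dl u` is invertible, so `D (ρ ν j) = 0`. This for all `D ∈ DB E`: `ρ ν j ∈ E` (AD1). -/
def S_ATy : Prop :=
  ∀ (B E : IntermediateField ℚ ℂ), Cl E → B ≤ E → ∀ (s : ℕ) (Dl : Fin s → Derivation ℚ ℂ ℂ) (u u' : Fin s → ℂ) (u0 u0' : ℂ) (ρ : ℕ → Fin s → ℂ),
    (∀ a, Dl a ∈ DB B) → (∀ j, Complex.exp (u j) ∈ E) → Complex.exp u0 ∈ E → (dm Dl u).det ≠ 0 →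
    (∀ D ∈ DB B, dl D u0 = ∑ j, ρ 0 j * dl D (u j)) →
    (∀ D ∈ DB B, dl D u0' = ∑ j, ρ 1 j * dl D (u j) + ∑ j, ρ 0 j * dl D (u' j)) →
    (∀ ν : ℕ, ∀ D ∈ DB B, 0 = ∑ j, ρ (ν + 2) j * dl D (u j) + ∑ j, ρ (ν + 1) j * dl D (u' j)) →
    ∀ ν j, ρ ν j ∈ E

/-- (AKD, 250 lines, uses ATy, AD1, Adl) KEY LEMMA: the kernel of the pencil at `c = 1` is defined over the field `E` belonging to `c = 0`.
PROOF. Matrices over `ℂ[X]`: `A a j = C (dl (Dl a) (u j)) + X C (dl (Dl a) (u' j))`, `b a = C (dl (Dl a) u0) + X C (dl (Dl a) u0')`, `Q = det A`, `P = cramer A b` (`Matrix.cramer`): `A P = Q b`. `Q(0) = det (dm Dl u) ≠ 0`; for `c ∈ ℚ`: `Q(c) = det (dm Dl (u + c u'))` (Adl). For `D' ∈ DB B` let `w j = C (dl D' (u j)) + X C (dl D' (u' j))`,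
`d = C (dl D' u0) + X C (dl D' u0')`. CLAIM `Q d = ∑ w j P j`: for `c ∈ ℚ` with `Q(c) ≠ 0` let `r` be as in the hypothesis; for `D' = Dl a` it gives `A(c) r = b(c)`, so `Q(c) r = adj(A(c)) A(c) r = P(c)`; then for `D'`: `Q(c) d(c) = ∑ w j (c) Q(c) r j = ∑ w j (c) P j (c)`. This holds for infinitely many `c` (`Q ≠ 0`), so identically.
In `ℂ⟦X⟧` the series `Q` is invertible (`Q(0) ≠ 0`); `ρ j = P j Q⁻¹`, so `d = ∑ w j ρ j` and `Q ρ j = P j`. The coefficients of `X^0, X^1, X^(ν+2)` of `d = ∑ w j ρ j` are the three hypotheses of ATy with `ρ ν j = coeff ν (ρ j)`. So all `coeff ν (ρ j) ∈ E`. Let `D ∈ DB E` and `δ` = `D` applied to the coefficients of polynomials. `coeff ν` of `Q ρ j = P j`: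
`∑_(α+β=ν) coeff α Q · coeff β (ρ j) = coeff ν (P j)`; apply `D`: `D (coeff β (ρ j)) = 0`, so `δ(Q) ρ j = δ(P j)`; multiply by `Q`: `δ(Q) P j = δ(P j) Q` in `ℂ[X]`. At `X = 1` (`δ(P)(1) = D(P(1))`, sum of the coefficients): `D(Q(1)) P j (1) = D(P j (1)) Q(1)`, so `D(P j (1)/Q(1)) = 0` (`Q(1) = det (dm Dl (u + u')) ≠ 0`). So
`P j (1)/Q(1) ∈ E` (AD1). Finally for `r` as in the conclusion: `D' = Dl a` gives `A(1) r = b(1)`, so `r j = P j (1)/Q(1)`. -/
def S_AKD : Prop :=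
  ∀ (B E : IntermediateField ℚ ℂ), Cl E → B ≤ E → ∀ (s : ℕ) (Dl : Fin s → Derivation ℚ ℂ ℂ) (u u' : Fin s → ℂ) (u0 u0' : ℂ),
    (∀ a, Dl a ∈ DB B) → (∀ j, Complex.exp (u j) ∈ E) → Complex.exp u0 ∈ E →
    (dm Dl u).det ≠ 0 → (dm Dl (fun j => u j + u' j)).det ≠ 0 →
    (∀ c : ℚ, (dm Dl (fun j => u j + (c : ℂ) * u' j)).det ≠ 0 → ∃ r : Fin s → ℂ, ∀ D ∈ DB B,
      dl D (u0 + (c : ℂ) * u0') = ∑ j, r j * dl D (u j + (c : ℂ) * u' j)) →
    ∀ r : Fin s → ℂ, (∀ D ∈ DB B, dl D (u0 + u0') = ∑ j, r j * dl D (u j + u' j)) → ∀ j, r j ∈ E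

/-- (ALf, 80 lines) Linearly independent functionals.
PROOF. If the `f j` are linearly independent the linear map `M → (Fin k → ℂ)`, `y ↦ (f j y)_j`, is surjective (otherwise a nonzero functional `∑ c_j x_j` vanishes on its image, i.e. `∑ c_j f_j = 0`); choose `y a` mapping to the unit vectors. Second part: `f0` is in the span of the `f j` if it vanishes on the intersection of their kernels
(`mem_span_of_iInf_ker_le_ker`); contrapositive with the first part for the family `Option`/`Fin.cons f0 f` of `k + 1` functionals. -/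
def S_ALf : Prop :=
  ∀ (M : Type) [AddCommGroup M] [Module ℂ M] (k : ℕ) (f : Fin k → M →ₗ[ℂ] ℂ),
    (LinearIndependent ℂ f → ∃ y : Fin k → M, (Matrix.of fun a j => f j (y a)).det ≠ 0) ∧
    ∀ f0 : M →ₗ[ℂ] ℂ, (∀ r : Fin k → ℂ, f0 ≠ ∑ j, r j • f j) → LinearIndependent ℂ f →
      ∃ y : Fin (k + 1) → M, (Matrix.of fun a j => (Fin.cons f0 f : Fin (k + 1) → M →ₗ[ℂ] ℂ) j (y a)).det ≠ 0

/-- (AMx, 150 lines, uses ALf, Adl) The generic rank.
PROOF. Let `s` be the largest natural number such that there are `J : Fin s → Fin e`, `Dl : Fin s → DB B`, `n` with `det (dm Dl (v (J j) * lq L n)) ≠ 0` (`s = 0` is possible: the empty determinant is `1`; `J` is injective since otherwise two columns are equal, so `s ≤ e`). Fix these `J, Dl`. Let `n, i` with `det (dm Dl (v (J ·) lq L n)) ≠ 0`, and let `f j, f0` be the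
functionals `D ↦ dl D (v (J j) lq L n)`, `D ↦ dl D (v i lq L n)` on `M = DB B` (linear by Adl). The `f j` are linearly independent (the determinant). If `f0` is not in their span then ALf gives `s + 1` elements of `DB B` with nonzero determinant for `Fin.cons i J`: contradiction to the choice of `s`. So `f0 = ∑ r j f j`. -/
def S_AMx : Prop :=
  ∀ (B : IntermediateField ℚ ℂ) (e m : ℕ) (v : Fin e → ℂ) (L : Fin m → ℂ),
    ∃ (s : ℕ) (J : Fin s → Fin e) (Dl : Fin s → Derivation ℚ ℂ ℂ), s ≤ e ∧ Function.Injective J ∧ (∀ a, Dl a ∈ DB B) ∧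
      (∃ n : Fin m → ℚ, (dm Dl (fun j => v (J j) * lq L n)).det ≠ 0) ∧
      ∀ (n : Fin m → ℚ) (i : Fin e), (dm Dl (fun j => v (J j) * lq L n)).det ≠ 0 → ∃ r : Fin s → ℂ, ∀ D ∈ DB B,
        dl D (v i * lq L n) = ∑ j, r j * dl D (v (J j) * lq L n)

/-- (ANz, 120 lines, uses Adl) The determinants are polynomials in `n`.
PROOF. `dl (Dl a) (w j * lq L n) = ∑_i n i dl (Dl a) (w j * L i)` (Adl), so the determinant is the value at `n` of a polynomial `R ∈ ℂ[X_1, …, X_m]` of total degree `≤ s` (determinant of a matrix of linear forms), `R ≠ 0`. Let `ψ : ℂ → ℚ` be a `ℚ`-linear map with `ψ (coeff μ R) ≠ 0` for some `μ` (`Module.exists_dual..`/basis extension). `P` = the polynomial with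
coefficients `ψ (coeff μ R)`: total degree `≤ s`, `P ≠ 0`, and for rational `n`: `P(n) = ψ (R(n))`. So `P(n) ≠ 0` implies `R(n) ≠ 0`. -/
def S_ANz : Prop :=
  ∀ (m s : ℕ) (L : Fin m → ℂ) (Dl : Fin s → Derivation ℚ ℂ ℂ) (w : Fin s → ℂ),
    (∃ n : Fin m → ℚ, (dm Dl (fun j => w j * lq L n)).det ≠ 0) →
    ∃ P : MvPolynomial (Fin m) ℚ, P ≠ 0 ∧ P.totalDegree ≤ s ∧ ∀ n : Fin m → ℚ, MvPolynomial.eval n P ≠ 0 → (dm Dl (fun j => w j * lq L n)).det ≠ 0

/-! ### Transcendence degrees -/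

/-- (AIn, 120 lines, uses Acl) Nonzero determinant implies algebraic independence.
PROOF. `B = cl (range b)`. Suppose `Sum.elim b g` is algebraically dependent. As `b` is independent, `g` is algebraically dependent over `ℚ(b)`, so some `g j0` is algebraic over `ℚ(b, g j : j ≠ j0)` (`AlgebraicIndependent` exchange lemmas). Let `c : Fin s → ℂ`, `c ≠ 0`, with `∑_a c a D_a (g j) = 0` for all `j ≠ j0` (`s - 1` equations, `s` unknowns; `s ≥ 1`). `D = ∑ c a • D_a`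
is a derivation, zero on `b` and the `g j`, `j ≠ j0`, so zero on everything algebraic over the field they generate (the set of zeros of a derivation is a field, algebraically closed in `ℂ` in characteristic `0`: if `P(z) = 0`, `P` minimal with coefficients killed by `D`, then `P'(z) D z = 0`). So `D (g j0) = 0` and `c` is in the left kernel of the matrix. -/
def S_AIn : Prop :=
  ∀ (τ s : ℕ) (b : Fin τ → ℂ) (g : Fin s → ℂ) (Dl : Fin s → Derivation ℚ ℂ ℂ), AlgebraicIndependent ℚ b →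
    (∀ a, Dl a ∈ DB (cl (Set.range b))) → (Matrix.of fun a j => Dl a (g j)).det ≠ 0 → AlgebraicIndependent ℚ (Sum.elim b g)

/-- (ADu, 80 lines, uses AD1, Acl) Dual derivations.
PROOF. For each `a` let `E_a = cl {g j | j ≠ a}` (`Acl`); `g a ∉ E_a` by independence. AD1: `D_a ∈ DB E_a` with `D_a (g a) ≠ 0`. The matrix `D_a (g j)` is diagonal with nonzero entries. (`g j ≠ 0` is not needed.) -/
def S_ADu : Prop :=
  ∀ (e : ℕ) (g : Fin e → ℂ), AlgebraicIndependent ℚ g → ∃ Dl : Fin e → Derivation ℚ ℂ ℂ, (Matrix.of fun a j => Dl a (g j)).det ≠ 0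

/-- (ATc, 120 lines, uses TrU, TrE, Acl) Counting.
PROOF. `Tr b t` holds for the algebraically independent family `b` (indexed by a type with `t` elements; the identity as basis), all `b i` are algebraic over `ℚ(range g)`; `S_TrU`: `t ≤ card κ`. Second part: `g` contains a transcendence basis of `ℚ(g)` (TrE: `Tr g r` with `c : Fin r → κ`), the `b i` are algebraic over `ℚ(g)`, hence over `ℚ(g ∘ c)`; TrU: `t ≤ r`. So
`card κ ≤ t ≤ r`, and `c` is injective (an algebraically independent family over a nontrivial ring is injective), so `c` is a bijection and `g` is algebraically independent. -/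
def S_ATc : Prop :=
  ∀ (ι κ : Type) [Fintype ι] [Fintype κ] (b : ι → ℂ) (g : κ → ℂ), AlgebraicIndependent ℚ b → (∀ i, b i ∈ cl (Set.range g)) →
    Fintype.card ι ≤ Fintype.card κ ∧ (Fintype.card κ ≤ Fintype.card ι → AlgebraicIndependent ℚ g)

/-! ### Linear algebra and the main theorem -/

/-- (ALa, 150 lines) Spaces of matrices of bounded rank.
PROOF. `𝒢 = {n | P(n) ≠ 0}` is not empty (`ℚ` infinite). Let `n1 ∈ 𝒢` with `a = rank A(n1)` maximal on `𝒢`; `a ≤ e - h`. `Γ = ker A(n1)`, dimension `e - a ≥ h`. CLAIM: `A(n) Γ ⊆ im A(n1)` for all `n`. Choose `w_1, …, w_a` with `A(n1) w_l` a basis of the image. Suppose `γ ∈ Γ`, `A(n) γ ∉ im A(n1)`. For `c ∈ ℚ` consider the `a + 1` vectors `A(n1 + c n) w_l = A(n1) w_l + c A(n) w_l` and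
`A(n) γ = c⁻¹ A(n1 + c n) γ`. At `c = 0` (the vectors `A(n1) w_l`, `A(n) γ`) they are linearly independent, so they are for all but finitely many `c` (a nonvanishing minor: compose with a linear map `W → ℚ^(a+1)` which maps the vectors at `c = 0` to a basis; the determinant is a polynomial in `c`, nonzero at `0`). `P(n1 + c n)` is a polynomial in `c`, nonzero at `0`.
So there is `c ≠ 0` with `n1 + c n ∈ 𝒢` and rank `≥ a + 1`, contradiction. So `n ↦ A(n)|Γ` is a linear map `ℚ^m → Hom(Γ, im A(n1))`, a space of dimension `(e - a) a ≤ e²`; `Λ` = its kernel. -/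
def S_ALa : Prop :=
  ∀ (e m h : ℕ) (W : Type) [AddCommGroup W] [Module ℚ W] (A : (Fin m → ℚ) →ₗ[ℚ] (Fin e → ℚ) →ₗ[ℚ] W) (P : MvPolynomial (Fin m) ℚ), P ≠ 0 →
    (∀ n, MvPolynomial.eval n P ≠ 0 → h ≤ Module.finrank ℚ (LinearMap.ker (A n))) →
    ∃ (Γ : Submodule ℚ (Fin e → ℚ)) (Λ : Submodule ℚ (Fin m → ℚ)), h ≤ Module.finrank ℚ Γ ∧ m ≤ Module.finrank ℚ Λ + e * e ∧
      ∀ n ∈ Λ, ∀ γ ∈ Γ, A n γ = 0

/-- (AVn, 120 lines, uses ARv, AEx) The rational kernel.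
PROOF. AEx: `{q | exp (∑ q k * w k) ∈ B}` is a subspace `VB`. For `i` not in the range of `J` let `f_i ∈ ℂ^e` be the vector with coordinate `1` at `i`, `- r i j` at `J j`, `0` elsewhere (`J` injective). `∑_k f_i k dl D (w k) = 0` for all `D ∈ DB B`, the coordinates are in `B`. ARv: `f_i k = ∑_a q_(k,a) b_a` with `q_(·,a) ∈ VB`. So `f_i` is in the `ℂ`-span of (the image in `ℂ^e` of)
`VB`. The `e - s` vectors `f_i` are linearly independent over `ℂ` (coordinates outside the range of `J`), and the `ℂ`-span of `VB` has dimension at most `finrank ℚ VB` (it is spanned by a `ℚ`-basis). -/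
def S_AVn : Prop :=
  ∀ (B : IntermediateField ℚ ℂ), Cl B → ∀ (e s : ℕ) (J : Fin s → Fin e) (w : Fin e → ℂ) (r : Fin e → Fin s → ℂ), Function.Injective J →
    (∀ i j, r i j ∈ B) → (∀ i, ∀ D ∈ DB B, dl D (w i) = ∑ j, r i j * dl D (w (J j))) →
    ∃ VB : Submodule ℚ (Fin e → ℚ), (∀ q ∈ VB, Complex.exp (∑ k, (q k : ℂ) * w k) ∈ B) ∧ e ≤ s + Module.finrank ℚ VB

/-- (AMb, 200 lines, uses ATc, Acl) The field `B`.
PROOF. Let `𝒯` be the set of the `τ ∈ ℕ` such that there are an algebraically independent `b : Fin τ → ℂ` and `P ≠ 0` with `b i ∈ E_n := cl (range (fun k => exp (v k lq L n)))` for all `i` and all `n` with `P(n) ≠ 0`. `0 ∈ 𝒯`. If `τ ∈ 𝒯` take `n` with `P(n) ≠ 0` (`ℚ` infinite): ATc: `τ ≤ e`. Let `τ` be the maximum. Suppose `x ∈ E_n` for all `n` with `P'(n) ≠ 0`,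
`P' ≠ 0`, and `x ∉ cl (range b)`. Then `x` is transcendental over `ℚ(b)` (Acl), so `Fin.snoc b x` (or `Fin.cons x b`) is algebraically independent, and `P P' ≠ 0` shows `τ + 1 ∈ 𝒯`, contradiction. -/
def S_AMb : Prop :=
  ∀ (e m : ℕ) (v : Fin e → ℂ) (L : Fin m → ℂ), ∃ (τ : ℕ) (b : Fin τ → ℂ) (P : MvPolynomial (Fin m) ℚ), AlgebraicIndependent ℚ b ∧ P ≠ 0 ∧
    (∀ n : Fin m → ℚ, MvPolynomial.eval n P ≠ 0 → cl (Set.range b) ≤ cl (Set.range fun k => Complex.exp (v k * lq L n))) ∧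
    ∀ (x : ℂ) (P' : MvPolynomial (Fin m) ℚ), P' ≠ 0 →
      (∀ n : Fin m → ℚ, MvPolynomial.eval n P' ≠ 0 → x ∈ cl (Set.range fun k => Complex.exp (v k * lq L n))) → x ∈ cl (Set.range b)

/-- (AMr, 200 lines, uses AMx, AKD, ANz, Acl, Adl) The kernel is defined over `B = cl (range b)`. (`b, P` as in AMb; `s, J, Dl` as in AMx for `B`.)
PROOF. ANz with `w j = v (J j)`: `P1 ≠ 0` with `P1(n) ≠ 0 → det ≠ 0`. Let `n'` with `det (dm Dl (v (J j) lq L n')) ≠ 0` and `r` with the equation for `i`. For every `n` with `P(n) P1(n) ≠ 0` apply AKD to `B ≤ E = cl (range fun k => exp (v k lq L n))`, `u j = v (J j) lq L n`, `u' j = v (J j) (lq L n' - lq L n)`, `u0 = v i lq L n`, `u0' = v i (lq L n' - lq L n)`: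
`u j + c u' j = v (J j) lq L (n + c (n' - n))`, `u j + u' j = v (J j) lq L n'`; the hypothesis for `c ∈ ℚ` is the last property of `hMx`. So `r j ∈ E`. Hypothesis `hb` with `P' = P P1`: `r j ∈ cl (range b)`. -/
def S_AMr : Prop :=
  ∀ (e m τ s : ℕ) (v : Fin e → ℂ) (L : Fin m → ℂ) (b : Fin τ → ℂ) (P : MvPolynomial (Fin m) ℚ) (J : Fin s → Fin e) (Dl : Fin s → Derivation ℚ ℂ ℂ), P ≠ 0 →
    (∀ n : Fin m → ℚ, MvPolynomial.eval n P ≠ 0 → cl (Set.range b) ≤ cl (Set.range fun k => Complex.exp (v k * lq L n))) →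
    (∀ (x : ℂ) (P' : MvPolynomial (Fin m) ℚ), P' ≠ 0 →
      (∀ n : Fin m → ℚ, MvPolynomial.eval n P' ≠ 0 → x ∈ cl (Set.range fun k => Complex.exp (v k * lq L n))) → x ∈ cl (Set.range b)) →
    (∀ a, Dl a ∈ DB (cl (Set.range b))) → (∃ n : Fin m → ℚ, (dm Dl (fun j => v (J j) * lq L n)).det ≠ 0) →
    (∀ (n : Fin m → ℚ) (i : Fin e), (dm Dl (fun j => v (J j) * lq L n)).det ≠ 0 → ∃ r : Fin s → ℂ, ∀ D ∈ DB (cl (Set.range b)),
        dl D (v i * lq L n) = ∑ j, r j * dl D (v (J j) * lq L n)) →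
    ∀ (n : Fin m → ℚ) (i : Fin e) (r : Fin s → ℂ), (dm Dl (fun j => v (J j) * lq L n)).det ≠ 0 →
      (∀ D ∈ DB (cl (Set.range b)), dl D (v i * lq L n) = ∑ j, r j * dl D (v (J j) * lq L n)) → ∀ j, r j ∈ cl (Set.range b)

/-- (AMt, 200 lines, uses TTH, ATc, AEx, Acl) The field `B` is large.
PROOF. `g = finrank Γ ≤ e`, `γ : Fin g → (Fin e → ℚ)` a basis of `Γ`, `n_1, …, n_q` a basis of `Λ`, `q = finrank Λ ≥ m - e² ≥ 6 (e+1)² - e² ≥ 5 (g+1)²`. `x : Fin (g+1) → ℂ`, `x = Fin.cons 1 (fun a => ∑_k γ a k * v k)`: algebraic, linearly independent over `ℚ` (as `1, v_1, …, v_e` are). `L' j = lq L (n_j)`: linearly independent, `exp (L' j)` algebraic (AEx for `B = cl ∅`).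
`Dat x L'`; TTH with `p = g + 1`: `g` algebraically independent numbers among the `exp (x i * L' j)`. All of these are in `cl (range b)`: for `i = 0` they are algebraic (AEx), for `i = a + 1` by hypothesis. ATc (`ι = Fin g`, `κ = Fin τ`): `g ≤ τ`. -/
def S_AMt : Prop :=
  ∀ (e m τ : ℕ) (v : Fin e → ℂ) (L : Fin m → ℂ) (b : Fin τ → ℂ) (Γ : Submodule ℚ (Fin e → ℚ)) (Λ : Submodule ℚ (Fin m → ℚ)),
    LinearIndependent ℚ (Fin.cons 1 v : Fin (e + 1) → ℂ) → (∀ k, IsAlgebraic ℚ (v k)) → LinearIndependent ℚ L → (∀ i, IsAlgebraic ℚ (Complex.exp (L i))) →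
    6 * (e + 1) ^ 2 ≤ m → m ≤ Module.finrank ℚ Λ + e * e →
    (∀ n ∈ Λ, ∀ γ ∈ Γ, Complex.exp ((∑ k, (γ k : ℂ) * v k) * lq L n) ∈ cl (Set.range b)) → Module.finrank ℚ Γ ≤ τ

/-- (AMn, 250 lines, uses AMb, AMx, AMr, AVn, ANz, ALa, AMt, AIn, ATc, Acl, AEx, Adl) THE MAIN THEOREM.
PROOF. AMb: `τ, b, P`; `B = cl (range b)`. AMx for `B`: `s, J, Dl`. ANz: `P1 ≠ 0` with `P1(n) ≠ 0 → det (dm Dl (v (J j) lq L n)) ≠ 0`. Let `P1(n) ≠ 0`: by AMx there are `r i : Fin s → ℂ` for all `i`, in `B` by AMr. AVn with `w k = v k lq L n`: `VB` with `exp (∑ q k * (v k lq L n)) ∈ B` for `q ∈ VB` and `e ≤ s + finrank VB`. AEx: the subspace `U = {u | exp u ∈ B}` of `ℂ`, `W = ℂ ⧸ U`,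
`A n q` = the class of `(∑ q k v k) lq L n` (bilinear). `ker (A n) ⊇ VB`, so its dimension is at least `h = e - s`. ALa with `P1`: `Γ, Λ` with `e - s ≤ finrank Γ`. AMt: `finrank Γ ≤ τ`. So `e ≤ s + τ`. Choose `n` with `P(n) P1(n) ≠ 0`. `g j = exp (v (J j) lq L n)`: the matrix `Dl a (g j) = dl (Dl a) (v (J j) lq L n) g j` has nonzero determinant, so AIn: `Sum.elim b g` is
algebraically independent, `τ + s` elements of `cl (range fun k => exp (v k lq L n))` (`B ≤` this field). ATc: `fun k => exp (v k lq L n)` is algebraically independent (`e ≤ τ + s`). -/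
def S_AMn : Prop :=
  ∀ (e m : ℕ) (v : Fin e → ℂ) (L : Fin m → ℂ), LinearIndependent ℚ (Fin.cons 1 v : Fin (e + 1) → ℂ) → (∀ k, IsAlgebraic ℚ (v k)) →
    LinearIndependent ℚ L → (∀ i, IsAlgebraic ℚ (Complex.exp (L i))) → 6 * (e + 1) ^ 2 ≤ m →
    ∃ n : Fin m → ℚ, AlgebraicIndependent ℚ (fun k => Complex.exp (v k * lq L n))

end Pool.Agent.SG
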