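import Pool.Agent.Lib.MP_452a87_nt.SG.SpecA

/-!
# Theorem SG, Part B: the count in boxes, the cube theorem and natural density

`Good F l`: for every irrational `β ∈ F` the numbers `exp (β l), …, exp (β^(d-1) l)` are algebraically independent. (A) BTa: all but `(D - 1) H^(m-1)` of the combinations `∑ n_i L_i`, `n ∈ [1, H]^m`, are good. (B) BTh: for 100 percent of the positive integers `a`
the logarithm `l0 + log a` is good. The task `X` is to write `SG/X.lean` with `theorem pX (h1 : S_..) ... : S_X`; statements used are hypotheses, so all modules are independent.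

Idea of (B). A dense set of integers contains `c ∏_l q(W(l), l)` for all `W ⊆ [k]` (EIt, distinct primes), with logarithms `L_0 + ∑_(l ∈ W) L_l`, `L_l` linearly independent. If all of these are bad then `det (M_0 + ∑_(l ∈ W) M_l) = 0` for the matrices `M_l = (dl (D a) (v b L_l))`, for any derivations `D a`;
so the mixed discriminant of the `M_l` with distinct indices vanishes (BDf), so `det` vanishes on the span of many of the `M_l` (BLn), and this contradicts (A) for a good choice of the `D a` (BCh).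
-/

set_option autoImplicit false

namespace Pool.Agent.SG

open Pool.Agent.SMQ

/-- Schneider's property for `l` and all irrational `β ∈ F`. -/
def Good (F : IntermediateField ℚ ℂ) (l : ℂ) : Prop :=
  ∀ β ∈ F, (∀ q : ℚ, (q : ℂ) ≠ β) → AlgebraicIndependent ℚ (fun i : Fin ((minpoly ℚ β).natDegree - 1) => Complex.exp (β ^ ((i : ℕ) + 1) * l))

/-- (BBa, 80 lines) A basis of `F` with first element `1`.
PROOF. `{1}` is linearly independent over `ℚ`; extend it to a basis of the `(e + 1)`-dimensional space `F` and number it with `1` at the place `0` (e.g. complete `1` with `e` further vectors; or take a basis of `F ⧸ ℚ·1`, which has dimension `e`, and lift it). The elements of `F` are algebraic over `ℚ` (`FiniteDimensional`). -/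
def S_BBa : Prop :=
  ∀ (e : ℕ) (F : IntermediateField ℚ ℂ), FiniteDimensional ℚ F → Module.finrank ℚ F = e + 1 →
    ∃ v : Fin e → ℂ, LinearIndependent ℚ (Fin.cons 1 v : Fin (e + 1) → ℂ) ∧ (∀ k, v k ∈ F ∧ IsAlgebraic ℚ (v k)) ∧
      ∀ x ∈ F, ∃ (q0 : ℚ) (q : Fin e → ℚ), x = (q0 : ℂ) + ∑ k, (q k : ℂ) * v k

/-- (BVf, 150 lines, uses ATc, AEx, Acl) From a basis to the powers of `β`.
PROOF. `β ∈ F` irrational, `d = natDegree (minpoly ℚ β)` (`β` is algebraic, a combination of `1` and the `v k`). `1, β, …, β^(d-1)` are distinct and linearly independent over `ℚ` (`linearIndependent_pow`). With `s = {1, β, …, β^(d-1)}`, `t = s ∪ {v k}` there is a linearly independent set `b`, `s ⊆ b ⊆ t`, `t ⊆ span b` (`exists_linearIndependent_extension`).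
`span b = F` has dimension `e + 1` (spanned by the linearly independent `1, v k`), so `b \ {1}` has `e` elements. `g : b \ {1} → ℂ`, `g y = exp (y l)`. Every `v k` is a rational combination `q0 + ∑ q_y y` (`y ∈ b \ {1}`), and `exp (q0 l)`, `exp (q_y y l)` are in `cl (range g)` (AEx: `Cl (cl (range g))`, `exp l` algebraic), so `exp (v k l) ∈ cl (range g)`.
ATc (`ι = Fin e`, `κ = b \ {1}`): `g` is algebraically independent. The numbers `exp (β^(i+1) l)`, `i < d - 1`, are a subfamily (`i ↦ β^(i+1)` is injective with values in `b \ {1}`). -/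
def S_BVf : Prop :=
  ∀ (e : ℕ) (F : IntermediateField ℚ ℂ) (v : Fin e → ℂ) (l : ℂ), LinearIndependent ℚ (Fin.cons 1 v : Fin (e + 1) → ℂ) →
    (∀ k, v k ∈ F ∧ IsAlgebraic ℚ (v k)) → (∀ x ∈ F, ∃ (q0 : ℚ) (q : Fin e → ℚ), x = (q0 : ℂ) + ∑ k, (q k : ℂ) * v k) →
    IsAlgebraic ℚ (Complex.exp l) → AlgebraicIndependent ℚ (fun k => Complex.exp (v k * l)) → Good F l

/-- (BDt, 120 lines, uses AIn, ADu, Acl) Algebraic independence and determinants of logarithmic derivatives.
PROOF. `g j = exp (u j) ≠ 0`; `Dl a (g j) = g j * dl (Dl a) (u j)`, so `det (Dl a (g j)) = ∏ g j * det (dm Dl u)`. `→`: ADu. `←`: AIn with `τ = 0`, `b : Fin 0 → ℂ`: the elements of `cl (range b) = cl ∅` are algebraic over `ℚ(∅) = ℚ` (Acl, `adjoin ℚ ∅ = ⊥`), and every derivation `D` of `ℂ` kills an algebraic number `z`: `0 = D (P(z)) = P'(z) D z` for the minimal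
polynomial `P ∈ ℚ[X]` of `z`, `P'(z) ≠ 0`. `Sum.elim b g` is algebraically independent, so `g` is. -/
def S_BDt : Prop :=
  ∀ (e : ℕ) (u : Fin e → ℂ), AlgebraicIndependent ℚ (fun k => Complex.exp (u k)) ↔ ∃ Dl : Fin e → Derivation ℚ ℂ ℂ, (dm Dl u).det ≠ 0

/-- (BFn, 60 lines, uses AMn, BDt, ANz) The generic combination.
PROOF. AMn: `n0`; BDt for `u k = v k * lq L n0`: `Dl`; ANz with `s = e`, `w = v`: `P`; BDt again for `u k = v k * lq L n`. -/
def S_BFn : Prop :=
  ∀ (e m : ℕ) (v : Fin e → ℂ) (L : Fin m → ℂ), LinearIndependent ℚ (Fin.cons 1 v : Fin (e + 1) → ℂ) → (∀ k, IsAlgebraic ℚ (v k)) →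
    LinearIndependent ℚ L → (∀ i, IsAlgebraic ℚ (Complex.exp (L i))) → 6 * (e + 1) ^ 2 ≤ m →
    ∃ P : MvPolynomial (Fin m) ℚ, P ≠ 0 ∧ P.totalDegree ≤ e ∧
      ∀ n : Fin m → ℚ, MvPolynomial.eval n P ≠ 0 → AlgebraicIndependent ℚ (fun k => Complex.exp (v k * lq L n))

/-- (BTa, 150 lines, uses BBa, BVf, BFn) THEOREM (A): THE COUNT IN BOXES.
PROOF. BBa: `v`. BFn: `P`. If `n ∈ [1, H]^m` and `P(n) ≠ 0` then `exp (v k l)` are algebraically independent for `l = ∑ n i L i = lq L n`, and `exp l = ∏ (exp (L i))^(n i)` is algebraic: `Good F l` by BVf. So the bad `n` are zeros of `P` in `S^m`, `S` = the image of `Icc 1 H` in `ℚ`, `H` elements. Schwartz-Zippel (`MvPolynomial.schwartz_zippel_totalDegree`):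
at most `(e/H) H^m = e H^(m-1)` zeros (`H ≥ 1`; for `H = 0` there is no `n` since `m ≥ 6 ≥ 1`). -/
def S_BTa : Prop :=
  ∀ (e m H : ℕ) (F : IntermediateField ℚ ℂ), FiniteDimensional ℚ F → Module.finrank ℚ F = e + 1 → 6 * (e + 1) ^ 2 ≤ m →
    ∀ L : Fin m → ℂ, LinearIndependent ℚ L → (∀ i, IsAlgebraic ℚ (Complex.exp (L i))) →
    Set.ncard {n : Fin m → ℕ | (∀ i, 1 ≤ n i ∧ n i ≤ H) ∧ ¬ Good F (∑ i, (n i : ℂ) * L i)} ≤ e * H ^ (m - 1)

/-- (BCh, 120 lines, uses BDt, Adl) A common choice of the derivations.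
PROOF. BDt: for every `i` some `D^i : Fin e → Derivation ℚ ℂ ℂ` with `det (dm (D^i) (u i)) ≠ 0`. For `c : ι → ℂ` let `D_c a = ∑_i c i • D^i a`. By Adl `dl (D_c a) (u i k) = ∑_(i') c i' dl (D^(i') a) (u i k)`, so `det (dm D_c (u i)) = eval c (R i)` with `R i ∈ ℂ[X_ι]` the determinant of a matrix of linear forms, nonzero at `c = Pi.single i 1`.
`∏ R i ≠ 0`, so it does not vanish at some `c` (`ℂ` is infinite, `MvPolynomial.funext`). -/
def S_BCh : Prop :=
  ∀ (e : ℕ) (ι : Type) [Fintype ι] (u : ι → Fin e → ℂ), (∀ i, AlgebraicIndependent ℚ (fun k => Complex.exp (u i k))) →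
    ∃ Dl : Fin e → Derivation ℚ ℂ ℂ, ∀ i, (dm Dl (u i)).det ≠ 0

/-- (BDf, 200 lines) The difference of order `e` of the determinant.
PROOF. For `S : Finset (Fin e)` let `W = t(S)`: `0 = det (M0 + ∑_(b ∈ S) M (t b))`. Let `N : Option (Fin e) → Matrix`, `N none = M0`, `N (some b) = M (t b)`, and `χ_S none = 1`, `χ_S (some b) = [b ∈ S]`. `det` is multilinear in the columns, so (`MultilinearMap.map_sum`) `0 = ∑_φ (∏_c χ_S (φ c)) det (column c from N (φ c))`, over `φ : Fin e → Option (Fin e)`.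
Multiply by `(-1)^(|S|)` and sum over all `S`: if `b` is not of the form with `some b` in the image of `φ` then `S ↦ symmDiff S {b}` does not change `∏_c χ_S (φ c)` and changes the sign, so the sum over `S` is `0` (`Finset.sum_involution`). If all `some b` are in the image then `φ = some ∘ σ`, `σ` a bijection of `Fin e` (finite sets of the same cardinality), and
`∏_c χ_S (φ c) = [S = univ]`. So `0 = (-1)^e ∑_σ det (column c from M (t (σ c)))`. (`Matrix.of fun a b => M (t (σ b)) a b` has column `b` from `M (t (σ b))`.) -/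
def S_BDf : Prop :=
  ∀ (e k : ℕ) (M0 : Matrix (Fin e) (Fin e) ℂ) (M : Fin k → Matrix (Fin e) (Fin e) ℂ), (∀ W : Finset (Fin k), (M0 + ∑ l ∈ W, M l).det = 0) →
    ∀ t : Fin e → Fin k, Function.Injective t → ∑ σ : Equiv.Perm (Fin e), (Matrix.of fun a b => M (t (σ b)) a b).det = 0

/-- (BLn, 200 lines) Multilinear forms which vanish on distinct vectors.
PROOF. `w = finrank V`, `s = e * w`, `Sp I = span (M '' I)`. CLAIM: every finite set `I0` contains `I` with `|I0| ≤ |I| + s · finrank (Sp I0)` which is ROBUST: `Sp (I \ S) = Sp I` for all `S ⊆ I` with `|S| ≤ s`. Strong induction on `finrank (Sp I0)`: if `I0` is not robust then `Sp (I0 \ S) < Sp I0` for some `|S| ≤ s`; apply the induction to `I0 \ S`.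
Start with `I0 = univ`: `|I| ≥ k - s w ≥ m0`. CLAIM: there are disjoint `B_0, …, B_(e-1) ⊆ I` with `|B_i| ≤ w`, `Sp B_i = Sp I`: let `S` be the union of `B_0, …, B_(i-1)`, `|S| ≤ i w ≤ s`, so `Sp (I \ S) = Sp I`, and choose a basis of it among the `M l`, `l ∈ I \ S`. Now for `b i ∈ B_i` the map `b` is injective, so `Φ (M ∘ b) = 0`.
If `x ∈ Sp I` write `x = ∑_(b ∈ B_i) c i b • M b` for each `i` and expand (`MultilinearMap.map_sum_finset`, `map_smul_univ`): `Φ (fun _ => x) = 0`. -/
def S_BLn : Prop :=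
  ∀ (e k m0 : ℕ) (V : Type) [AddCommGroup V] [Module ℂ V] [FiniteDimensional ℂ V] (M : Fin k → V) (Φ : MultilinearMap ℂ (fun _ : Fin e => V) ℂ),
    e * Module.finrank ℂ V * Module.finrank ℂ V + m0 ≤ k → (∀ t : Fin e → Fin k, Function.Injective t → Φ (fun i => M (t i)) = 0) →
    ∃ I : Finset (Fin k), m0 ≤ I.card ∧ ∀ x ∈ Submodule.span ℂ (M '' (I : Set (Fin k))), Φ (fun _ => x) = 0

/-- (BMn, 250 lines, uses AMn, BDt, BCh, BDf, BLn, Adl) THE CUBE THEOREM. (`L0` is arbitrary.)
PROOF. `m0 = 6 (e+1)^2`. Suppose that for all `W` the numbers are dependent. For every injective `f : Fin m0 → Fin k` AMn for `v` and `L ∘ f` (linearly independent) gives `n_f : Fin m0 → ℚ` such that `u_f j = v j * lq (L ∘ f) n_f` has algebraically independent exponentials. BCh (`ι` = the injective functions): `Dl` with `det (dm Dl u_f) ≠ 0` for all `f`.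
`M l = dm Dl (fun j => v j * L l)`, `M0 = dm Dl (fun j => v j * L0)`. By Adl `M0 + ∑_(l∈W) M l = dm Dl (fun j => v j * (L0 + ∑_(l∈W) L l))`, so its determinant is `0` (BDt, ←). BDf. Let `Φ (N_1, …, N_e) = ∑_σ det (column b from N_(σ b))`, a multilinear map on `V = Matrix (Fin e) (Fin e) ℂ` (for each `σ` the composition of the determinant in columns with the reindexed coordinate maps),
`finrank V = e * e`, `Φ (M ∘ t) = 0` for injective `t`, `Φ (x, …, x) = e! det x`. BLn: `I` with `|I| ≥ m0` and `det x = 0` for all `x` in the span of the `M l`, `l ∈ I`. Let `f : Fin m0 → Fin k` be injective with values in `I`: `dm Dl u_f = ∑_i n_f i • M (f i)` (Adl) is in the span, contradiction. -/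
def S_BMn : Prop :=
  ∀ (e k : ℕ) (v : Fin e → ℂ) (L0 : ℂ) (L : Fin k → ℂ), LinearIndependent ℚ (Fin.cons 1 v : Fin (e + 1) → ℂ) → (∀ j, IsAlgebraic ℚ (v j)) →
    LinearIndependent ℚ L → (∀ l, IsAlgebraic ℚ (Complex.exp (L l))) → e * (e * e) * (e * e) + 6 * (e + 1) ^ 2 ≤ k →
    ∃ W : Finset (Fin k), AlgebraicIndependent ℚ (fun j => Complex.exp (v j * (L0 + ∑ l ∈ W, L l)))

/-- (BLg, 150 lines) Logarithms of quotients of distinct primes.
PROOF. `exp (log q - log q') = q/q'` is rational. Linear independence over `ℚ`, or `ℤ`: `∑ n l (log (q true l) - log (q false l)) = 0` with integers `n l` (real numbers; `Complex.ofReal` is injective). Exponentiate: `∏ (q true l)^(n l) = ∏ (q false l)^(n l)`; move negative exponents: an equality of two products of powers of primes in `ℕ`, all primes distinct;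
compare the exponent of the prime `q true l` (factorization): `n l = 0`. -/
def S_BLg : Prop :=
  ∀ (k : ℕ) (q : Bool → Fin k → ℕ), (∀ s l, (q s l).Prime) → Function.Injective (fun p : Bool × Fin k => q p.1 p.2) →
    LinearIndependent ℚ (fun l => ((Real.log (q true l) - Real.log (q false l) : ℝ) : ℂ)) ∧
    ∀ l, IsAlgebraic ℚ (Complex.exp ((Real.log (q true l) - Real.log (q false l) : ℝ) : ℂ))

end Pool.Agent.SG
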