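import Pool.Agent.Lib.MP_452a87_nt.SG.SpecB
import Pool.Agent.Lib.MP_452a87_nt.SpecE

/-!
# Theorem SG: natural density (uses `S_EIt` of SpecE)

The task `BTh` is to write `SG/BTh.lean` with `theorem pBTh (h1 : S_BMn) ... : S_BTh`. (SpecE imports the density Hales-Jewett folder Pool/Agent/Lib/MP_9f2731_nt/GP: copy it too.)
-/

set_option autoImplicit false

namespace Pool.Agent.SG

open Pool.Agent.SMQ

/-- (BTh, 200 lines, uses BMn, EIt, BLg, BVf, BBa) THEOREM (B): NATURAL DENSITY.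
PROOF. We may assume `ε ≤ 1`. `k = e * (e * e) * (e * e) + 6 * (e + 1) ^ 2`. EIt with `j = 1`, `δ = ε`: `X0`. Let `X ≥ X0`, `F`, `l0` be given and suppose that more than `ε X` integers in `[1, X]` are bad. `B a = ¬ Good F (l0 + log (a 0))` (the tuples `a : Fin 1 → ℕ` correspond to integers). EIt: `c, q`. `c' = c 0 ≥ 1`.
For `W ⊆ Fin k` let `a_W = c' ∏_l q (decide (l ∈ W)) 0 l ≥ 1`: `log a_W = log c' + ∑_l log (q false 0 l) + ∑_(l ∈ W) (log (q true 0 l) - log (q false 0 l))`. `L0 = l0 + log c' + ∑_l log (q false 0 l)`, `L l = log (q true 0 l) - log (q false 0 l)` (BLg). BBa: `v`. BMn: some `W` with algebraically independent `exp (v j l)`, `l = l0 + log a_W`.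
`exp l = exp l0 * a_W` is algebraic, so `Good F l` (BVf): contradiction to `B`. -/
def S_BTh : Prop :=
  ∀ (e : ℕ) (ε : ℝ), 0 < ε → ∃ X0 : ℕ, ∀ X : ℕ, X0 ≤ X → ∀ F : IntermediateField ℚ ℂ, FiniteDimensional ℚ F → Module.finrank ℚ F = e + 1 →
    ∀ l0 : ℂ, IsAlgebraic ℚ (Complex.exp l0) →
    (Set.ncard {a : ℕ | 1 ≤ a ∧ a ≤ X ∧ ¬ Good F (l0 + ((Real.log a : ℝ) : ℂ))} : ℝ) ≤ ε * X

end Pool.Agent.SG
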