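import Pool.Agent.Lib.MP_452a87_nt.SpecL

/-!
# Theorem SG, Part T: sharp asymmetric large transcendence degree

`x : Fin p → ℂ` algebraic numbers, `L : Fin q → ℂ` logarithms of algebraic numbers, both linearly independent over `ℚ`, `q ≥ 5 p²`: the transcendence degree of the numbers
`tq x L (i, j) = exp (x i * L j)` is at least `p - 1` (TTL). The task `X` is to write `SG/X.lean` with `theorem pX (h1 : S_..) ... : S_X`; statements used are hypotheses, so all modules are independent.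
Definitions and the statements `S_Swz, S_Lag, S_Sml, S_Cof, S_Lip, S_L1s, S_L1a, S_BxF, S_K4, S_Lio, S_LG2, S_LRb, S_LKy, S_LSe, S_LFc, S_LDs, S_LNr, S_LFe, S_LDf` are those of `SpecX, SpecK, SpecL` (namespace `Pool.Agent.SMQ`).
Every module `TX` is an ADAPTATION of a proved module: TPt of X/Pts, TDb of L/LDb, TPg of L/LPg, TEv of L/LEv, TNum of X/NumX, TX2 of L/LX2, TX1 of L/LX1, TAf of L/LAf, TSt of L/LSt, TTL of L/LTL. Start from a copy.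
DICTIONARY. The old unknowns `lam ∈ [0, N)^D` are now `lam : Fin q → Fin B`, the old points `s ∈ [0, 2N)^D` are `s : Fin p → ℕ` with `s i < 2 B^h`, `q = h p`. So the number of unknowns is `B^q = (B^h)^p` and the number of points is `(2 B^h)^p`:
the old `N` is `B^h` for the points, and `B` for the frequencies. `E = h p` replaces the old `D` in the exponents: smallness `exp(-c B^E)`, closeness `exp(-B^(E+2))` (old `exp(-N^(D+1))`), sizes `B^(h+2)` (old `N^4`).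
-/

set_option autoImplicit false

namespace Pool.Agent.SG

open MvPolynomial Pool.Agent.SMQ

/-- The linear combination `∑ c j * L j` with natural coefficients. -/
noncomputable def lc {q : ℕ} (L : Fin q → ℂ) (c : Fin q → ℕ) : ℂ := ∑ j, (c j : ℂ) * L j

/-- The numbers `exp (x i * L j)`. -/
noncomputable def tq {p q : ℕ} (x : Fin p → ℂ) (L : Fin q → ℂ) (ij : Fin p × Fin q) : ℂ := Complex.exp (x ij.1 * L ij.2)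

/-- The hypotheses: algebraic numbers `x`, logarithms `L` of algebraic numbers, linearly independent. -/
def Dat {p q : ℕ} (x : Fin p → ℂ) (L : Fin q → ℂ) : Prop :=
  (∀ i, IsAlgebraic ℚ (x i)) ∧ LinearIndependent ℚ x ∧ (∀ j, IsAlgebraic ℚ (Complex.exp (L j))) ∧ LinearIndependent ℚ L

/-- The auxiliary polynomials with polynomial coefficients. -/
noncomputable def fq {p q : ℕ} (B : ℕ) (P : (Fin q → Fin B) → MvPolynomial (Fin p × Fin q) ℤ) (s : Fin p → ℕ) :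
    MvPolynomial (Fin p × Fin q) ℤ :=
  ∑ lam : Fin q → Fin B, P lam * ∏ ij : Fin p × Fin q, X ij ^ (s ij.1 * (lam ij.2 : ℕ))

/-- The exponential sum `∑ a lam exp (w_lam z)`, `w_lam = lc L lam`. -/
noncomputable def Fz {q : ℕ} (L : Fin q → ℂ) (B : ℕ) (a : (Fin q → Fin B) → ℂ) (z : ℂ) : ℂ :=
  ∑ lam : Fin q → Fin B, a lam * Complex.exp (lc L (fun j => (lam j : ℕ)) * z)

/-- The state of the iteration (compare `Stt` in SpecL): a specialization `ξ` of `θ = tq x L` of transcendence degree `r`, a form `G` of size at most `S` and small at `θ`. -/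
def Stq {p q : ℕ} (x : Fin p → ℂ) (L : Fin q → ℂ) (r : ℕ) (S κ : ℝ) : Prop :=
  ∃ (ξ : Fin p × Fin q → ℂ) (G : MvPolynomial (BU (Fin p × Fin q) (r + 1)) ℤ), Spc (tq x L) ξ ∧ Tr ξ r ∧ Frm ξ r G ∧
    sz G ≤ S ∧ ∀ u, Dsc u → ‖vt (tq x L) G u‖ ≤ Real.exp (-(κ * sz G))

/-- (TLx, 120 lines, uses K4, Lio) Liouville for linear forms in algebraic numbers.
PROOF. `Tr x 0` (all `x i` are algebraic over `ℚ`; the empty family is algebraically independent; `IntermediateField.adjoin ℚ ∅ = ⊥`). K4 (`Ω = ℂ`): `PP x 0 s` with `s ≥ 1`. Lio for `ι = Fin p`: `C1`, with `ξ = y = x` (`Spc.refl`). Let `f = ∑ i, C (c i) * X i`, `d = Nat.clog 2 N + 1`: total degree `≤ 1 ≤ d`,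
coefficients `≤ N ≤ 2^d` in absolute value, so `Sz f d`. `aeval x f = ∑ c i x i ≠ 0` by linear independence (integers). So `1 ≤ ‖∑ c i x i‖ 2^(C1 s d)` and `2^d ≤ 4 N`: `D = C1 s`, `C = 4`. (`p = 0`: there is no `c ≠ 0`.) -/
def S_TLx : Prop :=
  ∀ (p : ℕ) (x : Fin p → ℂ), (∀ i, IsAlgebraic ℚ (x i)) → LinearIndependent ℚ x →
    ∃ (D : ℕ) (C : ℝ), 1 ≤ C ∧ ∀ N : ℕ, 1 ≤ N → ∀ c : Fin p → ℤ, c ≠ 0 → (∀ i, |c i| ≤ (N : ℤ)) →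
      1 ≤ ‖∑ i, (c i : ℂ) * x i‖ * (C * N) ^ D

/-- (TLl, 200 lines, uses K4, Lio) Liouville for linear forms in logarithms (trivial bound).
PROOF. `α j = exp (L j) ≠ 0`, algebraic. `Tr α 0`, K4: `PP α 0 s`, Lio: `C1` (`ξ = y = α`). `Λ = ∑ c j L j ≠ 0`. Let `cp j = (c j).toNat`, `cm j = (-c j).toNat` (`c j = cp j - cm j`, both `≤ N`), `a = ∏ α j ^ cp j`, `b = ∏ α j ^ cm j`: `exp Λ = a / b`. If `‖Λ‖ ≥ 1` there is nothing to prove (`exp(C N) ≥ 1`).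
Let `‖Λ‖ < 1`. `exp Λ ≠ 1` (otherwise `Λ = 2πi k` with `k ≠ 0`, `Complex.exp_eq_one_iff`, so `‖Λ‖ ≥ 2π`). `f = ∏ X j ^ cp j - ∏ X j ^ cm j` has total degree `≤ q N` and coefficients in `{-1, 0, 1}` (or `≤ 2` in absolute value `≤ 2^(qN)`; `q N ≥ 1` as `c ≠ 0`): `Sz f (q N)`. `aeval α f = a - b ≠ 0`. Lio: `1 ≤ ‖a - b‖ 2^(C1 s q N)`.
`‖a - b‖ = ‖b‖ ‖exp Λ - 1‖ ≤ Y^(q N) · 2 ‖Λ‖` with `Y ≥ 1, ‖α j‖` (`Complex.norm_exp_sub_one_le`-type: `‖x‖ ≤ 1 → ‖exp x - 1‖ ≤ 2 ‖x‖`). So `1 ≤ ‖Λ‖ · 2 Y^(qN) 2^(C1 s q N) ≤ ‖Λ‖ exp(C N)`. -/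
def S_TLl : Prop :=
  ∀ (q : ℕ) (L : Fin q → ℂ), (∀ j, IsAlgebraic ℚ (Complex.exp (L j))) → LinearIndependent ℚ L →
    ∃ C : ℝ, 1 ≤ C ∧ ∀ N : ℕ, 1 ≤ N → ∀ c : Fin q → ℤ, c ≠ 0 → (∀ j, |c j| ≤ (N : ℤ)) →
      1 ≤ ‖∑ j, (c j : ℂ) * L j‖ * Real.exp (C * N)

/-- (TPt, 150 lines, uses TLx, TLl) The frequencies and the points.
PROOF. Upper bounds: `‖∑ lam j L j‖ ≤ B ∑ ‖L j‖`, `‖∑ s i x i‖ ≤ 2 B^h ∑ ‖x i‖`. Differences: `lam - lam'` is a nonzero integer vector with entries `≤ B` in absolute value (TLl with `N = B`); `s - s'` has entries `≤ 2 B^h` (TLx with `N = 2 B^h`: `1 ≤ ‖..‖ (2 C' B^h)^D`). `C` = a common upper bound `≥ 1`. -/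
def S_TPt : Prop :=
  ∀ (p q h : ℕ) (x : Fin p → ℂ) (L : Fin q → ℂ), Dat x L → ∃ (D : ℕ) (C : ℝ), 1 ≤ C ∧ ∀ B : ℕ, 1 ≤ B →
    (∀ lam : Fin q → Fin B, ‖lc L (fun j => (lam j : ℕ))‖ ≤ C * B) ∧
    (∀ lam lam' : Fin q → Fin B, lam ≠ lam' →
      1 ≤ ‖lc L (fun j => (lam j : ℕ)) - lc L (fun j => (lam' j : ℕ))‖ * Real.exp (C * B)) ∧
    (∀ s : Fin p → Fin (2 * B ^ h), ‖lc x (fun i => (s i : ℕ))‖ ≤ C * (B : ℝ) ^ h) ∧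
    (∀ s s' : Fin p → Fin (2 * B ^ h), s ≠ s' →
      1 ≤ ‖lc x (fun i => (s i : ℕ)) - lc x (fun i => (s' i : ℕ))‖ * (C * (B : ℝ) ^ h) ^ D)

/-- (TDb, 180 lines, uses BxF; copy of L/LDb) A scale with doubling in `[A, A B]`.
PROOF. `M = (n + 1)(h + 2) + 1`, `κ a = Kc ξ a a`. `2^a ≤ κ a ≤ 2^(a (a+1)^n) ≤ 2^((2a)^(n+1))` for `a ≥ 1` (LDb). Let `k0` with `2^k0 ≤ B < 2^(k0+1)` (`k0 = Nat.log 2 B`). Suppose `κ (2^(k+1) A) > κ (2^k A)^(2^M)` for all `k < k0`. Then (`k0 ≥ 1`) `κ (2^k0 A) > κ(A)^(2^(M k0)) ≥ 2^(A 2^(M k0))`, so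
`A 2^(M k0) < (2^(k0+1) A)^(n+1)`, `2^(M k0) < 2^((k0+1)(n+1)) A^n ≤ 2^((k0+1)(n+1)) (C0 2^((k0+1)(h+1)))^n` (`A ≤ C0 B^(h+1)`, `B ≤ 2^(k0+1)`). With `C0 ≤ 2^C0` the exponent on the right is at most `(k0+1)(n + 1 + n (h+1)) + n C0`, and `M k0 - (k0+1)(n+1+n(h+1)) = k0 (h + 2) - (n + 1 + n(h+1)) ≥ n C0` for
`k0 ≥ n + 1 + n (h+1) + n C0`: contradiction. So `B0 = 2^(n + 1 + n (h+1) + n C0 + 1)`. Some `a = 2^k A`, `k < k0`, has `κ (2a) ≤ κ(a)^(2^M)`; `a ≤ 2^k0 A ≤ A B`; `κ a ≥ 2^a ≥ 2`. -/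
def S_TDb : Prop :=
  ∀ (n h C0 : ℕ), ∃ M B0 : ℕ, 1 ≤ M ∧ ∀ B : ℕ, B0 ≤ B → ∀ (ι : Type) [Fintype ι], Fintype.card ι = n → ∀ (ξ : ι → ℂ) (A : ℕ),
    1 ≤ A → A ≤ C0 * B ^ (h + 1) → ∃ a : ℕ, A ≤ a ∧ a ≤ A * B ∧ 2 ≤ Kc ξ a a ∧ Kc ξ (2 * a) (2 * a) ≤ Kc ξ a a ^ (2 ^ M)

/-- (TPg, 200 lines, uses TDb, BxF; copy of L/LPg) Polynomial coefficients with exact vanishing at `ξ`.
PROOF. `q = h p`, `n = p q = card (Fin p × Fin q)`, `C0 = 2 p q + q + 2`, `A = C0 B^(h+1)`. For `lam j < B`, `s i < 2 B^h` the monomial `∏ X ij ^ (s i lam j)` has total degree `(∑ s i)(∑ lam j) ≤ 2 p q B^(h+1) ≤ A`, and `B^q ≤ 2^(q B) ≤ 2^A`. TDb (`n, h, C0`): `M, B0`, `a' ∈ [A, A B]`, `κ(2a') ≤ κ(a')^(2^M)`, `κ(a') ≥ 2`. Choose for every value at `ξ` of a polynomial of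
`Bx a' a'` one such polynomial: a set `𝒫 ⊆ Bx a' a'` of `κ(a')` polynomials with different values at `ξ`. For `w : (Fin q → Fin B) → 𝒫` and `s` with `s i < S0 := B^h / 2^M` the polynomial `fq B w s` is in `Bx (2a') (2a')`: total degree `≤ a' + A ≤ 2a'`, coefficients in `[0, B^q 2^a')`. So its value at `ξ` has at most `κ(2a')` possibilities; there are
`S0^p` functions `s : Fin p → Fin S0` and `κ(a')^(B^q)` functions `w`. `κ(2a')^(S0^p) ≤ κ(a')^(2^M S0^p) < κ(a')^(B^q)`, since `2^M S0^p < B^(hp)`: `S0 2^M ≤ B^h`, so `S0^p 2^(M p) ≤ B^(hp)` and `2^M < 2^(M p)` as `p ≥ 2`, `M ≥ 1` (if `S0 = 0` trivial, `p ≥ 1`, `B ≥ 1`). So two different `w, w'` have the same values for all `s`.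
`P lam = w lam - w' lam`: `Sz (P lam) a'`, `a' ≤ A B = C0 B^(h+2)`, monotone in the size; some `P lam` has `aeval ξ (P lam) ≠ 0` (different elements of `𝒫` have different values), and `aeval ξ (fq B P s) = 0`. -/
def S_TPg : Prop :=
  ∀ (p q h : ℕ), 2 ≤ p → q = h * p → ∃ (M C B0 : ℕ), 1 ≤ M ∧ 1 ≤ C ∧ ∀ B : ℕ, B0 ≤ B → ∀ ξ : Fin p × Fin q → ℂ,
    ∃ P : (Fin q → Fin B) → MvPolynomial (Fin p × Fin q) ℤ, (∀ lam, Sz (P lam) (C * B ^ (h + 2))) ∧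
      (∃ lam, aeval ξ (P lam) ≠ 0) ∧ ∀ s : Fin p → ℕ, (∀ i, s i < B ^ h / 2 ^ M) → aeval ξ (fq B P s) = 0

/-- (TEv, 40 lines) The monomials at `θ`.
PROOF. `(exp (x i L j))^(s i lam j) = exp ((s i lam j) x i L j)`; the product over all `(i, j)` is `exp (∑_(i,j) s i lam j x i L j)` (`Complex.exp_sum`, `Complex.exp_nat_mul`, `Fintype.sum_prod_type`, `Finset.sum_mul_sum`). -/
def S_TEv : Prop :=
  ∀ (p q : ℕ) (x : Fin p → ℂ) (L : Fin q → ℂ) (lam : Fin q → ℕ) (s : Fin p → ℕ),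
    ∏ ij : Fin p × Fin q, tq x L ij ^ (s ij.1 * lam ij.2) = Complex.exp (lc L lam * lc x s)

/-- (TNum, 200 lines; copy of X/NumX) The numerical inequalities for TX2, for all large `B`. `n = B^E`, `E = h p ≥ h + 2`, `T = (2 B^h)^p = 2^p B^E`.
PROOF. Take logarithms. (1) `log 4 + E log B + n log 17 + 18 C^2 B^(h+1) ≤ n log 64`: `log(64/17) > 1` and `log 4 + E log B + 18 C^2 B^(h+1) ≤ B^(h+2) ≤ n` for large `B`. (2) The logarithm of the left side is at most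
`n (log(1 + C B) + C B) + n log n + log 3 + log T + log n + log(C B^(h+1)) + (C B^(h+1) + 1) log C - B^(E+2) + T log(18 C B^h (C B^h)^D)` (`n! ≤ n^n`), and all terms but `- B^(E+2)` are at most `K B^(E+1)` with a constant `K` (`log B ≤ B`, `B^(h+1) ≤ B^E`), which is smaller than `B^(E+2)` for `B > K`. -/
def S_TNum : Prop :=
  ∀ (p h D : ℕ) (C : ℝ), 1 ≤ C → h + 2 ≤ h * p → ∃ B0 : ℕ, ∀ B : ℕ, B0 ≤ B → 1 ≤ B ∧
    4 * (((B ^ (h * p) : ℕ) : ℝ) * 17 ^ (B ^ (h * p)) * Real.exp (18 * (C * B) * (C * (B : ℝ) ^ h))) ≤ 64 ^ (B ^ (h * p)) ∧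
    ((1 + C * B) * Real.exp (C * B)) ^ (B ^ (h * p)) * (Nat.factorial (B ^ (h * p)) : ℝ) *
      (3 * ((((2 * B ^ h) ^ p : ℕ) : ℝ) * (((B ^ (h * p) : ℕ) : ℝ) * (C * (B : ℝ) ^ (h + 1) * C ^ (⌈C * (B : ℝ) ^ (h + 1)⌉₊) *
        Real.exp (-(B : ℝ) ^ (h * p + 2)))) * (18 * (C * (B : ℝ) ^ h) * (C * (B : ℝ) ^ h) ^ D) ^ ((2 * B ^ h) ^ p))) < 1

/-- (TX2, 250 lines, uses TPt, TEv, Lip, Sml, Cof, TNum; copy of L/LX2) THE SMALL VALUE LEMMA with complex coefficients.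
PROOF. As LX2. `E = h p` (so `p ≥ 2`), `θ = tq x L`, `C ≥ 2 p q`, `C ≥ ‖θ‖ + 1` and `C` at least the constant of TPt (all statements of TPt are monotone in `C`; `D` from TPt). Suppose the sum is zero for all `s : Fin p → Fin (2 B^h)`. Let `q0 = max ‖c lam‖ > 0`, attained at `k`. `F z = Fz L B c z`, `z_s = lc x s`. By TEv
`F z_s = ∑ c lam ∏ θ^(s i lam j) = ∑ c lam (∏ θ^.. - ∏ y^..)`, and Lip for the monomial (total degree `≤ 2 p q B^(h+1) ≤ C B^(h+1)`, `l1 = 1`, `‖y‖ ≤ C`): `‖F z_s‖ ≤ ε := q0 · B^E (C B^(h+1) C^(⌈C B^(h+1)⌉) η)`, `η = exp(-B^(E+2))`. Index `Fin q → Fin B` by `Fin n`, `n = B^q = B^E`.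
`Z` = the set of the `z_s`, `T = (2B^h)^p = 2^p B^E ≥ 2n` points (distinct by TPt), mutual distances `≥ δ = ((C B^h)^D)⁻¹ ≤ 1`, `R = C B^h ≥ 1`, `Ω = C B`. Sml (its numerical hypothesis is (1) of TNum): `‖F z‖ ≤ 3 T ε (18R/δ)^T` for `‖z‖ ≤ R`. Cof with `δ' = exp(-C B)` (TPt): `q0 = ‖c k‖ ≤ ((1+Ω)/δ')^n n! 3 T ε (18R/δ)^T`; divide by `q0`: contradiction to TNum (2). -/
def S_TX2 : Prop :=
  ∀ (p q h : ℕ) (x : Fin p → ℂ) (L : Fin q → ℂ), q = h * p → h + 2 ≤ h * p → Dat x L → ∃ B0 : ℕ, ∀ B : ℕ, B0 ≤ B →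
    ∀ c : (Fin q → Fin B) → ℂ, c ≠ 0 → ∀ y : Fin p × Fin q → ℂ,
    (∀ ij, ‖y ij - tq x L ij‖ ≤ Real.exp (-(B : ℝ) ^ (h * p + 2))) →
    ∃ s : Fin p → ℕ, (∀ i, s i < 2 * B ^ h) ∧
      ∑ lam : Fin q → Fin B, c lam * ∏ ij : Fin p × Fin q, y ij ^ (s ij.1 * (lam ij.2 : ℕ)) ≠ 0

/-- (TX1, 250 lines, uses TPt, Swz, Lag; copy of L/LX1) EXTRAPOLATION.
PROOF. `E = h p ≥ h + 3`, `C1 ≥ 1, D` from TPt; `R = C1 B^h`, `Ω = C1 B`, `δ = ((C1 B^h)^D)⁻¹`. `F z = Fz L B a z`, `z_s = lc x s`. For `‖z‖ ≤ 17R`: `‖F z‖ ≤ B^q exp(C B^(h+2)) exp(17 C1^2 B^(h+1)) ≤ exp(C2 B^(h+2))` (`B ≥ 1`). `Z` = the set of the `z_s` with `s i < S0 = B^h / 2^M`: `T = S0^p ≤ B^E` points (distinct, distances `≥ δ`, norms `≤ R`).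
Lag with `g = F`, `ε = exp(-B^(E+2)/2)`: `Q` with `Q = F` on `Z` and `‖Q‖ ≤ T ε (18R/δ)^T` on `‖z‖ ≤ 17R`; `log` of this is `≤ log T + T log(18 C1 B^h (C1 B^h)^D) - B^(E+2)/2 ≤ -B^E` for large `B`. Swz for `F - Q`: for `‖z‖ ≤ R` (e.g. `z = z_s`, `s i < 2B^h`): `‖F z - Q z‖ 8^T ≤ exp(C2 B^(h+2)) + 1`, so
`‖F z‖ ≤ 2 exp(C2 B^(h+2)) 8^(-T) + exp(-B^E)`, and `T ≥ (B^h/2^(M+1))^p = B^E / 2^((M+1)p)` for `B^h ≥ 2^M`. With `c = 2^(-(M+1)p)` (`c ≤ 1`): `T log 8 ≥ 2 c B^E ≥ c B^E + C2 B^(h+2) + 2` for large `B` as `E ≥ h + 3`. (If `c = 1` use `exp(-B^E) ≤ exp(-c B^E)/2`-type care: take half of it, any smaller `c > 0` is fine.) -/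
def S_TX1 : Prop :=
  ∀ (p q h M : ℕ) (x : Fin p → ℂ) (L : Fin q → ℂ), q = h * p → h + 3 ≤ h * p → Dat x L → ∃ c : ℝ, 0 < c ∧ ∀ C : ℝ, ∃ B0 : ℕ, ∀ B : ℕ, B0 ≤ B →
    ∀ a : (Fin q → Fin B) → ℂ, (∀ lam, ‖a lam‖ ≤ Real.exp (C * (B : ℝ) ^ (h + 2))) →
    (∀ s : Fin p → ℕ, (∀ i, s i < B ^ h / 2 ^ M) → ‖Fz L B a (lc x s)‖ ≤ Real.exp (-((B : ℝ) ^ (h * p + 2) / 2))) →
    ∀ s : Fin p → ℕ, (∀ i, s i < 2 * B ^ h) → ‖Fz L B a (lc x s)‖ ≤ Real.exp (-(c * (B : ℝ) ^ (h * p)))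

/-- (TAf, 250 lines, uses TPg, TX1, TX2, TEv, Lip, L1s, LDf; copy of L/LAf) THE AUXILIARY POLYNOMIAL for a specialization `ξ` with a zero `z0` near `θ = tq x L`.
PROOF. `E = h p ≥ h + 3`, `p ≥ 2`. TPg: `M, C0`, `P` (`Sz (P lam) (C0 B^(h+2))`), vanishing of `aeval ξ (fq B P s)` for `s i < B^h / 2^M`, hence of `aeval z0 (fq B P s)` (`Spc ξ z0`).
`fq B P s` for `s i < 2B^h` has `Sz _ (C1 B^(h+2))`: total degree `≤ C0 B^(h+2) + 2 p q B^(h+1)`, coefficients `≤ B^q 2^(C0 B^(h+2))` in absolute value. The same for `P lam`. By L1s and Lip (`Y ≥ ‖θ‖ + 1`): `‖f(z0) - f(θ)‖ ≤ ‖z0 - θ‖ exp(C2 B^(h+2))` for `f = P lam` and `f = fq B P s`, `s i < 2B^h`; and `‖aeval θ (P lam)‖ ≤ exp(C2 B^(h+2))`.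
CASE 1: `aeval ξ (fq B P s1) ≠ 0` for some `s1` with all `s1 i < 2B^h`. `f = fq B P s1`. Put `a lam = aeval θ (P lam)`. By TEv `aeval θ (fq B P s) = Fz L B a (lc x s)`. For `s i < B^h/2^M` its absolute value is `≤ ‖z0 - θ‖ exp(C2 B^(h+2)) ≤ exp(-B^(E+2) + C2 B^(h+2)) ≤ exp(-B^(E+2)/2)`. TX1: `‖f(θ)‖ ≤ exp(-c B^E)`.
CASE 2: `aeval ξ (fq B P s) = 0` for all `s` with `s i < 2B^h`. Then `0 = aeval z0 (fq B P s) = ∑ aeval z0 (P lam) ∏ (z0 ij)^(s i lam j)` for all these `s`, so by TX2 `aeval z0 (P lam) = 0` for all `lam`. Take `lam` with `aeval ξ (P lam) ≠ 0`, `f = P lam`: `‖f(θ)‖ = ‖f(θ) - f(z0)‖ ≤ ‖z0 - θ‖ exp(C2 B^(h+2))`. -/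
def S_TAf : Prop :=
  ∀ (p q h : ℕ) (x : Fin p → ℂ) (L : Fin q → ℂ), q = h * p → h + 3 ≤ h * p → Dat x L → ∃ (C : ℕ) (c : ℝ) (B0 : ℕ), 1 ≤ C ∧ 0 < c ∧
    ∀ B : ℕ, B0 ≤ B → ∀ ξ z0 : Fin p × Fin q → ℂ, Spc ξ z0 → ‖z0 - tq x L‖ ≤ Real.exp (-(B : ℝ) ^ (h * p + 2)) →
    ∃ f : MvPolynomial (Fin p × Fin q) ℤ, Sz f (C * B ^ (h + 2)) ∧ aeval ξ f ≠ 0 ∧
      ‖aeval (tq x L) f‖ ≤ max (Real.exp (-(c * (B : ℝ) ^ (h * p)))) (‖z0 - tq x L‖ * Real.exp (C * (B : ℝ) ^ (h + 2)))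

/-- (TSt, 400 lines, uses TAf, LG2, LRb, LKy, LSe, LFc, LDs, LNr, LFe; copy of L/LSt) ONE STAGE. `E = h p ≥ h + 3`, `n = card (Fin p × Fin q)`, `θ = tq x L`.
PROOF. Constants: `C_f, c, B0` (TAf; `c ≤ 1`), `Y = 1 + ‖θ‖`, `C` = the maximum over `r ≤ t` of the constants of LRb, LKy, LSe (all statements are monotone in `C`: `sz R ≥ 0`; for LSe use each constant separately). `B ≥ A` large.
Let `Stq x L r S κ` with `ξ, G`, `s = sz G` (`1 ≤ s ≤ S`; `s ≥ deg G ≥ 1`), `B^(h+5) ≤ κ`, `S ≤ B^(E-h-3)`, `δ = κ s`. LDs: some zero `z` of `ξ` has `‖z - θ‖ ≤ 2^n exp(-κ)`. LNr: the nearest zero `z0`, `ρ = ‖z0 - θ‖ ≤ 2^n exp(-κ) < 1`.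
CASE A: `ρ ≤ exp(-B^(E+2))`. TAf with `B`: `f`, `d = C_f B^(h+2)`, `‖f(θ)‖ ≤ exp(-c B^E)` (`ρ exp(C_f B^(h+2)) ≤ exp(-B^(E+2) + C_f B^(h+2)) ≤ exp(-c B^E)`). LG2: `g, e, R`. LKy (2): `‖vt θ R u‖ ≤ exp(C d s) (exp(-c B^E) + exp(-κ s)) ≤ exp(C d s + 1 - min(c B^E, κ s))`.
CASE B: `ρ > exp(-B^(E+2))`. Let `x = -log ρ`, `κ - n ≤ x < B^(E+2)`, and `Λ` the largest natural number with `Λ^(E+2) ≤ x`; `Λ < B`, `(Λ+1)^(E+2) > x ≥ B^(h+5) - n`, so `Λ ≥ B0` and `Λ ≥` any given constant, for `B` large. TAf with `Λ`: `f`, `d = C_f B^(h+2)` (`Sz` is monotone), `‖f(θ)‖ ≤ max(exp(-c Λ^E), ρ exp(C_f Λ^(h+2)))`. Put `η = c / (2^(E+2) B^2) ≤ 1/2`.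
`η x ≤ η (2Λ)^(E+2) = c Λ^(E+2)/B^2 ≤ c Λ^E`; `C_f Λ^(h+2) ≤ Λ^(E+2)/2 ≤ x/2`, so `ρ exp(C_f Λ^(h+2)) ≤ exp(-x/2) ≤ exp(-η x)`. So `‖f(θ)‖ ≤ exp(-η x) = ρ^η ≤ (min 1 ‖z - θ‖)^η` for all `z` with `Spc ξ z` (`ρ ≤ ‖z - θ‖`, `ρ < 1`). (If `ρ = 0` we are in case A.) LG2, LKy (1): `‖vt θ R u‖ ≤ exp(C d s - η κ s)`.
In both cases `sz R + 1 ≤ C d s = C C_f B^(h+2) s` (LRb). Let `κ' = min(κ/B^(h+5), B^(E-h-3)/S) ≥ 0`. The condition of LSe: `(κ'+1) C (sz R + 1) ≤ (κ' + 1) C^2 C_f B^(h+2) s` must be at most `η κ s - C C_f B^(h+2) s` resp. `min(c B^E, κ s) - 1 - C C_f B^(h+2) s`. Since `κ' ≤ κ/B^(h+5)` and `B^(h+2) ≤ κ/B^3`, all terms with `κ s` on the right are fine: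
`(κ/B^(h+5) + 1) C^2 C_f B^(h+2) s + C C_f B^(h+2) s + 1 ≤ κ s (2 C^2 C_f + C C_f + 1)/B^3 ≤ c κ s/(2^(E+2) B^2)` for `B` large; and `κ' B^(h+2) s ≤ B^(E-h-3) B^(h+2) s/S ≤ B^(E-1)`, `B^(h+2) s ≤ B^(h+2) B^(E-h-3) = B^(E-1)`, so the sum is `≤ (2C^2 C_f + C C_f + 1) B^(E-1) ≤ c B^E`. LSe: `π` irreducible, `π ∣ R`, not of the form
`rename Sum.inl l`, `sz π ≤ C sz R ≤ C^2 C_f B^(h+2) s ≤ B^(h+3) S`, `‖vt θ π u‖ ≤ exp(-κ' sz π)`. If `r = 0` then `BU _ 0` has no `T`'s (`Fin 0`), and `π` is of the form `rename Sum.inl l`: contradiction; so `r = ρ + 1`, and LFc gives `ξ'` with `Spc ξ ξ'`, `Tr ξ' ρ`, `Frm ξ' ρ π`; `Spc θ ξ'` by transitivity.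
(2) The start: `ξ = θ`, `G` a form of `θ` (LFe), `s0 = sz G` a constant, `vt θ G u = 0` for all `u`, `z0 = θ`, `ρ = 0`: CASE A with `δ = c B^E`: `‖vt θ R u‖ ≤ exp(C d s0 + 1 - c B^E)`, and `(B^(E-h-3) + 1) C^2 C_f B^(h+2) s0 + C C_f B^(h+2) s0 + 1 ≤ c B^E`, `C^2 C_f B^(h+2) s0 ≤ B^(h+3)` for `B` large. -/
def S_TSt : Prop :=
  ∀ (p q h t : ℕ) (x : Fin p → ℂ) (L : Fin q → ℂ), q = h * p → h + 3 ≤ h * p → Dat x L → Tr (tq x L) t → ∃ A : ℕ, ∀ B : ℕ, A ≤ B →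
    (∀ (r : ℕ) (S κ : ℝ), r ≤ t → (B : ℝ) ^ (h + 5) ≤ κ → S ≤ (B : ℝ) ^ (h * p - (h + 3)) → Stq x L r S κ →
      ∃ ρ : ℕ, r = ρ + 1 ∧ Stq x L ρ ((B : ℝ) ^ (h + 3) * S) (min (κ / (B : ℝ) ^ (h + 5)) ((B : ℝ) ^ (h * p - (h + 3)) / S))) ∧
    ∃ ρ : ℕ, t = ρ + 1 ∧ Stq x L ρ ((B : ℝ) ^ (h + 3)) ((B : ℝ) ^ (h * p - (h + 3)))

/-- (TTL, 120 lines, uses TSt; copy of L/LTL) SHARP LARGE TRANSCENDENCE DEGREE.
PROOF. Suppose `t + 2 ≤ p`. Let `h = 5 p`, `E = h p = 5 p²` (`q = h * p`; `h + 3 ≤ h p` as `p ≥ 2`). `(h + 5)(t + 1) ≤ (5p + 5)(p - 1) = 5p² - 5 ≤ E`. Let `B ≥ max(A, 2)`. By TSt (2) `t = ρ + 1` and `Stq x L (t - 1) (B^(h+3)) (B^(E-(h+3)))`. CLAIM: `Stq x L (t - i) (B^((h+3) i)) (B^(E - (h+5) i))` for `1 ≤ i ≤ t`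
(`i = 1`: a smaller `κ` is weaker as `sz G ≥ 0`). Step `i → i + 1` for `i ≤ t` (TSt (1)): `E - (h+5) i ≥ h + 5`, so `B^(h+5) ≤ κ_i`; `(h+3) i ≤ E - (h+3)`, so `S_i ≤ B^(E-(h+3))`. The result is `t - i = ρ' + 1` and `Stq x L ρ' (B^((h+3)(i+1))) (min (B^(E-(h+5)i-(h+5))) (B^(E-(h+3)-(h+3)i)))`, and the minimum is
`B^(E-(h+5)(i+1))` since `E - (h+5)(i+1) ≤ E - (h+3)(i+1)`. For `i = t` this says `0 = ρ' + 1`, a contradiction. -/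
def S_TTL : Prop :=
  ∀ (p q t : ℕ) (x : Fin p → ℂ) (L : Fin q → ℂ), 2 ≤ p → q = 5 * p * p → Dat x L → Tr (tq x L) t → p - 1 ≤ t

/-- (TTH, 60 lines, uses TTL, TrE) THEOREM T.
PROOF. `p = 1`: the empty family. `p ≥ 2`: let `q' = 5 p p ≤ q`, `L' = L ∘ Fin.castLE`; `Dat x L'` (a subfamily of a linearly independent family). TrE: `Tr (tq x L') t` with `b : Fin t → Fin p × Fin q'` and `tq x L' ∘ b` algebraically independent. TTL: `p - 1 ≤ t`. Compose with `Fin.castLE` and the inclusion of `Fin q'` in `Fin q`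
(`tq x L (i, castLE j) = tq x L' (i, j)`); a subfamily of an algebraically independent family is algebraically independent (`AlgebraicIndependent.comp`). -/
def S_TTH : Prop :=
  ∀ (p q : ℕ) (x : Fin p → ℂ) (L : Fin q → ℂ), 5 * p * p ≤ q → Dat x L →
    ∃ ij : Fin (p - 1) → Fin p × Fin q, AlgebraicIndependent ℚ (tq x L ∘ ij)

end Pool.Agent.SG
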